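import Mathlib
import Pool.Agent.Lib.MP_fe8e9b_al_V.Defs

/-!
# MP_fe8e9b_al, groups of bounded height: definitions for the theorem on codes

The text of the proof is in the docstrings of the modules of this folder. `Z` is a finite set,
`G` a finite group; we look at unitary representations of the group `Z → G`.
-/

set_option autoImplicit false

open scoped BigOperators

namespace Pool.Agent.MPfe8e9bM

open Pool.Agent.MPfe8e9b Pool.Agent.MPfe8e9bA Pool.Agent.MPfe8e9bW Pool.Agent.MPfe8e9bV

/-- Orthogonal projections. -/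
def IsP {V : Type} [NormedAddCommGroup V] [InnerProductSpace ℂ V] (A : V →ₗ[ℂ] V) : Prop :=
  A.IsSymmetric ∧ ∀ v, A (A v) = A v

open Classical in
/-- The constant functions on `B`, with value one outside of `B`. -/
noncomputable def dl {Z : Type} (G : Type) [Group G] (B : Finset Z) : G →* (Z → G) where
  toFun g := fun y => if y ∈ B then g else 1
  map_one' := by
    funext y
    simp
  map_mul' f f' := by
    funext y
    by_cases h : y ∈ B <;> simp [h]

theorem dl_apply {Z G : Type} [Group G] {B : Finset Z} (g : G) {y : Z} (h : y ∈ B) :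
    dl G B g y = g := by
  simp [dl, h]

theorem dl_apply_out {Z G : Type} [Group G] {B : Finset Z} (g : G) {y : Z} (h : y ∉ B) :
    dl G B g y = 1 := by
  simp [dl, h]

open Classical in
/-- The functions of the label `lab` on the set `τ`, with value one outside of `τ`. -/
noncomputable def clf {Z S : Type} (G : Type) [Group G] (τ : Finset Z) (lab : Z → S) :
    (S → G) →* (Z → G) where
  toFun f := fun y => if y ∈ τ then f (lab y) else 1
  map_one' := by
    funext y
    simp
  map_mul' f f' := by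
    funext y
    by_cases h : y ∈ τ <;> simp [h]

theorem clf_apply {Z S G : Type} [Group G] {τ : Finset Z} {lab : Z → S} (f : S → G) {y : Z}
    (h : y ∈ τ) : clf G τ lab f y = f (lab y) := by
  simp [clf, h]

theorem clf_apply_out {Z S G : Type} [Group G] {τ : Finset Z} {lab : Z → S} (f : S → G) {y : Z}
    (h : y ∉ τ) : clf G τ lab f y = 1 := by
  simp [clf, h]

open Classical in
/-- The average over the functions of the label `lab` on `τ`. -/
noncomputable def Al {Z S G : Type} [Fintype S] [Group G] [Fintype G] {V : Type}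
    [NormedAddCommGroup V] [InnerProductSpace ℂ V] (ρ : (Z → G) →* (V ≃ₗᵢ[ℂ] V))
    (τ : Finset Z) (lab : Z → S) : V →ₗ[ℂ] V :=
  av (ρ.comp (clf G τ lab))

/-- The average over the constant functions on `B`. -/
noncomputable def Pc {Z G : Type} [Group G] [Fintype G] {V : Type}
    [NormedAddCommGroup V] [InnerProductSpace ℂ V] (ρ : (Z → G) →* (V ≃ₗᵢ[ℂ] V))
    (B : Finset Z) : V →ₗ[ℂ] V :=
  av (ρ.comp (dl G B))

open Classical in
/-- The functions of the label `lab` on the cells of `cT`, one function for every cell; the value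
outside of the cells is one. -/
noncomputable def cfl {Z S : Type} (G : Type) [Group G] (cT : Finset (Finset Z))
    (lab : Z → S) : (Finset Z → S → G) →* (Z → G) where
  toFun f := fun y => if h : ∃ τ, τ ∈ cT ∧ y ∈ τ then f h.choose (lab y) else 1
  map_one' := by
    funext y
    by_cases h : ∃ τ, τ ∈ cT ∧ y ∈ τ <;> simp [h]
  map_mul' f f' := by
    funext y
    by_cases h : ∃ τ, τ ∈ cT ∧ y ∈ τ <;> simp [h]

open Classical in
/-- The average over the functions of the label `lab` on the cells of `cT` (one function for every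
cell). -/
noncomputable def Acf {Z S G : Type} [Fintype Z] [Fintype S] [Group G] [Fintype G] {V : Type}
    [NormedAddCommGroup V] [InnerProductSpace ℂ V] (ρ : (Z → G) →* (V ≃ₗᵢ[ℂ] V))
    (cT : Finset (Finset Z)) (lab : Z → S) : V →ₗ[ℂ] V :=
  av (ρ.comp (cfl G cT lab))

/-- Configurations: pairwise disjoint nonempty cells. -/
def Dj {Z : Type} (cT : Finset (Finset Z)) : Prop :=
  (∀ τ ∈ cT, τ.Nonempty) ∧ ∀ τ ∈ cT, ∀ τ' ∈ cT, τ ≠ τ' → Disjoint τ τ'

open Classical in
/-- The set of the nonempty parts of the cells of `cT` for the label `lab`. -/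
noncomputable def ref {Z S : Type} [Fintype S] (cT : Finset (Finset Z)) (lab : Z → S) :
    Finset (Finset Z) :=
  ((cT ×ˢ (Finset.univ : Finset S)).image
    (fun p => p.1.filter (fun y => lab y = p.2))).filter (fun σ => σ.Nonempty)

theorem mem_ref {Z S : Type} [Fintype S] (cT : Finset (Finset Z)) (lab : Z → S)
    (σ : Finset Z) : σ ∈ ref cT lab ↔ σ.Nonempty ∧ ∃ τ ∈ cT, ∃ s : S,
      ∀ y, y ∈ σ ↔ y ∈ τ ∧ lab y = s := by
  classical
  simp only [ref, Finset.mem_filter, Finset.mem_image, Finset.mem_product, Finset.mem_univ,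
    and_true, Prod.exists]
  constructor
  · rintro ⟨⟨τ, s, hτ, h⟩, hne⟩
    refine ⟨hne, τ, hτ, s, fun y => ?_⟩
    rw [← h, Finset.mem_filter]
  · rintro ⟨hne, τ, hτ, s, h⟩
    refine ⟨⟨τ, s, hτ, ?_⟩, hne⟩
    ext y
    rw [Finset.mem_filter, h y]

open Classical in
/-- The random product: every cell is used with probability `1 - s` (a polynomial in `s`; the value
`s` may be larger than one). -/
noncomputable def Rt {Z S G : Type} [Fintype Z] [Fintype S] [Group G] [Fintype G] {V : Type}
    [NormedAddCommGroup V] [InnerProductSpace ℂ V] (s : ℝ) (ρ : (Z → G) →* (V ≃ₗᵢ[ℂ] V))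
    (cT : Finset (Finset Z)) (lab : Z → S) : V →ₗ[ℂ] V :=
  ∑ T ∈ cT.powerset, (((1 - s) ^ T.card * s ^ (cT.card - T.card) : ℝ) : ℂ) • Acf ρ T lab

/-- The space of the configuration `cT`: the vectors without invariants at the points, invariant
under the constant functions on the cells. -/
noncomputable def Vs {Z G : Type} [Group G] [Fintype G] {V : Type}
    [NormedAddCommGroup V] [InnerProductSpace ℂ V] (ρ : (Z → G) →* (V ≃ₗᵢ[ℂ] V))
    (cT : Finset (Finset Z)) : Submodule ℂ V where
  carrier := {v | (∀ y, Pc ρ {y} v = 0) ∧ ∀ τ ∈ cT, Pc ρ τ v = v}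
  add_mem' := by
    rintro a b ⟨ha, ha'⟩ ⟨hb, hb'⟩
    refine ⟨fun y => by rw [map_add, ha, hb, add_zero], fun τ hτ => ?_⟩
    rw [map_add, ha' τ hτ, hb' τ hτ]
  zero_mem' := ⟨fun y => map_zero _, fun τ _ => map_zero _⟩
  smul_mem' := by
    rintro c a ⟨ha, ha'⟩
    refine ⟨fun y => by rw [map_smul, ha, smul_zero], fun τ hτ => ?_⟩
    rw [map_smul, ha' τ hτ]

theorem mem_Vs {Z G : Type} [Group G] [Fintype G] {V : Type}
    [NormedAddCommGroup V] [InnerProductSpace ℂ V] (ρ : (Z → G) →* (V ≃ₗᵢ[ℂ] V))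
    (cT : Finset (Finset Z)) (v : V) :
    v ∈ Vs ρ cT ↔ (∀ y, Pc ρ {y} v = 0) ∧ ∀ τ ∈ cT, Pc ρ τ v = v := Iff.rfl

/-- The probability that a random label agrees at `y` and `y'`. -/
noncomputable def ag {Ω Z S : Type} [Fintype Ω] (lab : Ω → Z → S) (y y' : Z) : ℝ :=
  mn (fun i => ind (lab i y = lab i y'))

/-- The constant of the commutator lemma. -/
noncomputable def c1 : ℝ := 1 / 8192

/-- The angle. -/
noncomputable def et : ℝ := Real.sqrt (1 - 1 / 65536)

theorem et_sq : et ^ 2 = 1 - 1 / 65536 := Real.sq_sqrt (by norm_num)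

theorem et_pos : 0 < et := Real.sqrt_pos.2 (by norm_num)

theorem et_lt : et < 1 := by
  rw [et, Real.sqrt_lt' one_pos]
  norm_num

/-- The profile of the minimal ratios. -/
noncomputable def hh (M N : ℕ) : ℝ := 1 - (1 + (N : ℝ)) ^ (-(1 / (M : ℝ)))

theorem hh_zero (M : ℕ) : hh M 0 = 0 := by
  simp [hh]

theorem hh_le_one (M N : ℕ) : hh M N ≤ 1 := by
  have : (0 : ℝ) ≤ (1 + (N : ℝ)) ^ (-(1 / (M : ℝ))) :=
    Real.rpow_nonneg (by positivity) _
  unfold hh
  linarith

/-- A pair of commuting families: the operators of one pair of letters. `B` is below the two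
projections `A`, `A'`; `D` is one on the range of `B` and small on its kernel, and bounds the angle
between `A` and `A'`; `E` is the inverse of `D`. -/
structure PG2 {V : Type} [NormedAddCommGroup V] [InnerProductSpace ℂ V] (η : ℝ)
    (A A' B D E : V →ₗ[ℂ] V) : Prop where
  hA : IsP A
  hA' : IsP A'
  hB : IsP B
  BA : ∀ v, B (A v) = B v
  AB : ∀ v, A (B v) = B v
  BA' : ∀ v, B (A' v) = B v
  A'B : ∀ v, A' (B v) = B v
  hD : D.IsSymmetric
  hE : E.IsSymmetric
  DE : ∀ v, D (E v) = v
  ED : ∀ v, E (D v) = v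
  DA : ∀ v, D (A v) = A (D v)
  DA' : ∀ v, D (A' v) = A' (D v)
  DB : ∀ v, D (B v) = B v
  BD : ∀ v, B (D v) = B v
  nD : ∀ v, ‖D v‖ ≤ ‖v‖
  nD0 : ∀ v, B v = 0 → ‖D v‖ ^ 2 ≤ η * ‖v‖ ^ 2
  ang : ∀ v, ‖A' (A v)‖ ≤ ‖D (D (A v))‖
  ang' : ∀ v, ‖A (A' v)‖ ≤ ‖D (D (A' v))‖

end Pool.Agent.MPfe8e9bM
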