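import Mathlib
import Pool.Agent.Lib.MP_fe8e9b_al_M.Defs

/-!
# MP_fe8e9b_al, groups of bounded height: projections
-/

set_option autoImplicit false

open scoped BigOperators

namespace Pool.Agent.MPfe8e9bM

open Pool.Agent.MPfe8e9b Pool.Agent.MPfe8e9bA Pool.Agent.MPfe8e9bW Pool.Agent.MPfe8e9bV

variable {V : Type} [NormedAddCommGroup V] [InnerProductSpace ℂ V]

/-- `A v` and `v - A v` are orthogonal; Pythagoras. Proof. `hA.1` and `hA.2`. -/
theorem isP_orth {A : V →ₗ[ℂ] V} (hA : IsP A) (u v : V) : inner ℂ (A u) (v - A v) = 0 := by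
  rw [hA.1, map_sub, hA.2, sub_self, inner_zero_right]

/-- Pythagoras. Proof. `isP_orth`, `norm_add_sq` for `v = A v + (v - A v)`. -/
theorem isP_norm_sq {A : V →ₗ[ℂ] V} (hA : IsP A) (v : V) :
    ‖v‖ ^ 2 = ‖A v‖ ^ 2 + ‖v - A v‖ ^ 2 := by
  have h := norm_add_sq (𝕜 := ℂ) (A v) (v - A v)
  rw [isP_orth hA, add_sub_cancel] at h
  simpa using h

/-- `⟨A v, v⟩ = |A v|²`. Proof. `⟨A v, v⟩ = ⟨A (A v), v⟩ = ⟨A v, A v⟩`. -/
theorem isP_re {A : V →ₗ[ℂ] V} (hA : IsP A) (v : V) : (inner ℂ (A v) v).re = ‖A v‖ ^ 2 := by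
  have h : inner ℂ (A v) v = inner ℂ (A v) (A v) := by
    rw [← hA.1 (A v) v, hA.2]
  rw [h, inner_self_eq_norm_sq_to_K]
  norm_cast

/-- Projections are contractions. Proof. `isP_norm_sq`. -/
theorem isP_norm_le {A : V →ₗ[ℂ] V} (hA : IsP A) (v : V) : ‖A v‖ ≤ ‖v‖ := by
  refine le_of_sq_le_sq ?_ (norm_nonneg _)
  rw [isP_norm_sq hA v]
  exact le_add_of_nonneg_right (sq_nonneg _)

/-- A projection is determined by its fixed vectors.

Proof. `A` and `B` have the same range `F` (the fixed vectors); `A v ∈ F`, and `v - A v` is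
orthogonal to `F` (`⟨v - A v, x⟩ = ⟨v, x⟩ - ⟨v, A x⟩ = 0` for `A x = x`), so
`A v - B v = (v - B v) - (v - A v)` lies in `F` and is orthogonal to `F`. -/
theorem isP_ext {A B : V →ₗ[ℂ] V} (hA : IsP A) (hB : IsP B) (h : ∀ v, A v = v ↔ B v = v) :
    A = B := by
  have h1 : ∀ v, A (B v) = B v := fun v => (h _).2 (hB.2 v)
  have h2 : ∀ v, B (A v) = A v := fun v => (h _).1 (hA.2 v)
  have h3 : ∀ v, B (A v) = B v := by
    intro v
    refine ext_inner_right ℂ fun x => ?_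
    rw [hB.1, hA.1, h1, ← hB.1]
  ext v
  rw [← h2 v, h3 v]

/-- Order of projections. Proof. `A (B v) = B v` as `B (B v) = B v`; the adjoint:
`⟨B (A v) - B v, x⟩ = ⟨v, A (B x) - B x⟩ = 0` for all `x`. -/
theorem isP_le {A B : V →ₗ[ℂ] V} (hA : IsP A) (hB : IsP B) (h : ∀ v, B v = v → A v = v) :
    (∀ v, A (B v) = B v) ∧ ∀ v, B (A v) = B v := by
  have h1 : ∀ v, A (B v) = B v := fun v => h _ (hB.2 v)
  refine ⟨h1, fun v => ?_⟩
  refine ext_inner_right ℂ fun x => ?_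
  rw [hB.1, hA.1, h1, ← hB.1]

/-- Order of projections, norms. Proof. `B v = B (A v)` (`isP_le`) and `isP_norm_le`. -/
theorem isP_le_norm {A B : V →ₗ[ℂ] V} (hA : IsP A) (hB : IsP B) (h : ∀ v, B v = v → A v = v)
    (v : V) : ‖B v‖ ≤ ‖A v‖ := by
  rw [← (isP_le hA hB h).2 v]
  exact isP_norm_le hB _

/-- Products of commuting projections. -/
theorem isP_comp {A B : V →ₗ[ℂ] V} (hA : IsP A) (hB : IsP B) (hc : ∀ v, A (B v) = B (A v)) :
    IsP (A ∘ₗ B) := by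
  refine ⟨fun u v => ?_, fun v => ?_⟩
  · simp only [LinearMap.comp_apply]
    rw [hA.1, hB.1, hc]
  · simp only [LinearMap.comp_apply]
    rw [← hc (B v), hB.2, hA.2]

/-- Fixed vectors of products of commuting projections. Proof. If `A (B v) = v` then
`A v = A (A (B v)) = v` and `B v = B (A (B v)) = A (B (B v)) = v`. -/
theorem isP_comp_fix {A B : V →ₗ[ℂ] V} (hA : IsP A) (hB : IsP B)
    (hc : ∀ v, A (B v) = B (A v)) (v : V) : A (B v) = v ↔ A v = v ∧ B v = v := by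
  constructor
  · intro h
    constructor
    · conv_lhs => rw [← h]
      rw [hA.2, h]
    · conv_lhs => rw [← h]
      rw [← hc (B v), hB.2, h]
  · rintro ⟨h1, h2⟩
    rw [h2, h1]

/-- The identity. -/
theorem isP_id : IsP (LinearMap.id : V →ₗ[ℂ] V) :=
  ⟨fun _ _ => rfl, fun _ => rfl⟩

end Pool.Agent.MPfe8e9bM
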