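import Mathlib
import Pool.Agent.Lib.MP_fe8e9b_al_M.Defs
import Pool.Agent.Lib.MP_fe8e9b_al_M.PrB

/-!
# MP_fe8e9b_al, groups of bounded height: averages over functions of a label
-/

set_option autoImplicit false

open scoped BigOperators

namespace Pool.Agent.MPfe8e9bM

open Pool.Agent.MPfe8e9b Pool.Agent.MPfe8e9bA Pool.Agent.MPfe8e9bW Pool.Agent.MPfe8e9bV

variable {Z S S' G : Type} [Fintype S] [Fintype S'] [Group G] [Fintype G] {V : Type}
  [NormedAddCommGroup V] [InnerProductSpace ℂ V] (ρ : (Z → G) →* (V ≃ₗᵢ[ℂ] V))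

/-- Proof. `av_symm`, `av_idem`. -/
theorem al_isP (τ : Finset Z) (lab : Z → S) : IsP (Al (G := G) ρ τ lab) := by
  classical
  exact ⟨av_symm _, av_idem _⟩

/-- Proof. `av_symm`, `av_idem`. -/
theorem pc_isP (B : Finset Z) : IsP (Pc (G := G) ρ B) :=
  ⟨av_symm _, av_idem _⟩

/-- Proof. `av_eq_iff`. -/
theorem al_fix (τ : Finset Z) (lab : Z → S) (v : V) :
    Al ρ τ lab v = v ↔ ∀ f : S → G, ρ (clf G τ lab f) v = v := by
  classical
  exact av_eq_iff (ρ.comp (clf G τ lab))

/-- Proof. `av_eq_iff`. -/
theorem pc_fix (B : Finset Z) (v : V) : Pc ρ B v = v ↔ ∀ g : G, ρ (dl G B g) v = v :=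
  av_eq_iff (ρ.comp (dl G B))

/-- Proof. `rho_av`. -/
theorem rho_al (τ : Finset Z) (lab : Z → S) (f : S → G) (v : V) :
    ρ (clf G τ lab f) (Al ρ τ lab v) = Al ρ τ lab v := by
  classical
  exact rho_av (ρ.comp (clf G τ lab)) f v

/-- Proof. `rho_av`. -/
theorem rho_pc (B : Finset Z) (g : G) (v : V) : ρ (dl G B g) (Pc ρ B v) = Pc ρ B v :=
  rho_av (ρ.comp (dl G B)) g v

omit [Fintype S] [Fintype G] in
theorem alb_const_eq (B : Finset Z) (lab : Z → S) (f : S → G) (g : G)
    (h : ∀ y ∈ B, f (lab y) = g) : clf G B lab f = dl G B g := by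
  funext y
  by_cases hy : y ∈ B
  · rw [clf_apply _ hy, dl_apply _ hy, h y hy]
  · rw [clf_apply_out _ hy, dl_apply_out _ hy]

/-- `Pc` is the average for the constant label.

Proof. Both are projections with the same fixed vectors (`isP_ext`, `al_fix`, `pc_fix`):
`clf G B lab f = dl G B (f s)` on `B` if `lab` is constant; take `f` constant for the converse. -/
theorem al_const (B : Finset Z) (lab : Z → S) (h : ∀ y ∈ B, ∀ y' ∈ B, lab y = lab y') :
    Al ρ B lab = Pc (G := G) ρ B := by
  refine isP_ext (al_isP ρ B lab) (pc_isP ρ B) fun v => ?_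
  rw [al_fix, pc_fix]
  constructor
  · intro h1 g
    rw [← h1 (fun _ => g)]
    rw [alb_const_eq B lab (fun _ => g) g fun y _ => rfl]
    have h2 := h1 (fun _ => g)
    rw [alb_const_eq B lab (fun _ => g) g fun y _ => rfl] at h2
    rw [h2]
    exact h2
  · intro h1 f
    rcases B.eq_empty_or_nonempty with h2 | ⟨y, hy⟩
    · rw [alb_const_eq B lab f 1 (by simp [h2])]
      exact h1 1
    · rw [alb_const_eq B lab f (f (lab y)) fun y' hy' => by rw [h y' hy' y hy]]
      exact h1 _

/-- The elements which are a function of the label on `τ` (and arbitrary outside of `τ`) commute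
with the average.

Proof. `av_comm` with the bijection `f ↦ (s ↦ c s * f s * (c s)⁻¹)`, where `c : S → G` satisfies
`g y = c (lab y)` for `y ∈ τ` (choose, for every label which occurs on `τ`, a point): conjugation
by `g` maps `clf G τ lab f` to `clf G τ lab (c * f * c⁻¹)`. -/
theorem rho_al_comm (τ : Finset Z) (lab : Z → S) (g : Z → G)
    (h : ∀ y ∈ τ, ∀ y' ∈ τ, lab y = lab y' → g y = g y') (v : V) :
    ρ g (Al ρ τ lab v) = Al ρ τ lab (ρ g v) := by
  classical
  have hc : ∃ c : S → G, ∀ y ∈ τ, c (lab y) = g y := by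
    refine ⟨fun s => if h : ∃ y, y ∈ τ ∧ lab y = s then g h.choose else 1, fun y hy => ?_⟩
    have h1 : ∃ y', y' ∈ τ ∧ lab y' = lab y := ⟨y, hy, rfl⟩
    simp only [h1, dif_pos]
    exact h _ h1.choose_spec.1 y hy h1.choose_spec.2
  obtain ⟨c, hc⟩ := hc
  refine av_comm (ρ.comp (clf G τ lab)) (ρ g) (MulAut.conj c).toEquiv (fun f v => ?_) v
  have h2 : g * clf G τ lab f = clf G τ lab (c * f * c⁻¹) * g := by
    funext y
    by_cases hy : y ∈ τ
    · simp only [Pi.mul_apply, clf_apply _ hy, Pi.inv_apply, hc y hy]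
      group
    · simp only [Pi.mul_apply, clf_apply_out _ hy, mul_one, one_mul]
  have h3 : ρ (g * clf G τ lab f) v = ρ (clf G τ lab (c * f * c⁻¹) * g) v := by rw [h2]
  rw [map_mul, map_mul] at h3
  exact h3

/-- The same for `Pc`: the elements which are constant on `B` commute with `Pc ρ B`. -/
theorem rho_pc_comm (B : Finset Z) (g : Z → G) (h : ∀ y ∈ B, ∀ y' ∈ B, g y = g y') (v : V) :
    ρ g (Pc ρ B v) = Pc ρ B (ρ g v) := by
  have h1 := rho_al_comm ρ B (fun _ : Z => ()) g (fun y hy y' hy' _ => h y hy y' hy') v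
  rwa [al_const ρ B (fun _ => ()) fun _ _ _ _ => rfl] at h1

/-- All elements commute with the average over the elements at one point. -/
theorem rho_pc_one (y : Z) (g : Z → G) (v : V) : ρ g (Pc ρ {y} v) = Pc ρ {y} (ρ g v) := by
  refine rho_pc_comm ρ {y} g (fun y1 h1 y2 h2 => ?_) v
  rw [Finset.mem_singleton.1 h1, Finset.mem_singleton.1 h2]

/-- Commutation of averages. Proof. `rho_al_comm` for `g = clf G τ' lab' f'`: by the hypothesis it
is a function of `lab` on `τ`. Sum over `f'` (`av_apply`, `map_sum`). -/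
theorem al_comm_al (τ τ' : Finset Z) (lab : Z → S) (lab' : Z → S')
    (h : ∀ y ∈ τ, ∀ y' ∈ τ, lab y = lab y' →
      (y ∈ τ' ↔ y' ∈ τ') ∧ (y ∈ τ' → lab' y = lab' y')) (v : V) :
    Al ρ τ lab (Al ρ τ' lab' v) = Al ρ τ' lab' (Al ρ τ lab v) := by
  classical
  have h1 : ∀ f' : S' → G, Al ρ τ lab (ρ (clf G τ' lab' f') v) =
      ρ (clf G τ' lab' f') (Al ρ τ lab v) := by
    intro f'
    refine (rho_al_comm ρ τ lab _ (fun y hy y' hy' hl => ?_) v).symm
    obtain ⟨h2, h3⟩ := h y hy y' hy' hl
    by_cases hm : y ∈ τ'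
    · rw [clf_apply _ hm, clf_apply _ (h2.1 hm), h3 hm]
    · rw [clf_apply_out _ hm, clf_apply_out _ fun h4 => hm (h2.2 h4)]
  rw [show Al ρ τ' lab' v = ((Fintype.card (S' → G) : ℂ))⁻¹ •
      ∑ f', (ρ.comp (clf G τ' lab')) f' v from rfl,
    show Al ρ τ' lab' (Al ρ τ lab v) = ((Fintype.card (S' → G) : ℂ))⁻¹ •
      ∑ f', (ρ.comp (clf G τ' lab')) f' (Al ρ τ lab v) from rfl, map_smul, map_sum]
  congr 1
  exact Finset.sum_congr rfl fun f' _ => h1 f' 

/-- Commutation of averages on disjoint sets. Proof. `al_comm_al`. -/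
theorem al_disj (τ τ' : Finset Z) (lab : Z → S) (lab' : Z → S') (h : Disjoint τ τ') (v : V) :
    Al ρ τ lab (Al ρ τ' lab' v) = Al ρ τ' lab' (Al ρ τ lab v) := by
  refine al_comm_al ρ τ τ' lab lab' (fun y hy y' hy' _ => ?_) v
  have h1 := Finset.disjoint_left.1 h hy
  have h2 := Finset.disjoint_left.1 h hy'
  exact ⟨⟨fun h3 => absurd h3 h1, fun h3 => absurd h3 h2⟩, fun h3 => absurd h3 h1⟩

/-- Commutation of the average over the elements at one point with the averages. -/
theorem pc_one_al (y : Z) (τ : Finset Z) (lab : Z → S) (v : V) :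
    Pc ρ {y} (Al ρ τ lab v) = Al ρ τ lab (Pc ρ {y} v) := by
  have h1 := al_comm_al ρ {y} τ (fun _ : Z => ()) lab (fun y1 h1 y2 h2 _ => ?_) v
  · rwa [al_const ρ {y} (fun _ => ()) fun _ _ _ _ => rfl] at h1
  · rw [Finset.mem_singleton.1 h1, Finset.mem_singleton.1 h2]
    exact ⟨Iff.rfl, fun _ => rfl⟩

/-- Commutation of the averages over the elements at two points. -/
theorem pc_one_pc (y y' : Z) (v : V) :
    Pc ρ {y} (Pc ρ {y'} v) = Pc ρ {y'} (Pc ρ {y} v) := by
  have h1 := pc_one_al ρ y {y'} (fun _ : Z => ()) v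
  rwa [al_const ρ {y'} (fun _ => ()) fun _ _ _ _ => rfl] at h1

/-- A coarser label has more invariants. Proof. `al_fix`: if `lab = e ∘ lab'` on `τ` (choose `e`)
then `clf G τ lab f = clf G τ lab' (f ∘ e)`. -/
theorem al_coarse (τ : Finset Z) (lab : Z → S) (lab' : Z → S')
    (h : ∀ y ∈ τ, ∀ y' ∈ τ, lab' y = lab' y' → lab y = lab y') (v : V)
    (hv : Al ρ τ lab' v = v) : Al ρ τ lab v = v := by
  classical
  rw [al_fix] at hv ⊢
  intro f
  have h1 : clf G τ lab f = clf G τ lab'
      (fun s' => if h : ∃ y, y ∈ τ ∧ lab' y = s' then f (lab h.choose) else 1) := by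
    funext y
    by_cases hy : y ∈ τ
    · have h2 : ∃ y', y' ∈ τ ∧ lab' y' = lab' y := ⟨y, hy, rfl⟩
      rw [clf_apply _ hy, clf_apply _ hy, dif_pos h2,
        h _ h2.choose_spec.1 y hy h2.choose_spec.2]
    · rw [clf_apply_out _ hy, clf_apply_out _ hy]
  rw [h1]
  exact hv _

/-- Averages for labels with the same partition of `τ` are equal. Proof. `isP_ext`,
`al_coarse`. -/
theorem al_congr (τ : Finset Z) (lab : Z → S) (lab' : Z → S')
    (h : ∀ y ∈ τ, ∀ y' ∈ τ, lab y = lab y' ↔ lab' y = lab' y') :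
    Al (G := G) ρ τ lab = Al ρ τ lab' :=
  isP_ext (al_isP ρ τ lab) (al_isP ρ τ lab') fun v =>
    ⟨al_coarse ρ τ lab' lab (fun y hy y' hy' => (h y hy y' hy').1) v,
      al_coarse ρ τ lab lab' (fun y hy y' hy' => (h y hy y' hy').2) v⟩

/-- The empty set. -/
theorem al_empty (lab : Z → S) (v : V) : Al ρ (∅ : Finset Z) lab v = v := by
  rw [al_fix]
  intro f
  have h1 : clf G (∅ : Finset Z) lab f = 1 := by
    funext y
    exact clf_apply_out f (Finset.notMem_empty y)
  rw [h1, map_one]
  rfl

open Classical in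
/-- Invariance under the functions of the label is invariance under the constant functions on all
parts.

Proof. `dl G (part s) g = clf G τ lab (Function.update 1 s g)`. Conversely `clf G τ lab f` is the
product over `s : S` of the `dl G (part s) (f s)`: prove by induction on a finite set `U` of labels
that `clf G τ lab (fun s => if s ∈ U then f s else 1)` fixes `v` (insert `s`: it is the product of
the old element and of `dl G (part s) (f s)`), and take `U = univ`. -/
theorem al_part (τ : Finset Z) (lab : Z → S) (v : V) :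
    Al ρ τ lab v = v ↔ ∀ s : S, Pc ρ (τ.filter fun y => lab y = s) v = v := by
  rw [al_fix]
  constructor
  · intro h s
    rw [pc_fix]
    intro g
    have h1 : dl G (τ.filter fun y => lab y = s) g =
        clf G τ lab (fun s' => if s' = s then g else 1) := by
      funext y
      by_cases hy : y ∈ τ
      · rw [clf_apply _ hy]
        by_cases hs : lab y = s
        · rw [dl_apply _ (Finset.mem_filter.2 ⟨hy, hs⟩), if_pos hs]
        · rw [dl_apply_out (y := y) _ (fun h2 => hs (Finset.mem_filter.1 h2).2), if_neg hs]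
      · rw [clf_apply_out _ hy, dl_apply_out _ fun h2 => hy (Finset.mem_filter.1 h2).1]
    rw [h1]
    exact h _
  · intro h f
    have h1 : ∀ U : Finset S, ρ (clf G τ lab (fun s => if s ∈ U then f s else 1)) v = v := by
      intro U
      induction U using Finset.induction_on with
      | empty =>
        have h2 : clf G τ lab (fun s => if s ∈ (∅ : Finset S) then f s else 1) = 1 := by
          funext y
          by_cases hy : y ∈ τ
          · rw [clf_apply _ hy]
            simp
          · rw [clf_apply_out _ hy]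
            rfl
        rw [h2, map_one]
        rfl
      | insert s U hs ih =>
        have h2 : clf G τ lab (fun s' => if s' ∈ insert s U then f s' else 1) =
            dl G (τ.filter fun y => lab y = s) (f s) *
              clf G τ lab (fun s' => if s' ∈ U then f s' else 1) := by
          funext y
          rw [Pi.mul_apply]
          by_cases hy : y ∈ τ
          · rw [clf_apply _ hy, clf_apply _ hy]
            by_cases hl : lab y = s
            · rw [dl_apply _ (Finset.mem_filter.2 ⟨hy, hl⟩), hl, if_neg hs,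
                if_pos (Finset.mem_insert_self _ _), mul_one]
            · rw [dl_apply_out (y := y) _ (fun h2 => hl (Finset.mem_filter.1 h2).2), one_mul]
              simp only [Finset.mem_insert, hl, false_or]
          · rw [clf_apply_out _ hy, clf_apply_out _ hy,
              dl_apply_out _ fun h2 => hy (Finset.mem_filter.1 h2).1, one_mul]
        rw [h2, map_mul]
        have h3 := (pc_fix ρ _ v).1 (h s) (f s)
        change ρ _ (ρ _ v) = v
        rw [ih, h3]
    have h2 := h1 Finset.univ
    simpa using h2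

/-- Invariance under the constant functions on the set. Proof. `al_coarse` with the constant label
`fun _ => ()`, `al_const`. -/
theorem al_pc (τ : Finset Z) (lab : Z → S) (v : V) (hv : Al ρ τ lab v = v) :
    Pc ρ τ v = v := by
  have h1 := al_coarse ρ τ (fun _ : Z => ()) lab (fun _ _ _ _ _ => rfl) v hv
  rwa [al_const ρ τ (fun _ => ()) fun _ _ _ _ => rfl] at h1

/-- If the points of `τ` have different labels then the average factors through the averages over
the elements at the points: it kills the vectors without invariants at a point of `τ`.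

Proof. `Pc ρ {y} (Al ρ τ lab v) = Al ρ τ lab v` as `dl G {y} g = clf G τ lab (update 1 (lab y) g)`
(`al_part`); it is `Al ρ τ lab (Pc ρ {y} v) = 0` (`pc_one_al`). -/
theorem al_inj_zero (τ : Finset Z) (lab : Z → S)
    (h : ∀ y ∈ τ, ∀ y' ∈ τ, lab y = lab y' → y = y') (y : Z) (hy : y ∈ τ) (v : V)
    (hv : Pc ρ {y} v = 0) : Al ρ τ lab v = 0 := by
  classical
  have h1 : Pc ρ {y} (Al ρ τ lab v) = Al ρ τ lab v := by
    rw [pc_fix]
    intro g
    have h2 : dl G {y} g = clf G τ lab (fun s => if s = lab y then g else 1) := by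
      funext y'
      by_cases hy' : y' ∈ τ
      · rw [clf_apply _ hy']
        by_cases hl : lab y' = lab y
        · have h3 := h y' hy' y hy hl
          rw [if_pos hl, dl_apply _ (Finset.mem_singleton.2 h3)]
        · rw [if_neg hl, dl_apply_out _ fun h4 => hl (by rw [Finset.mem_singleton.1 h4])]
      · rw [clf_apply_out _ hy', dl_apply_out _ fun h4 => hy' (by
          rw [Finset.mem_singleton.1 h4]
          exact hy)]
    rw [h2]
    exact rho_al ρ τ lab _ v
  rw [← h1, pc_one_al, hv, map_zero]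

end Pool.Agent.MPfe8e9bM
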