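import Mathlib
import Pool.Agent.Lib.MP_fe8e9b_al_M.Defs
import Pool.Agent.Lib.MP_fe8e9b_al_M.PrB
import Pool.Agent.Lib.MP_fe8e9b_al_M.AlB

/-!
# MP_fe8e9b_al, groups of bounded height: averages over functions on the cells
-/

set_option autoImplicit false

open scoped BigOperators

namespace Pool.Agent.MPfe8e9bM

open Pool.Agent.MPfe8e9b Pool.Agent.MPfe8e9bA Pool.Agent.MPfe8e9bW Pool.Agent.MPfe8e9bV

variable {Z S S' G : Type} [Fintype Z] [Fintype S] [Fintype S'] [Group G] [Fintype G] {V : Type}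
  [NormedAddCommGroup V] [InnerProductSpace ℂ V] (ρ : (Z → G) →* (V ≃ₗᵢ[ℂ] V))

/-- Proof. `av_symm`, `av_idem`. -/
theorem acf_isP (cT : Finset (Finset Z)) (lab : Z → S) : IsP (Acf (G := G) ρ cT lab) := by
  classical
  exact ⟨av_symm _, av_idem _⟩

theorem acfb_fix (cT : Finset (Finset Z)) (lab : Z → S) (v : V) :
    Acf ρ cT lab v = v ↔ ∀ F : Finset Z → S → G, ρ (cfl G cT lab F) v = v := by
  classical
  exact av_eq_iff (ρ.comp (cfl G cT lab))

omit [Fintype Z] [Fintype S] [Fintype G] in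
theorem acfb_cfl_apply {cT : Finset (Finset Z)} (hd : Dj cT) (lab : Z → S)
    (F : Finset Z → S → G) {τ : Finset Z} (hτ : τ ∈ cT) {y : Z} (hy : y ∈ τ) :
    cfl G cT lab F y = F τ (lab y) := by
  classical
  have h1 : ∃ σ, σ ∈ cT ∧ y ∈ σ := ⟨τ, hτ, hy⟩
  have h2 : h1.choose = τ := by
    by_contra hne
    exact Finset.disjoint_left.1 (hd.2 _ h1.choose_spec.1 _ hτ hne) h1.choose_spec.2 hy
  change (if h : ∃ τ, τ ∈ cT ∧ y ∈ τ then F h.choose (lab y) else 1) = _
  rw [dif_pos h1, h2]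

omit [Fintype Z] [Fintype S] [Fintype G] in
theorem acfb_cfl_out (cT : Finset (Finset Z)) (lab : Z → S) (F : Finset Z → S → G) {y : Z}
    (hy : ∀ τ ∈ cT, y ∉ τ) : cfl G cT lab F y = 1 := by
  classical
  change (if h : ∃ τ, τ ∈ cT ∧ y ∈ τ then F h.choose (lab y) else 1) = _
  rw [dif_neg]
  rintro ⟨τ, h1, h2⟩
  exact hy τ h1 h2

/-- The fixed vectors are the common fixed vectors of the cells.

Proof. `av_eq_iff`. For a cell `τ` and `f : S → G`: `clf G τ lab f = cfl G cT lab F`, with `F τ = f`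
and `F σ = 1` for `σ ≠ τ` (for `y ∈ τ` the chosen cell is `τ` as the cells are disjoint).
Conversely `cfl G cT lab F` is the product over the cells of the `clf G τ lab (F τ)`: prove by
induction on a subset `U` of `cT` that `cfl G cT lab (fun τ => if τ ∈ U then F τ else 1)` fixes `v`
(insert `τ`: it is the product of the old element and of `clf G τ lab (F τ)`), `U = cT`; the values
of `F` outside of `cT` play no role. -/
theorem acf_fix {cT : Finset (Finset Z)} (hd : Dj cT) (lab : Z → S) (v : V) :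
    Acf ρ cT lab v = v ↔ ∀ τ ∈ cT, Al ρ τ lab v = v := by
  classical
  rw [acfb_fix]
  constructor
  · intro h τ hτ
    rw [al_fix]
    intro f
    have h1 : clf G τ lab f = cfl G cT lab (fun σ => if σ = τ then f else 1) := by
      funext y
      by_cases hy : y ∈ τ
      · rw [clf_apply _ hy, acfb_cfl_apply hd lab _ hτ hy, if_pos rfl]
      · rw [clf_apply_out _ hy]
        by_cases h2 : ∃ σ ∈ cT, y ∈ σ
        · obtain ⟨σ, hσ, hyσ⟩ := h2
          have h3 : σ ≠ τ := fun h4 => hy (h4 ▸ hyσ)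
          rw [acfb_cfl_apply hd lab _ hσ hyσ, if_neg h3]
          rfl
        · rw [acfb_cfl_out cT lab _ fun σ hσ hyσ => h2 ⟨σ, hσ, hyσ⟩]
    rw [h1]
    exact h _
  · intro h F
    have h1 : ∀ U : Finset (Finset Z), U ⊆ cT →
        ρ (cfl G cT lab (fun τ => if τ ∈ U then F τ else 1)) v = v := by
      intro U
      induction U using Finset.induction_on with
      | empty =>
        intro _
        have h2 : (fun τ => if τ ∈ (∅ : Finset (Finset Z)) then F τ else 1) = 1 := by
          funext τ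
          rw [if_neg (Finset.notMem_empty τ)]
          rfl
        rw [h2, map_one, map_one]
        rfl
      | insert τ U hτ ih =>
        intro hU
        have hτc : τ ∈ cT := hU (Finset.mem_insert_self τ U)
        have h2 : cfl G cT lab (fun σ => if σ ∈ insert τ U then F σ else 1) =
            clf G τ lab (F τ) * cfl G cT lab (fun σ => if σ ∈ U then F σ else 1) := by
          funext y
          rw [Pi.mul_apply]
          by_cases h3 : ∃ σ ∈ cT, y ∈ σ
          · obtain ⟨σ, hσ, hyσ⟩ := h3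
            rw [acfb_cfl_apply hd lab _ hσ hyσ, acfb_cfl_apply hd lab _ hσ hyσ]
            by_cases h4 : σ = τ
            · subst h4
              rw [clf_apply _ hyσ, if_pos (Finset.mem_insert_self _ _), if_neg hτ]
              simp
            · have h5 : y ∉ τ := fun h6 =>
                Finset.disjoint_left.1 (hd.2 σ hσ τ hτc h4) hyσ h6
              rw [clf_apply_out _ h5, one_mul]
              simp only [Finset.mem_insert, h4, false_or]
          · have h4 : ∀ σ ∈ cT, y ∉ σ := fun σ hσ hyσ => h3 ⟨σ, hσ, hyσ⟩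
            rw [acfb_cfl_out cT lab _ h4, acfb_cfl_out cT lab _ h4,
              clf_apply_out _ (h4 τ hτc), one_mul]
        have h3 := (al_fix ρ τ lab v).1 (h τ hτc) (F τ)
        rw [h2, map_mul]
        change ρ _ (ρ _ v) = v
        rw [ih fun x hx => hU (Finset.mem_insert_of_mem hx), h3]
    have h2 : cfl G cT lab F = cfl G cT lab (fun τ => if τ ∈ cT then F τ else 1) := by
      funext y
      by_cases h3 : ∃ σ ∈ cT, y ∈ σ
      · obtain ⟨σ, hσ, hyσ⟩ := h3
        rw [acfb_cfl_apply hd lab _ hσ hyσ, acfb_cfl_apply hd lab _ hσ hyσ, if_pos hσ]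
      · have h4 : ∀ σ ∈ cT, y ∉ σ := fun σ hσ hyσ => h3 ⟨σ, hσ, hyσ⟩
        rw [acfb_cfl_out cT lab _ h4, acfb_cfl_out cT lab _ h4]
    rw [h2]
    exact h1 cT (Finset.Subset.refl cT)

/-- Sub-configurations. -/
theorem dj_mono {cT T : Finset (Finset Z)} (hd : Dj cT) (hT : T ⊆ cT) : Dj T :=
  ⟨fun τ h => hd.1 τ (hT h), fun τ h τ' h' => hd.2 τ (hT h) τ' (hT h')⟩

/-- The empty configuration. -/
theorem acf_empty (lab : Z → S) (v : V) : Acf ρ (∅ : Finset (Finset Z)) lab v = v := by
  rw [acfb_fix]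
  intro F
  have h1 : cfl G (∅ : Finset (Finset Z)) lab F = 1 := by
    funext y
    exact acfb_cfl_out ∅ lab F fun τ hτ => absurd hτ (Finset.notMem_empty τ)
  rw [h1, map_one]
  rfl

/-- One cell disjoint from the cells of a configuration: commutation.

Proof. As `al_comm_al`: every `cfl G T lab' F` is `1` on `τ`, so it commutes with `Al ρ τ lab` by
`rho_al_comm`; sum over `F` (`av_apply`, `map_sum`, `map_smul`). -/
theorem al_comm_acf (τ : Finset Z) (T : Finset (Finset Z)) (h : ∀ σ ∈ T, Disjoint τ σ)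
    (lab : Z → S) (lab' : Z → S') (v : V) :
    Al ρ τ lab (Acf ρ T lab' v) = Acf ρ T lab' (Al ρ τ lab v) := by
  classical
  have h1 : ∀ F : Finset Z → S' → G, Al ρ τ lab (ρ (cfl G T lab' F) v) =
      ρ (cfl G T lab' F) (Al ρ τ lab v) := by
    intro F
    refine (rho_al_comm ρ τ lab _ (fun y hy y' hy' _ => ?_) v).symm
    rw [acfb_cfl_out T lab' F fun σ hσ hyσ => Finset.disjoint_left.1 (h σ hσ) hy hyσ,
      acfb_cfl_out T lab' F fun σ hσ hyσ => Finset.disjoint_left.1 (h σ hσ) hy' hyσ]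
  rw [show Acf ρ T lab' v = ((Fintype.card (Finset Z → S' → G) : ℂ))⁻¹ •
      ∑ F, (ρ.comp (cfl G T lab')) F v from rfl,
    show Acf ρ T lab' (Al ρ τ lab v) = ((Fintype.card (Finset Z → S' → G) : ℂ))⁻¹ •
      ∑ F, (ρ.comp (cfl G T lab')) F (Al ρ τ lab v) from rfl, map_smul, map_sum]
  congr 1
  exact Finset.sum_congr rfl fun F _ => h1 F

open Classical in
/-- Insertion of a cell. Proof. `isP_ext`: both sides are projections (`isP_comp`, `al_comm_acf`)
with the same fixed vectors (`acf_fix`, `isP_comp_fix`). -/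
theorem acf_insert (τ : Finset Z) (T : Finset (Finset Z)) (hd : Dj (insert τ T)) (hτ : τ ∉ T)
    (lab : Z → S) (v : V) : Acf ρ (insert τ T) lab v = Al ρ τ lab (Acf ρ T lab v) := by
  have hc : ∀ v, Al ρ τ lab (Acf ρ T lab v) = Acf ρ T lab (Al ρ τ lab v) :=
    al_comm_acf ρ τ T (fun σ hσ => hd.2 τ (Finset.mem_insert_self τ T) σ
      (Finset.mem_insert_of_mem hσ) fun h => hτ (h ▸ hσ)) lab lab
  have h1 : Acf ρ (insert τ T) lab = Al ρ τ lab ∘ₗ Acf ρ T lab := by
    refine isP_ext (acf_isP ρ (insert τ T) lab)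
      (isP_comp (al_isP ρ τ lab) (acf_isP ρ T lab) hc) fun v => ?_
    rw [acf_fix ρ hd lab, LinearMap.comp_apply,
      isP_comp_fix (al_isP ρ τ lab) (acf_isP ρ T lab) hc,
      acf_fix ρ (dj_mono hd (Finset.subset_insert τ T)) lab, Finset.forall_mem_insert]
  rw [h1]
  rfl

/-- One cell. Proof. `acf_insert` with `T = ∅`, `acf_empty`. -/
theorem acf_single (τ : Finset Z) (hτ : τ.Nonempty) (lab : Z → S) (v : V) :
    Acf ρ {τ} lab v = Al ρ τ lab v := by
  classical
  have hd : Dj (insert τ (∅ : Finset (Finset Z))) := by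
    have h1 : ∀ σ ∈ insert τ (∅ : Finset (Finset Z)), σ = τ := fun σ hσ => by
      simpa using hσ
    refine ⟨fun σ hσ => ?_, fun σ hσ σ' hσ' hne => ?_⟩
    · rw [h1 σ hσ]
      exact hτ
    · exact absurd ((h1 σ hσ).trans (h1 σ' hσ').symm) hne
  have h2 := acf_insert ρ τ ∅ hd (Finset.notMem_empty τ) lab v
  rw [acf_empty, insert_empty_eq] at h2
  exact h2

/-- Commutation, if the averages commute on every cell.

Proof. Induction on `T` (`Finset.induction_on`, `acf_insert`), inside induction on `T'`: for cells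
`τ ≠ τ'` of `cT` the averages commute by `al_disj`, for `τ = τ'` by hypothesis. -/
theorem acf_comm {cT : Finset (Finset Z)} (hd : Dj cT) (lab : Z → S) (lab' : Z → S')
    (h : ∀ τ ∈ cT, ∀ v, Al ρ τ lab (Al ρ τ lab' v) = Al ρ τ lab' (Al ρ τ lab v))
    {T T' : Finset (Finset Z)} (hT : T ⊆ cT) (hT' : T' ⊆ cT) (v : V) :
    Acf ρ T lab (Acf ρ T' lab' v) = Acf ρ T' lab' (Acf ρ T lab v) := by
  classical
  have hal : ∀ τ ∈ cT, ∀ τ' ∈ cT, ∀ v,
      Al ρ τ lab (Al ρ τ' lab' v) = Al ρ τ' lab' (Al ρ τ lab v) := by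
    intro τ hτ τ' hτ' v
    by_cases e : τ = τ'
    · subst e
      exact h τ hτ v
    · exact al_disj ρ τ τ' lab lab' (hd.2 τ hτ τ' hτ' e) v
  have h1 : ∀ τ ∈ cT, ∀ U : Finset (Finset Z), U ⊆ cT → ∀ v,
      Al ρ τ lab (Acf ρ U lab' v) = Acf ρ U lab' (Al ρ τ lab v) := by
    intro τ hτ U
    induction U using Finset.induction_on with
    | empty =>
      intro _ v
      rw [acf_empty, acf_empty]
    | insert σ U hσ ih =>
      intro hU v
      rw [acf_insert ρ σ U (dj_mono hd hU) hσ, acf_insert ρ σ U (dj_mono hd hU) hσ,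
        hal τ hτ σ (hU (Finset.mem_insert_self σ U)),
        ih fun x hx => hU (Finset.mem_insert_of_mem hx)]
  have h2 : ∀ U : Finset (Finset Z), U ⊆ cT → ∀ v,
      Acf ρ U lab (Acf ρ T' lab' v) = Acf ρ T' lab' (Acf ρ U lab v) := by
    intro U
    induction U using Finset.induction_on with
    | empty =>
      intro _ v
      rw [acf_empty, acf_empty]
    | insert σ U hσ ih =>
      intro hU v
      rw [acf_insert ρ σ U (dj_mono hd hU) hσ, acf_insert ρ σ U (dj_mono hd hU) hσ,
        ih (fun x hx => hU (Finset.mem_insert_of_mem hx)),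
        h1 σ (hU (Finset.mem_insert_self σ U)) T' hT']
  exact h2 T hT v

/-- A coarser label on the cells. Proof. `acf_fix`, `al_coarse`. -/
theorem acf_coarse {cT : Finset (Finset Z)} (hd : Dj cT) {T : Finset (Finset Z)} (hT : T ⊆ cT)
    (lab : Z → S) (lab' : Z → S') (h : ∀ y y', lab' y = lab' y' → lab y = lab y') (v : V)
    (hv : Acf ρ cT lab' v = v) : Acf ρ T lab v = v := by
  rw [acf_fix ρ hd] at hv
  rw [acf_fix ρ (dj_mono hd hT)]
  intro τ hτ
  exact al_coarse ρ τ lab lab' (fun y _ y' _ e => h y y' e) v (hv τ (hT hτ))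

/-- Norms: sub-configurations and coarser labels. Proof. `isP_le_norm`, `acf_coarse`. -/
theorem acf_norm {cT : Finset (Finset Z)} (hd : Dj cT) {T : Finset (Finset Z)} (hT : T ⊆ cT)
    (lab : Z → S) (lab' : Z → S') (h : ∀ y y', lab' y = lab' y' → lab y = lab y') (v : V) :
    ‖Acf ρ cT lab' v‖ ≤ ‖Acf ρ T lab v‖ :=
  isP_le_norm (acf_isP ρ T lab) (acf_isP ρ cT lab')
    (fun w hw => acf_coarse ρ hd hT lab lab' h w hw) v

/-- The elements at one point commute. Proof. `rho_pc_one`, sum over `F`. -/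
theorem pc_one_acf (y : Z) (T : Finset (Finset Z)) (lab : Z → S) (v : V) :
    Pc ρ {y} (Acf ρ T lab v) = Acf ρ T lab (Pc ρ {y} v) := by
  classical
  rw [show Acf ρ T lab v = ((Fintype.card (Finset Z → S → G) : ℂ))⁻¹ •
      ∑ F, (ρ.comp (cfl G T lab)) F v from rfl,
    show Acf ρ T lab (Pc ρ {y} v) = ((Fintype.card (Finset Z → S → G) : ℂ))⁻¹ •
      ∑ F, (ρ.comp (cfl G T lab)) F (Pc ρ {y} v) from rfl, map_smul, map_sum]
  congr 1
  exact Finset.sum_congr rfl fun F _ => (rho_pc_one ρ y (cfl G T lab F) v).symm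

end Pool.Agent.MPfe8e9bM
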