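import Mathlib

/-!
# MP_fe8e9b_al: the automorphisms of the alternating groups

Every automorphism of `Alt(n)`, `n ≥ 5`, `n ≠ 6`, is the conjugation by a permutation.  The orders
of the centralizers show that it maps `3`-cycles to `3`-cycles; then the images of the `3`-cycles
`(p q x)` determine the permutation.
-/

set_option autoImplicit false

namespace Pool.Agent.MPfe8e9bM

open Equiv Equiv.Perm

namespace AutAlt

open scoped Nat in
private theorem fac_step {m j : ℕ} (h : 2 * (m ! * 3 ^ (j + 2) * (j + 2)!) < (m + 3 * j + 3)! * 3) :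
    2 * (m ! * 3 ^ (j + 1 + 2) * (j + 1 + 2)!) < (m + 3 * (j + 1) + 3)! * 3 := by
  have h1 : (m + 3 * (j + 1) + 3)! =
      (m + 3 * j + 6) * ((m + 3 * j + 5) * ((m + 3 * j + 4) * (m + 3 * j + 3)!)) := by
    rw [show m + 3 * (j + 1) + 3 = (m + 3 * j + 5) + 1 by ring, Nat.factorial_succ,
      show m + 3 * j + 5 = (m + 3 * j + 4) + 1 by ring, Nat.factorial_succ,
      show m + 3 * j + 4 = (m + 3 * j + 3) + 1 by ring, Nat.factorial_succ]
  have h2 : (j + 1 + 2)! = (j + 3) * (j + 2)! := by
    rw [show j + 1 + 2 = (j + 2) + 1 by ring, Nat.factorial_succ]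
  rw [h1, h2, show (3 : ℕ) ^ (j + 1 + 2) = 3 * 3 ^ (j + 2) by ring]
  have h3 : 3 * (j + 3) ≤ (m + 3 * j + 6) * ((m + 3 * j + 5) * (m + 3 * j + 4)) := by
    have h4 : 3 * (j + 3) ≤ (m + 3 * j + 6) * (m + 3 * j + 5) := by nlinarith
    nlinarith
  calc 2 * (m ! * (3 * 3 ^ (j + 2)) * ((j + 3) * (j + 2)!))
      = (3 * (j + 3)) * (2 * (m ! * 3 ^ (j + 2) * (j + 2)!)) := by ring
    _ < (3 * (j + 3)) * ((m + 3 * j + 3)! * 3) := by
      exact Nat.mul_lt_mul_of_pos_left h (by omega)
    _ ≤ ((m + 3 * j + 6) * ((m + 3 * j + 5) * (m + 3 * j + 4))) * ((m + 3 * j + 3)! * 3) :=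
      Nat.mul_le_mul_right _ h3
    _ = _ := by ring

open scoped Nat in
private theorem fac_lt {n k : ℕ} (hk : 2 ≤ k) (hn : 3 * k ≤ n) (h7 : 7 ≤ n) :
    2 * ((n - 3 * k)! * 3 ^ k * k !) < (n - 3)! * 3 := by
  obtain ⟨j, rfl⟩ := Nat.exists_eq_add_of_le' hk
  obtain ⟨m, rfl⟩ := Nat.exists_eq_add_of_le hn
  rw [show 3 * (j + 2) + m - 3 * (j + 2) = m by omega,
    show 3 * (j + 2) + m - 3 = m + 3 * j + 3 by omega]
  have hb : ∀ m, 1 ≤ m → ∀ j, 2 * (m ! * 3 ^ (j + 2) * (j + 2)!) < (m + 3 * j + 3)! * 3 := by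
    intro m hm j
    induction j with
    | zero =>
      have h1 : (m + 3 * 0 + 3)! = (m + 3) * ((m + 2) * ((m + 1) * m !)) := by
        rw [show m + 3 * 0 + 3 = (m + 2) + 1 by ring, Nat.factorial_succ,
          show m + 2 = (m + 1) + 1 by ring, Nat.factorial_succ, Nat.factorial_succ]
      rw [h1, show (0 + 2)! = 2 from rfl]
      have h2 : 0 < m ! := Nat.factorial_pos m
      have h3 : 4 * (3 * 2) ≤ (m + 3) * ((m + 2) * (m + 1)) :=
        Nat.mul_le_mul (by omega) (Nat.mul_le_mul (by omega) (by omega))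
      calc 2 * (m ! * 3 ^ (0 + 2) * 2) = 36 * m ! := by ring
        _ < 72 * m ! := by omega
        _ = (4 * (3 * 2)) * (m ! * 3) := by ring
        _ ≤ ((m + 3) * ((m + 2) * (m + 1))) * (m ! * 3) := Nat.mul_le_mul_right _ h3
        _ = _ := by ring
    | succ j ih => exact fac_step ih
  rcases Nat.eq_zero_or_pos m with rfl | hm
  · obtain ⟨i, rfl⟩ : ∃ i, j = i + 1 := ⟨j - 1, by omega⟩
    clear hk hn h7
    induction i with
    | zero => decide
    | succ i ih => exact fac_step ih
  · exact hb m hm j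

section Card

variable {α : Type*} [Fintype α] [DecidableEq α]

open scoped Nat in
private theorem card_cent {g : Perm α} {k : ℕ} (hk : k ≠ 0)
    (h : g.cycleType = Multiset.replicate k 3) :
    Nat.card (Subgroup.centralizer {g}) = (Fintype.card α - 3 * k)! * 3 ^ k * k ! := by
  rw [nat_card_centralizer, h, Multiset.sum_replicate, Multiset.prod_replicate,
    Multiset.toFinset_replicate, if_neg hk, Finset.prod_singleton, Multiset.count_replicate_self,
    smul_eq_mul, mul_comm k 3]

private theorem cent_alt_le (s : alternatingGroup α) : Nat.card (Subgroup.centralizer {s}) ≤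
    Nat.card (Subgroup.centralizer {(s : Perm α)}) := by
  refine Nat.card_le_card_of_injective (fun c => ⟨((c : alternatingGroup α) : Perm α), ?_⟩) ?_
  · rw [Subgroup.mem_centralizer_singleton_iff]
    exact congrArg Subtype.val (Subgroup.mem_centralizer_singleton_iff.1 c.2)
  · intro c c' h
    have h1 := congrArg (fun x : Subgroup.centralizer {(s : Perm α)} => (x : Perm α)) h
    exact Subtype.ext (Subtype.ext h1)

private theorem cent_le_alt [Nontrivial α] (s : alternatingGroup α) :
    Nat.card (Subgroup.centralizer {(s : Perm α)}) ≤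
      2 * Nat.card (Subgroup.centralizer {s}) := by
  have h1 := (alternatingGroup α).relIndex_dvd_index_of_normal
    (Subgroup.centralizer {(s : Perm α)})
  rw [alternatingGroup.index_eq_two] at h1
  have h2 : (alternatingGroup α).relIndex (Subgroup.centralizer {(s : Perm α)}) ≤ 2 :=
    Nat.le_of_dvd (by norm_num) h1
  have h3 := ((alternatingGroup α).subgroupOf
    (Subgroup.centralizer {(s : Perm α)})).card_mul_index
  have h4 : Nat.card ((alternatingGroup α).subgroupOf (Subgroup.centralizer {(s : Perm α)})) ≤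
      Nat.card (Subgroup.centralizer {s}) := by
    refine Nat.card_le_card_of_injective (fun c => ⟨⟨((c : Subgroup.centralizer {(s : Perm α)}) :
      Perm α), Subgroup.mem_subgroupOf.1 c.2⟩, ?_⟩) ?_
    · rw [Subgroup.mem_centralizer_singleton_iff]
      exact Subtype.ext (Subgroup.mem_centralizer_singleton_iff.1 c.1.2)
    · intro c c' h
      have h5 := congrArg (fun x : Subgroup.centralizer {s} =>
        ((x : alternatingGroup α) : Perm α)) h
      exact Subtype.ext (Subtype.ext h5)
  rw [← h3, mul_comm]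
  exact Nat.mul_le_mul h2 h4

private theorem cent_map (f : MulAut (alternatingGroup α)) (s : alternatingGroup α) :
    Nat.card (Subgroup.centralizer {s}) ≤ Nat.card (Subgroup.centralizer {f s}) := by
  refine Nat.card_le_card_of_injective (fun c => ⟨f c, ?_⟩) ?_
  · have h := Subgroup.mem_centralizer_singleton_iff.1 c.2
    rw [Subgroup.mem_centralizer_singleton_iff, ← map_mul, h, map_mul]
  · intro c c' h
    exact Subtype.ext (f.injective (congrArg Subtype.val h))

/-- Automorphisms map `3`-cycles to `3`-cycles. -/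
theorem isThreeCycle_map (h5 : 5 ≤ Fintype.card α) (h6 : Fintype.card α ≠ 6)
    (f : MulAut (alternatingGroup α)) {s : alternatingGroup α}
    (hs : IsThreeCycle (s : Perm α)) : IsThreeCycle (f s : Perm α) := by
  have hnt : Nontrivial α := Fintype.one_lt_card_iff_nontrivial.1 (by omega)
  have h1 : (s : Perm α) ^ 3 = 1 := by
    rw [← hs.orderOf]
    exact pow_orderOf_eq_one _
  have h2 : (f s : Perm α) ^ 3 = 1 := by
    have h3 : s ^ 3 = 1 := Subtype.ext h1
    have h4 : (f s) ^ 3 = 1 := by rw [← map_pow, h3, map_one]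
    exact congrArg Subtype.val h4
  have h3 := cycleType_of_pow_prime_eq_one (p := 3) h2
  obtain ⟨k, hk⟩ : ∃ k, (f s : Perm α).cycleType = Multiset.replicate k 3 := ⟨_, h3⟩
  have hk0 : k ≠ 0 := by
    rintro rfl
    rw [Multiset.replicate_zero, cycleType_eq_zero] at hk
    have h4 : f s = 1 := Subtype.ext hk
    rw [map_eq_one_iff f f.injective] at h4
    exact hs.ne_one (congrArg Subtype.val h4)
  by_contra hcon
  have hk1 : k ≠ 1 := by
    rintro rfl
    exact hcon hk
  have h4 : 3 * k ≤ Fintype.card α := by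
    have h5 := sum_cycleType_le (f s : Perm α)
    rw [hk, Multiset.sum_replicate, smul_eq_mul, mul_comm] at h5
    exact h5
  have h7 := fac_lt (n := Fintype.card α) (k := k) (by omega) h4 (by omega)
  have h8 := card_cent (g := (s : Perm α)) (k := 1) one_ne_zero hs
  have h9 := card_cent hk0 hk
  have h10 := cent_le_alt s
  have h11 := cent_map f s
  have h12 := cent_alt_le (f s)
  rw [h8] at h10
  rw [h9] at h12
  simp only [mul_one, pow_one, Nat.factorial_one] at h10
  omega

end Card

section Cyc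

variable {α : Type*} [DecidableEq α]

/-- The `3`-cycle `(x y z)`. -/
def C (x y z : α) : Perm α := swap x y * swap y z

private theorem c_rot {x y z : α} (hxy : x ≠ y) (hxz : x ≠ z) : C x y z = C y z x := by
  have h := swap_apply_apply (swap y z) x y
  rw [swap_apply_of_ne_of_ne hxy hxz, swap_apply_left, swap_inv] at h
  rw [C, C, swap_comm z x, h, ← mul_assoc, ← mul_assoc, swap_mul_self, one_mul]

private theorem c_inv (x y z : α) : (C x y z)⁻¹ = C z y x := by
  rw [C, C, mul_inv_rev, swap_inv, swap_inv, swap_comm y z, swap_comm x y]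

private theorem c_conj (g : Perm α) (x y z : α) :
    g * C x y z * g⁻¹ = C (g x) (g y) (g z) := by
  rw [C, C, swap_apply_apply, swap_apply_apply]
  group

private theorem c_a {x y z : α} (hxy : x ≠ y) (hxz : x ≠ z) : C x y z x = y := by
  rw [C, mul_apply, swap_apply_of_ne_of_ne hxy hxz, swap_apply_left]

private theorem c_b {x y z : α} (hxz : x ≠ z) (hyz : y ≠ z) : C x y z y = z := by
  rw [C, mul_apply, swap_apply_left, swap_apply_of_ne_of_ne hxz.symm hyz.symm]

private theorem c_c (x y z : α) : C x y z z = x := by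
  rw [C, mul_apply, swap_apply_right, swap_apply_right]

private theorem c_o {x y z w : α} (hx : w ≠ x) (hy : w ≠ y) (hz : w ≠ z) : C x y z w = w := by
  rw [C, mul_apply, swap_apply_of_ne_of_ne hy hz, swap_apply_of_ne_of_ne hx hy]

private theorem c_alt [Fintype α] {x y z : α} (hxy : x ≠ y) (hyz : y ≠ z) :
    C x y z ∈ alternatingGroup α := by
  rw [mem_alternatingGroup, C, Equiv.Perm.sign_mul, sign_swap hxy, sign_swap hyz]
  rfl

private theorem c_three [Fintype α] {x y z : α} (hxy : x ≠ y) (hxz : x ≠ z) (hyz : y ≠ z) :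
    IsThreeCycle (C x y z) := by
  rw [C, swap_comm x y]
  exact isThreeCycle_swap_mul_swap_same hxy.symm hyz hxz

private theorem eq_c [Fintype α] {g : Perm α} (hg : IsThreeCycle g) {a : α} (ha : g a ≠ a) :
    g = C a (g a) (g (g a)) :=
  hg.eq_swap_mul_swap_iff_mem_support.2 (mem_support.2 ha)

private theorem three_app [Fintype α] {g : Perm α} (hg : IsThreeCycle g) (a : α) :
    g (g (g a)) = a := by
  have h : g ^ 3 = 1 := by
    rw [← hg.orderOf]
    exact pow_orderOf_eq_one _
  have h1 := DFunLike.congr_fun h a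
  simpa [pow_succ] using h1

private theorem supp_cases [Fintype α] {g : Perm α} (hg : IsThreeCycle g) {a x : α}
    (ha : g a ≠ a) (hx : g x ≠ x) : x = a ∨ x = g a ∨ x = g (g a) := by
  by_contra h
  push Not at h
  apply hx
  rw [eq_c hg ha]
  exact c_o h.1 h.2.1 h.2.2

/-- Two `3`-cycles whose product is an involution. -/
theorem edge [Fintype α] {s t : Perm α} (hs : IsThreeCycle s) (ht : IsThreeCycle t)
    (h2 : (s * t) ^ 2 = 1) (h1 : s * t ≠ 1) :
    ∃ a, s a ≠ a ∧ t a = s a ∧ t (s (s a)) = s (s a) ∧ s (t (s a)) = t (s a) := by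
  have hw : ∀ x, s (t (s (t x))) = x := by
    intro x
    have := DFunLike.congr_fun h2 x
    simpa [pow_succ] using this
  by_cases hc : ∃ c, s c ≠ c ∧ t c = c
  · obtain ⟨c, hsc, htc⟩ := hc
    have e1 : s (t (s c)) = c := by
      have := hw c
      rwa [htc] at this
    have e2 : s (s (s c)) = c := three_app hs c
    have e3 : t (s c) = s (s c) := s.injective (e1.trans e2.symm)
    have n1 : s (s c) ≠ s c := fun h => hsc (s.injective h)
    have n2 : s (s c) ≠ c := by
      intro h
      rw [h] at e2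
      exact hsc e2
    refine ⟨s c, n1, e3, by rw [e2, htc], ?_⟩
    by_contra hcon
    have h4 : t (s (s c)) ≠ s (s c) := by
      intro h
      have h5 : t (s (s c)) = t (s c) := h.trans e3.symm
      exact n1 (t.injective h5)
    rcases supp_cases hs hsc hcon with h | h | h
    · have h5 : t (s (s c)) = t c := h.trans htc.symm
      exact n2 (t.injective h5)
    · have h5 := three_app ht (s c)
      rw [e3, h, e3] at h5
      exact n1 h5
    · exact h4 h
  · push Not at hc
    exfalso
    obtain ⟨a, ha⟩ : ∃ a, s a ≠ a := by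
      by_contra hcon
      push Not at hcon
      exact hs.ne_one (Equiv.ext hcon)
    have e1 := three_app hs a
    have n1 : s (s a) ≠ s a := fun h => ha (s.injective h)
    have n2 : s (s a) ≠ a := by
      intro h
      rw [h] at e1
      exact ha e1
    have ta : t a ≠ a := hc a ha
    have tb : t (s a) ≠ s a := hc _ n1
    have tc : t (s (s a)) ≠ s (s a) := hc _ fun h => n1 (s.injective h)
    have hts : ∀ x, t x ≠ x → s x ≠ x := by
      intro x hx
      have hcard : s.support = t.support := by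
        refine Finset.eq_of_subset_of_card_le ?_ ?_
        · intro y hy
          rw [mem_support] at hy ⊢
          exact hc y hy
        · rw [hs.card_support, ht.card_support]
      rw [← mem_support, hcard, mem_support]
      exact hx
    have hta : s (t a) ≠ t a := hts _ fun h => ta (t.injective h)
    have e4 := three_app ht a
    rcases supp_cases hs ha hta with h | h | h
    · exact ta h
    · -- t = s
      have h5 : t = s := by
        have h6 : t (s a) = s (s a) := by
          have h7 : s (t (s a)) ≠ t (s a) := hts _ fun h => tb (t.injective h)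
          rcases supp_cases hs ha h7 with h8 | h8 | h8
          · rw [h, h8, h] at e4
            exact absurd e4 ha
          · exact absurd h8 tb
          · exact h8
        rw [eq_c hs ha, eq_c ht ta, h, h6]
      have h8 := hw a
      rw [h5, e1] at h8
      exact ha h8
    · -- t = s⁻¹
      apply h1
      have h5 : t = s⁻¹ := by
        have h6 : t (s (s a)) = s a := by
          have h7 : s (t (s (s a))) ≠ t (s (s a)) := hts _ fun h => tc (t.injective h)
          rcases supp_cases hs ha h7 with h8 | h8 | h8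
          · rw [h, h8, h] at e4
            exact absurd e4 n2
          · exact h8
          · exact absurd h8 tc
        rw [eq_c hs ha, eq_c ht ta, h, h6, c_inv, c_rot n2.symm ha.symm, c_rot n1 n2]
      rw [h5, mul_inv_cancel]

end Cyc

section Main

variable {α : Type*} [Fintype α] [DecidableEq α]

/-- The automorphism acts on `g` as the conjugation by `σ`. -/
def Ok (f : MulAut (alternatingGroup α)) (σ g : Perm α) : Prop :=
  ∃ h : g ∈ alternatingGroup α, (f ⟨g, h⟩ : Perm α) = σ * g * σ⁻¹

variable {f : MulAut (alternatingGroup α)} {σ g h : Perm α}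

private theorem Ok.mul (hg : Ok f σ g) (hh : Ok f σ h) : Ok f σ (g * h) := by
  obtain ⟨h1, h2⟩ := hg
  obtain ⟨h3, h4⟩ := hh
  refine ⟨mul_mem h1 h3, ?_⟩
  have h5 : (⟨g * h, mul_mem h1 h3⟩ : alternatingGroup α) = ⟨g, h1⟩ * ⟨h, h3⟩ := rfl
  rw [h5, map_mul, Subgroup.coe_mul, h2, h4]
  group

private theorem Ok.inv (hg : Ok f σ g) : Ok f σ g⁻¹ := by
  obtain ⟨h1, h2⟩ := hg
  refine ⟨inv_mem h1, ?_⟩
  have h5 : (⟨g⁻¹, inv_mem h1⟩ : alternatingGroup α) = (⟨g, h1⟩)⁻¹ := rfl
  rw [h5, map_inv, Subgroup.coe_inv, h2]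
  group

private theorem ok_one : Ok f σ 1 := by
  refine ⟨one_mem _, ?_⟩
  have h5 : (⟨1, one_mem _⟩ : alternatingGroup α) = 1 := rfl
  rw [h5, map_one, Subgroup.coe_one, mul_one, mul_inv_cancel]

private theorem Ok.conj (hg : Ok f σ g) (hh : Ok f σ h) : Ok f σ (g * h * g⁻¹) :=
  (hg.mul hh).mul hg.inv

private theorem ok_three {p q : α} (hpq : p ≠ q)
    (hT : ∀ x, x ≠ p → x ≠ q → Ok f σ (C p q x)) {x y z : α} (hxy : x ≠ y) (hxz : x ≠ z)
    (hyz : y ≠ z) : Ok f σ (C x y z) := by
  -- cycles `(p x y)`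
  have h1 : ∀ x y, x ≠ p → x ≠ q → y ≠ p → y ≠ q → x ≠ y → Ok f σ (C p x y) := by
    intro x y hxp hxq hyp hyq hxy
    have h2 := (hT y hyp hyq).inv.conj (hT x hxp hxq)
    rw [c_conj, c_inv, c_c, c_b hyp hpq.symm, c_o hxy hxq hxp, c_rot hyp hxy.symm] at h2
    exact h2
  -- cycles `(q p y)`
  have h2 : ∀ y, y ≠ p → y ≠ q → Ok f σ (C q p y) := by
    intro y hyp hyq
    have h3 := (hT y hyp hyq).inv
    rw [c_inv, c_rot hyq hyp] at h3
    exact h3
  have hp : ∀ y z, y ≠ p → z ≠ p → y ≠ z → Ok f σ (C p y z) := by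
    intro y z hyp hzp hyz
    by_cases hyq : y = q
    · subst hyq
      exact hT z hzp hyz.symm
    by_cases hzq : z = q
    · subst hzq
      rw [← c_rot hzp hyz.symm]
      exact h2 y hyp hyq
    · exact h1 y z hyp hyq hzp hzq hyz
  have hq : ∀ y z, y ≠ p → y ≠ q → z ≠ p → z ≠ q → y ≠ z → Ok f σ (C q y z) := by
    intro y z hyp hyq hzp hzq hyz
    have h3 := (hT y hyp hyq).conj (hT z hzp hzq)
    rw [c_conj, c_a hpq hyp.symm, c_b hyp.symm hyq.symm, c_o hzp hzq hyz.symm] at h3
    exact h3
  have ho : ∀ x y z, x ≠ p → x ≠ q → y ≠ p → y ≠ q → z ≠ p → z ≠ q → x ≠ y → x ≠ z → y ≠ z →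
      Ok f σ (C x y z) := by
    intro x y z hxp hxq hyp hyq hzp hzq hxy hxz hyz
    have h3 := (hT x hxp hxq).conj (hq y z hyp hyq hzp hzq hyz)
    rw [c_conj, c_b hxp.symm hxq.symm, c_o hyp hyq hxy.symm, c_o hzp hzq hxz.symm] at h3
    exact h3
  by_cases hxp : x = p
  · subst hxp
    exact hp y z hxy.symm hxz.symm hyz
  by_cases hyp : y = p
  · subst hyp
    rw [c_rot hxy hxz]
    exact hp z x hyz.symm hxp hxz.symm
  by_cases hzp : z = p
  · subst hzp
    rw [← c_rot hxz.symm hyz.symm]
    exact hp x y hxp hyp hxy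
  by_cases hxq : x = q
  · subst hxq
    exact hq y z hyp hxy.symm hzp hxz.symm hyz
  by_cases hyq : y = q
  · subst hyq
    rw [c_rot hxy hxz]
    exact hq z x hzp hyz.symm hxp hxq hxz.symm
  by_cases hzq : z = q
  · subst hzq
    rw [← c_rot hxz.symm hyz.symm]
    exact hq x y hxp hxq hyp hyq hxy
  exact ho x y z hxp hxq hyp hyq hzp hzq hxy hxz hyz

omit [Fintype α] in
private theorem sq_one {p q x y : α} (hpq : p ≠ q) (hxp : x ≠ p) (hxq : x ≠ q) (hyp : y ≠ p)
    (hxy : x ≠ y) : (C p q x * C p q y) ^ 2 = 1 := by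
  have h1 : swap p q * swap q x * swap p q = swap p x := by
    have h := swap_apply_apply (swap p q) q x
    rw [swap_apply_right, swap_apply_of_ne_of_ne hxp hxq, swap_inv] at h
    exact h.symm
  have h2 : swap p x * swap q y * swap p x = swap q y := by
    have h := swap_apply_apply (swap p x) q y
    rw [swap_apply_of_ne_of_ne hpq.symm hxq.symm, swap_apply_of_ne_of_ne hyp hxy.symm,
      swap_inv] at h
    exact h.symm
  have h3 : C p q x * C p q y = swap p x * swap q y := by
    rw [C, C, ← h1]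
    simp only [mul_assoc]
  rw [h3, pow_two, ← mul_assoc, h2, swap_mul_self]

/-- Every automorphism of the alternating group of degree at least five and different from six is
the conjugation by a permutation. -/
theorem aut_alt' (h5 : 5 ≤ Fintype.card α) (h6 : Fintype.card α ≠ 6)
    (f : MulAut (alternatingGroup α)) : ∃ σ : Perm α, ∀ s : alternatingGroup α,
      (f s : Perm α) = σ * s * σ⁻¹ := by
  have hnt : Nontrivial α := Fintype.one_lt_card_iff_nontrivial.1 (by omega)
  obtain ⟨p, q, hpq⟩ := exists_pair_ne α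
  have hF : ∃ F : α → Perm α, ∀ x (hxq : q ≠ x), x ≠ p →
      F x = (f ⟨C p q x, c_alt hpq hxq⟩ : Perm α) := by
    refine ⟨fun x => if hx : q ≠ x then (f ⟨C p q x, c_alt hpq hx⟩ : Perm α) else 1, ?_⟩
    intro x hxq _
    exact dif_pos hxq
  obtain ⟨F, hF⟩ := hF
  have hF3 : ∀ x, x ≠ p → x ≠ q → IsThreeCycle (F x) := by
    intro x hxp hxq
    rw [hF x hxq.symm hxp]
    exact isThreeCycle_map h5 h6 f (c_three hpq hxp.symm hxq.symm)
  have hF2 : ∀ x y, x ≠ p → x ≠ q → y ≠ p → y ≠ q → x ≠ y → (F x * F y) ^ 2 = 1 := by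
    intro x y hxp hxq hyp hyq hxy
    rw [hF x hxq.symm hxp, hF y hyq.symm hyp]
    have h1 : ((⟨C p q x, c_alt hpq hxq.symm⟩ : alternatingGroup α) *
        ⟨C p q y, c_alt hpq hyq.symm⟩) ^ 2 = 1 :=
      Subtype.ext (sq_one hpq hxp hxq hyp hxy)
    have h2 := congrArg (fun s => (f s : Perm α)) h1
    simp only [map_pow, map_mul, map_one] at h2
    exact h2
  have hF1 : ∀ x y, x ≠ p → x ≠ q → y ≠ p → y ≠ q → x ≠ y → F x * F y ≠ 1 := by
    intro x y hxp hxq hyp hyq hxy h
    rw [hF x hxq.symm hxp, hF y hyq.symm hyp, ← Subgroup.coe_mul, ← map_mul] at h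
    have h1 : f (⟨C p q x, c_alt hpq hxq.symm⟩ * ⟨C p q y, c_alt hpq hyq.symm⟩) = 1 :=
      Subtype.ext h
    rw [map_eq_one_iff f f.injective] at h1
    have h2 : C p q x * C p q y = 1 := congrArg Subtype.val h1
    have h3 := DFunLike.congr_fun h2 y
    rw [mul_apply, c_c, c_a hpq hxp.symm] at h3
    exact hyq h3.symm
  have hFinj : ∀ x y, x ≠ p → x ≠ q → y ≠ p → y ≠ q → F x = F y → x = y := by
    intro x y hxp hxq hyp hyq h
    rw [hF x hxq.symm hxp, hF y hyq.symm hyp] at h
    have h1 := congrArg Subtype.val (f.injective (Subtype.ext h))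
    have h2 : C p q x = C p q y := h1
    have h3 := DFunLike.congr_fun h2 q
    rwa [c_b hxp.symm hxq.symm, c_b hyp.symm hyq.symm] at h3
  -- two more points
  obtain ⟨x2, x3, h2p, h2q, h3p, h3q, h23⟩ : ∃ x2 x3 : α, x2 ≠ p ∧ x2 ≠ q ∧ x3 ≠ p ∧ x3 ≠ q ∧
      x2 ≠ x3 := by
    have hc : 1 < ((Finset.univ.erase p).erase q).card := by
      rw [Finset.card_erase_of_mem (Finset.mem_erase.2 ⟨hpq.symm, Finset.mem_univ q⟩),
        Finset.card_erase_of_mem (Finset.mem_univ p), Finset.card_univ]
      omega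
    obtain ⟨a, ha, b, hb, hab⟩ := Finset.one_lt_card.1 hc
    simp only [Finset.mem_erase, Finset.mem_univ, and_true] at ha hb
    exact ⟨a, b, ha.2, ha.1, hb.2, hb.1, hab⟩
  obtain ⟨a, ha, hta, htc, hsd⟩ := edge (hF3 x2 h2p h2q) (hF3 x3 h3p h3q)
    (hF2 x2 x3 h2p h2q h3p h3q h23) (hF1 x2 x3 h2p h2q h3p h3q h23)
  obtain ⟨b, hb⟩ : ∃ b, F x2 a = b := ⟨_, rfl⟩
  rw [hb] at ha hta htc hsd
  have hs3 := hF3 x2 h2p h2q
  have ht3 := hF3 x3 h3p h3q
  have esa := three_app hs3 a
  have eta := three_app ht3 a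
  rw [hb] at esa
  rw [hta] at eta
  have key : ∀ x, x ≠ p → x ≠ q → F x a = b := by
    intro x hxp hxq
    by_cases hx2 : x = x2
    · rw [hx2, hb]
    by_cases hx3 : x = x3
    · rw [hx3, hta]
    obtain ⟨a', h1, h2, h3, -⟩ := edge hs3 (hF3 x hxp hxq)
      (hF2 x2 x h2p h2q hxp hxq (Ne.symm hx2)) (hF1 x2 x h2p h2q hxp hxq (Ne.symm hx2))
    obtain ⟨a'', h1', h2', h3', -⟩ := edge ht3 (hF3 x hxp hxq)
      (hF2 x3 x h3p h3q hxp hxq (Ne.symm hx3)) (hF1 x3 x h3p h3q hxp hxq (Ne.symm hx3))
    have hsa : F x2 a ≠ a := by rw [hb]; exact ha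
    have hta' : F x3 a ≠ a := by rw [hta]; exact ha
    have hcd : F x2 b ≠ F x3 b := by
      intro h
      rw [← h, esa] at hsd
      rw [← hsd, hb] at esa
      exact ha esa
    rcases supp_cases hs3 hsa h1 with r | r | r
    · rw [← r, h2, r, hb]
    · -- `F x b = F x2 b`, `F x a = a`
      rw [hb] at r
      rw [r] at h2 h3
      rw [esa] at h3
      rcases supp_cases ht3 hta' h1' with r' | r' | r'
      · rw [← r', h2', r', hta]
      · rw [r', hta] at h2'
        exact absurd (h2.symm.trans h2') hcd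
      · rw [hta] at r'
        rw [r', eta] at h2'
        have h4 : F x3 b = a := (F x).injective (h2'.trans h3.symm)
        rw [h4] at hsd
        exact absurd hsd hsa
    · -- `F x (F x2 b) = a`, `F x b = b`
      rw [hb] at r
      rw [r, esa] at h2 h3
      rw [hb] at h3
      rcases supp_cases ht3 hta' h1' with r' | r' | r'
      · rw [← r', h2', r', hta]
      · rw [r', hta, h3] at h2'
        rw [← h2'] at hsd
        exact absurd (hsd.trans hb.symm) fun h => ha ((F x2).injective h)
      · rw [hta] at r'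
        rw [r', eta] at h2'
        exact absurd ((F x).injective (h2.trans h2'.symm)) hcd
  have hba : b ≠ a := ha
  have hb1 : ∀ x, x ≠ p → x ≠ q → F x b ≠ b := by
    intro x hxp hxq h
    exact hba ((F x).injective (h.trans (key x hxp hxq).symm))
  have hb2 : ∀ x, x ≠ p → x ≠ q → F x b ≠ a := by
    intro x hxp hxq h
    have h1 := three_app (hF3 x hxp hxq) a
    rw [key x hxp hxq, h, key x hxp hxq] at h1
    exact hba h1
  have hFC : ∀ x, x ≠ p → x ≠ q → F x = C a b (F x b) := by
    intro x hxp hxq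
    have h1 := eq_c (hF3 x hxp hxq) (a := a) (by rw [key x hxp hxq]; exact hba)
    rw [key x hxp hxq] at h1
    exact h1
  obtain ⟨e, he⟩ : ∃ e : α → α, e = fun x => if x = p then a else if x = q then b else F x b :=
    ⟨_, rfl⟩
  have ep : e p = a := by rw [he]; exact if_pos rfl
  have eq : e q = b := by
    rw [he]
    show (if q = p then a else if q = q then b else F q b) = b
    rw [if_neg hpq.symm, if_pos rfl]
  have ex : ∀ x, x ≠ p → x ≠ q → e x = F x b := by
    intro x hxp hxq
    rw [he]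
    show (if x = p then a else if x = q then b else F x b) = F x b
    rw [if_neg hxp, if_neg hxq]
  have hinj : Function.Injective e := by
    intro x y hxy
    by_cases hxp : x = p
    · rw [hxp, ep] at hxy
      by_cases hyp : y = p
      · rw [hxp, hyp]
      by_cases hyq : y = q
      · rw [hyq, eq] at hxy
        exact absurd hxy.symm hba
      · rw [ex y hyp hyq] at hxy
        exact absurd hxy.symm (hb2 y hyp hyq)
    by_cases hxq : x = q
    · rw [hxq, eq] at hxy
      by_cases hyp : y = p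
      · rw [hyp, ep] at hxy
        exact absurd hxy hba
      by_cases hyq : y = q
      · rw [hxq, hyq]
      · rw [ex y hyp hyq] at hxy
        exact absurd hxy.symm (hb1 y hyp hyq)
    rw [ex x hxp hxq] at hxy
    by_cases hyp : y = p
    · rw [hyp, ep] at hxy
      exact absurd hxy (hb2 x hxp hxq)
    by_cases hyq : y = q
    · rw [hyq, eq] at hxy
      exact absurd hxy (hb1 x hxp hxq)
    rw [ex y hyp hyq] at hxy
    refine hFinj x y hxp hxq hyp hyq ?_
    rw [hFC x hxp hxq, hFC y hyp hyq, hxy]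
  have hbij := Finite.injective_iff_bijective.1 hinj
  refine ⟨Equiv.ofBijective e hbij, fun s => ?_⟩
  have hT : ∀ x, x ≠ p → x ≠ q → Ok f (Equiv.ofBijective e hbij) (C p q x) := by
    intro x hxp hxq
    refine ⟨c_alt hpq hxq.symm, ?_⟩
    rw [c_conj, Equiv.ofBijective_apply, Equiv.ofBijective_apply, Equiv.ofBijective_apply, ep, eq,
      ex x hxp hxq, ← hFC x hxp hxq, hF x hxq.symm hxp]
  have hcl : (s : Perm α) ∈ Subgroup.closure {g : Perm α | IsThreeCycle g} := by
    rw [closure_three_cycles_eq_alternating]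
    exact s.2
  have hall : Ok f (Equiv.ofBijective e hbij) (s : Perm α) := by
    refine Subgroup.closure_induction (p := fun g _ => Ok f (Equiv.ofBijective e hbij) g)
      ?_ ok_one (fun _ _ _ _ h1 h2 => h1.mul h2) (fun _ _ h1 => h1.inv) hcl
    intro g hg
    obtain ⟨x, hx⟩ : ∃ x, g x ≠ x := by
      by_contra hcon
      push Not at hcon
      exact (show IsThreeCycle g from hg).ne_one (Equiv.ext hcon)
    have h1 := three_app hg x
    have n1 : g (g x) ≠ g x := fun h => hx (g.injective h)
    have n2 : g (g x) ≠ x := by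
      intro h
      rw [h] at h1
      exact hx h1
    rw [eq_c hg hx]
    exact ok_three hpq hT hx.symm n2.symm n1.symm
  obtain ⟨h1, h2⟩ := hall
  exact h2

end Main

end AutAlt

/-- Every automorphism of `Alt(n)`, `n ≥ 5`, `n ≠ 6`, is the conjugation by a permutation. -/
theorem aut_alt {n : ℕ} (hn : 5 ≤ n) (h6 : n ≠ 6) (f : MulAut (alternatingGroup (Fin n))) :
    ∃ σ : Perm (Fin n), ∀ s : alternatingGroup (Fin n), (f s : Perm (Fin n)) = σ * s * σ⁻¹ :=
  AutAlt.aut_alt' (by rwa [Fintype.card_fin]) (by rwa [Fintype.card_fin]) f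

end Pool.Agent.MPfe8e9bM
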