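import Mathlib
import Pool.Agent.Lib.MP_fe8e9b_al_M.Defs

/-!
# MP_fe8e9b_al, groups of bounded height: components
-/

set_option autoImplicit false

open scoped BigOperators

namespace Pool.Agent.MPfe8e9bM

open Pool.Agent.MPfe8e9b Pool.Agent.MPfe8e9bA Pool.Agent.MPfe8e9bW Pool.Agent.MPfe8e9bV

/-- Components: simple perfect subgroups which commute pairwise and are permuted by `G`. -/
structure Cmp {G X : Type} [Group G] (C : X → Subgroup G) (act : G →* Equiv.Perm X) : Prop where
  smp : ∀ x, IsSimpleGroup (C x)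
  prf : ∀ x, commutator (C x) = ⊤
  cmt : ∀ x y, x ≠ y → ∀ a ∈ C x, ∀ b ∈ C y, a * b = b * a
  cnj : ∀ g x a, a ∈ C x → g * a * g⁻¹ ∈ C (act g x)

/-- The automorphisms which fix the elements of `S0`. -/
def cen {T : Type} [Group T] (S0 : Subgroup T) : Subgroup (MulAut T) where
  carrier := {l | ∀ s ∈ S0, l s = s}
  mul_mem' := fun {a b} ha hb s hs => by rw [MulAut.mul_apply, hb s hs, ha s hs]
  one_mem' := fun s _ => rfl
  inv_mem' := fun {a} ha s hs => by
    have h := ha s hs
    calc a⁻¹ s = a⁻¹ (a s) := by rw [h]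
      _ = s := MulAut.inv_apply_self T a s

/-- The structure on a model group: a perfect subgroup `S0` and a group `L` of automorphisms. -/
structure SG (c : ℕ) (T : Type) [Group T] (S0 : Subgroup T) (L : Subgroup (MulAut T)) :
    Prop where
  prf : commutator S0 = ⊤
  inn : ∀ t : T, (∃ l ∈ L, ∀ s, t * s * t⁻¹ = l s) → ∀ s ∈ S0, t * s = s * t
  stb : ∀ l ∈ L, ∀ s ∈ S0, l s ∈ S0
  prd : ∃ h : Fin c → T, ∀ t : T, ∃ x : Fin c → S0,
    t = (List.ofFn fun j => h j * (x j : T) * (h j)⁻¹).prod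
  crd : Nat.card L ≤ Nat.card T ^ c
  typ : (∀ l ∈ L, ∀ s ∈ S0, l s = s) ∨
    (S0 = ⊤ ∧ ∃ φ : T ≃* alternatingGroup (Fin 5), ∀ l ∈ L, l = 1 ∨
      ∀ t, φ (l t) = MulAut.conjNormal (Equiv.swap (0 : Fin 5) 1) (φ t)) ∨
    (S0 = ⊤ ∧ ∃ φ : T ≃* alternatingGroup (Fin 6), ∀ l ∈ L, l = 1 ∨
      ∀ t, φ (l t) = MulAut.conjNormal (Equiv.swap (0 : Fin 6) 1) (φ t))

/-- Coordinates: types `k`, with model `C (rep k)`, and identifications of the components of type
`k` with the model such that all elements of `G` act by inner automorphisms times elements of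
`L`. -/
structure Crd {G X : Type} [Group G] (C : X → Subgroup G) (act : G →* Equiv.Perm X)
    (L : ∀ x, Subgroup (MulAut (C x))) where
  K : Type
  fK : Fintype K
  ky : X → K
  rep : K → X
  ι : ∀ k, {x // ky x = k} → (C (rep k) →* G)
  inv : ∀ g x, ky (act g x) = ky x
  inj : ∀ k y, Function.Injective (ι k y)
  rng : ∀ k y, (ι k y).range = C y.1
  cnj : ∀ (g : G) (k : K) (y : {x // ky x = k}), ∃ t : C (rep k), ∃ l ∈ L (rep k),
    ∀ s, g * ι k y s * g⁻¹ = ι k ⟨act g y.1, (inv g y.1).trans y.2⟩ (t * l s * t⁻¹)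

/-- The components of type `k`. -/
abbrev Crd.Y {G X : Type} [Group G] {C : X → Subgroup G} {act : G →* Equiv.Perm X}
    {L : ∀ x, Subgroup (MulAut (C x))} (D : Crd C act L) (k : D.K) : Type := {x // D.ky x = k}

/-- The model of type `k`. -/
abbrev Crd.T {G X : Type} [Group G] {C : X → Subgroup G} {act : G →* Equiv.Perm X}
    {L : ∀ x, Subgroup (MulAut (C x))} (D : Crd C act L) (k : D.K) : Type := C (D.rep k)

/-- The action on the components of type `k`. -/
def Crd.ac {G X : Type} [Group G] {C : X → Subgroup G} {act : G →* Equiv.Perm X}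
    {L : ∀ x, Subgroup (MulAut (C x))} (D : Crd C act L) (k : D.K) :
    G →* Equiv.Perm (D.Y k) where
  toFun g :=
    { toFun := fun y => ⟨act g y.1, (D.inv g y.1).trans y.2⟩
      invFun := fun y => ⟨act g⁻¹ y.1, (D.inv g⁻¹ y.1).trans y.2⟩
      left_inv := fun y => by
        apply Subtype.ext
        show act g⁻¹ (act g y.1) = y.1
        rw [← Equiv.Perm.mul_apply, ← map_mul, inv_mul_cancel, map_one, Equiv.Perm.one_apply]
      right_inv := fun y => by
        apply Subtype.ext
        show act g (act g⁻¹ y.1) = y.1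
        rw [← Equiv.Perm.mul_apply, ← map_mul, mul_inv_cancel, map_one, Equiv.Perm.one_apply] }
  map_one' := by
    ext y
    show act 1 y.1 = y.1
    rw [map_one, Equiv.Perm.one_apply]
  map_mul' a b := by
    ext y
    show act (a * b) y.1 = act a (act b y.1)
    rw [map_mul, Equiv.Perm.mul_apply]

/-- The supplement: the elements which act in the coordinates by elements of `L`. -/
def Crd.Hs {G X : Type} [Group G] {C : X → Subgroup G} {act : G →* Equiv.Perm X}
    {L : ∀ x, Subgroup (MulAut (C x))} (D : Crd C act L) : Subgroup G where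
  carrier := {g | ∀ (k : D.K) (y : D.Y k), ∃ l ∈ L (D.rep k),
    ∀ s, g * D.ι k y s * g⁻¹ = D.ι k (D.ac k g y) (l s)}
  mul_mem' := by
    intro a b ha hb k y
    obtain ⟨l, hl, h⟩ := hb k y
    obtain ⟨l', hl', h'⟩ := ha k (D.ac k b y)
    refine ⟨l' * l, mul_mem hl' hl, fun s => ?_⟩
    calc a * b * D.ι k y s * (a * b)⁻¹ = a * (b * D.ι k y s * b⁻¹) * a⁻¹ := by group
      _ = D.ι k (D.ac k a (D.ac k b y)) (l' (l s)) := by rw [h s, h' (l s)]
      _ = D.ι k (D.ac k (a * b) y) ((l' * l) s) := by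
        rw [map_mul]
        rfl
  one_mem' := by
    intro k y
    refine ⟨1, one_mem _, fun s => ?_⟩
    rw [map_one]
    simp
  inv_mem' := by
    intro a ha k y
    obtain ⟨l, hl, h⟩ := ha k (D.ac k a⁻¹ y)
    refine ⟨l⁻¹, inv_mem hl, fun s => ?_⟩
    have h1 := h (l⁻¹ s)
    have h2 : D.ac k a (D.ac k a⁻¹ y) = y := by
      rw [← Equiv.Perm.mul_apply, ← map_mul, mul_inv_cancel, map_one, Equiv.Perm.one_apply]
    rw [h2, MulAut.apply_inv_self] at h1
    rw [← h1]
    group

end Pool.Agent.MPfe8e9bM
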