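import Mathlib
import Pool.Agent.Lib.MP_fe8e9b_al_M.Defs

/-!
# MP_fe8e9b_al, groups of bounded height: pairs of commutators generate
-/

set_option autoImplicit false

open scoped BigOperators

namespace Pool.Agent.MPfe8e9bM

open Pool.Agent.MPfe8e9b Pool.Agent.MPfe8e9bA Pool.Agent.MPfe8e9bW Pool.Agent.MPfe8e9bV

/-- The centre of a perfect simple group is trivial. -/
theorem gou_center {T : Type} [Group T] [IsSimpleGroup T] (hT : commutator T = ⊤) (x : T)
    (h : ∀ y : T, x * y = y * x) : x = 1 := by
  have hx : x ∈ Subgroup.center T := Subgroup.mem_center_iff.mpr fun y => (h y).symm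
  rcases (inferInstance : (Subgroup.center T).Normal).eq_bot_or_eq_top with h1 | h1
  · rw [h1] at hx
    exact Subgroup.mem_bot.mp hx
  · exfalso
    have h2 : commutator T ≤ ⊥ := by
      rw [commutator_eq_closure, Subgroup.closure_le]
      rintro _ ⟨k, t, rfl⟩
      have h3 : k ∈ Subgroup.center T := by
        rw [h1]
        trivial
      have h4 : t * k = k * t := Subgroup.mem_center_iff.mp h3 t
      show k * t * k⁻¹ * t⁻¹ = 1
      rw [← h4, mul_inv_cancel_right, mul_inv_cancel]
    rw [hT] at h2
    exact bot_ne_top (le_bot_iff.mp h2).symm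

theorem gou_conj {T : Type} [Group T] (b : Bool) (p : Bool → T) (x : T) :
    p * Pi.mulSingle b x * p⁻¹ = Pi.mulSingle b (p b * x * (p b)⁻¹) := by
  funext s
  by_cases h : s = b
  · subst h
    simp
  · simp [Pi.mulSingle_eq_of_ne h]

theorem gou_normal {T : Type} [Group T] (H : Subgroup (Bool → T)) (b : Bool)
    (h0 : ∀ x : T, ∃ p ∈ H, p b = x) :
    (H.comap (MonoidHom.mulSingle (fun _ : Bool => T) b)).Normal := by
  refine ⟨fun n hn g => ?_⟩
  obtain ⟨p, hp, rfl⟩ := h0 g
  show Pi.mulSingle b (p b * n * (p b)⁻¹) ∈ H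
  rw [← gou_conj]
  exact H.mul_mem (H.mul_mem hp hn) (H.inv_mem hp)

theorem gou_top {T : Type} [Group T] (H : Subgroup (Bool → T)) (b : Bool)
    (h1 : ∀ x : T, ∃ p ∈ H, p (!b) = x)
    (h : H.comap (MonoidHom.mulSingle (fun _ : Bool => T) b) = ⊤) : H = ⊤ := by
  rw [eq_top_iff]
  intro q _
  obtain ⟨p, hp, hpq⟩ := h1 (q (!b))
  have h2 : q b * (p b)⁻¹ ∈ H.comap (MonoidHom.mulSingle (fun _ : Bool => T) b) := by
    rw [h]
    trivial
  have h3 : Pi.mulSingle b (q b * (p b)⁻¹) ∈ H := h2
  have h4 : q = Pi.mulSingle b (q b * (p b)⁻¹) * p := by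
    funext s
    by_cases hs : s = b
    · subst hs
      simp
    · have hs' : s = !b := by
        cases s <;> cases b <;> simp_all
      subst hs'
      rw [Pi.mul_apply, Pi.mulSingle_eq_of_ne hs, one_mul, hpq]
  rw [h4]
  exact H.mul_mem h3 hp

theorem gou_inj {T : Type} [Group T] (H : Subgroup (Bool → T)) (b : Bool)
    (h : H.comap (MonoidHom.mulSingle (fun _ : Bool => T) b) = ⊥) {p q : Bool → T}
    (hp : p ∈ H) (hq : q ∈ H) (hpq : p (!b) = q (!b)) : p b = q b := by
  have h1 : Pi.mulSingle b (p b * (q b)⁻¹) = p * q⁻¹ := by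
    funext s
    by_cases hs : s = b
    · subst hs
      simp
    · have hs' : s = !b := by
        cases s <;> cases b <;> simp_all
      subst hs'
      rw [Pi.mulSingle_eq_of_ne hs, Pi.mul_apply, Pi.inv_apply, hpq, mul_inv_cancel]
  have h2 : p b * (q b)⁻¹ ∈ H.comap (MonoidHom.mulSingle (fun _ : Bool => T) b) := by
    show Pi.mulSingle b (p b * (q b)⁻¹) ∈ H
    rw [h1]
    exact H.mul_mem hp (H.inv_mem hq)
  rw [h, Subgroup.mem_bot] at h2
  exact mul_inv_eq_one.mp h2

/-- Goursat: a subgroup of `Bool → T` which projects onto both coordinates is everything or the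
graph of an automorphism.

Proof. `N0 = {x | (x at false, 1 at true) ∈ H}` is normal in `T` (conjugate with elements of `H`
with given value at `false`), so it is `⊤` or `⊥` (`IsSimpleGroup.eq_bot_or_eq_top_of_normal`).
The same for the other coordinate. If one of them is `⊤` then `H = ⊤`. If both are `⊥` then an
element of `H` is determined by each coordinate, and `ψ (p false) = p true` for `p ∈ H` defines an
automorphism. -/
theorem gou_graph {T : Type} [Group T] [IsSimpleGroup T] (H : Subgroup (Bool → T))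
    (h0 : ∀ x : T, ∃ p ∈ H, p false = x) (h1 : ∀ x : T, ∃ p ∈ H, p true = x) :
    H = ⊤ ∨ ∃ ψ : T ≃* T, ∀ p ∈ H, p true = ψ (p false) := by
  rcases (gou_normal H false h0).eq_bot_or_eq_top with h2 | h2
  · rcases (gou_normal H true h1).eq_bot_or_eq_top with h3 | h3
    · right
      choose f hf hf' using h0
      have key : ∀ p q : Bool → T, p ∈ H → q ∈ H → p false = q false → p true = q true :=
        fun p q hp hq h => gou_inj H true h3 hp hq h
      have key' : ∀ p q : Bool → T, p ∈ H → q ∈ H → p true = q true → p false = q false :=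
        fun p q hp hq h => gou_inj H false h2 hp hq h
      let φ : T →* T := MonoidHom.mk' (fun x => f x true) fun x y => by
        have h4 := key (f (x * y)) (f x * f y) (hf _) (H.mul_mem (hf x) (hf y)) (by
          rw [hf', Pi.mul_apply, hf', hf'])
        exact h4
      have hφ : Function.Bijective φ := by
        constructor
        · intro x y hxy
          have h4 := key' _ _ (hf x) (hf y) hxy
          rwa [hf', hf'] at h4
        · intro y
          obtain ⟨p, hp, hpy⟩ := h1 y
          refine ⟨p false, ?_⟩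
          have h4 := key (f (p false)) p (hf _) hp (hf' _)
          exact h4.trans hpy
      refine ⟨MulEquiv.ofBijective φ hφ, fun p hp => ?_⟩
      exact key p (f (p false)) hp (hf _) (hf' _).symm
    · left
      exact gou_top H true h0 h3
  · left
    exact gou_top H false h1 h2

/-- If `ψ (cm h t) = cm h (α t)` for all `h`, `t` then `α = 1`.

Proof. `cm (h * k) s = h * cm k s * h⁻¹ * cm h s`. So
`ψ (h * cm k t * h⁻¹) = ψ (cm (h * k) t) * (ψ (cm h t))⁻¹ = cm (h * k) (α t) * (cm h (α t))⁻¹ =
h * cm k (α t) * h⁻¹ = h * ψ (cm k t) * h⁻¹`. So `h⁻¹ * ψ h` commutes with all `ψ (cm k t)`. The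
elements `x` such that it commutes with `ψ x` form a subgroup, which contains the commutators, so
it is `⊤` (`hT`; `commutator_def`, `Subgroup.commutator_le`), `ψ` is surjective, so
`ψ h = h` (`gou_center`). Then `cm h t = cm h (α t)` for all `h`, so `(α t)⁻¹ * t` commutes with
all `h⁻¹`, `α t = t`. -/
theorem gou_one {T : Type} [Group T] [IsSimpleGroup T] (hT : commutator T = ⊤) (α : MulAut T)
    (ψ : T ≃* T) (h : ∀ x t : T, ψ (cm x t) = cm x (α t)) : α = 1 := by
  have h1 : ∀ a k s : T, cm (a * k) s = a * cm k s * a⁻¹ * cm a s := by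
    intro a k s
    unfold cm
    group
  have h2 : ∀ a k t : T, ψ a * ψ (cm k t) * (ψ a)⁻¹ = a * ψ (cm k t) * a⁻¹ := by
    intro a k t
    have e1 := h (a * k) t
    rw [h1, h1, map_mul, h a t] at e1
    have e2 := mul_right_cancel e1
    rw [← h k t, map_mul, map_mul, map_inv] at e2
    exact e2
  have h3 : ∀ a : T, ψ a = a := by
    intro a
    have h4 : ∀ x : T, (a⁻¹ * ψ a) * ψ x = ψ x * (a⁻¹ * ψ a) := by
      have h5 : commutator T ≤ (Subgroup.centralizer {a⁻¹ * ψ a}).comap ψ.toMonoidHom := by
        rw [commutator_eq_closure, Subgroup.closure_le]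
        rintro _ ⟨k, t, rfl⟩
        show ψ (cm k t) ∈ Subgroup.centralizer {a⁻¹ * ψ a}
        rw [Subgroup.mem_centralizer_singleton_iff]
        have h6 : ψ a * ψ (cm k t) * (ψ a)⁻¹ = a * ψ (cm k t) * a⁻¹ := h2 a k t
        have h7 : ψ a * ψ (cm k t) = a * ψ (cm k t) * a⁻¹ * ψ a := by
          rw [← h6, inv_mul_cancel_right]
        rw [mul_assoc a⁻¹, h7]
        group
      intro x
      have h6 : x ∈ (Subgroup.centralizer {a⁻¹ * ψ a}).comap ψ.toMonoidHom := h5 (by
        rw [hT]
        trivial)
      have h7 : ψ x ∈ Subgroup.centralizer {a⁻¹ * ψ a} := h6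
      exact ((Subgroup.mem_centralizer_singleton_iff).mp h7).symm
    have h5 : a⁻¹ * ψ a = 1 := gou_center hT _ fun y => by
      obtain ⟨x, rfl⟩ := ψ.surjective y
      exact h4 x
    exact (inv_mul_eq_one.mp h5).symm
  refine MulEquiv.ext fun t => ?_
  show α t = t
  have h4 : (α t)⁻¹ * t = 1 := by
    refine gou_center hT _ fun y => ?_
    have h5 := h y⁻¹ t
    rw [h3] at h5
    unfold cm at h5
    rw [inv_inv] at h5
    have h6 : t * y * t⁻¹ = α t * y * (α t)⁻¹ := by
      have h7 := congrArg (fun z => y * z) h5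
      simpa [mul_assoc] using h7
    calc (α t)⁻¹ * t * y = (α t)⁻¹ * (t * y * t⁻¹) * t := by group
      _ = (α t)⁻¹ * (α t * y * (α t)⁻¹) * t := by rw [h6]
      _ = y * ((α t)⁻¹ * t) := by group
  exact (inv_mul_eq_one.mp h4)

/-- The pairs `(cm h t, cm h (α t))` generate `Bool → T`.

Proof. `gou_graph` for the closure: the projections are onto since the commutators generate `T`
(the image of the closure under the evaluation is the closure of the image, `MonoidHom.map_closure`;
`α` is onto), `gou_one`. -/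
theorem gou {T : Type} [Group T] [IsSimpleGroup T] (hT : commutator T = ⊤) (α : MulAut T)
    (hα : α ≠ 1) :
    Subgroup.closure {p : Bool → T | ∃ h t : T, p = fun s => cm h (if s = true then α t else t)} =
      ⊤ := by
  set S : Set (Bool → T) :=
    {p | ∃ h t : T, p = fun s => cm h (if s = true then α t else t)} with hS
  have key : ∀ b : Bool, ∀ x : T, ∃ p ∈ Subgroup.closure S, p b = x := by
    intro b x
    have h1 : (Subgroup.closure S).map (Pi.evalMonoidHom (fun _ : Bool => T) b) = ⊤ := by
      rw [MonoidHom.map_closure, eq_top_iff, ← hT, commutator_eq_closure, Subgroup.closure_le]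
      rintro _ ⟨k, t, rfl⟩
      refine Subgroup.subset_closure ?_
      cases b with
      | false => exact ⟨_, ⟨k, t, rfl⟩, by simp [cm, commutatorElement_def]⟩
      | true => exact ⟨_, ⟨k, α⁻¹ t, rfl⟩, by simp [cm, commutatorElement_def]⟩
    have h2 : x ∈ (Subgroup.closure S).map (Pi.evalMonoidHom (fun _ : Bool => T) b) := by
      rw [h1]
      trivial
    obtain ⟨p, hp, hpx⟩ := h2
    exact ⟨p, hp, hpx⟩
  rcases gou_graph (Subgroup.closure S) (key false) (key true) with h | ⟨ψ, hψ⟩
  · exact h
  · exfalso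
    apply hα
    refine gou_one hT α ψ fun x t => ?_
    have h1 := hψ _ (Subgroup.subset_closure (⟨x, t, rfl⟩ : (fun s : Bool => cm x
      (if s = true then α t else t)) ∈ S))
    simpa using h1.symm

end Pool.Agent.MPfe8e9bM
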