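import Mathlib
import Pool.Agent.Lib.MP_fe8e9b_al_M.Defs
import Pool.Agent.Lib.MP_fe8e9b_al_M.CmpD
import Pool.Agent.Lib.MP_fe8e9b_al_M.Gou

/-!
# MP_fe8e9b_al, groups of bounded height: components, basic facts
-/

set_option autoImplicit false

open scoped BigOperators

namespace Pool.Agent.MPfe8e9bM

open Pool.Agent.MPfe8e9b Pool.Agent.MPfe8e9bA Pool.Agent.MPfe8e9bW Pool.Agent.MPfe8e9bV

variable {G X : Type} [Group G] {C : X → Subgroup G} {act : G →* Equiv.Perm X}

/-- The centre of a component is trivial.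

Proof. The centre is a normal subgroup of the simple group `C x`, so it is trivial or everything;
if it is everything then `C x` is commutative and `commutator (C x) = ⊥ ≠ ⊤`. -/
theorem cmp_center (hC : Cmp C act) (x : X) (t : C x) (h : ∀ s : C x, t * s = s * t) :
    t = 1 := by
  have := hC.smp x
  exact gou_center (hC.prf x) t h

/-- A component is not contained in another one. Proof. If `x ≠ y` and `C x ≤ C y` then the
elements of `C x` commute with each other (`hC.cmt`), so they are trivial by `cmp_center`, but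
simple groups are nontrivial. -/
theorem cmp_le (hC : Cmp C act) {x y : X} (h : C x ≤ C y) : x = y := by
  by_contra hne
  have := hC.smp x
  obtain ⟨a, ha⟩ := exists_ne (1 : C x)
  apply ha
  refine cmp_center hC x a fun s => ?_
  apply Subtype.ext
  exact hC.cmt x y hne a.1 a.2 s.1 (h s.2)

/-- The elements of the components act trivially on the set of components.

Proof. The kernel of `act` is a subgroup; let `c ∈ C y`. For `x ≠ y`, `c * a * c⁻¹ = a` for
`a ∈ C x` (`hC.cmt`), for `x = y`, `c * a * c⁻¹ ∈ C y`; so `C x ≤ C (act c x)`: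
for `x = y` every `a ∈ C y` is `c * (c⁻¹ * a * c) * c⁻¹`. `cmp_le`. -/
theorem cmp_act (hC : Cmp C act) (n : G) (hn : n ∈ ⨆ x, C x) : act n = 1 := by
  have h1 : (⨆ x, C x) ≤ act.ker := by
    refine iSup_le fun y c hc => ?_
    rw [MonoidHom.mem_ker]
    refine Equiv.ext fun x => ?_
    rw [Equiv.Perm.one_apply]
    symm
    refine cmp_le hC fun a ha => ?_
    by_cases hxy : x = y
    · subst hxy
      have h2 : c⁻¹ * a * c ∈ C x := (C x).mul_mem ((C x).mul_mem ((C x).inv_mem hc) ha) hc
      have h3 := hC.cnj c x _ h2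
      have h4 : c * (c⁻¹ * a * c) * c⁻¹ = a := by group
      rwa [h4] at h3
    · have h2 := hC.cnj c x a ha
      have h3 : c * a * c⁻¹ = a := by
        rw [← hC.cmt x y hxy a ha c hc, mul_inv_cancel_right]
      rwa [h3] at h2
  exact h1 hn

/-- The subgroup generated by the components is normal. Proof. Conjugation by `g` maps `C x` into
`C (act g x)`; `Subgroup.iSup_induction`. -/
theorem cmp_normal (hC : Cmp C act) : (⨆ x, C x).Normal := by
  refine ⟨fun n hn g => ?_⟩
  refine Subgroup.iSup_induction C (C := fun n => g * n * g⁻¹ ∈ ⨆ x, C x) hn ?_ ?_ ?_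
  · intro x a ha
    exact (le_iSup C (act g x)) (hC.cnj g x a ha)
  · rw [mul_one, mul_inv_cancel]
    exact Subgroup.one_mem _
  · intro a b ha hb
    have h1 : g * (a * b) * g⁻¹ = (g * a * g⁻¹) * (g * b * g⁻¹) := by group
    rw [h1]
    exact Subgroup.mul_mem _ ha hb

/-- Conjugation by `g` maps `C x` onto `C (act g x)`. -/
theorem cmp_onto (hC : Cmp C act) (g : G) (x : X) (b : G) (hb : b ∈ C (act g x)) :
    ∃ a ∈ C x, b = g * a * g⁻¹ := by
  have h1 := hC.cnj g⁻¹ (act g x) b hb
  have h2 : act g⁻¹ (act g x) = x := by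
    rw [← Equiv.Perm.mul_apply, ← map_mul, inv_mul_cancel, map_one, Equiv.Perm.one_apply]
  rw [h2] at h1
  exact ⟨_, h1, by group⟩

end Pool.Agent.MPfe8e9bM
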