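import Mathlib
import Pool.Agent.Lib.MP_fe8e9b_al_M.Defs

/-!
# MP_fe8e9b_al, groups of bounded height: means over orbits and over functions
-/

set_option autoImplicit false

open scoped BigOperators

namespace Pool.Agent.MPfe8e9bM

open Pool.Agent.MPfe8e9b Pool.Agent.MPfe8e9bA Pool.Agent.MPfe8e9bW Pool.Agent.MPfe8e9bV

open Classical in
/-- The mean of a function of a map with fibres of constant cardinality. -/
theorem mnf_fib {T Y : Type} [Fintype T] [Nonempty T] (f : T → Y) (X : Finset Y) (c : ℕ)
    (hm : ∀ t, f t ∈ X) (hc : ∀ x ∈ X, (Finset.univ.filter (fun t => f t = x)).card = c)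
    (F : Y → ℝ) : mn (fun t => F (f t)) = (X.card : ℝ)⁻¹ * ∑ x ∈ X, F x := by
  have h1 : ∑ t : T, F (f t) = (c : ℝ) * ∑ x ∈ X, F x := by
    rw [← Finset.sum_fiberwise_of_maps_to (s := Finset.univ) (t := X) (g := f)
      (fun t _ => hm t), Finset.mul_sum]
    refine Finset.sum_congr rfl fun x hx => ?_
    rw [Finset.sum_congr rfl (g := fun _ => F x), Finset.sum_const, nsmul_eq_mul, hc x hx]
    intro t ht
    rw [(Finset.mem_filter.1 ht).2]
  have h2 : Fintype.card T = X.card * c := by
    rw [← Finset.card_univ, Finset.card_eq_sum_card_fiberwise (f := f) (t := X)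
      (fun t _ => hm t), Finset.sum_congr rfl hc, Finset.sum_const, smul_eq_mul]
  have h3 : (Fintype.card T : ℝ) ≠ 0 := by exact_mod_cast Fintype.card_ne_zero
  have h4 : (Fintype.card T : ℝ) = (X.card : ℝ) * (c : ℝ) := by exact_mod_cast h2
  have h5 : (c : ℝ) ≠ 0 := by
    intro h
    rw [h4, h, mul_zero] at h3
    exact h3 rfl
  rw [mn, h1, h4, mul_inv, mul_assoc, inv_mul_cancel_left₀ h5]

/-- The mean over a group of a function of the image of a point is the mean over the orbit.

Proof. All fibres of `p ↦ α p y` over the points of the orbit have the same cardinality (they are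
cosets of the stabilizer: if `α q y = x` then `p ↦ q * p` is a bijection from the stabilizer fibre
of `y` to the fibre of `x`); `Finset.sum_fiberwise_of_maps_to` as in `mn_tr` (file V/Defs). -/
theorem mn_orb {P Y : Type} [Group P] [Fintype P] (α : P →* Equiv.Perm Y) (y : Y)
    (X : Finset Y) (hX : ∀ x, x ∈ X ↔ ∃ p, α p y = x) (F : Y → ℝ) :
    mn (fun p => F (α p y)) = (X.card : ℝ)⁻¹ * ∑ x ∈ X, F x := by
  classical
  refine mnf_fib (fun p : P => α p y) X
    (Finset.univ.filter (fun p : P => α p y = y)).card (fun p => (hX _).2 ⟨p, rfl⟩)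
    (fun x hx => ?_) F
  obtain ⟨q, hq⟩ := (hX x).1 hx
  refine Finset.card_bij' (fun p _ => q⁻¹ * p) (fun p _ => q * p) ?_ ?_ ?_ ?_
  · intro p hp
    rw [Finset.mem_filter] at hp ⊢
    refine ⟨Finset.mem_univ _, ?_⟩
    rw [map_mul, Equiv.Perm.mul_apply, hp.2, ← hq, map_inv]
    exact (α q).symm_apply_apply y
  · intro p hp
    rw [Finset.mem_filter] at hp ⊢
    refine ⟨Finset.mem_univ _, ?_⟩
    rw [map_mul, Equiv.Perm.mul_apply, hp.2, hq]
  · intro p _
    exact mul_inv_cancel_left q p
  · intro p _
    exact inv_mul_cancel_left q p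

/-- The mean over a group of a function which factors through an action is the mean over any
subgroup with the same image.

Proof. Both are the mean over the range of `α`: for a surjective homomorphism of finite groups the
fibres have the same cardinality. Apply this to `α.rangeRestrict` and to
`(α.comp H.subtype).rangeRestrict`; the two ranges are equal by `h`. -/
theorem mn_sub_act {P Y : Type} [Group P] [Fintype P] (α : P →* Equiv.Perm Y) (H : Subgroup P)
    [Fintype H] (h : ∀ p : P, ∃ q ∈ H, α q = α p) (F : Equiv.Perm Y → ℝ) :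
    mn (fun p : P => F (α p)) = mn (fun p : H => F (α p.1)) := by
  classical
  have key : ∀ (R : Type) [Group R] [Fintype R] (β : R →* Equiv.Perm Y)
      (X : Finset (Equiv.Perm Y)), (∀ x, x ∈ X ↔ ∃ r, β r = x) →
      mn (fun r : R => F (β r)) = (X.card : ℝ)⁻¹ * ∑ x ∈ X, F x := by
    intro R _ _ β X hX
    refine mnf_fib (fun r : R => β r) X
      (Finset.univ.filter (fun r : R => β r = 1)).card (fun r => (hX _).2 ⟨r, rfl⟩)
      (fun x hx => ?_) F
    obtain ⟨q, hq⟩ := (hX x).1 hx
    refine Finset.card_bij' (fun r _ => q⁻¹ * r) (fun r _ => q * r) ?_ ?_ ?_ ?_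
    · intro r hr
      rw [Finset.mem_filter] at hr ⊢
      refine ⟨Finset.mem_univ _, ?_⟩
      rw [map_mul, hr.2, ← hq, map_inv, inv_mul_cancel]
    · intro r hr
      rw [Finset.mem_filter] at hr ⊢
      refine ⟨Finset.mem_univ _, ?_⟩
      rw [map_mul, hr.2, hq, mul_one]
    · intro r _
      exact mul_inv_cancel_left q r
    · intro r _
      exact inv_mul_cancel_left q r
  have h1 := key P α (Finset.univ.image fun p : P => α p) (fun x => by simp)
  have h2 := key H (α.comp H.subtype) (Finset.univ.image fun p : P => α p) (fun x => by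
    constructor
    · intro hx
      obtain ⟨p, _, hp⟩ := Finset.mem_image.1 hx
      obtain ⟨q, hq, hqp⟩ := h p
      exact ⟨⟨q, hq⟩, hqp.trans hp⟩
    · rintro ⟨q, hq⟩
      exact Finset.mem_image.2 ⟨q.1, Finset.mem_univ _, hq⟩)
  exact h1.trans h2.symm

/-- The mean over a group of the inverses. Proof. `mn_equiv (Equiv.inv P)`. -/
theorem mn_inv {P : Type} [Group P] [Fintype P] (F : P → ℝ) :
    mn (fun p : P => F p⁻¹) = mn F := by
  exact mn_equiv (Equiv.inv P) F

open Classical in
/-- Resampling one value of a random function.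

Proof. The sum over all `l` of `mn_t F (update l a t)`: the map `(l, t) ↦ (update l a t, l a)` is a
bijection of `(Y → S) × S` (it is an involution up to the obvious identification); so
`∑ l, ∑ t, F (update l a t) = ∑ l, ∑ t, F l = card S * ∑ l, F l`. -/
theorem mn_update {Y S : Type} [Fintype Y] [Fintype S] [Nonempty S] (F : (Y → S) → ℝ)
    (a : Y) : mn (fun l : Y → S => mn (fun t => F (Function.update l a t))) = mn F := by
  let e : (Y → S) × S ≃ (Y → S) × S :=
    { toFun := fun q => (Function.update q.1 a q.2, q.1 a)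
      invFun := fun q => (Function.update q.1 a q.2, q.1 a)
      left_inv := fun q => by
        refine Prod.ext ?_ ?_
        · simp
        · simp
      right_inv := fun q => by
        refine Prod.ext ?_ ?_
        · simp
        · simp }
  have h1 : mn (fun l : Y → S => mn (fun t => F (Function.update l a t))) =
      mn (fun q : (Y → S) × S => F (e q).1) :=
    (mn_prod (fun q : (Y → S) × S => F (e q).1)).symm
  rw [h1, mn_equiv e (fun q : (Y → S) × S => F q.1), mn_prod]
  refine congrArg mn ?_
  funext l
  exact mn_const (F l)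

open Classical in
/-- The mean of a product over different points.

Proof. `Finset.prod_univ_sum` (or `Finset.prod_sum`, `Fintype.piFinset_univ`):
`∑ l, ∏ y, g y (l y) = ∏ y, ∑ t, g y t`, `Fintype.card (Y → S) = card S ^ card Y`. -/
theorem mn_prod_fun {Y S : Type} [Fintype Y] [Fintype S] [Nonempty S] (g : Y → S → ℝ) :
    mn (fun l : Y → S => ∏ y, g y (l y)) = ∏ y, mn (g y) := by
  have h1 : ∑ l : Y → S, ∏ y, g y (l y) = ∏ y, ∑ t, g y t := by
    rw [Finset.prod_univ_sum, Fintype.piFinset_univ]
  simp only [mn]
  rw [h1, Finset.prod_mul_distrib, Finset.prod_const, Finset.card_univ, Fintype.card_fun,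
    Nat.cast_pow, inv_pow]

end Pool.Agent.MPfe8e9bM
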