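import Mathlib
import Pool.Agent.Lib.MP_fe8e9b_al_M.Defs
import Pool.Agent.Lib.MP_fe8e9b_al_M.MnF

/-!
# MP_fe8e9b_al, groups of bounded height: codes: the agreement with a given function
-/

set_option autoImplicit false

open scoped BigOperators

namespace Pool.Agent.MPfe8e9bM

open Pool.Agent.MPfe8e9b Pool.Agent.MPfe8e9bA Pool.Agent.MPfe8e9bW Pool.Agent.MPfe8e9bV

open Classical in
open Classical in
/-- A random function hits given values at half of the points of `X` with small probability.

Proof. `s = card S`. If `l x = g x` for at least half of the points of `X` then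
`1 ≤ ∏ x ∈ X, (if l x = g x then √s else (√s)⁻¹)` (the exponent of `√s` is the difference of the
numbers of hits and of misses). The mean of the product is
`∏ x ∈ X, (s⁻¹ √s + (1 - s⁻¹) (√s)⁻¹) ≤ (2 / √s) ^ card X` (`mn_prod_fun` with factor one outside
of `X`; the mean over `t` of `if t = g x then √s else (√s)⁻¹`). -/
theorem cdh_hit {Y S : Type} [Fintype Y] [Fintype S] [Nonempty S] (X : Finset Y) (g : Y → S) :
    mn (fun l : Y → S => ind (1 / 2 * (X.card : ℝ) ≤ ∑ x ∈ X, ind (l x = g x))) ≤
      (2 / Real.sqrt (Fintype.card S)) ^ X.card := by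
  have hs1 : (1 : ℝ) ≤ (Fintype.card S : ℝ) := by
    exact_mod_cast Fintype.card_pos
  have hr1 : 1 ≤ Real.sqrt (Fintype.card S) := by
    rw [Real.one_le_sqrt]
    exact hs1
  have hrs : Real.sqrt (Fintype.card S) * Real.sqrt (Fintype.card S) = (Fintype.card S : ℝ) :=
    Real.mul_self_sqrt (by linarith)
  set r : ℝ := Real.sqrt (Fintype.card S) with hr
  have hr0 : 0 < r := by linarith
  have h1 : ∀ l : Y → S, ind (1 / 2 * (X.card : ℝ) ≤ ∑ x ∈ X, ind (l x = g x)) ≤
      ∏ y, (if y ∈ X then (if l y = g y then r else r⁻¹) else 1) := by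
    intro l
    rw [Finset.prod_ite_mem, Finset.univ_inter, Finset.prod_ite, Finset.prod_const,
      Finset.prod_const]
    by_cases hp : 1 / 2 * (X.card : ℝ) ≤ ∑ x ∈ X, ind (l x = g x)
    · rw [ind_true hp]
      have h2 : ∑ x ∈ X, ind (l x = g x) = ((X.filter fun x => l x = g x).card : ℝ) := by
        rw [← Finset.sum_boole]
        rfl
      rw [h2] at hp
      have h3 : (X.filter fun x => l x = g x).card + (X.filter fun x => ¬ l x = g x).card =
          X.card := Finset.card_filter_add_card_filter_not _
      have h4 : (X.filter fun x => ¬ l x = g x).card ≤ (X.filter fun x => l x = g x).card := by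
        have h5 : ((X.filter fun x => l x = g x).card : ℝ) +
            ((X.filter fun x => ¬ l x = g x).card : ℝ) = X.card := by exact_mod_cast h3
        have h6 : ((X.filter fun x => ¬ l x = g x).card : ℝ) ≤
            ((X.filter fun x => l x = g x).card : ℝ) := by linarith
        exact_mod_cast h6
      have h7 := pow_le_pow_right₀ hr1 h4
      rw [inv_pow]
      have h8 : 0 < r ^ (X.filter fun x => ¬ l x = g x).card := pow_pos hr0 _
      rw [← div_eq_mul_inv, le_div_iff₀ h8, one_mul]
      exact h7
    · rw [ind_false hp]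
      positivity
  refine (mn_mono h1).trans ?_
  rw [mn_prod_fun (fun y t => if y ∈ X then (if t = g y then r else r⁻¹) else 1)]
  have h2 : ∀ y, mn (fun t => if y ∈ X then (if t = g y then r else r⁻¹) else 1) ≤
      (if y ∈ X then 2 / r else 1) := by
    intro y
    by_cases hy : y ∈ X
    · simp only [if_pos hy]
      have h3 : ∑ t : S, (if t = g y then r else r⁻¹) = (Fintype.card S : ℝ) * r⁻¹ +
          (r - r⁻¹) := by
        have h4 : ∀ t : S, (if t = g y then r else r⁻¹) =
            r⁻¹ + (if t = g y then r - r⁻¹ else 0) := by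
          intro t
          by_cases ht : t = g y
          · simp [ht]
          · simp [ht]
        rw [Finset.sum_congr rfl fun t _ => h4 t, Finset.sum_add_distrib, Finset.sum_const,
          Finset.card_univ, nsmul_eq_mul, Finset.sum_ite_eq' Finset.univ (g y),
          if_pos (Finset.mem_univ _)]
      rw [mn, h3, ← hrs]
      have h5 : (r * r)⁻¹ * (r * r * r⁻¹ + (r - r⁻¹)) = 2 / r - (r * r)⁻¹ * r⁻¹ := by
        field_simp
        ring
      rw [h5]
      have h6 : 0 ≤ (r * r)⁻¹ * r⁻¹ := by positivity
      linarith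
    · simp only [if_neg hy]
      exact (mn_const (1 : ℝ)).le
  have h3 : ∀ y, 0 ≤ mn (fun t => if y ∈ X then (if t = g y then r else r⁻¹) else 1) := by
    intro y
    refine mn_nonneg fun t => ?_
    split_ifs <;> positivity
  refine (Finset.prod_le_prod (fun y _ => h3 y) fun y _ => h2 y).trans ?_
  rw [Finset.prod_ite_mem, Finset.univ_inter, Finset.prod_const]

open Classical in
/-- The agreement of a random function at the orbit of `y0` with a given function at the orbit of a
point `y'` with the same stabilizer.

Proof. Let `g x = L (α p y')` for any `p` with `α p y0 = x`; this does not depend on `p` as the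
stabilizer of `y0` is contained in the stabilizer of `y'`. The agreement is the mean over `X` of
`ind (l x = g x)` (`mn_orb`); `cdh_hit`. -/
theorem cdh_agree {P Y S : Type} [Group P] [Fintype P] [Fintype Y] [Fintype S] [Nonempty S]
    (α : P →* Equiv.Perm Y) (y0 y' : Y) (X : Finset Y) (hX : ∀ z, z ∈ X ↔ ∃ p, α p y0 = z)
    (hst : ∀ p, α p y0 = y0 → α p y' = y') (L : Y → S) :
    mn (fun l : Y → S => ind (1 / 2 ≤ mn (fun p => ind (l (α p y0) = L (α p y'))))) ≤
      (2 / Real.sqrt (Fintype.card S)) ^ X.card := by
  have hg : ∀ x, ∃ c : S, ∀ p, α p y0 = x → L (α p y') = c := by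
    intro x
    by_cases hx : ∃ q, α q y0 = x
    · obtain ⟨q, hq⟩ := hx
      refine ⟨L (α q y'), fun p hp => ?_⟩
      have h1 : α (q⁻¹ * p) y0 = y0 := by
        rw [map_mul, Equiv.Perm.mul_apply, hp, ← hq, ← Equiv.Perm.mul_apply, ← map_mul,
          inv_mul_cancel, map_one, Equiv.Perm.one_apply]
      have h2 := hst _ h1
      have h3 : α p y' = α q y' := by
        rw [← h2]
        rw [← Equiv.Perm.mul_apply (α q), ← map_mul, mul_inv_cancel_left, h2]
      rw [h3]
    · exact ⟨L x, fun p hp => absurd ⟨p, hp⟩ hx⟩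
  choose g hg using hg
  have hc : (0 : ℝ) < X.card := by
    exact_mod_cast Finset.card_pos.2 ⟨y0, (hX y0).2 ⟨1, by simp⟩⟩
  refine (mn_mono fun l => ?_).trans (cdh_hit X g)
  refine ind_mono fun h => ?_
  have h1 : mn (fun p => ind (l (α p y0) = L (α p y'))) =
      (X.card : ℝ)⁻¹ * ∑ x ∈ X, ind (l x = g x) := by
    rw [← mn_orb α y0 X hX (fun x => ind (l x = g x))]
    congr 1
    funext p
    rw [hg _ p rfl]
  rw [h1, inv_mul_eq_div, le_div_iff₀ hc] at h
  exact h

end Pool.Agent.MPfe8e9bM
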