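import Mathlib
import Pool.Agent.Lib.MP_fe8e9b_al_M.Defs
import Pool.Agent.Lib.MP_fe8e9b_al_M.MnF

/-!
# MP_fe8e9b_al, groups of bounded height: codes: the variance of the agreement
-/

set_option autoImplicit false

open scoped BigOperators

namespace Pool.Agent.MPfe8e9bM

open Pool.Agent.MPfe8e9b Pool.Agent.MPfe8e9bA Pool.Agent.MPfe8e9bW Pool.Agent.MPfe8e9bV

open Classical in
private theorem cdv_one {S : Type} [Fintype S] [Nonempty S] (t0 : S) :
    mn (fun t : S => ind (t = t0)) = (Fintype.card S : ℝ)⁻¹ := by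
  unfold mn
  rw [Finset.sum_eq_single t0]
  · rw [ind_true rfl, mul_one]
  · intro t _ ht
    exact ind_false ht
  · intro h
    exact absurd (Finset.mem_univ _) h

private theorem cdv_comm {Y S : Type} (l : Y → S) (a b : Y) :
    ind (l a = l b) = ind (l b = l a) := by
  exact congrArg ind (propext eq_comm)

open Classical in
private theorem cdv_res {Y S : Type} [Fintype Y] [Fintype S] [Nonempty S] (a b c d : Y)
    (hab : a ≠ b) (hac : a ≠ c) (had : a ≠ d) :
    mn (fun l : Y → S => (ind (l a = l b) - (Fintype.card S : ℝ)⁻¹) *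
      (ind (l c = l d) - (Fintype.card S : ℝ)⁻¹)) = 0 := by
  rw [← mn_update _ a]
  have h : ∀ l : Y → S, mn (fun t => (ind (Function.update l a t a = Function.update l a t b) -
      (Fintype.card S : ℝ)⁻¹) * (ind (Function.update l a t c = Function.update l a t d) -
      (Fintype.card S : ℝ)⁻¹)) = 0 := by
    intro l
    simp only [Function.update_self, Function.update_of_ne (Ne.symm hab),
      Function.update_of_ne (Ne.symm hac), Function.update_of_ne (Ne.symm had)]
    rw [mn_mul_right, mn_sub, cdv_one, mn_const, sub_self, zero_mul]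
  rw [show (fun l : Y → S => mn (fun t => (ind (Function.update l a t a =
      Function.update l a t b) - (Fintype.card S : ℝ)⁻¹) * (ind (Function.update l a t c =
      Function.update l a t d) - (Fintype.card S : ℝ)⁻¹))) = fun _ => 0 from funext h, mn_const]

open Classical in
private theorem cdv_mean {Y S : Type} [Fintype Y] [Fintype S] [Nonempty S] (a b : Y)
    (hab : a ≠ b) : mn (fun l : Y → S => ind (l a = l b)) = (Fintype.card S : ℝ)⁻¹ := by
  rw [← mn_update _ a]
  have h : ∀ l : Y → S, mn (fun t => ind (Function.update l a t a = Function.update l a t b)) =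
      (Fintype.card S : ℝ)⁻¹ := by
    intro l
    simp only [Function.update_self, Function.update_of_ne (Ne.symm hab)]
    exact cdv_one _
  rw [show (fun l : Y → S => mn (fun t => ind (Function.update l a t a =
      Function.update l a t b))) = fun _ => (Fintype.card S : ℝ)⁻¹ from funext h, mn_const]

open Classical in
open Classical in
/-- Pairwise independence. For points `a ≠ b`, `c ≠ d` with different sets `{a, b}`, `{c, d}` the
centered agreement indicators of a random function are uncorrelated.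

Proof. One of the points `a`, `b` is not in `{c, d}` (otherwise the two sets are equal), or one of
the points `c`, `d` is not in `{a, b}`; say `a ∉ {c, d}` (the statement is symmetric). Resample `a`
(`mn_update`): for fixed `l` the second factor does not depend on `t = l a`, and
`mn_t (ind (t = l b) - 1 / card S) = 0` as `b ≠ a`. -/
theorem cdv_ind {Y S : Type} [Fintype Y] [Fintype S] [Nonempty S] (a b c d : Y) (hab : a ≠ b)
    (hcd : c ≠ d) (h : ¬ ((a = c ∧ b = d) ∨ (a = d ∧ b = c))) :
    mn (fun l : Y → S => (ind (l a = l b) - (Fintype.card S : ℝ)⁻¹) *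
      (ind (l c = l d) - (Fintype.card S : ℝ)⁻¹)) = 0 := by
  by_cases h1 : a ≠ c ∧ a ≠ d
  · exact cdv_res a b c d hab h1.1 h1.2
  · by_cases h2 : b ≠ c ∧ b ≠ d
    · have h3 := cdv_res (S := S) b a c d hab.symm h2.1 h2.2
      rw [← h3]
      refine congrArg mn (funext fun l => ?_)
      rw [cdv_comm l a b]
    · exfalso
      apply h
      by_cases h4 : a = c
      · left
        refine ⟨h4, ?_⟩
        by_contra h5
        exact h2 ⟨fun h6 => hab (h4.trans h6.symm), h5⟩
      · right
        have h7 : a = d := by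
          by_contra h8
          exact h1 ⟨h4, h8⟩
        refine ⟨h7, ?_⟩
        by_contra h5
        exact h2 ⟨h5, fun h6 => hab (h7.trans h6.symm)⟩

open Classical in
/-- The second moment of one centered indicator. Proof. `mn_l ind (l a = l b) = 1 / card S`
(resample `a`), so the mean is `1 / card S - (1 / card S)²`. -/
theorem cdv_sq {Y S : Type} [Fintype Y] [Fintype S] [Nonempty S] (a b : Y) (hab : a ≠ b) :
    mn (fun l : Y → S => (ind (l a = l b) - (Fintype.card S : ℝ)⁻¹) ^ 2) ≤
      (Fintype.card S : ℝ)⁻¹ := by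
  have h : ∀ l : Y → S, (ind (l a = l b) - (Fintype.card S : ℝ)⁻¹) ^ 2 =
      ind (l a = l b) * (1 - 2 * (Fintype.card S : ℝ)⁻¹) + ((Fintype.card S : ℝ)⁻¹) ^ 2 := by
    intro l
    by_cases h1 : l a = l b
    · rw [ind_true h1]
      ring
    · rw [ind_false h1]
      ring
  rw [show (fun l : Y → S => (ind (l a = l b) - (Fintype.card S : ℝ)⁻¹) ^ 2) =
    fun l => ind (l a = l b) * (1 - 2 * (Fintype.card S : ℝ)⁻¹) + ((Fintype.card S : ℝ)⁻¹) ^ 2
    from funext h, mn_add, mn_mul_right, cdv_mean a b hab, mn_const]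
  nlinarith [sq_nonneg ((Fintype.card S : ℝ)⁻¹)]

open Classical in
/-- The second moment of the agreement of two points `x ≠ x'` under the group, for a random
function.

Proof. Let `O` be the orbit of `(x, x')` in `Y × Y` (all pairs in it have different coordinates),
`f l = mn_p ind (l (α p x) = l (α p x'))`, the mean over `O` of `ind (l a = l b)` (`mn_orb` for
the action on pairs). So `f l - 1 / s` is the mean over `O` of the centered indicators `z (a, b)`,
and the second moment is `card O ^ (-2)` times the sum over pairs of elements of `O` of the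
correlations; for given `(a, b)` only `(a, b)` and `(b, a)` contribute (`cdv_ind`), each at most
`1 / s` (`cdv_sq`; `z (b, a) = z (a, b)`). So it is at most `2 / (card O * s)`, and
`card O ≥ card X`, `X` the orbit of `x` (the first coordinate maps `O` onto `X`). -/
theorem cdv_var {P Y S : Type} [Group P] [Fintype P] [Fintype Y] [Fintype S] [Nonempty S]
    (α : P →* Equiv.Perm Y) (x x' : Y) (hx : x ≠ x') (X : Finset Y)
    (hX : ∀ z, z ∈ X ↔ ∃ p, α p x = z) :
    mn (fun l : Y → S => (mn (fun p => ind (l (α p x) = l (α p x'))) -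
      (Fintype.card S : ℝ)⁻¹) ^ 2) ≤ 2 / ((X.card : ℝ) * Fintype.card S) := by
  let β : P →* Equiv.Perm (Y × Y) :=
    { toFun := fun p => Equiv.prodCongr (α p) (α p)
      map_one' := by
        ext o <;> simp
      map_mul' := fun p q => by
        ext o <;> simp }
  have hβ : ∀ p o, β p o = (α p o.1, α p o.2) := fun p o => rfl
  let O : Finset (Y × Y) := Finset.univ.image fun p : P => β p (x, x')
  have hO : ∀ o, o ∈ O ↔ ∃ p, β p (x, x') = o := by
    intro o
    simp [O]
  have hne : ∀ o ∈ O, o.1 ≠ o.2 := by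
    intro o ho
    obtain ⟨p, rfl⟩ := (hO o).1 ho
    rw [hβ]
    exact fun h => hx ((α p).injective h)
  have hO1 : (x, x') ∈ O := (hO _).2 ⟨1, by rw [map_one]; rfl⟩
  have hOc : (0 : ℝ) < O.card := by exact_mod_cast Finset.card_pos.2 ⟨_, hO1⟩
  have hXO : X.card ≤ O.card := by
    have h1 : X ⊆ O.image Prod.fst := by
      intro z hz
      obtain ⟨p, hp⟩ := (hX z).1 hz
      exact Finset.mem_image.2 ⟨β p (x, x'), (hO _).2 ⟨p, rfl⟩, hp⟩
    exact (Finset.card_le_card h1).trans Finset.card_image_le
  have hXc : (0 : ℝ) < X.card := by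
    exact_mod_cast Finset.card_pos.2 ⟨x, (hX x).2 ⟨1, by rw [map_one]; rfl⟩⟩
  have hS : (0 : ℝ) < Fintype.card S := by exact_mod_cast Fintype.card_pos
  set q : ℝ := (Fintype.card S : ℝ)⁻¹ with hq
  have hq0 : 0 < q := inv_pos.2 hS
  have hf : ∀ l : Y → S, mn (fun p => ind (l (α p x) = l (α p x'))) - q =
      (O.card : ℝ)⁻¹ * ∑ o ∈ O, (ind (l o.1 = l o.2) - q) := by
    intro l
    have h1 := mn_orb β (x, x') O hO (fun o => ind (l o.1 = l o.2))
    have h2 : (fun p => ind (l (β p (x, x')).1 = l (β p (x, x')).2)) =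
        fun p => ind (l (α p x) = l (α p x')) := rfl
    rw [h2] at h1
    rw [h1, Finset.sum_sub_distrib, Finset.sum_const, nsmul_eq_mul, mul_sub,
      inv_mul_cancel_left₀ hOc.ne']
  have hsq : ∀ l : Y → S, (mn (fun p => ind (l (α p x) = l (α p x'))) - q) ^ 2 =
      ((O.card : ℝ)⁻¹) ^ 2 * ∑ o ∈ O, ∑ o' ∈ O,
        (ind (l o.1 = l o.2) - q) * (ind (l o'.1 = l o'.2) - q) := by
    intro l
    rw [hf, mul_pow, pow_two (∑ o ∈ O, _), Finset.sum_mul_sum]
  rw [show (fun l : Y → S => (mn (fun p => ind (l (α p x) = l (α p x'))) - q) ^ 2) = _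
    from funext hsq, mn_mul_left, mn_sum]
  have hrow : ∀ o ∈ O, mn (fun l : Y → S => ∑ o' ∈ O,
      (ind (l o.1 = l o.2) - q) * (ind (l o'.1 = l o'.2) - q)) ≤ 2 * q := by
    intro o ho
    rw [mn_sum]
    have h1 : ∀ o' ∈ O, mn (fun l : Y → S => (ind (l o.1 = l o.2) - q) *
        (ind (l o'.1 = l o'.2) - q)) ≤ if o' = o ∨ o' = (o.2, o.1) then q else 0 := by
      intro o' ho'
      by_cases h2 : o' = o ∨ o' = (o.2, o.1)
      · rw [if_pos h2]
        have h3 : ∀ l : Y → S, (ind (l o.1 = l o.2) - q) * (ind (l o'.1 = l o'.2) - q) =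
            (ind (l o.1 = l o.2) - q) ^ 2 := by
          intro l
          rcases h2 with rfl | rfl
          · ring
          · rw [cdv_comm l (o.2, o.1).1 (o.2, o.1).2]
            ring
        rw [show (fun l : Y → S => (ind (l o.1 = l o.2) - q) * (ind (l o'.1 = l o'.2) - q)) = _
          from funext h3]
        exact cdv_sq o.1 o.2 (hne o ho)
      · rw [if_neg h2]
        refine le_of_eq (cdv_ind o.1 o.2 o'.1 o'.2 (hne o ho) (hne o' ho') fun h3 => h2 ?_)
        rcases h3 with ⟨h4, h5⟩ | ⟨h4, h5⟩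
        · exact Or.inl (Prod.ext h4.symm h5.symm)
        · exact Or.inr (Prod.ext h5.symm h4.symm)
    refine (Finset.sum_le_sum h1).trans ?_
    rw [← Finset.sum_filter, Finset.sum_const, nsmul_eq_mul]
    refine mul_le_mul_of_nonneg_right ?_ hq0.le
    have h6 : (O.filter fun o' => o' = o ∨ o' = (o.2, o.1)) ⊆ {o, (o.2, o.1)} := by
      intro o' ho'
      rw [Finset.mem_filter] at ho'
      simpa using ho'.2
    have h7 := (Finset.card_le_card h6).trans Finset.card_le_two
    exact_mod_cast h7
  have hsum := Finset.sum_le_sum hrow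
  rw [Finset.sum_const, nsmul_eq_mul] at hsum
  have h8 := mul_le_mul_of_nonneg_left hsum (by positivity : (0 : ℝ) ≤ ((O.card : ℝ)⁻¹) ^ 2)
  refine h8.trans ?_
  have h9 : ((O.card : ℝ)⁻¹) ^ 2 * ((O.card : ℝ) * (2 * q)) = 2 * q / O.card := by
    field_simp
  have h10 : 2 / ((X.card : ℝ) * Fintype.card S) = 2 * q / X.card := by
    rw [hq]
    field_simp
  rw [h9, h10]
  have h11 : (X.card : ℝ) ≤ O.card := by exact_mod_cast hXO
  exact div_le_div_of_nonneg_left (by positivity) hXc h11

open Classical in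
/-- Chebyshev. Proof. If the agreement is more than `1 / 2` then its difference to `1 / s` is at
least `1 / 4` (`s ≥ 4`), so `ind ≤ 16 (..)²`. -/
theorem cdv_cheb {P Y S : Type} [Group P] [Fintype P] [Fintype Y] [Fintype S] [Nonempty S]
    (hS : 4 ≤ Fintype.card S) (α : P →* Equiv.Perm Y) (x x' : Y) (hx : x ≠ x') (X : Finset Y)
    (hX : ∀ z, z ∈ X ↔ ∃ p, α p x = z) :
    mn (fun l : Y → S => ind (1 / 2 < mn (fun p => ind (l (α p x) = l (α p x'))))) ≤
      32 / ((X.card : ℝ) * Fintype.card S) := by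
  have hS0 : (4 : ℝ) ≤ Fintype.card S := by exact_mod_cast hS
  have hq : (Fintype.card S : ℝ)⁻¹ ≤ 1 / 4 := by
    rw [← one_div]
    exact one_div_le_one_div_of_le (by norm_num) hS0
  have h1 : ∀ l : Y → S, ind (1 / 2 < mn (fun p => ind (l (α p x) = l (α p x')))) ≤
      16 * (mn (fun p => ind (l (α p x) = l (α p x'))) - (Fintype.card S : ℝ)⁻¹) ^ 2 := by
    intro l
    by_cases h2 : 1 / 2 < mn (fun p => ind (l (α p x) = l (α p x')))
    · rw [ind_true h2]
      nlinarith
    · rw [ind_false h2]
      positivity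
  refine (mn_mono h1).trans ?_
  rw [mn_mul_left]
  have h3 := cdv_var α x x' hx X hX (S := S)
  have h4 : 32 / ((X.card : ℝ) * Fintype.card S) =
      16 * (2 / ((X.card : ℝ) * Fintype.card S)) := by ring
  rw [h4]
  exact mul_le_mul_of_nonneg_left h3 (by norm_num)

open Classical in
/-- One orbit: a random function has all agreements at most `1 / 2` on the orbit, with probability
at least `1 / 2`, if `card S ≥ 64`.

Proof. If there is a bad pair `x ≠ x'` in the orbit of `x0` then there is a bad pair with `x = x0`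
(the agreement of `(α q x, α q x')` is the agreement of `(x, x')`). Union bound over `x' ∈ X`,
`x' ≠ x0`, `cdv_cheb`: at most `card X * 32 / (card X * card S) ≤ 1 / 2`. -/
theorem cdv_orb {P Y S : Type} [Group P] [Fintype P] [Fintype Y] [Fintype S] [Nonempty S]
    (hS : 64 ≤ Fintype.card S) (α : P →* Equiv.Perm Y) (x0 : Y) (X : Finset Y)
    (hX : ∀ z, z ∈ X ↔ ∃ p, α p x0 = z) :
    mn (fun l : Y → S => ind (∃ x ∈ X, ∃ x' ∈ X, x ≠ x' ∧
      1 / 2 < mn (fun p => ind (l (α p x) = l (α p x'))))) ≤ 1 / 2 := by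
  have hS0 : (64 : ℝ) ≤ Fintype.card S := by exact_mod_cast hS
  have hx0 : x0 ∈ X := (hX x0).2 ⟨1, by rw [map_one]; rfl⟩
  have hXc : (0 : ℝ) < X.card := by exact_mod_cast Finset.card_pos.2 ⟨x0, hx0⟩
  have h1 : ∀ l : Y → S, ind (∃ x ∈ X, ∃ x' ∈ X, x ≠ x' ∧
      1 / 2 < mn (fun p => ind (l (α p x) = l (α p x')))) ≤
      ∑ y ∈ X, ind (y ≠ x0 ∧ 1 / 2 < mn (fun p => ind (l (α p x0) = l (α p y)))) := by
    intro l
    by_cases h2 : ∃ x ∈ X, ∃ x' ∈ X, x ≠ x' ∧
      1 / 2 < mn (fun p => ind (l (α p x) = l (α p x')))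
    · rw [ind_true h2]
      obtain ⟨x, hx, x', hx', hne, hag⟩ := h2
      obtain ⟨r, hr⟩ := (hX x).1 hx
      obtain ⟨r', hr'⟩ := (hX x').1 hx'
      have hy : α r⁻¹ x' ∈ X := (hX _).2 ⟨r⁻¹ * r', by rw [map_mul, Equiv.Perm.mul_apply, hr']⟩
      have hry : α r (α r⁻¹ x') = x' := by
        rw [← Equiv.Perm.mul_apply, ← map_mul, mul_inv_cancel, map_one]
        rfl
      have h3 : α r⁻¹ x' ≠ x0 := by
        intro h4
        apply hne
        rw [← hr, ← h4, hry]
      have h5 : mn (fun p => ind (l (α p x) = l (α p x'))) =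
          mn (fun p => ind (l (α p x0) = l (α p (α r⁻¹ x')))) := by
        rw [← mn_equiv (Equiv.mulRight r)
          (fun p => ind (l (α p x0) = l (α p (α r⁻¹ x'))))]
        refine congrArg mn (funext fun p => ?_)
        rw [Equiv.coe_mulRight, map_mul, Equiv.Perm.mul_apply, Equiv.Perm.mul_apply, hr, hry]
      have h6 : ind (α r⁻¹ x' ≠ x0 ∧
          1 / 2 < mn (fun p => ind (l (α p x0) = l (α p (α r⁻¹ x'))))) = 1 :=
        ind_true ⟨h3, by rw [← h5]; exact hag⟩
      refine h6.symm.le.trans ?_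
      exact Finset.single_le_sum (f := fun y => ind (y ≠ x0 ∧
        1 / 2 < mn (fun p => ind (l (α p x0) = l (α p y))))) (fun y _ => ind_nonneg _) hy
    · rw [ind_false h2]
      exact Finset.sum_nonneg fun y _ => ind_nonneg _
  refine (mn_mono h1).trans ?_
  rw [mn_sum]
  have h7 : ∀ y ∈ X, mn (fun l : Y → S => ind (y ≠ x0 ∧
      1 / 2 < mn (fun p => ind (l (α p x0) = l (α p y))))) ≤
      32 / ((X.card : ℝ) * Fintype.card S) := by
    intro y _
    by_cases hy : y = x0
    · have h8 : ∀ l : Y → S, ind (y ≠ x0 ∧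
          1 / 2 < mn (fun p => ind (l (α p x0) = l (α p y)))) = 0 :=
        fun l => ind_false fun h9 => h9.1 hy
      rw [show (fun l : Y → S => ind (y ≠ x0 ∧
        1 / 2 < mn (fun p => ind (l (α p x0) = l (α p y))))) = fun _ => 0 from funext h8,
        mn_const]
      positivity
    · refine (mn_mono fun l => ind_mono fun h9 => h9.2).trans ?_
      exact cdv_cheb (by omega) α x0 y (Ne.symm hy) X hX
  refine (Finset.sum_le_sum h7).trans ?_
  rw [Finset.sum_const, nsmul_eq_mul]
  have h10 : (X.card : ℝ) * (32 / ((X.card : ℝ) * Fintype.card S)) = 32 / Fintype.card S := by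
    field_simp
  rw [h10, div_le_iff₀ (by linarith)]
  linarith

end Pool.Agent.MPfe8e9bM
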