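import Mathlib
import Pool.Agent.Lib.MP_fe8e9b_al_M.Defs
import Pool.Agent.Lib.MP_fe8e9b_al_M.MnF
import Pool.Agent.Lib.MP_fe8e9b_al_M.CdV
import Pool.Agent.Lib.MP_fe8e9b_al_M.CdH

/-!
# MP_fe8e9b_al, groups of bounded height: codes
-/

set_option autoImplicit false

open scoped BigOperators

namespace Pool.Agent.MPfe8e9bM

open Pool.Agent.MPfe8e9b Pool.Agent.MPfe8e9bA Pool.Agent.MPfe8e9bW Pool.Agent.MPfe8e9bV

private theorem code_inv1 {Y : Type} (e : Equiv.Perm Y) (y : Y) : e (e⁻¹ y) = y :=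
  Equiv.apply_symm_apply e y

private theorem code_inv2 {Y : Type} (e : Equiv.Perm Y) (y : Y) : e⁻¹ (e y) = y :=
  Equiv.symm_apply_apply e y

private theorem code_mn_symm {P Y S : Type} [Group P] [Fintype P] (α : P →* Equiv.Perm Y)
    (L : Y → S) (y y' : Y) :
    mn (fun p => ind (L (α p y) = L (α p y'))) = mn (fun p => ind (L (α p y') = L (α p y))) := by
  congr 1
  funext p
  exact congrArg ind (propext eq_comm)

private theorem code_shift {P Y S : Type} [Group P] [Fintype P] (α : P →* Equiv.Perm Y)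
    (l L : Y → S) (y0 y' : Y) (q : P) :
    mn (fun p => ind (l (α p (α q y0)) = L (α p y'))) =
      mn (fun p => ind (l (α p y0) = L (α p (α q⁻¹ y')))) := by
  rw [← mn_equiv (Equiv.mulRight q) (fun p => ind (l (α p y0) = L (α p (α q⁻¹ y'))))]
  congr 1
  funext p
  have h1 : α (Equiv.mulRight q p) y0 = α p (α q y0) := by
    rw [Equiv.coe_mulRight, map_mul, Equiv.Perm.mul_apply]
  have h2 : α (Equiv.mulRight q p) (α q⁻¹ y') = α p y' := by
    rw [Equiv.coe_mulRight, map_mul, Equiv.Perm.mul_apply, map_inv, code_inv1]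
  rw [h1, h2]

open Classical in
/-- The choice of the random function: no bad event. -/
private theorem code_choice {P Y S : Type} [Group P] [Fintype P] [Fintype Y] [Fintype S]
    [Nonempty S] (α : P →* Equiv.Perm Y) (B : ℕ) (hB1 : 1 ≤ B)
    (hS : 64 * B ^ 2 ≤ Fintype.card S) (y0 : Y) (X : Finset Y)
    (hX : ∀ z, z ∈ X ↔ ∃ p, α p y0 = z) (T : Finset Y) (hT : T.card ≤ B ^ X.card)
    (hst : ∀ y' ∈ T, ∀ p, α p y0 = y0 → α p y' = y') (L : Y → S) :
    ∃ l : Y → S, (∀ x ∈ X, ∀ x' ∈ X, x ≠ x' →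
      mn (fun p => ind (l (α p x) = l (α p x'))) ≤ 1 / 2) ∧
      ∀ y' ∈ T, mn (fun p => ind (l (α p y0) = L (α p y'))) < 1 / 2 := by
  by_contra hcon
  push Not at hcon
  have hs : 64 ≤ Fintype.card S := by
    have : 1 ≤ B ^ 2 := Nat.one_le_pow _ _ hB1
    omega
  have h1 : ∀ l : Y → S, (1 : ℝ) ≤ ind (∃ x ∈ X, ∃ x' ∈ X, x ≠ x' ∧
      1 / 2 < mn (fun p => ind (l (α p x) = l (α p x')))) +
      ∑ y' ∈ T, ind (1 / 2 ≤ mn (fun p => ind (l (α p y0) = L (α p y')))) := by
    intro l
    by_cases hb : ∃ x ∈ X, ∃ x' ∈ X, x ≠ x' ∧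
      1 / 2 < mn (fun p => ind (l (α p x) = l (α p x')))
    · rw [ind_true hb]
      have : 0 ≤ ∑ y' ∈ T, ind (1 / 2 ≤ mn (fun p => ind (l (α p y0) = L (α p y')))) :=
        Finset.sum_nonneg fun y' _ => ind_nonneg _
      linarith
    · rw [ind_false hb]
      have hb' : ∀ x ∈ X, ∀ x' ∈ X, x ≠ x' →
          mn (fun p => ind (l (α p x) = l (α p x'))) ≤ 1 / 2 := by
        intro x hx x' hx' hne
        by_contra hlt
        exact hb ⟨x, hx, x', hx', hne, not_le.1 hlt⟩
      obtain ⟨y', hy', hle⟩ := hcon l hb'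
      have h2 : ind (1 / 2 ≤ mn (fun p => ind (l (α p y0) = L (α p y')))) ≤
          ∑ y' ∈ T, ind (1 / 2 ≤ mn (fun p => ind (l (α p y0) = L (α p y')))) :=
        Finset.single_le_sum
          (f := fun y' => ind (1 / 2 ≤ mn (fun p => ind (l (α p y0) = L (α p y')))))
          (fun y' _ => ind_nonneg _) hy'
      rw [ind_true hle] at h2
      linarith
  have h2 := le_mn h1
  rw [mn_add, mn_sum] at h2
  have h3 := cdv_orb (S := S) hs α y0 X hX
  have h4 : ∑ y' ∈ T, mn (fun l : Y → S =>
      ind (1 / 2 ≤ mn (fun p => ind (l (α p y0) = L (α p y'))))) ≤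
      ∑ _y' ∈ T, (2 / Real.sqrt (Fintype.card S)) ^ X.card :=
    Finset.sum_le_sum fun y' hy' => cdh_agree α y0 y' X hX (hst y' hy') L
  rw [Finset.sum_const, nsmul_eq_mul] at h4
  have hBpos : (0 : ℝ) < B := by exact_mod_cast hB1
  have hsq : 8 * (B : ℝ) ≤ Real.sqrt (Fintype.card S) := by
    apply Real.le_sqrt_of_sq_le
    have : ((64 * B ^ 2 : ℕ) : ℝ) ≤ Fintype.card S := by exact_mod_cast hS
    push_cast at this
    nlinarith
  have hsqpos : 0 < Real.sqrt (Fintype.card S) := by nlinarith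
  have h5 : (T.card : ℝ) * (2 / Real.sqrt (Fintype.card S)) ^ X.card ≤ 1 / 4 := by
    have h6 : (T.card : ℝ) ≤ (B : ℝ) ^ X.card := by exact_mod_cast hT
    have h7 : (T.card : ℝ) * (2 / Real.sqrt (Fintype.card S)) ^ X.card ≤
        (B : ℝ) ^ X.card * (2 / Real.sqrt (Fintype.card S)) ^ X.card :=
      mul_le_mul_of_nonneg_right h6 (by positivity)
    rw [← mul_pow] at h7
    have h8 : (B : ℝ) * (2 / Real.sqrt (Fintype.card S)) ≤ 1 / 4 := by
      rw [mul_div_assoc', div_le_iff₀ hsqpos]
      linarith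
    have h9 : 0 ≤ (B : ℝ) * (2 / Real.sqrt (Fintype.card S)) := by positivity
    have hX1 : X.card ≠ 0 := by
      have : y0 ∈ X := (hX y0).2 ⟨1, by rw [map_one, Equiv.Perm.one_apply]⟩
      exact Finset.card_ne_zero_of_mem this
    have h10 : ((B : ℝ) * (2 / Real.sqrt (Fintype.card S))) ^ X.card ≤
        (B : ℝ) * (2 / Real.sqrt (Fintype.card S)) := by
      have := pow_le_pow_of_le_one h9 (h8.trans (by norm_num)) (Nat.one_le_iff_ne_zero.2 hX1)
      rwa [pow_one] at this
    linarith
  linarith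

/-- The greedy construction: labels with agreement at most `1 / 2` for all pairs of points which are
in the same orbit or have the same stabilizer.

Proof. Strong induction on the cardinality of an invariant finite set `U`: there is `L : Y → S` with
the property for all `y ≠ y'` in `U`. Empty: any `L`. Let `y0 ∈ U`, `X` its orbit, `U' = U \ X`
(invariant), `L` for `U'`. Take a random `l : Y → S`. Bad events: (1) that of `cdv_orb`,
probability at most `1 / 2`; (2) for some `y'` in `U'` with the same stabilizer as `y0`: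
`1 / 2 ≤ agreement of l at y0 with L at y'`, probability at most
`B ^ card X * (2 / √s) ^ card X = (2 B / √s) ^ card X ≤ 2 B / √s ≤ 1 / 4` (`hB`, `cdh_agree`,
`s ≥ 64 B²`, `card X ≥ 1`). So some `l` is not bad; put `L' = l` on `X` and `L' = L` outside. For
pairs in `X`: (1). For pairs `y ∈ X`, `y' ∈ U'` with the same stabilizer, `y = α q y0`: replace the
pair by `(y0, α q⁻¹ y')` (same agreement, the stabilizers are conjugate by the same element): (2).
Pairs in `U'`: unchanged. Symmetry of the agreement. -/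
theorem code_greedy {P Y S : Type} [Group P] [Fintype P] [Fintype Y] [Fintype S]
    (α : P →* Equiv.Perm Y) (B : ℕ) (hB1 : 1 ≤ B)
    (hB : ∀ y, Nat.card {y' // ∀ p, α p y' = y' ↔ α p y = y} ≤
      B ^ Nat.card {x // ∃ p, α p y = x}) (hS : 64 * B ^ 2 ≤ Fintype.card S) :
    ∃ L : Y → S, ∀ y y', y ≠ y' → ((∃ p, α p y = y') ∨ ∀ p, α p y' = y' ↔ α p y = y) →
      mn (fun p => ind (L (α p y) = L (α p y'))) ≤ 1 / 2 := by
  classical
  have hs : 64 ≤ Fintype.card S := by
    have : 1 ≤ B ^ 2 := Nat.one_le_pow _ _ hB1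
    omega
  have : Nonempty S := Fintype.card_pos_iff.1 (by omega)
  have H : ∀ (n : ℕ) (U : Finset Y), U.card ≤ n → (∀ y ∈ U, ∀ p, α p y ∈ U) →
      ∃ L : Y → S, ∀ y ∈ U, ∀ y' ∈ U, y ≠ y' →
        ((∃ p, α p y = y') ∨ ∀ p, α p y' = y' ↔ α p y = y) →
        mn (fun p => ind (L (α p y) = L (α p y'))) ≤ 1 / 2 := by
    intro n
    induction n with
    | zero =>
      intro U hU _
      have hU0 : U = ∅ := Finset.card_eq_zero.1 (Nat.le_zero.1 hU)
      refine ⟨fun _ => Classical.arbitrary S, fun y hy => ?_⟩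
      rw [hU0] at hy
      exact absurd hy (Finset.notMem_empty y)
    | succ n ih =>
      intro U hU hinv
      by_cases hne : U.Nonempty
      swap
      · rw [Finset.not_nonempty_iff_eq_empty] at hne
        refine ⟨fun _ => Classical.arbitrary S, fun y hy => ?_⟩
        rw [hne] at hy
        exact absurd hy (Finset.notMem_empty y)
      obtain ⟨y0, hy0⟩ := hne
      obtain ⟨X, hX⟩ : ∃ X : Finset Y, ∀ z, z ∈ X ↔ ∃ p, α p y0 = z :=
        ⟨Finset.univ.filter (fun z => ∃ p, α p y0 = z), fun z => by simp⟩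
      have hy0X : y0 ∈ X := (hX y0).2 ⟨1, by rw [map_one, Equiv.Perm.one_apply]⟩
      have hXinv : ∀ x ∈ X, ∀ p, α p x ∈ X := by
        intro x hx p
        obtain ⟨q, rfl⟩ := (hX x).1 hx
        exact (hX _).2 ⟨p * q, by rw [map_mul, Equiv.Perm.mul_apply]⟩
      have hXout : ∀ x, x ∉ X → ∀ p, α p x ∉ X := by
        intro x hx p h
        refine hx ?_
        have := hXinv _ h p⁻¹
        rwa [map_inv, code_inv2] at this
      have hU'inv : ∀ y ∈ U \ X, ∀ p, α p y ∈ U \ X := by
        intro y hy p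
        rw [Finset.mem_sdiff] at hy ⊢
        exact ⟨hinv y hy.1 p, hXout y hy.2 p⟩
      have hcard : (U \ X).card ≤ n := by
        have : (U \ X).card < U.card :=
          Finset.card_lt_card (Finset.ssubset_iff_subset_ne.2 ⟨Finset.sdiff_subset, fun h => by
            have h1 : y0 ∈ U \ X := by rw [h]; exact hy0
            exact (Finset.mem_sdiff.1 h1).2 hy0X⟩)
        omega
      obtain ⟨L, hL⟩ := ih (U \ X) hcard hU'inv
      have hTc : ((U \ X).filter (fun y' => ∀ p, α p y' = y' ↔ α p y0 = y0)).card ≤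
          B ^ X.card := by
        have h1 := hB y0
        have h2 : Nat.card {x // ∃ p, α p y0 = x} = X.card := by
          rw [Nat.card_eq_fintype_card, Fintype.card_of_subtype X (fun x => hX x)]
        rw [h2] at h1
        refine le_trans ?_ h1
        rw [Nat.card_eq_fintype_card, Fintype.card_subtype]
        refine Finset.card_le_card fun y' hy' => ?_
        rw [Finset.mem_filter] at hy' ⊢
        exact ⟨Finset.mem_univ _, hy'.2⟩
      obtain ⟨l, hl1, hl2⟩ := code_choice α B hB1 hS y0 X hX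
        ((U \ X).filter (fun y' => ∀ p, α p y' = y' ↔ α p y0 = y0)) hTc
        (fun y' hy' p hp => ((Finset.mem_filter.1 hy').2 p).2 hp) L
      -- mixed pairs
      have hmix : ∀ y ∈ X, ∀ y' ∈ U \ X, (∀ p, α p y' = y' ↔ α p y = y) →
          mn (fun p => ind (l (α p y) = L (α p y'))) ≤ 1 / 2 := by
        intro y hy y' hy' hst
        obtain ⟨q, rfl⟩ := (hX y).1 hy
        rw [code_shift]
        refine (hl2 (α q⁻¹ y') ?_).le
        rw [Finset.mem_filter]
        refine ⟨hU'inv y' hy' q⁻¹, fun p => ?_⟩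
        have h1 : α p (α q⁻¹ y') = α q⁻¹ y' ↔ α (q * p * q⁻¹) y' = y' := by
          rw [map_mul, map_mul, Equiv.Perm.mul_apply, Equiv.Perm.mul_apply, map_inv,
            Equiv.Perm.eq_inv_iff_eq]
        have h2 : α (q * p * q⁻¹) (α q y0) = α q y0 ↔ α p y0 = y0 := by
          rw [map_mul, map_mul, Equiv.Perm.mul_apply, Equiv.Perm.mul_apply, map_inv,
            code_inv2]
          exact (α q).injective.eq_iff
        rw [h1, hst, h2]
      refine ⟨fun y => if y ∈ X then l y else L y, ?_⟩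
      have hin : ∀ y ∈ X, ∀ p, (if α p y ∈ X then l (α p y) else L (α p y)) = l (α p y) :=
        fun y hy p => if_pos (hXinv y hy p)
      have hout : ∀ y, y ∉ X → ∀ p,
          (if α p y ∈ X then l (α p y) else L (α p y)) = L (α p y) :=
        fun y hy p => if_neg (hXout y hy p)
      intro y hy y' hy' hne hor
      by_cases hyX : y ∈ X <;> by_cases hyX' : y' ∈ X
      · simp only [hin y hyX, hin y' hyX']
        exact hl1 y hyX y' hyX' hne
      · simp only [hin y hyX, hout y' hyX']
        rcases hor with ⟨p, hp⟩ | hst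
        · exact absurd (hp ▸ hXinv y hyX p) hyX'
        · exact hmix y hyX y' (Finset.mem_sdiff.2 ⟨hy', hyX'⟩) hst
      · simp only [hout y hyX, hin y' hyX']
        rcases hor with ⟨p, hp⟩ | hst
        · exact absurd hyX' (hp ▸ hXout y hyX p)
        · have h1 := hmix y' hyX' y (Finset.mem_sdiff.2 ⟨hy, hyX⟩) (fun p => (hst p).symm)
          refine le_of_eq_of_le ?_ h1
          congr 1
          funext p
          exact congrArg ind (propext eq_comm)
      · simp only [hout y hyX, hout y' hyX']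
        exact hL y (Finset.mem_sdiff.2 ⟨hy, hyX⟩) y' (Finset.mem_sdiff.2 ⟨hy', hyX'⟩) hne hor
  obtain ⟨L, hL⟩ := H (Finset.univ : Finset Y).card Finset.univ le_rfl
    (fun y _ p => Finset.mem_univ _)
  exact ⟨L, fun y y' hne hor => hL y (Finset.mem_univ _) y' (Finset.mem_univ _) hne hor⟩

private theorem code_stab {P Y S : Type} [Group P] [Fintype P] (α : P →* Equiv.Perm Y)
    (L : Y → S) (hL : ∀ y y', y ≠ y' → ((∃ p, α p y = y') ∨ ∀ p, α p y' = y' ↔ α p y = y) →
      mn (fun p => ind (L (α p y) = L (α p y'))) ≤ 1 / 2) (y y' : Y) (d : P)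
    (h1 : α d y = y) (h2 : α d y' ≠ y') :
    mn (fun p => ind (L (α p y) = L (α p y'))) ≤ 3 / 4 := by
  have h3 : mn (fun p => ind (L (α p y') = L (α p (α d y')))) ≤ 1 / 2 :=
    hL y' (α d y') (Ne.symm h2) (Or.inl ⟨d, rfl⟩)
  have h4 : mn (fun p => ind (L (α (p * d) y) = L (α (p * d) y'))) =
      mn (fun p => ind (L (α p y) = L (α p y'))) := by
    rw [← mn_equiv (Equiv.mulRight d) (fun p => ind (L (α p y) = L (α p y')))]
    rfl
  have h5 : mn (fun p => ind (L (α p y) = L (α p y')) +
      ind (L (α (p * d) y) = L (α (p * d) y')) - 1) ≤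
      mn (fun p => ind (L (α p y') = L (α p (α d y')))) := by
    refine mn_mono fun p => ?_
    have h6 : α (p * d) y = α p y := by rw [map_mul, Equiv.Perm.mul_apply, h1]
    have h7 : α (p * d) y' = α p (α d y') := by rw [map_mul, Equiv.Perm.mul_apply]
    rw [h6, h7]
    by_cases ha : L (α p y) = L (α p y')
    · by_cases hb : L (α p y) = L (α p (α d y'))
      · rw [ind_true ha, ind_true hb, ind_true (ha.symm.trans hb)]
        norm_num
      · rw [ind_true ha, ind_false hb]
        have := ind_nonneg (L (α p y') = L (α p (α d y')))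
        linarith
    · rw [ind_false ha]
      have := ind_nonneg (L (α p y') = L (α p (α d y')))
      have := ind_le_one (L (α p y) = L (α p (α d y')))
      linarith
  rw [mn_sub, mn_add, h4, mn_const] at h5
  linarith

/-- The code: all agreements are at most `3 / 4`.

Proof. `code_greedy`. Let `y ≠ y'` be in different orbits with different stabilizers; say `d` fixes
`y` but not `y'` (otherwise exchange them). `y'` and `α d y'` are different points of one orbit.
`ind (L (α p y) = L (α p y')) * ind (L (α (p d) y) = L (α (p d) y')) ≤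
ind (L (α p y') = L (α p (α d y')))` (as `α (p d) y = α p y`), whose mean is at most `1 / 2`; the
mean of the product of the two indicators is at least `1 - 2 (1 - a)`, `a` the agreement
(`x y ≥ x + y - 1` for `x, y ∈ {0, 1}`, and the mean of the shifted function is the mean,
`mn_equiv (Equiv.mulRight d)`). So `2 a - 1 ≤ 1 / 2`. -/
theorem code {P Y S : Type} [Group P] [Fintype P] [Fintype Y] [Fintype S]
    (α : P →* Equiv.Perm Y) (B : ℕ) (hB1 : 1 ≤ B)
    (hB : ∀ y, Nat.card {y' // ∀ p, α p y' = y' ↔ α p y = y} ≤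
      B ^ Nat.card {x // ∃ p, α p y = x}) (hS : 64 * B ^ 2 ≤ Fintype.card S) :
    ∃ L : Y → S, ∀ y y', y ≠ y' → mn (fun p => ind (L (α p y) = L (α p y'))) ≤ 3 / 4 := by
  obtain ⟨L, hL⟩ := code_greedy α B hB1 hB hS
  refine ⟨L, fun y y' hne => ?_⟩
  by_cases hor : (∃ p, α p y = y') ∨ ∀ p, α p y' = y' ↔ α p y = y
  · exact (hL y y' hne hor).trans (by norm_num)
  · push Not at hor
    obtain ⟨_, d, hd⟩ := hor
    rcases hd with ⟨h1, h2⟩ | ⟨h1, h2⟩
    · rw [code_mn_symm]
      exact code_stab α L hL y' y d h1 h2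
    · exact code_stab α L hL y y' d h2 h1

end Pool.Agent.MPfe8e9bM
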