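import Mathlib
import Pool.Agent.Lib.MP_fe8e9b_al_M.Defs
import Pool.Agent.Lib.MP_fe8e9b_al_W.Fr

/-!
# MP_fe8e9b_al, groups of bounded height: the data of a layer
-/

set_option autoImplicit false

open scoped BigOperators

namespace Pool.Agent.MPfe8e9bM

open Pool.Agent.MPfe8e9b Pool.Agent.MPfe8e9bA Pool.Agent.MPfe8e9bW Pool.Agent.MPfe8e9bV

open Classical in
/-- The elements of type `k` with coordinates in `T0 k`. -/
noncomputable def u0 {G K : Type} [Group G] {Y T : K → Type} [∀ k, Group (T k)]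
    (Ψ : (∀ k, Y k → T k) →* G) (T0 : ∀ k, Subgroup (T k)) (k : K) : (Y k → T0 k) →* G where
  toFun u := Ψ (Pi.mulSingle k fun y => (u y : T k))
  map_one' := by
    have : (Pi.mulSingle k (fun y => ((1 : Y k → T0 k) y : T k)) : ∀ k, Y k → T k) = 1 :=
      Pi.mulSingle_one k
    rw [this, map_one]
  map_mul' u u' := by
    have : (Pi.mulSingle k (fun y => ((u * u') y : T k)) : ∀ k, Y k → T k) =
        Pi.mulSingle k (fun y => (u y : T k)) * Pi.mulSingle k (fun y => (u' y : T k)) := by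
      rw [← Pi.mulSingle_mul]
      rfl
    rw [this, map_mul]

/-- The functions of the labels. -/
def phi {K : Type} {Y S T : K → Type} [∀ k, Group (T k)] (lab : ∀ k, Y k → S k) :
    (∀ k, S k → T k) →* (∀ k, Y k → T k) where
  toFun f := fun k y => f k (lab k y)
  map_one' := rfl
  map_mul' _ _ := rfl

/-- The data of a layer: the normal subgroup is the range of `Ψ`, `H` is a supplement, `T0 k` are
subgroups on which the intersection of `H` with the normal subgroup acts trivially. -/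
structure LD {G K : Type} [Group G] {Y T : K → Type} [∀ k, Group (T k)] (C : ℕ)
    (Ψ : (∀ k, Y k → T k) →* G) (T0 : ∀ k, Subgroup (T k)) (H : Subgroup G) : Prop where
  nml : Ψ.range.Normal
  cov : ∀ g : G, ∃ h ∈ H, ∃ n ∈ Ψ.range, g = h * n
  cmA : ∀ a ∈ H, a ∈ Ψ.range → ∀ k (u : Y k → T0 k), a * u0 Ψ T0 k u = u0 Ψ T0 k u * a
  nrm : ∀ h ∈ H, ∀ k, ∃ e : (Y k → T0 k) ≃ (Y k → T0 k),
    ∀ u, h * u0 Ψ T0 k u * h⁻¹ = u0 Ψ T0 k (e u)
  prd : ∃ c : Fin C → ∀ k, T k, ∀ k (t : T k), ∃ x : Fin C → T0 k,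
    t = (List.ofFn fun j => c j k * (x j : T k) * (c j k)⁻¹).prod

/-- The estimate for every type. -/
def Est {G K : Type} [Group G] [Fintype G] {Y S T : K → Type} [∀ k, Fintype (Y k)]
    [∀ k, Fintype (S k)] [∀ k, Group (T k)] (Ψ : (∀ k, Y k → T k) →* G)
    (T0 : ∀ k, Subgroup (T k)) [∀ k, Fintype (T0 k)] (H : Subgroup G)
    (lab : ∀ k, Y k → S k) (κ : ℝ) : Prop :=
  ∀ (k : K) (x : EuclideanSpace ℂ (G × G)), (∀ h ∈ H, ad G h x = x) →
    κ * ‖x - Al ((lm G).comp (u0 Ψ T0 k)) Finset.univ (fun y : Y k => y) x‖ ^ 2 ≤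
      ‖x - Al ((lm G).comp (u0 Ψ T0 k)) Finset.univ (lab k) x‖ ^ 2

end Pool.Agent.MPfe8e9bM
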