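import Mathlib
import Pool.Agent.Lib.MP_fe8e9b_al_M.Defs
import Pool.Agent.Lib.MP_fe8e9b_al_M.CmpD
import Pool.Agent.Lib.MP_fe8e9b_al_M.CmpB

/-!
# MP_fe8e9b_al, groups of bounded height: the product homomorphism
-/

set_option autoImplicit false

open scoped BigOperators

namespace Pool.Agent.MPfe8e9bM

open Pool.Agent.MPfe8e9b Pool.Agent.MPfe8e9bA Pool.Agent.MPfe8e9bW Pool.Agent.MPfe8e9bV

open Classical in
theorem psix_ind {J : Type} [Finite J] {N : J → Type} [∀ j, Group (N j)]
    (P : (∀ j, N j) → Prop) (h1 : P 1) (hmul : ∀ u u', P u → P u' → P (u * u'))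
    (hs : ∀ (j : J) (t : N j), P (Pi.mulSingle j t)) (u : ∀ j, N j) : P u := by
  have key : ∀ (U : Finset J) (u : ∀ j, N j), (∀ j, j ∉ U → u j = 1) → P u := by
    intro U
    induction U using Finset.induction_on with
    | empty =>
      intro u hu
      have : u = 1 := funext fun j => hu j (Finset.notMem_empty j)
      rw [this]
      exact h1
    | insert a U ha ih =>
      intro u hu
      have e : u = Function.update u a 1 * Pi.mulSingle a (u a) := by
        funext j
        rw [Pi.mul_apply]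
        by_cases hj : j = a
        · subst hj
          rw [Function.update_self, Pi.mulSingle_eq_same, one_mul]
        · rw [Function.update_of_ne hj, Pi.mulSingle_eq_of_ne hj, mul_one]
      rw [e]
      refine hmul _ _ (ih _ fun j hj => ?_) (hs a (u a))
      by_cases hja : j = a
      · subst hja
        rw [Function.update_self]
      · rw [Function.update_of_ne hja]
        refine hu j fun h => ?_
        rcases Finset.mem_insert.1 h with h | h
        · exact hja h
        · exact hj h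
  have : Fintype J := Fintype.ofFinite J
  exact key Finset.univ u fun j hj => absurd (Finset.mem_univ j) hj

open Classical in
theorem psix_cur {K : Type} {Y T : K → Type} [∀ k, Group (T k)] (k : K) (y : Y k) (t : T k) :
    (fun p : (Σ k, Y k) => (Pi.mulSingle k (Pi.mulSingle y t) : ∀ k, Y k → T k) p.1 p.2) =
      (Pi.mulSingle (⟨k, y⟩ : Σ k, Y k) t : ∀ p : (Σ k, Y k), T p.1) := by
  funext p
  obtain ⟨k', y'⟩ := p
  by_cases hk : k' = k
  · subst hk
    show (Pi.mulSingle k' (Pi.mulSingle y t) : ∀ k, Y k → T k) k' y' = _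
    rw [Pi.mulSingle_eq_same]
    by_cases hy : y' = y
    · subst hy
      rw [Pi.mulSingle_eq_same]
      exact (Pi.mulSingle_eq_same (M := fun p : (Σ k, Y k) => T p.1)
        (⟨k', y'⟩ : Σ k, Y k) t).symm
    · rw [Pi.mulSingle_eq_of_ne hy]
      have hne : (⟨k', y'⟩ : Σ k, Y k) ≠ ⟨k', y⟩ := by
        intro h
        apply hy
        simpa using h
      exact (Pi.mulSingle_eq_of_ne (M := fun p : (Σ k, Y k) => T p.1) hne t).symm
  · show (Pi.mulSingle k (Pi.mulSingle y t) : ∀ k, Y k → T k) k' y' = _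
    rw [Pi.mulSingle_eq_of_ne hk]
    have hne : (⟨k', y'⟩ : Σ k, Y k) ≠ ⟨k, y⟩ := by
      intro h
      exact hk (congrArg Sigma.fst h)
    exact (Pi.mulSingle_eq_of_ne (M := fun p : (Σ k, Y k) => T p.1) hne t).symm

open Classical in
/-- The product homomorphism.

Proof. `MonoidHom.noncommPiCoprod` for the family of the homomorphisms `ι p.1 p.2` indexed by
`p : Σ k, Y k` (a finite type), composed with the isomorphism
`(∀ k, Y k → T k) ≃* ∀ p : Σ k, Y k, T p.1` (currying). `MonoidHom.noncommPiCoprod_mulSingle`. -/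
theorem psi_ex {G K : Type} [Group G] [Finite K] (Y T : K → Type) [∀ k, Finite (Y k)]
    [∀ k, Group (T k)] (ι : ∀ k, Y k → (T k →* G))
    (hc : ∀ p q : (Σ k, Y k), p ≠ q → ∀ (t : T p.1) (t' : T q.1),
      ι p.1 p.2 t * ι q.1 q.2 t' = ι q.1 q.2 t' * ι p.1 p.2 t) :
    ∃ Ψ : (∀ k, Y k → T k) →* G, ∀ k y t,
      Ψ (Pi.mulSingle k (Pi.mulSingle y t)) = ι k y t := by
  have : Fintype (Σ k, Y k) := Fintype.ofFinite _
  have hcomm : Pairwise fun p q : (Σ k, Y k) => ∀ (t : T p.1) (t' : T q.1),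
      Commute (ι p.1 p.2 t) (ι q.1 q.2 t') := fun p q hpq t t' => hc p q hpq t t'
  let cur : (∀ k, Y k → T k) →* (∀ p : (Σ k, Y k), T p.1) :=
    { toFun := fun u p => u p.1 p.2
      map_one' := rfl
      map_mul' := fun _ _ => rfl }
  refine ⟨(MonoidHom.noncommPiCoprod (fun p : (Σ k, Y k) => ι p.1 p.2) hcomm).comp cur,
    fun k y t => ?_⟩
  rw [MonoidHom.comp_apply]
  have e : cur (Pi.mulSingle k (Pi.mulSingle y t)) =
      (Pi.mulSingle (⟨k, y⟩ : Σ k, Y k) t : ∀ p : (Σ k, Y k), T p.1) := psix_cur k y t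
  rw [e, MonoidHom.noncommPiCoprod_mulSingle]

open Classical in
/-- Induction over the elements of the product. Proof. Induction on finite sets of indices:
`u` restricted to a finite set `U` of pairs `(k, y)` is a product of single elements. -/
theorem psi_ind {K : Type} [Finite K] {Y T : K → Type} [∀ k, Finite (Y k)]
    [∀ k, Group (T k)] (P : (∀ k, Y k → T k) → Prop) (h1 : P 1)
    (hmul : ∀ u u', P u → P u' → P (u * u'))
    (hs : ∀ k (y : Y k) (t : T k), P (Pi.mulSingle k (Pi.mulSingle y t))) (u : ∀ k, Y k → T k) :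
    P u := by
  refine psix_ind (N := fun k => Y k → T k) P h1 hmul (fun k m => ?_) u
  refine psix_ind (N := fun _ : Y k => T k) (fun m => P (Pi.mulSingle k m)) ?_ ?_ ?_ m
  · show P (Pi.mulSingle k 1)
    rw [Pi.mulSingle_one]
    exact h1
  · intro a b ha hb
    show P (Pi.mulSingle k (a * b))
    rw [Pi.mulSingle_mul]
    exact hmul _ _ ha hb
  · intro y t
    exact hs k y t

open Classical in
/-- The range. Proof. `psi_ind`. -/
theorem psi_range {G K : Type} [Group G] [Finite K] {Y T : K → Type} [∀ k, Finite (Y k)]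
    [∀ k, Group (T k)] (ι : ∀ k, Y k → (T k →* G)) (Ψ : (∀ k, Y k → T k) →* G)
    (hΨ : ∀ k y t, Ψ (Pi.mulSingle k (Pi.mulSingle y t)) = ι k y t) :
    Ψ.range = ⨆ k, ⨆ y, (ι k y).range := by
  apply le_antisymm
  · rintro x ⟨u, rfl⟩
    refine psi_ind (fun u => Ψ u ∈ ⨆ k, ⨆ y, (ι k y).range) ?_ ?_ ?_ u
    · rw [map_one]
      exact one_mem _
    · intro a b ha hb
      rw [map_mul]
      exact mul_mem ha hb
    · intro k y t
      rw [hΨ]
      exact Subgroup.mem_iSup_of_mem k (Subgroup.mem_iSup_of_mem y ⟨t, rfl⟩)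
  · refine iSup_le fun k => iSup_le fun y => ?_
    rintro x ⟨t, rfl⟩
    exact ⟨_, hΨ k y t⟩

open Classical in
/-- Conjugation of one type.

Proof. Both sides are multiplicative in `u`, so it is enough to take `u = Pi.mulSingle y t`
(`psi_ind` for the family with only one type, or an induction over finite sets of points): the left
side is `g * ι y t * g⁻¹ = ι (π y) (l y t)`, and the function on the right side is
`Pi.mulSingle (π y) (l y t)`. -/
theorem psi_conj {G K : Type} [Group G] [Finite K] {Y T : K → Type} [∀ k, Finite (Y k)]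
    [∀ k, Group (T k)] (ι : ∀ k, Y k → (T k →* G)) (Ψ : (∀ k, Y k → T k) →* G)
    (hΨ : ∀ k y t, Ψ (Pi.mulSingle k (Pi.mulSingle y t)) = ι k y t) (g : G) (k : K)
    (π : Equiv.Perm (Y k)) (l : Y k → MulAut (T k))
    (hl : ∀ y s, g * ι k y s * g⁻¹ = ι k (π y) (l y s)) (u : Y k → T k) :
    g * Ψ (Pi.mulSingle k u) * g⁻¹ =
      Ψ (Pi.mulSingle k fun y => l (π⁻¹ y) (u (π⁻¹ y))) := by
  refine psix_ind (N := fun _ : Y k => T k) (fun u => g * Ψ (Pi.mulSingle k u) * g⁻¹ =
      Ψ (Pi.mulSingle k fun y => l (π⁻¹ y) (u (π⁻¹ y)))) ?_ ?_ ?_ u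
  · have e : (fun y => l (π⁻¹ y) ((1 : Y k → T k) (π⁻¹ y))) = 1 := by
      funext y
      rw [Pi.one_apply, map_one, Pi.one_apply]
    show g * Ψ (Pi.mulSingle k (1 : Y k → T k)) * g⁻¹ =
      Ψ (Pi.mulSingle k fun y => l (π⁻¹ y) ((1 : Y k → T k) (π⁻¹ y)))
    rw [e, Pi.mulSingle_one, map_one, mul_one, mul_inv_cancel]
  · intro a b ha hb
    have e : (fun y => l (π⁻¹ y) ((a * b) (π⁻¹ y))) =
        (fun y => l (π⁻¹ y) (a (π⁻¹ y))) * fun y => l (π⁻¹ y) (b (π⁻¹ y)) := by
      funext y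
      rw [Pi.mul_apply, Pi.mul_apply, map_mul]
    show g * Ψ (Pi.mulSingle k (a * b)) * g⁻¹ =
      Ψ (Pi.mulSingle k fun y => l (π⁻¹ y) ((a * b) (π⁻¹ y)))
    rw [e, Pi.mulSingle_mul, Pi.mulSingle_mul, map_mul, map_mul, ← ha, ← hb]
    group
  · intro y t
    have e : (fun y' => l (π⁻¹ y') ((Pi.mulSingle y t : Y k → T k) (π⁻¹ y'))) =
        Pi.mulSingle (π y) (l y t) := by
      funext y'
      by_cases hy : y' = π y
      · subst hy
        have h0 : π⁻¹ (π y) = y := π.symm_apply_apply y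
        rw [h0, Pi.mulSingle_eq_same, Pi.mulSingle_eq_same]
      · have hne : π⁻¹ y' ≠ y := by
          intro h
          apply hy
          rw [← h]
          exact (π.apply_symm_apply y').symm
        rw [Pi.mulSingle_eq_of_ne hne, Pi.mulSingle_eq_of_ne hy, map_one]
    show g * Ψ (Pi.mulSingle k (Pi.mulSingle y t)) * g⁻¹ =
      Ψ (Pi.mulSingle k fun y' => l (π⁻¹ y') ((Pi.mulSingle y t : Y k → T k) (π⁻¹ y')))
    rw [e, hΨ, hΨ, hl]

open Classical in
/-- Conjugation of a factor by an element of the range.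

Proof. `psi_ind` for the statement on `w` (for all `s`): for a single element at `(k', y')`
different from `(k, y)` the elements commute (`hc`), for the same index it is the multiplicativity
of `ι k y`. -/
theorem psi_inner {G K : Type} [Group G] [Finite K] {Y T : K → Type} [∀ k, Finite (Y k)]
    [∀ k, Group (T k)] (ι : ∀ k, Y k → (T k →* G))
    (hc : ∀ p q : (Σ k, Y k), p ≠ q → ∀ (t : T p.1) (t' : T q.1),
      ι p.1 p.2 t * ι q.1 q.2 t' = ι q.1 q.2 t' * ι p.1 p.2 t)
    (Ψ : (∀ k, Y k → T k) →* G)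
    (hΨ : ∀ k y t, Ψ (Pi.mulSingle k (Pi.mulSingle y t)) = ι k y t) (w : ∀ k, Y k → T k)
    (k : K) (y : Y k) (s : T k) :
    Ψ w * ι k y s * (Ψ w)⁻¹ = ι k y (w k y * s * (w k y)⁻¹) := by
  have key : ∀ s, Ψ w * ι k y s * (Ψ w)⁻¹ = ι k y (w k y * s * (w k y)⁻¹) := by
    refine psi_ind (fun w => ∀ s, Ψ w * ι k y s * (Ψ w)⁻¹ =
      ι k y (w k y * s * (w k y)⁻¹)) ?_ ?_ ?_ w
    · intro s
      show Ψ 1 * ι k y s * (Ψ 1)⁻¹ = ι k y (1 * s * 1⁻¹)
      rw [map_one]
      simp
    · intro a b ha hb s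
      show Ψ (a * b) * ι k y s * (Ψ (a * b))⁻¹ =
        ι k y (a k y * b k y * s * (a k y * b k y)⁻¹)
      have e : a k y * b k y * s * (a k y * b k y)⁻¹ =
          a k y * (b k y * s * (b k y)⁻¹) * (a k y)⁻¹ := by group
      rw [e, ← ha, ← hb, map_mul]
      group
    · intro k' y' t s
      by_cases hp : (⟨k', y'⟩ : Σ k, Y k) = ⟨k, y⟩
      · obtain ⟨rfl, hy⟩ := Sigma.mk.inj hp
        have hy' := eq_of_heq hy
        subst hy'
        rw [hΨ]
        have e : (Pi.mulSingle k' (Pi.mulSingle y' t) : ∀ k, Y k → T k) k' y' = t := by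
          rw [Pi.mulSingle_eq_same, Pi.mulSingle_eq_same]
        rw [e, map_mul, map_mul, map_inv]
      · have e : (Pi.mulSingle k' (Pi.mulSingle y' t) : ∀ k, Y k → T k) k y = 1 := by
          by_cases hk : k = k'
          · subst hk
            rw [Pi.mulSingle_eq_same]
            have hy : y ≠ y' := by
              rintro rfl
              exact hp rfl
            rw [Pi.mulSingle_eq_of_ne hy]
          · rw [Pi.mulSingle_eq_of_ne hk]
            rfl
        rw [e, hΨ]
        have h1 := hc ⟨k', y'⟩ ⟨k, y⟩ hp t s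
        have h2 : ι k' y' t * ι k y s = ι k y s * ι k' y' t := h1
        rw [h2, mul_assoc, mul_inv_cancel, mul_one, one_mul, inv_one, mul_one]
  exact key s

/-- The factors of the coordinates commute. Proof. Different pairs `(k, y)`, `(k', y')` have
different points `y.1 ≠ y'.1` of `X` (the type is a function of the point); `hC.cmt`, `D.rng`. -/
theorem crd_comm {G X : Type} [Group G] {C : X → Subgroup G} {act : G →* Equiv.Perm X}
    (hC : Cmp C act) {L : ∀ x, Subgroup (MulAut (C x))} (D : Crd C act L)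
    (p q : (Σ k, D.Y k)) (h : p ≠ q) (t : D.T p.1) (t' : D.T q.1) :
    D.ι p.1 p.2 t * D.ι q.1 q.2 t' = D.ι q.1 q.2 t' * D.ι p.1 p.2 t := by
  obtain ⟨k, y, hy⟩ := p
  obtain ⟨k', y', hy'⟩ := q
  have hne : y ≠ y' := by
    rintro rfl
    have hk : k = k' := hy.symm.trans hy'
    subst hk
    exact h rfl
  refine hC.cmt y y' hne _ ?_ _ ?_
  · have h1 := D.rng k ⟨y, hy⟩
    show D.ι k ⟨y, hy⟩ t ∈ C y
    rw [← h1]
    exact ⟨t, rfl⟩
  · have h1 := D.rng k' ⟨y', hy'⟩
    show D.ι k' ⟨y', hy'⟩ t' ∈ C y'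
    rw [← h1]
    exact ⟨t', rfl⟩

/-- The subgroup generated by the factors. Proof. `D.rng`. -/
theorem crd_sup {G X : Type} [Group G] {C : X → Subgroup G} {act : G →* Equiv.Perm X}
    {L : ∀ x, Subgroup (MulAut (C x))} (D : Crd C act L) :
    (⨆ k, ⨆ y, (D.ι k y).range) = ⨆ x, C x := by
  apply le_antisymm
  · refine iSup_le fun k => iSup_le fun y => ?_
    rw [D.rng]
    exact le_iSup C y.1
  · refine iSup_le fun x => ?_
    have h1 := D.rng (D.ky x) ⟨x, rfl⟩
    have h2 : C x = (D.ι (D.ky x) ⟨x, rfl⟩).range := h1.symm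
    rw [h2]
    exact le_iSup_of_le (D.ky x) (le_iSup_of_le ⟨x, rfl⟩ le_rfl)

end Pool.Agent.MPfe8e9bM
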