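import Mathlib
import Pool.Agent.Lib.MP_fe8e9b_al_M.Defs
import Pool.Agent.Lib.MP_fe8e9b_al_M.CmpD
import Pool.Agent.Lib.MP_fe8e9b_al_M.CmpB
import Pool.Agent.Lib.MP_fe8e9b_al_M.PsiX

/-!
# MP_fe8e9b_al, groups of bounded height: multiplicities of stabilizers
-/

set_option autoImplicit false

open scoped BigOperators

namespace Pool.Agent.MPfe8e9bM

open Pool.Agent.MPfe8e9b Pool.Agent.MPfe8e9bA Pool.Agent.MPfe8e9bW Pool.Agent.MPfe8e9bV

/-- The automorphism by which an element acts between two factors of type `k` is unique.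

Proof. `D.inj`. -/
theorem mlt_aut {G X : Type} [Group G] {C : X → Subgroup G} {act : G →* Equiv.Perm X}
    {L : ∀ x, Subgroup (MulAut (C x))} (D : Crd C act L) (g : G) (k : D.K) (y : D.Y k) :
    ∃! a : MulAut (D.T k), ∀ s, g * D.ι k y s * g⁻¹ = D.ι k (D.ac k g y) (a s) := by
  obtain ⟨t, l, hl, h⟩ := D.cnj g k y
  have h' : ∀ s, g * D.ι k y s * g⁻¹ = D.ι k (D.ac k g y) ((MulAut.conj t * l) s) := h
  refine ⟨MulAut.conj t * l, h', fun b hb => ?_⟩
  ext1 s
  apply D.inj k (D.ac k g y)
  rw [← h' s]
  exact (hb s).symm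

/-- The automorphism by which `g` acts between two factors. -/
private noncomputable def mltx_au {G X : Type} [Group G] {C : X → Subgroup G}
    {act : G →* Equiv.Perm X} {L : ∀ x, Subgroup (MulAut (C x))} (D : Crd C act L) (g : G)
    (k : D.K) (y : D.Y k) : MulAut (D.T k) := Classical.choose (mlt_aut D g k y).exists

private theorem mltx_spec {G X : Type} [Group G] {C : X → Subgroup G}
    {act : G →* Equiv.Perm X} {L : ∀ x, Subgroup (MulAut (C x))} (D : Crd C act L) (g : G)
    (k : D.K) (y : D.Y k) (s : D.T k) :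
    g * D.ι k y s * g⁻¹ = D.ι k (D.ac k g y) (mltx_au D g k y s) :=
  Classical.choose_spec (mlt_aut D g k y).exists s

private theorem mltx_uniq {G X : Type} [Group G] {C : X → Subgroup G}
    {act : G →* Equiv.Perm X} {L : ∀ x, Subgroup (MulAut (C x))} (D : Crd C act L) (g : G)
    (k : D.K) (y : D.Y k) (b : MulAut (D.T k))
    (hb : ∀ s, g * D.ι k y s * g⁻¹ = D.ι k (D.ac k g y) (b s)) : mltx_au D g k y = b :=
  (mlt_aut D g k y).unique (mltx_spec D g k y) hb

private theorem mltx_one {G X : Type} [Group G] {C : X → Subgroup G}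
    {act : G →* Equiv.Perm X} {L : ∀ x, Subgroup (MulAut (C x))} (D : Crd C act L)
    (k : D.K) (y : D.Y k) : mltx_au D 1 k y = 1 := by
  apply mltx_uniq
  intro s
  rw [map_one]
  simp

private theorem mltx_mul {G X : Type} [Group G] {C : X → Subgroup G}
    {act : G →* Equiv.Perm X} {L : ∀ x, Subgroup (MulAut (C x))} (D : Crd C act L) (g h : G)
    (k : D.K) (y : D.Y k) :
    mltx_au D (g * h) k y = mltx_au D g k (D.ac k h y) * mltx_au D h k y := by
  apply mltx_uniq
  intro s
  have e : g * h * D.ι k y s * (g * h)⁻¹ = g * (h * D.ι k y s * h⁻¹) * g⁻¹ := by group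
  rw [e, mltx_spec D h k y s, mltx_spec D g k (D.ac k h y), map_mul]
  rfl

private theorem mltx_inv {G X : Type} [Group G] {C : X → Subgroup G}
    {act : G →* Equiv.Perm X} {L : ∀ x, Subgroup (MulAut (C x))} (D : Crd C act L) (g : G)
    (k : D.K) (y : D.Y k) :
    mltx_au D g⁻¹ k y = (mltx_au D g k (D.ac k g⁻¹ y))⁻¹ := by
  have h := mltx_mul D g g⁻¹ k y
  rw [mul_inv_cancel, mltx_one] at h
  exact (inv_eq_of_mul_eq_one_right h.symm).symm

private theorem mltx_mem {G X : Type} [Group G] {C : X → Subgroup G}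
    {act : G →* Equiv.Perm X} {L : ∀ x, Subgroup (MulAut (C x))} (D : Crd C act L) (g : G)
    (k : D.K) (y : D.Y k) :
    mltx_au D g k y ∈ Set.range fun p : D.T k × L (D.rep k) =>
      MulAut.conj p.1 * (p.2 : MulAut (D.T k)) := by
  obtain ⟨t, l, hl, h⟩ := D.cnj g k y
  refine ⟨(t, ⟨l, hl⟩), ?_⟩
  exact (mltx_uniq D g k y (MulAut.conj t * l) h).symm

/-- The number of points of type `k` with the same stabilizer.

Proof. Let `A` be the set of the automorphisms `s ↦ t * l s * t⁻¹`, `t : D.T k`,
`l ∈ L (D.rep k)`: at most `card T * card L` elements. For `g` and `z : D.Y k` let `au g z` be the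
automorphism of `mlt_aut`; it is in `A` (`D.cnj`), and `au (g * h) z = au g (h z) * au h z`. Let
`g_1 … g_d` generate `G`, `O` the orbit of `y`, and for `z ∈ O` choose `x z : G` with
`D.ac k (x z) y = z`. To `y'` with the same stabilizer as `y` we associate the function
`F y' : Fin d → O → A`, `(i, z) ↦ au (g_i) (D.ac k (x z) y')`. Claim: `F` is injective; this gives
the bound `(card A) ^ (d * card O)`. Let `F y' = F y''`. The set `R` of the `g` with
`au g (D.ac k x y') = au g (D.ac k x y'')` for all `x : G` is a subgroup, and it contains the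
generators: for `x : G` let `z = D.ac k x y`; `(x z)⁻¹ * x` fixes `y`, so it fixes `y'` and `y''`,
so `D.ac k x y' = D.ac k (x z) y'`, the same for `y''`. So `R = ⊤`. If `y' ≠ y''` take `t ≠ 1` in
`D.T k` (nontrivial) and `g = D.ι k y' t`: `g` acts trivially on the set of components, so
`au g y'` is conjugation by `t`, which is not `1` (`cmp_center`), and `au g y'' = 1` as the two
factors commute (`crd_comm`). Contradiction. -/
theorem mlt_x {G X : Type} [Group G] [Finite G] [Finite X] {C : X → Subgroup G}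
    {act : G →* Equiv.Perm X} (hC : Cmp C act) {L : ∀ x, Subgroup (MulAut (C x))}
    (D : Crd C act L) (d : ℕ)
    (hd : ∃ T : Finset G, T.card ≤ d ∧ Subgroup.closure (T : Set G) = ⊤) (k : D.K)
    (y : D.Y k) :
    Nat.card {y' : D.Y k // ∀ g, D.ac k g y' = y' ↔ D.ac k g y = y} ≤
      ((Nat.card (D.T k) * Nat.card (L (D.rep k))) ^ d) ^
        Nat.card {x : D.Y k // ∃ g, D.ac k g y = x} := by
  classical
  obtain ⟨T, hTd, hT⟩ := hd
  have finT : Finite (D.T k) := inferInstance
  have finA : Finite (MulAut (D.T k)) :=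
    Finite.of_injective (fun e : MulAut (D.T k) => (e : D.T k → D.T k)) DFunLike.coe_injective
  have finL : Finite (L (D.rep k)) := inferInstance
  let A : Type := Set.range fun p : D.T k × L (D.rep k) =>
    MulAut.conj p.1 * (p.2 : MulAut (D.T k))
  have finA' : Finite A := Set.finite_range _
  let O : Type := {x : D.Y k // ∃ g, D.ac k g y = x}
  have finO : Finite O := inferInstance
  have hcardA : Nat.card A ≤ Nat.card (D.T k) * Nat.card (L (D.rep k)) := by
    rw [← Nat.card_prod]
    exact Nat.card_le_card_of_surjective (Set.rangeFactorization fun p :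
      D.T k × L (D.rep k) => MulAut.conj p.1 * (p.2 : MulAut (D.T k)))
      Set.rangeFactorization_surjective
  let F : {y' : D.Y k // ∀ g, D.ac k g y' = y' ↔ D.ac k g y = y} → (T → O → A) :=
    fun y' t z => ⟨mltx_au D t k (D.ac k z.2.choose y'.1), mltx_mem D _ k _⟩
  have hF : Function.Injective F := by
    intro y' y'' hyy
    have key : ∀ g : G, ∀ x : G,
        mltx_au D g k (D.ac k x y'.1) = mltx_au D g k (D.ac k x y''.1) := by
      intro g
      have hg : g ∈ Subgroup.closure (T : Set G) := by rw [hT]; exact Subgroup.mem_top g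
      induction hg using Subgroup.closure_induction with
      | mem t ht =>
        intro x
        let z : O := ⟨D.ac k x y, x, rfl⟩
        have hz : D.ac k z.2.choose y = D.ac k x y := z.2.choose_spec
        have hfix : D.ac k ((z.2.choose)⁻¹ * x) y = y := by
          rw [map_mul, Equiv.Perm.mul_apply, ← hz, map_inv]
          exact Equiv.symm_apply_apply _ _
        have h1 : ∀ w : {y' : D.Y k // ∀ g, D.ac k g y' = y' ↔ D.ac k g y = y},
            D.ac k x w.1 = D.ac k z.2.choose w.1 := by
          intro w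
          have h2 := (w.2 ((z.2.choose)⁻¹ * x)).2 hfix
          rw [map_mul, Equiv.Perm.mul_apply, map_inv, Equiv.Perm.inv_eq_iff_eq] at h2
          exact h2
        have h3 := congrFun (congrFun hyy ⟨t, ht⟩) z
        have h4 := congrArg Subtype.val h3
        rw [h1 y', h1 y'']
        exact h4
      | one =>
        intro x
        rw [mltx_one, mltx_one]
      | mul a b _ _ iha ihb =>
        intro x
        rw [mltx_mul, mltx_mul, ihb x]
        have e : ∀ w : D.Y k, D.ac k b (D.ac k x w) = D.ac k (b * x) w := by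
          intro w
          rw [map_mul, Equiv.Perm.mul_apply]
        rw [e, e, iha (b * x)]
      | inv a _ iha =>
        intro x
        rw [mltx_inv, mltx_inv]
        have e : ∀ w : D.Y k, D.ac k a⁻¹ (D.ac k x w) = D.ac k (a⁻¹ * x) w := by
          intro w
          rw [map_mul, Equiv.Perm.mul_apply]
        rw [e, e, iha (a⁻¹ * x)]
    by_contra hne
    have hne' : y'.1 ≠ y''.1 := fun h => hne (Subtype.ext h)
    have hs := hC.smp (D.rep k)
    obtain ⟨t, ht⟩ := exists_ne (1 : C (D.rep k))
    apply ht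
    have hmem : D.ι k y'.1 t ∈ ⨆ x, C x := by
      have h1 : D.ι k y'.1 t ∈ C y'.1.1 := by
        rw [← D.rng k y'.1]
        exact ⟨t, rfl⟩
      exact (le_iSup C y'.1.1) h1
    have hact := cmp_act hC _ hmem
    have hac : ∀ w : D.Y k, D.ac k (D.ι k y'.1 t) w = w := by
      intro w
      apply Subtype.ext
      change act (D.ι k y'.1 t) w.1 = w.1
      rw [hact]
      rfl
    have e1 : mltx_au D (D.ι k y'.1 t) k y'.1 = MulAut.conj t := by
      apply mltx_uniq
      intro s
      rw [hac, MulAut.conj_apply, map_mul, map_mul, map_inv]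
    have e2 : mltx_au D (D.ι k y'.1 t) k y''.1 = 1 := by
      apply mltx_uniq
      intro s
      rw [hac, MulAut.one_apply]
      have h5 := crd_comm hC D ⟨k, y'.1⟩ ⟨k, y''.1⟩ (fun h => hne' (by
        have := eq_of_heq (Sigma.mk.inj h).2
        exact this)) t s
      change D.ι k y'.1 t * D.ι k y''.1 s = D.ι k y''.1 s * D.ι k y'.1 t at h5
      rw [h5, mul_inv_cancel_right]
    have h6 := key (D.ι k y'.1 t) 1
    rw [map_one, Equiv.Perm.one_apply, Equiv.Perm.one_apply, e1, e2] at h6
    apply cmp_center hC (D.rep k) t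
    intro s
    have h7 := congrArg (fun f : MulAut (D.T k) => f s) h6
    have h8 : t * s * t⁻¹ = s := h7
    calc t * s = t * s * t⁻¹ * t := by group
      _ = s * t := by rw [h8]
  have h1 := Nat.card_le_card_of_injective F hF
  have h2 : Nat.card (T → O → A) = (Nat.card A ^ Nat.card O) ^ T.card := by
    rw [Nat.card_fun, Nat.card_fun, Nat.card_eq_fintype_card (α := T), Fintype.card_coe]
  rw [h2] at h1
  refine h1.trans ?_
  have hpos : 0 < Nat.card (D.T k) * Nat.card (L (D.rep k)) :=
    Nat.mul_pos Nat.card_pos Nat.card_pos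
  calc (Nat.card A ^ Nat.card O) ^ T.card
      ≤ ((Nat.card (D.T k) * Nat.card (L (D.rep k))) ^ Nat.card O) ^ T.card :=
        Nat.pow_le_pow_left (Nat.pow_le_pow_left hcardA _) _
    _ ≤ ((Nat.card (D.T k) * Nat.card (L (D.rep k))) ^ Nat.card O) ^ d :=
        Nat.pow_le_pow_right (Nat.pow_pos hpos) hTd
    _ = ((Nat.card (D.T k) * Nat.card (L (D.rep k))) ^ d) ^ Nat.card O := by
        rw [← pow_mul, ← pow_mul, mul_comm (Nat.card O)]

end Pool.Agent.MPfe8e9bM
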