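import Mathlib
import Pool.Agent.Lib.MP_fe8e9b_al_M.Defs
import Pool.Agent.Lib.MP_fe8e9b_al_M.CmpD
import Pool.Agent.Lib.MP_fe8e9b_al_M.CmpB

/-!
# MP_fe8e9b_al, groups of bounded height: coordinates
-/

set_option autoImplicit false

open scoped BigOperators

namespace Pool.Agent.MPfe8e9bM

open Pool.Agent.MPfe8e9b Pool.Agent.MPfe8e9bA Pool.Agent.MPfe8e9bW Pool.Agent.MPfe8e9bV

/-- Orbit representatives. Proof. Choose a point of every orbit (`Quotient.out` for the orbit
relation of the action; or `Classical.choose` for the equivalence relation `∃ g, act g x = y`). -/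
theorem coor_rep {G X : Type} [Group G] (act : G →* Equiv.Perm X) :
    ∃ (r : X → X) (gx : X → G), (∀ x, act (gx x) (r x) = x) ∧
      (∀ g x, r (act g x) = r x) ∧ ∀ x, r (r x) = r x := by
  let S : Setoid X :=
    { r := fun x y => ∃ g, act g x = y
      iseqv :=
        { refl := fun x => ⟨1, by rw [map_one, Equiv.Perm.one_apply]⟩
          symm := by
            rintro x y ⟨g, rfl⟩
            exact ⟨g⁻¹, by rw [← Equiv.Perm.mul_apply, ← map_mul, inv_mul_cancel, map_one,
              Equiv.Perm.one_apply]⟩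
          trans := by
            rintro x y z ⟨g, rfl⟩ ⟨g', rfl⟩
            exact ⟨g' * g, by rw [map_mul, Equiv.Perm.mul_apply]⟩ } }
  have h1 : ∀ x : X, ∃ g, act g ((Quotient.mk S x).out) = x := fun x => Quotient.mk_out (s := S) x
  choose gx hgx using h1
  refine ⟨fun x => (Quotient.mk S x).out, gx, hgx, fun g x => ?_, fun x => ?_⟩
  · have h2 : Quotient.mk S (act g x) = Quotient.mk S x :=
      (Quotient.sound (s := S) ⟨g, rfl⟩).symm
    show (Quotient.mk S (act g x)).out = (Quotient.mk S x).out
    rw [h2]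
  · have h2 : Quotient.mk S ((Quotient.mk S x).out) = Quotient.mk S x := Quotient.out_eq _
    show (Quotient.mk S ((Quotient.mk S x).out)).out = (Quotient.mk S x).out
    rw [h2]

theorem coor_fix {G X : Type} [Group G] (act : G →* Equiv.Perm X) {r : X → X} {gx : X → G}
    (hgx : ∀ x, act (gx x) (r x) = x) (hr1 : ∀ g x, r (act g x) = r x) (g : G) (x : X) :
    act ((gx (act g x))⁻¹ * g * gx x) (r x) = r x := by
  rw [map_mul, map_mul, Equiv.Perm.mul_apply, Equiv.Perm.mul_apply, hgx x]
  have h1 := hgx (act g x)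
  rw [hr1] at h1
  rw [map_inv, Equiv.Perm.inv_eq_iff_eq]
  exact h1.symm

theorem coor_congr {G X κ : Type} [Group G] {C : X → Subgroup G} {key : X → κ}
    (E : ∀ x y, key x = key y → C x ≃* C y) {a b b' : X} (h : b = b') (h1 : key a = key b)
    (h2 : key a = key b') (s : C a) : (E a b h1 s : G) = (E a b' h2 s : G) := by
  subst h
  rfl

/-- Coordinates.

Proof. `r`, `gx` from `coor_rep`. `K = Set.range (fun x => key (r x))` (finite as `X` is finite),
`ky x = key (r x)`. `rep k = r x0` for some `x0` with `key (r x0) = k`; then `key (rep k) = k`,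
which gives the second assertion. For `a`, `b` with `key a = key b` choose `E a b : C a ≃* C b` from
`hkey`, and for `y = ⟨x, h⟩` of type `k` put
`ι k y s = gx x * E (rep k) (r x) s * (gx x)⁻¹` (`key (rep k) = k = key (r x)`). It is an injective
homomorphism with range `C x` (`hC.cnj`, `cmp_onto`, `act (gx x) (r x) = x`).
`cnj`: let `x' = act g x`, `r x' = r x`, `u = (gx x')⁻¹ * g * gx x`, `act u (r x) = r x`. By `hauto`
for `r x` and `u`: `u * a * u⁻¹ = t' * l' a * t'⁻¹` for `a : C (r x)`, `l' ∈ L (r x)`. For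
`a = E s` (`E = E (rep k) (r x)`): `g * ι k y s * g⁻¹ = gx x' * (u * E s * u⁻¹) * (gx x')⁻¹`, and
`t' * l' (E s) * t'⁻¹ = E (t * l s * t⁻¹)` with `t = E.symm t'`, `l = (MulAut.congr E).symm l'`,
in `L (rep k)` by `hkey`. -/
theorem coords {G X : Type} [Group G] [Finite X] {C : X → Subgroup G}
    {act : G →* Equiv.Perm X} (hC : Cmp C act) (L : ∀ x, Subgroup (MulAut (C x)))
    (hauto : ∀ x g, act g x = x → ∃ t : C x, ∃ l ∈ L x, ∀ s : C x,
      g * (s : G) * g⁻¹ = ((t * l s * t⁻¹ : C x) : G))
    {κ : Type} (key : X → κ) (hkey : ∀ x y, key x = key y →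
      ∃ e : C x ≃* C y, ∀ l : MulAut (C x), l ∈ L x ↔ MulAut.congr e l ∈ L y) :
    ∃ D : Crd C act L, (∀ k k', key (D.rep k) = key (D.rep k') → k = k') := by
  obtain ⟨r, gx, hgx, hr1, hr2⟩ := coor_rep act
  choose E hE using hkey
  have hK : ∀ k : Set.range (fun x => key (r x)), ∃ x, key (r x) = k.1 := fun k => k.2
  choose x0 hx0 using hK
  have hrep : ∀ (k : Set.range (fun x => key (r x))) (x : X),
      (⟨key (r x), x, rfl⟩ : Set.range (fun x => key (r x))) = k → key (r (x0 k)) = key (r x) := by
    intro k x h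
    rw [hx0 k, ← h]
  have hconj : ∀ x a, a ∈ C (r x) → gx x * a * (gx x)⁻¹ ∈ C x := by
    intro x a ha
    have h := hC.cnj (gx x) (r x) a ha
    rwa [hgx x] at h
  have honto : ∀ x b, b ∈ C x → ∃ a ∈ C (r x), b = gx x * a * (gx x)⁻¹ := by
    intro x b hb
    refine cmp_onto hC (gx x) (r x) b ?_
    rw [hgx x]
    exact hb
  let D : Crd C act L :=
    { K := Set.range (fun x => key (r x))
      fK := Fintype.ofFinite _
      ky := fun x => ⟨key (r x), x, rfl⟩
      rep := fun k => r (x0 k)
      ι := fun k y =>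
        { toFun := fun s => gx y.1 * (E _ _ (hrep k y.1 y.2) s : G) * (gx y.1)⁻¹
          map_one' := by simp
          map_mul' := by
            intro s t
            rw [map_mul, Subgroup.coe_mul]
            group }
      inv := fun g x => Subtype.ext (by
        show key (r (act g x)) = key (r x)
        rw [hr1])
      inj := by
        intro k y s t h
        have h1 : gx y.1 * (E _ _ (hrep k y.1 y.2) s : G) * (gx y.1)⁻¹ =
          gx y.1 * (E _ _ (hrep k y.1 y.2) t : G) * (gx y.1)⁻¹ := h
        have h2 := mul_left_cancel (mul_right_cancel h1)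
        exact (E _ _ (hrep k y.1 y.2)).injective (Subtype.ext h2)
      rng := by
        intro k y
        ext b
        constructor
        · rintro ⟨s, rfl⟩
          exact hconj y.1 _ (E _ _ (hrep k y.1 y.2) s).2
        · intro hb
          obtain ⟨a, ha, rfl⟩ := honto y.1 b hb
          refine ⟨(E _ _ (hrep k y.1 y.2)).symm ⟨a, ha⟩, ?_⟩
          show gx y.1 * (E _ _ (hrep k y.1 y.2) ((E _ _ (hrep k y.1 y.2)).symm ⟨a, ha⟩) : G) *
            (gx y.1)⁻¹ = gx y.1 * a * (gx y.1)⁻¹
          rw [MulEquiv.apply_symm_apply]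
      cnj := by
        intro g k y
        obtain ⟨t', l', hl', hs⟩ := hauto (r y.1) ((gx (act g y.1))⁻¹ * g * gx y.1)
          (coor_fix act hgx hr1 g y.1)
        refine ⟨(E _ _ (hrep k y.1 y.2)).symm t',
          (MulAut.congr (E _ _ (hrep k y.1 y.2))).symm l', ?_, fun s => ?_⟩
        · rw [hE _ _ (hrep k y.1 y.2), MulEquiv.apply_symm_apply]
          exact hl'
        · have h0 : (⟨key (r (act g y.1)), act g y.1, rfl⟩ :
              Set.range (fun x => key (r x))) = k := by
            refine Eq.trans (Subtype.ext ?_) y.2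
            show key (r (act g y.1)) = key (r y.1)
            rw [hr1]
          show g * (gx y.1 * (E _ _ (hrep k y.1 y.2) s : G) * (gx y.1)⁻¹) * g⁻¹ =
            gx (act g y.1) * (E _ _ (hrep k (act g y.1) h0) _ : G) * (gx (act g y.1))⁻¹
          rw [coor_congr E (hr1 g y.1) _ (hrep k y.1 y.2), map_mul, map_mul, map_inv,
            MulEquiv.apply_symm_apply]
          have h3 : E _ _ (hrep k y.1 y.2)
              ((MulAut.congr (E _ _ (hrep k y.1 y.2))).symm l' s) =
              l' (E _ _ (hrep k y.1 y.2) s) := by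
            rw [MulAut.congr_symm_apply]
            exact MulEquiv.apply_symm_apply _ _
          rw [h3, ← hs]
          group }
  refine ⟨D, fun k k' h => Subtype.ext ?_⟩
  have h1 : key (r (x0 k)) = key (r (x0 k')) := h
  rw [← hx0 k, ← hx0 k', h1]

end Pool.Agent.MPfe8e9bM
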