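import Mathlib
import Pool.Agent.Lib.MP_fe8e9b_al_M.Defs
import Pool.Agent.Lib.MP_fe8e9b_al_W.Fr
import Pool.Agent.Lib.MP_fe8e9b_al_W.DMa
import Pool.Agent.Lib.MP_fe8e9b_al_V.CmlA

/-!
# MP_fe8e9b_al, groups of bounded height: the square root of an averaged vector state
-/

set_option autoImplicit false

open scoped BigOperators

namespace Pool.Agent.MPfe8e9bM

open Pool.Agent.MPfe8e9b Pool.Agent.MPfe8e9bA Pool.Agent.MPfe8e9bW Pool.Agent.MPfe8e9bV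

/-- The two actions. Proof. Evaluate at `(a, b)` with `ad_apply`, `lm_apply`: both sides are
`x (a * h * u, b * h)`. -/
theorem ad_lm {G : Type} [Group G] [Fintype G] (h u : G) (x : EuclideanSpace ℂ (G × G)) :
    ad G h (lm G u x) = lm G (h * u * h⁻¹) (ad G h x) := by
  ext ⟨a, b⟩
  rw [ad_apply, lm_apply, lm_apply, ad_apply]
  rw [show a * (h * u * h⁻¹) * h = a * h * u from by group]

/-- The relabelling of the blocks. -/
noncomputable def lems_T (V : Type) [NormedAddCommGroup V] [InnerProductSpace ℂ V] {E : Type}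
    [Fintype E] (σ : Equiv.Perm E) : PiLp 2 (fun _ : E => V) ≃ₗᵢ[ℂ] PiLp 2 (fun _ : E => V) :=
  LinearIsometryEquiv.piLpCongrLeft 2 ℂ V σ.symm

theorem lems_T_apply {V : Type} [NormedAddCommGroup V] [InnerProductSpace ℂ V] {E : Type}
    [Fintype E] (σ : Equiv.Perm E) (f : PiLp 2 (fun _ : E => V)) (e : E) :
    lems_T V σ f e = f (σ e) := by
  simp [lems_T, LinearIsometryEquiv.piLpCongrLeft_apply, Equiv.piCongrLeft']

/-- The conjugation by an element which normalizes `A`, on `A`. -/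
noncomputable def lems_cj {G : Type} [Group G] [Fintype G] (A : Subgroup G) (h : G)
    (hh : ∀ a ∈ A, h * a * h⁻¹ ∈ A) : Equiv.Perm A :=
  Equiv.ofBijective (fun a : A => (⟨h * a.1 * h⁻¹, hh a.1 a.2⟩ : A))
    (Finite.injective_iff_bijective.1 fun a b hab => by
      have h1 : h * a.1 * h⁻¹ = h * b.1 * h⁻¹ := congrArg Subtype.val hab
      exact Subtype.ext (mul_left_cancel (mul_right_cancel h1)))

theorem lems_cj_apply {G : Type} [Group G] [Fintype G] (A : Subgroup G) (h : G)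
    (hh : ∀ a ∈ A, h * a * h⁻¹ ∈ A) (a : A) :
    ((lems_cj A h hh a : A) : G) = h * a.1 * h⁻¹ := rfl

/-- The norm of a difference with an isometric image. -/
theorem lems_nsq {E : Type} [NormedAddCommGroup E] [InnerProductSpace ℂ E]
    (T : E ≃ₗᵢ[ℂ] E) (v : E) :
    ‖T v - v‖ ^ 2 = 2 * ‖v‖ ^ 2 - 2 * (inner ℂ v (T v)).re := by
  rw [norm_sub_rev, @norm_sub_sq ℂ, T.norm_map]
  simp only [RCLike.re_to_complex]
  ring

/-- The square root of a vector state averaged over the subgroup `A`.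

Proof. Let `n = Nat.card A`, `E = A` (as a type) and `V' = PiLp 2 (fun _ : A => V)` with the
representation `ρ' = cmla_rho ρ A` (file V/CmlA), `v' a = n^(-1/2) • ρ a v`. `dm_vec ρ' v'` (file
W/DMa) gives `x`. `‖v'‖ = ‖v‖`. For `u` commuting with `A`:
`‖lm G u x - x‖² = 2 ‖x‖² - 2 Re ⟨x, lm G u x⟩ = 2 ‖v'‖² - 2 Re ⟨v', ρ' u v'⟩ = ‖ρ' u v' - v'‖² =
n⁻¹ ∑ a, ‖ρ (u * a) v - ρ a v‖² = ‖ρ u v - v‖²` (`u * a = a * u`, `ρ a` is isometric).
For `h ∈ H` let `T w a = w (h * a * h⁻¹)` (`a ↦ h * a * h⁻¹` is a bijection of `A`: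
`LinearIsometryEquiv.piLpCongrLeft`, see `cmla_R`); `T` commutes with `ρ'`, and
`(ρ' h v') a - (T v') a = n^(-1/2) • ρ (h * a * h⁻¹) (ρ h v - v)`, so `‖ρ' h v' - T v'‖ =
‖ρ h v - v‖`. For `a₀ ∈ A` let `T w a = w (a₀ * a)`: `ρ' a₀ v' = T v'`, so
`‖ad G a₀ x - x‖² ≤ 0`. -/
theorem lem_s {G : Type} [Group G] [Fintype G] (A H : Subgroup G)
    (hAH : ∀ h ∈ H, ∀ a ∈ A, h * a * h⁻¹ ∈ A) {V : Type} [NormedAddCommGroup V]
    [InnerProductSpace ℂ V] [FiniteDimensional ℂ V] (ρ : G →* (V ≃ₗᵢ[ℂ] V)) (v : V) :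
    ∃ x : EuclideanSpace ℂ (G × G), ‖x‖ = ‖v‖ ∧
      (∀ u : G, (∀ a ∈ A, a * u = u * a) → ‖lm G u x - x‖ = ‖ρ u v - v‖) ∧
      (∀ h ∈ H, ‖ad G h x - x‖ ^ 2 ≤ 2 * ‖v‖ * ‖ρ h v - v‖) ∧
      ∀ a ∈ A, ad G a x = x := by
  classical
  have hmul : ∀ (a c : G) (w : V), ρ a (ρ c w) = ρ (a * c) w := by
    intro a c w
    rw [map_mul]
    rfl
  have hn : (0 : ℝ) < (Fintype.card A : ℝ) := by
    exact_mod_cast Fintype.card_pos
  set κ : ℂ := (((Real.sqrt (Fintype.card A : ℝ))⁻¹ : ℝ) : ℂ) with hκ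
  have hκn : ‖κ‖ ^ 2 = ((Fintype.card A : ℝ))⁻¹ := by
    rw [hκ, Complex.norm_real, Real.norm_eq_abs, sq_abs, inv_pow, Real.sq_sqrt hn.le]
  let v' : PiLp 2 (fun _ : A => V) := WithLp.toLp 2 fun a => κ • ρ a.1 v
  have hv'e : ∀ a : A, v' a = κ • ρ a.1 v := fun a => rfl
  -- norms of families with constant norm
  have hconst : ∀ (w : PiLp 2 (fun _ : A => V)) (c : V), (∀ a, ‖w a‖ ^ 2 = ‖κ‖ ^ 2 * ‖c‖ ^ 2) →
      ‖w‖ ^ 2 = ‖c‖ ^ 2 := by
    intro w c hw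
    rw [PiLp.norm_sq_eq_of_L2, Finset.sum_congr rfl fun a _ => hw a, Finset.sum_const,
      Finset.card_univ, nsmul_eq_mul, hκn, ← mul_assoc, mul_inv_cancel₀ (ne_of_gt hn), one_mul]
  have hconst' : ∀ (w : PiLp 2 (fun _ : A => V)) (c : V),
      (∀ a, ∃ b : G, w a = κ • ρ b c) → ‖w‖ = ‖c‖ := by
    intro w c hw
    have h1 := hconst w c fun a => by
      obtain ⟨b, hb⟩ := hw a
      rw [hb, norm_smul, mul_pow, (ρ b).norm_map]
    exact (sq_eq_sq₀ (norm_nonneg _) (norm_nonneg _)).mp h1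
  have hv' : ‖v'‖ = ‖v‖ := hconst' v' v fun a => ⟨a.1, rfl⟩
  obtain ⟨x, hx1, hx2, hx3, -⟩ := dm_vec (cmla_rho ρ A) v'
  have hx : ‖x‖ = ‖v‖ := hx1.trans hv'
  refine ⟨x, hx, ?_, ?_, ?_⟩
  · intro u hu
    have h1 : ‖cmla_rho ρ A u v' - v'‖ = ‖ρ u v - v‖ := by
      refine hconst' _ _ fun a => ⟨a.1, ?_⟩
      rw [PiLp.sub_apply, cmla_rho_apply, hv'e, map_smul, hmul, ← hu a.1 a.2, ← smul_sub, map_sub,
        hmul]
    rw [← h1]
    refine (sq_eq_sq₀ (norm_nonneg _) (norm_nonneg _)).mp ?_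
    rw [lems_nsq, lems_nsq, hx2, hx1]
  · intro h hh
    have hhA : ∀ a ∈ A, h * a * h⁻¹ ∈ A := fun a ha => hAH h hh a ha
    have h1 := hx3 h (lems_T V (lems_cj A h hhA)) fun g w => by
      ext a
      rw [lems_T_apply, cmla_rho_apply, cmla_rho_apply, lems_T_apply]
    have h2 : ‖cmla_rho ρ A h v' - lems_T V (lems_cj A h hhA) v'‖ = ‖ρ h v - v‖ := by
      refine hconst' _ _ fun a => ⟨h * a.1 * h⁻¹, ?_⟩
      rw [PiLp.sub_apply, cmla_rho_apply, lems_T_apply, hv'e, hv'e, map_smul, hmul, lems_cj_apply,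
        ← smul_sub, map_sub, hmul, inv_mul_cancel_right]
    rw [hv', h2] at h1
    exact h1
  · intro a₀ ha₀
    have h1 := hx3 a₀ (lems_T V (Equiv.mulLeft (⟨a₀, ha₀⟩ : A))) fun g w => by
      ext a
      rw [lems_T_apply, cmla_rho_apply, cmla_rho_apply, lems_T_apply]
    have h2 : cmla_rho ρ A a₀ v' - lems_T V (Equiv.mulLeft (⟨a₀, ha₀⟩ : A)) v' = 0 := by
      rw [sub_eq_zero]
      ext a
      rw [cmla_rho_apply, lems_T_apply, hv'e, hv'e, map_smul, hmul]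
      rfl
    rw [h2, norm_zero, mul_zero] at h1
    have h3 : ‖ad G a₀ x - x‖ = 0 := by
      have := sq_nonneg ‖ad G a₀ x - x‖
      exact pow_eq_zero_iff (two_ne_zero) |>.mp (le_antisymm h1 this)
    exact sub_eq_zero.mp (norm_eq_zero.mp h3)

end Pool.Agent.MPfe8e9bM
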