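import Mathlib
import Pool.Agent.Lib.MP_fe8e9b_al_M.Defs

/-!
# MP_fe8e9b_al, groups of bounded height: the numerical lemma
-/

set_option autoImplicit false

open scoped BigOperators

namespace Pool.Agent.MPfe8e9bM

open Pool.Agent.MPfe8e9b Pool.Agent.MPfe8e9bA Pool.Agent.MPfe8e9bW Pool.Agent.MPfe8e9bV

/-- The mean of `1 / (1 + Bin)`.

Proof. `(N + 1) * (1 / (j + 1)) * N.choose j = (N + 1).choose (j + 1)`
(`Nat.add_one_mul_choose_eq`), so `(N + 1) q ∑ j, N.choose j q^j r^(N-j) / (1 + j)` is the sum of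
`(N + 1).choose (j + 1) q^(j+1) r^(N-j)` over `j = 0, .., N`, which is `1 - r^(N+1)` by the binomial
theorem (`q + r = 1`). -/
theorem num_bin {q r : ℝ} (hq : 0 < q) (hr : 0 ≤ r) (h : q + r = 1) (N : ℕ) :
    ∑ j ∈ Finset.range (N + 1), (N.choose j : ℝ) * q ^ j * r ^ (N - j) * (1 / (1 + (j : ℝ))) ≤
      1 / ((N + 1 : ℝ) * q) := by
  rw [le_div_iff₀ (by positivity), Finset.sum_mul]
  have h1 : ∀ j ∈ Finset.range (N + 1),
      (N.choose j : ℝ) * q ^ j * r ^ (N - j) * (1 / (1 + (j : ℝ))) * ((N + 1 : ℝ) * q) =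
        q ^ (j + 1) * r ^ (N + 1 - (j + 1)) * ((N + 1).choose (j + 1) : ℝ) := by
    intro j _
    have h2 : ((N : ℝ) + 1) * (N.choose j : ℝ) = ((N + 1).choose (j + 1) : ℝ) * (j + 1) := by
      exact_mod_cast Nat.add_one_mul_choose_eq N j
    have h3 : (1 + (j : ℝ)) ≠ 0 := by positivity
    have h4 : ((N + 1).choose (j + 1) : ℝ) =
        ((N : ℝ) + 1) * (N.choose j : ℝ) * (1 / (1 + (j : ℝ))) := by
      rw [h2]
      field_simp
      ring
    rw [h4, Nat.add_sub_add_right, pow_succ]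
    ring
  rw [Finset.sum_congr rfl h1]
  have h5 := add_pow q r (N + 1)
  rw [Finset.sum_range_succ', h, one_pow] at h5
  have h6 : 0 ≤ r ^ (N + 1) := by positivity
  simp only [pow_zero, one_mul, Nat.sub_zero, Nat.choose_zero_right, Nat.cast_one, mul_one] at h5
  linarith

private theorem num_wsum {q r : ℝ} (h : q + r = 1) (N : ℕ) :
    ∑ j ∈ Finset.range (N + 1), (N.choose j : ℝ) * q ^ j * r ^ (N - j) = 1 := by
  have h5 := add_pow q r N
  rw [h, one_pow] at h5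
  rw [h5]
  exact Finset.sum_congr rfl fun j _ => by ring

private theorem num_ratio {a b p : ℝ} (ha : 0 < a) (hb : 0 < b) :
    a ^ (-p) * (a / b) ^ p = b ^ (-p) := by
  rw [Real.div_rpow ha.le hb.le, Real.rpow_neg ha.le, Real.rpow_neg hb.le]
  have h1 : a ^ p ≠ 0 := (Real.rpow_pos_of_pos ha p).ne'
  have h2 : b ^ p ≠ 0 := (Real.rpow_pos_of_pos hb p).ne'
  field_simp

/-- Jensen. Proof. The function `x ↦ x ^ (1 / M)` is concave on `[0, ∞)` (`Real.concaveOn_rpow`),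
`ConcaveOn.le_map_sum` with the weights `N.choose j q^j r^(N-j)` and the points
`(1 + N) / (1 + j)`, and `num_bin`, monotony of `rpow`; then
`(1 + N)^(-1/M) ((1+N)/(1+j))^(1/M) = (1 + j)^(-1/M)`. -/
theorem num_jensen {q r : ℝ} (hq : 0 < q) (hr : 0 ≤ r) (h : q + r = 1) {M : ℕ} (hM : 0 < M)
    (N : ℕ) :
    ∑ j ∈ Finset.range (N + 1), (N.choose j : ℝ) * q ^ j * r ^ (N - j) *
        (1 + (j : ℝ)) ^ (-(1 / (M : ℝ))) ≤
      (1 + (N : ℝ)) ^ (-(1 / (M : ℝ))) * (1 / q) ^ (1 / (M : ℝ)) := by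
  have hM' : (1 : ℝ) ≤ M := by exact_mod_cast hM
  have hp0 : (0 : ℝ) ≤ 1 / (M : ℝ) := by positivity
  have hp1 : 1 / (M : ℝ) ≤ 1 := by
    rw [div_le_one (by positivity)]
    exact hM'
  have hN : (0 : ℝ) < 1 + (N : ℝ) := by positivity
  have hJ := (Real.concaveOn_rpow hp0 hp1).le_map_sum (t := Finset.range (N + 1))
    (w := fun j => (N.choose j : ℝ) * q ^ j * r ^ (N - j))
    (p := fun j => (1 + (N : ℝ)) / (1 + (j : ℝ)))
    (fun j _ => by positivity) (num_wsum h N) (fun j _ => by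
      show (0 : ℝ) ≤ (1 + (N : ℝ)) / (1 + (j : ℝ))
      positivity)
  simp only [smul_eq_mul] at hJ
  have h2 : ∑ j ∈ Finset.range (N + 1), (N.choose j : ℝ) * q ^ j * r ^ (N - j) *
      ((1 + (N : ℝ)) / (1 + (j : ℝ))) ≤ 1 / q := by
    have h3 := mul_le_mul_of_nonneg_left (num_bin hq hr h N) hN.le
    rw [Finset.mul_sum] at h3
    refine le_trans (le_of_eq (Finset.sum_congr rfl fun j _ => by ring)) (h3.trans (le_of_eq ?_))
    have : (N : ℝ) + 1 ≠ 0 := by positivity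
    field_simp
    ring
  have h4 : (∑ j ∈ Finset.range (N + 1), (N.choose j : ℝ) * q ^ j * r ^ (N - j) *
      ((1 + (N : ℝ)) / (1 + (j : ℝ)))) ^ (1 / (M : ℝ)) ≤ (1 / q) ^ (1 / (M : ℝ)) :=
    Real.rpow_le_rpow (Finset.sum_nonneg fun j _ => by positivity) h2 hp0
  have h5 := mul_le_mul_of_nonneg_left (hJ.trans h4)
    (Real.rpow_nonneg hN.le (-(1 / (M : ℝ))))
  rw [Finset.mul_sum] at h5
  refine le_trans (le_of_eq (Finset.sum_congr rfl fun j _ => ?_)) h5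
  have hj : (0 : ℝ) < 1 + (j : ℝ) := by positivity
  rw [← num_ratio (p := 1 / (M : ℝ)) hN hj]
  ring

/-- The numerical lemma.

Proof. With `q = 1 - η`, `a = (1 + N)^(-1/M)`: `hh M N - ∑ = ∑ .. (1 + j)^(-1/M) - a ≤
a ((1 / q)^(1/M) - 1)` (`num_jensen`; the sum of the weights is one). Take `M` with
`lam ((1 / q)^(1/M) - 1) < 1 / 8` (the left side tends to zero for `M → ∞`:
`Real.continuous`, `tendsto_rpow`, or `(1 / q)^(1/M) ≤ 1 + x` if `1 / q ≤ (1 + x)^M`, by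
Bernoulli `1 + M x ≤ (1 + x)^M`). Then `R` with `(2 / (1 + R))^(1/M) ≤ 1 / 2`, e.g.
`R = 2 * 2 ^ M`. For `N ≥ 1`: `(1 + N) / (1 + R N) ≤ 2 / (1 + R)`, so
`hh M (R * N) - hh M N = a - (1 + R N)^(-1/M) = a (1 - ((1 + N) / (1 + R N))^(1/M)) ≥ a / 2`,
and `lam * (..) < a / 8`. -/
theorem num {η lam : ℝ} (h0 : 0 ≤ η) (h1 : η < 1) (hl : 0 < lam) :
    ∃ M R : ℕ, 0 < M ∧ 0 < R ∧ ∀ N : ℕ, 1 ≤ N →
      lam * (hh M N - ∑ j ∈ Finset.range (N + 1),
        (N.choose j : ℝ) * ((1 - η) ^ j * η ^ (N - j)) * hh M j) <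
      1 / 4 * (hh M (R * N) - hh M N) := by
  have hq : 0 < 1 - η := by linarith
  obtain ⟨x, hx, hlx⟩ : ∃ x : ℝ, 0 < x ∧ lam * x < 1 / 8 := by
    refine ⟨1 / (16 * lam), by positivity, ?_⟩
    have : lam * (1 / (16 * lam)) = 1 / 16 := by
      field_simp
    rw [this]
    norm_num
  obtain ⟨m, hm⟩ := exists_nat_gt ((1 / (1 - η)) / x)
  have hm0 : (0 : ℝ) < m := lt_trans (by positivity) hm
  have hmN : 0 < m := by exact_mod_cast hm0
  have hbern : 1 / (1 - η) ≤ (1 + x) ^ m := by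
    have h2 : 1 + (m : ℝ) * x ≤ (1 + x) ^ m := one_add_mul_le_pow (by linarith) m
    have h3 : 1 / (1 - η) < m * x := (div_lt_iff₀ hx).1 hm
    linarith
  have hroot : (1 / (1 - η)) ^ (1 / (m : ℝ)) ≤ 1 + x := by
    have h2 : ((1 + x) ^ m) ^ (1 / (m : ℝ)) = 1 + x := by
      rw [one_div]
      exact Real.pow_rpow_inv_natCast (by linarith) (by omega)
    rw [← h2]
    exact Real.rpow_le_rpow (by positivity) hbern (by positivity)
  refine ⟨m, 2 * 2 ^ m, hmN, by positivity, fun N hN => ?_⟩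
  have hN' : (1 : ℝ) ≤ N := by exact_mod_cast hN
  have hNp : (0 : ℝ) < 1 + (N : ℝ) := by positivity
  have hRp : (0 : ℝ) < 1 + (2 * 2 ^ m * N : ℝ) := by positivity
  obtain ⟨a, ha⟩ : ∃ a, a = (1 + (N : ℝ)) ^ (-(1 / (m : ℝ))) := ⟨_, rfl⟩
  have hapos : 0 < a := by
    rw [ha]
    exact Real.rpow_pos_of_pos hNp _
  have hj := num_jensen hq h0 (by ring) hmN N
  rw [← ha] at hj
  have hL : hh m N - ∑ j ∈ Finset.range (N + 1),
      (N.choose j : ℝ) * ((1 - η) ^ j * η ^ (N - j)) * hh m j ≤ a * x := by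
    have h2 : ∑ j ∈ Finset.range (N + 1),
        (N.choose j : ℝ) * ((1 - η) ^ j * η ^ (N - j)) * hh m j =
        1 - ∑ j ∈ Finset.range (N + 1), (N.choose j : ℝ) * (1 - η) ^ j * η ^ (N - j) *
          (1 + (j : ℝ)) ^ (-(1 / (m : ℝ))) := by
      have h3 := num_wsum (q := 1 - η) (r := η) (by ring) N
      rw [eq_sub_iff_add_eq, ← Finset.sum_add_distrib]
      refine (Finset.sum_congr rfl fun j _ => ?_).trans h3
      unfold hh
      ring
    rw [h2]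
    unfold hh
    rw [← ha]
    have h4 : a * (1 / (1 - η)) ^ (1 / (m : ℝ)) ≤ a * (1 + x) :=
      mul_le_mul_of_nonneg_left hroot hapos.le
    linarith
  have hR : a / 2 ≤ hh m (2 * 2 ^ m * N) - hh m N := by
    unfold hh
    rw [← ha]
    push_cast
    have h2 := num_ratio (p := 1 / (m : ℝ)) hNp hRp
    rw [← ha] at h2
    have h3 : ((1 + (N : ℝ)) / (1 + (2 * 2 ^ m * N : ℝ))) ^ (1 / (m : ℝ)) ≤ 1 / 2 := by
      have h4 : (((1 : ℝ) / 2) ^ m) ^ (1 / (m : ℝ)) = 1 / 2 := by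
        rw [one_div (m : ℝ)]
        exact Real.pow_rpow_inv_natCast (by norm_num) (by omega)
      rw [← h4]
      refine Real.rpow_le_rpow (by positivity) ?_ (by positivity)
      rw [div_le_iff₀ hRp, one_div, inv_pow]
      have h5 : (0 : ℝ) < 2 ^ m := by positivity
      have h6 : ((2 : ℝ) ^ m)⁻¹ * (1 + 2 * 2 ^ m * N) = ((2 : ℝ) ^ m)⁻¹ + 2 * N := by
        field_simp
      rw [h6]
      have h7 : 0 < ((2 : ℝ) ^ m)⁻¹ := by positivity
      linarith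
    have h8 : a * ((1 + (N : ℝ)) / (1 + (2 * 2 ^ m * N : ℝ))) ^ (1 / (m : ℝ)) ≤ a * (1 / 2) :=
      mul_le_mul_of_nonneg_left h3 hapos.le
    rw [h2] at h8
    linarith
  calc lam * (hh m N - ∑ j ∈ Finset.range (N + 1),
        (N.choose j : ℝ) * ((1 - η) ^ j * η ^ (N - j)) * hh m j)
      ≤ lam * (a * x) := mul_le_mul_of_nonneg_left hL hl.le
    _ = a * (lam * x) := by ring
    _ < a * (1 / 8) := mul_lt_mul_of_pos_left hlx hapos
    _ = 1 / 4 * (a / 2) := by ring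
    _ ≤ 1 / 4 * (hh m (2 * 2 ^ m * N) - hh m N) :=
        mul_le_mul_of_nonneg_left hR (by norm_num)

/-- `hh` is increasing and positive. -/
theorem hh_mono (M : ℕ) (hM : 0 < M) {a b : ℕ} (h : a ≤ b) : hh M a ≤ hh M b := by
  have _ := hM
  unfold hh
  have h1 : (1 : ℝ) + a ≤ 1 + b := by
    have : (a : ℝ) ≤ b := by exact_mod_cast h
    linarith
  have h2 : -(1 / (M : ℝ)) ≤ 0 := neg_nonpos.2 (by positivity)
  have h3 := Real.rpow_le_rpow_of_nonpos (by positivity : (0 : ℝ) < 1 + a) h1 h2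
  linarith

/-- `hh` is positive. -/
theorem hh_pos (M : ℕ) (hM : 0 < M) {a : ℕ} (h : 1 ≤ a) : 0 < hh M a := by
  unfold hh
  have h1 : (1 : ℝ) < 1 + a := by
    have : (1 : ℝ) ≤ a := by exact_mod_cast h
    linarith
  have hM' : (0 : ℝ) < M := by exact_mod_cast hM
  have h2 : -(1 / (M : ℝ)) < 0 := neg_lt_zero.2 (by positivity)
  have h3 := Real.rpow_lt_one_of_one_lt_of_neg h1 h2
  linarith

end Pool.Agent.MPfe8e9bM
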