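import Mathlib
import Pool.Agent.Lib.MP_fe8e9b_al_M.Defs
import Pool.Agent.Lib.MP_fe8e9b_al_M.PrB
import Pool.Agent.Lib.MP_fe8e9b_al_M.AlB
import Pool.Agent.Lib.MP_fe8e9b_al_M.AcfB

/-!
# MP_fe8e9b_al, groups of bounded height: configurations
-/

set_option autoImplicit false

open scoped BigOperators

namespace Pool.Agent.MPfe8e9bM

open Pool.Agent.MPfe8e9b Pool.Agent.MPfe8e9bA Pool.Agent.MPfe8e9bW Pool.Agent.MPfe8e9bV

/-- Refinement of a configuration. Proof. `mem_ref`. Two different parts are disjoint: they have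
different labels or lie in different cells (if the cells and the labels are equal the parts are
equal). -/
theorem ref_dj {Z S : Type} [Fintype S] {cT : Finset (Finset Z)} (hd : Dj cT) (lab : Z → S) :
    Dj (ref cT lab) := by
  refine ⟨fun σ hσ => ((mem_ref cT lab σ).1 hσ).1, fun σ hσ σ' hσ' hne => ?_⟩
  obtain ⟨-, τ, hτ, s, h⟩ := (mem_ref cT lab σ).1 hσ
  obtain ⟨-, τ', hτ', s', h'⟩ := (mem_ref cT lab σ').1 hσ'
  rw [Finset.disjoint_left]
  intro y hy hy'
  apply hne
  have h1 := (h y).1 hy
  have h2 := (h' y).1 hy'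
  have h3 : τ = τ' := by
    by_contra h4
    exact Finset.disjoint_left.1 (hd.2 τ hτ τ' hτ' h4) h1.1 h2.1
  subst h3
  ext z
  rw [h, h', ← h1.2, ← h2.2]

open Classical in
private theorem conf_biUnion {Z S : Type} [Fintype S] (cT : Finset (Finset Z)) (lab : Z → S) :
    ref cT lab = cT.biUnion fun τ => (τ.image lab).image fun s => τ.filter fun y => lab y = s := by
  ext σ
  rw [mem_ref, Finset.mem_biUnion]
  constructor
  · rintro ⟨⟨z, hz⟩, τ, hτ, s, h⟩
    refine ⟨τ, hτ, Finset.mem_image.2 ⟨s, ?_, ?_⟩⟩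
    · exact Finset.mem_image.2 ⟨z, ((h z).1 hz).1, ((h z).1 hz).2⟩
    · ext y
      rw [Finset.mem_filter, h]
  · rintro ⟨τ, hτ, h⟩
    obtain ⟨s, hs, rfl⟩ := Finset.mem_image.1 h
    obtain ⟨z, hz, rfl⟩ := Finset.mem_image.1 hs
    exact ⟨⟨z, Finset.mem_filter.2 ⟨hz, rfl⟩⟩, τ, hτ, lab z, fun y => Finset.mem_filter⟩

open Classical in
private theorem conf_card {Z S : Type} [Fintype S] {cT : Finset (Finset Z)} (hd : Dj cT)
    (lab : Z → S) : (ref cT lab).card = ∑ τ ∈ cT, (τ.image lab).card := by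
  rw [conf_biUnion, Finset.card_biUnion]
  · refine Finset.sum_congr rfl fun τ _ => Finset.card_image_of_injOn ?_
    intro s hs s' _ hss
    obtain ⟨z, hz, rfl⟩ := Finset.mem_image.1 (Finset.mem_coe.1 hs)
    have h1 : z ∈ τ.filter fun y => lab y = lab z := Finset.mem_filter.2 ⟨hz, rfl⟩
    have h2 : z ∈ τ.filter fun y => lab y = s' := by
      have h3 : (τ.filter fun y => lab y = lab z) = τ.filter fun y => lab y = s' := hss
      rw [← h3]
      exact h1
    exact (Finset.mem_filter.1 h2).2
  · intro τ hτ τ' hτ' hne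
    refine Finset.disjoint_left.2 ?_
    intro σ hσ hσ'
    obtain ⟨s, hs, rfl⟩ := Finset.mem_image.1 hσ
    obtain ⟨z, hz, rfl⟩ := Finset.mem_image.1 hs
    obtain ⟨s', -, h'⟩ := Finset.mem_image.1 hσ'
    have h1 : z ∈ τ.filter fun y => lab y = lab z := Finset.mem_filter.2 ⟨hz, rfl⟩
    rw [← h'] at h1
    exact Finset.disjoint_left.1 (hd.2 τ hτ τ' hτ' hne) hz (Finset.mem_filter.1 h1).1

/-- The number of parts is at least the number of cells. Proof. Every cell is nonempty and has a
part; choose one, the map is injective as the cells are disjoint. -/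
theorem card_le_ref {Z S : Type} [Fintype S] {cT : Finset (Finset Z)} (hd : Dj cT)
    (lab : Z → S) : cT.card ≤ (ref cT lab).card := by
  classical
  rw [conf_card hd lab, Finset.card_eq_sum_ones]
  refine Finset.sum_le_sum fun τ hτ => ?_
  exact Finset.card_pos.2 ((hd.1 τ hτ).image lab)

open Classical in
/-- The number of parts is the sum of the numbers of labels which occur on the cells.

Proof. `ref cT lab` is the disjoint union over `τ ∈ cT` of the sets of the nonempty
`τ.filter (lab y = s)`, `s ∈ τ.image lab` (`Finset.card_biUnion` and `Finset.card_image_of_injOn`;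
or `Finset.card_sigma` and a bijection). -/
theorem card_ref {Z S : Type} [Fintype S] {cT : Finset (Finset Z)} (hd : Dj cT)
    (lab : Z → S) : (ref cT lab).card = ∑ τ ∈ cT, (τ.image lab).card :=
  conf_card hd lab

variable {Z S S' G : Type} [Fintype Z] [Fintype S] [Fintype S'] [Group G] [Fintype G] {V : Type}
  [NormedAddCommGroup V] [InnerProductSpace ℂ V] (ρ : (Z → G) →* (V ≃ₗᵢ[ℂ] V))

omit [Fintype Z] in
private theorem conf_empty (v : V) : Pc ρ (∅ : Finset Z) v = v := by
  rw [pc_fix]
  intro g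
  have h1 : dl G (∅ : Finset Z) g = 1 := by
    funext y
    exact dl_apply_out g (Finset.notMem_empty y)
  rw [h1, map_one]
  rfl

omit [Fintype Z] in
private theorem conf_part (τ : Finset Z) (lab : Z → S) (v : V) :
    Al ρ τ lab v = v ↔ ∀ (s : S) (B : Finset Z), (∀ y, y ∈ B ↔ y ∈ τ ∧ lab y = s) →
      Pc ρ B v = v := by
  classical
  rw [al_part]
  constructor
  · intro h s B hB
    have h1 : B = τ.filter fun y => lab y = s := by
      ext y
      rw [Finset.mem_filter, hB]
    rw [h1]
    convert h s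
  · intro h s
    exact h s _ fun y => Finset.mem_filter

/-- The second label on the parts for the first label is the pair of labels on the cells.

Proof. `isP_ext`, `acf_isP`, `acf_fix` for `ref cT lab` (`ref_dj`) and for `cT`, and `al_part`
for all cells and parts: both say that `v` is fixed by `Pc ρ B` for all the sets
`B = τ.filter (fun y => lab y = s ∧ lab' y = s')` (for the empty ones this is trivial: `dl G ∅ g`
is `1`; the `Pc` depends only on the elements of the set, use `Finset.ext` to identify the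
filters). -/
theorem acf_ref {cT : Finset (Finset Z)} (hd : Dj cT) (lab : Z → S) (lab' : Z → S') (v : V) :
    Acf ρ (ref cT lab) lab' v = Acf ρ cT (fun y => (lab y, lab' y)) v := by
  classical
  have key : Acf ρ (ref cT lab) lab' = Acf ρ cT (fun y => (lab y, lab' y)) := by
    refine isP_ext (acf_isP ρ _ _) (acf_isP ρ _ _) fun w => ?_
    rw [acf_fix ρ (ref_dj hd lab), acf_fix ρ hd]
    constructor
    · intro h τ hτ
      rw [conf_part]
      rintro ⟨s, s'⟩ B hB
      by_cases hne : B.Nonempty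
      · have hsub : ∀ y, y ∈ B → y ∈ τ.filter fun y => lab y = s := fun y hy => by
          have h1 := (hB y).1 hy
          rw [Prod.mk.injEq] at h1
          exact Finset.mem_filter.2 ⟨h1.1, h1.2.1⟩
        have hm : (τ.filter fun y => lab y = s) ∈ ref cT lab :=
          (mem_ref cT lab _).2 ⟨hne.imp hsub, τ, hτ, s, fun y => Finset.mem_filter⟩
        refine (conf_part ρ _ lab' w).1 (h _ hm) s' B fun y => ?_
        rw [hB, Finset.mem_filter, Prod.mk.injEq, and_assoc]
      · rw [Finset.not_nonempty_iff_eq_empty] at hne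
        rw [hne]
        exact conf_empty ρ w
    · intro h σ hσ
      obtain ⟨-, τ, hτ, s, hs⟩ := (mem_ref cT lab σ).1 hσ
      rw [conf_part]
      intro s' B hB
      refine (conf_part ρ τ (fun y => (lab y, lab' y)) w).1 (h τ hτ) (s, s') B fun y => ?_
      rw [hB, hs, Prod.mk.injEq, and_assoc]
  rw [key]

/-- The average maps the space of `cT` to the space of the refinement.

Proof. `pc_one_acf` for the points; for a part `σ` of `τ` with label `s`: `Acf ρ cT lab w` is fixed
by `Acf ρ cT lab`, so by `Al ρ τ lab` (`acf_fix`), so by `Pc ρ σ` (`al_part`, `mem_ref`). -/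
theorem vs_acf {cT : Finset (Finset Z)} (hd : Dj cT) (lab : Z → S) {w : V}
    (hw : w ∈ Vs ρ cT) : Acf ρ cT lab w ∈ Vs ρ (ref cT lab) := by
  classical
  rw [mem_Vs] at hw ⊢
  refine ⟨fun y => ?_, fun σ hσ => ?_⟩
  · rw [pc_one_acf, hw.1 y, map_zero]
  · obtain ⟨-, τ, hτ, s, hs⟩ := (mem_ref cT lab σ).1 hσ
    have h1 := (acf_fix ρ hd lab (Acf ρ cT lab w)).1 ((acf_isP ρ cT lab).2 w) τ hτ
    exact (conf_part ρ τ lab _).1 h1 s σ hs

/-- The average preserves the space of `cT`. Proof. As `vs_acf`, with `al_pc`. -/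
theorem vs_inv {cT : Finset (Finset Z)} (hd : Dj cT) (lab : Z → S) {w : V}
    (hw : w ∈ Vs ρ cT) : Acf ρ cT lab w ∈ Vs ρ cT := by
  rw [mem_Vs] at hw ⊢
  refine ⟨fun y => ?_, fun τ hτ => ?_⟩
  · rw [pc_one_acf, hw.1 y, map_zero]
  · exact al_pc ρ τ lab _ ((acf_fix ρ hd lab (Acf ρ cT lab w)).1 ((acf_isP ρ cT lab).2 w) τ hτ)

/-- Sub-configurations. -/
theorem vs_mono {cT T : Finset (Finset Z)} (hT : T ⊆ cT) : Vs ρ cT ≤ Vs ρ T :=
  fun _ hv => ⟨hv.1, fun τ hτ => hv.2 τ (hT hτ)⟩

end Pool.Agent.MPfe8e9bM
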