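import Mathlib
import Pool.Agent.Lib.MP_fe8e9b_al_M.Defs
import Pool.Agent.Lib.MP_fe8e9b_al_M.PrB

/-!
# MP_fe8e9b_al, groups of bounded height: the largest eigenvalue on an invariant subspace
-/

set_option autoImplicit false

open scoped BigOperators

namespace Pool.Agent.MPfe8e9bM

open Pool.Agent.MPfe8e9b Pool.Agent.MPfe8e9bA Pool.Agent.MPfe8e9bW Pool.Agent.MPfe8e9bV

/-- The largest eigenvalue of a symmetric map on an invariant subspace.

Proof. Restrict `T` to `U` (`LinearMap.IsSymmetric.restrict_invariant`); `U` is nontrivial of finite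
dimension. Either `LinearMap.IsSymmetric.hasEigenvalue_iSup_of_finiteDimensional` (the supremum of
the Rayleigh quotient is an eigenvalue), or: the continuous function `u ↦ Re ⟨T u, u⟩` has a maximum
on the unit sphere of `U` (compact), and a maximum is an eigenvector
(`IsSelfAdjoint.hasEigenvector_of_isLocalExtrOn` and relatives in
`Mathlib.Analysis.InnerProductSpace.Rayleigh`). -/
theorem eig {V : Type} [NormedAddCommGroup V] [InnerProductSpace ℂ V] [FiniteDimensional ℂ V]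
    (U : Submodule ℂ V) (hU : U ≠ ⊥) (T : V →ₗ[ℂ] V) (hT : T.IsSymmetric)
    (hTU : ∀ v ∈ U, T v ∈ U) :
    ∃ (μ : ℝ) (w : V), w ∈ U ∧ ‖w‖ = 1 ∧ T w = (μ : ℂ) • w ∧
      ∀ v ∈ U, (inner ℂ (T v) v).re ≤ μ * ‖v‖ ^ 2 := by
  have hnt : Nontrivial U := Submodule.nontrivial_iff_ne_bot.2 hU
  have hS : (T.restrict hTU).IsSymmetric := hT.restrict_invariant hTU
  have hE := hS.hasEigenvalue_iSup_of_finiteDimensional
  set μ : ℝ := ⨆ x : {x : U // x ≠ 0},
    RCLike.re (inner ℂ ((T.restrict hTU) (x : U)) (x : U)) / ‖(x : U)‖ ^ 2 with hμ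
  obtain ⟨x, hx⟩ := hE.exists_hasEigenvector
  have hx0 : x ≠ 0 := hx.2
  have hxe : (T.restrict hTU) x = (μ : ℂ) • x := hx.apply_eq_smul
  have hxe2 : T (x : V) = (μ : ℂ) • (x : V) := by
    have h := congrArg (Subtype.val) hxe
    simpa using h
  have hn : ‖(x : V)‖ ≠ 0 := by
    rw [norm_ne_zero_iff]
    intro h
    exact hx0 (Subtype.ext h)
  refine ⟨μ, ((‖(x : V)‖⁻¹ : ℝ) : ℂ) • (x : V), U.smul_mem _ x.2, ?_, ?_, ?_⟩
  · rw [norm_smul, Complex.norm_real, norm_inv, norm_norm, inv_mul_cancel₀ hn]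
  · rw [map_smul, hxe2, smul_comm]
  · intro v hv
    by_cases hv0 : v = 0
    · rw [hv0, map_zero, inner_zero_left, norm_zero]
      simp
    · have hbd : BddAbove (Set.range fun x : {x : U // x ≠ 0} =>
          RCLike.re (inner ℂ ((T.restrict hTU) (x : U)) (x : U)) / ‖(x : U)‖ ^ 2) := by
        refine ⟨‖LinearMap.toContinuousLinearMap (T.restrict hTU)‖, ?_⟩
        rintro _ ⟨y, rfl⟩
        have hy : 0 < ‖(y : U)‖ := norm_pos_iff.2 y.2
        show RCLike.re (inner ℂ ((T.restrict hTU) (y : U)) (y : U)) / ‖(y : U)‖ ^ 2 ≤ _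
        rw [div_le_iff₀ (by positivity)]
        calc RCLike.re (inner ℂ ((T.restrict hTU) (y : U)) (y : U))
            ≤ ‖(T.restrict hTU) (y : U)‖ * ‖(y : U)‖ := re_inner_le_norm _ _
          _ ≤ (‖LinearMap.toContinuousLinearMap (T.restrict hTU)‖ * ‖(y : U)‖) * ‖(y : U)‖ :=
              mul_le_mul_of_nonneg_right
                ((LinearMap.toContinuousLinearMap (T.restrict hTU)).le_opNorm (y : U))
                (norm_nonneg _)
          _ = ‖LinearMap.toContinuousLinearMap (T.restrict hTU)‖ * ‖(y : U)‖ ^ 2 := by ring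
      have hv1 : (⟨v, hv⟩ : U) ≠ 0 := fun h => hv0 (congrArg Subtype.val h)
      have h := le_ciSup hbd ⟨⟨v, hv⟩, hv1⟩
      have hvp : 0 < ‖v‖ := norm_pos_iff.2 hv0
      have h2 : (inner ℂ (T v) v).re / ‖v‖ ^ 2 ≤ μ := h
      rwa [div_le_iff₀ (by positivity)] at h2

/-- The same for a mean of projections, in the form used below.

Proof. `eig` for `T = (card Ω)⁻¹ • ∑ i, A i`; `mn_i ‖v - A i v‖² = ‖v‖² - mn_i Re ⟨A i v, v⟩`
(`isP_norm_sq`, `isP_re`). -/
theorem eig_mean {V : Type} [NormedAddCommGroup V] [InnerProductSpace ℂ V]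
    [FiniteDimensional ℂ V] {Ω : Type} [Fintype Ω] [Nonempty Ω] (A : Ω → V →ₗ[ℂ] V)
    (hA : ∀ i, IsP (A i)) (U : Submodule ℂ V) (hU : U ≠ ⊥) (hAU : ∀ i, ∀ v ∈ U, A i v ∈ U) :
    ∃ (μ : ℝ) (w : V), w ∈ U ∧ ‖w‖ = 1 ∧
      ∑ i, A i w = ((Fintype.card Ω * μ : ℝ) : ℂ) • w ∧
      mn (fun i => ‖w - A i w‖ ^ 2) = 1 - μ ∧
      ∀ v ∈ U, (1 - μ) * ‖v‖ ^ 2 ≤ mn (fun i => ‖v - A i v‖ ^ 2) := by
  have hc : (Fintype.card Ω : ℝ) ≠ 0 := by exact_mod_cast Fintype.card_ne_zero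
  have hcc : (Fintype.card Ω : ℂ) ≠ 0 := by exact_mod_cast Fintype.card_ne_zero
  have hcp : 0 < (Fintype.card Ω : ℝ) := by exact_mod_cast Fintype.card_pos
  have happ : ∀ v, (∑ i, A i) v = ∑ i, A i v := fun v => LinearMap.sum_apply _ _ _
  have hTs : (∑ i, A i).IsSymmetric := by
    intro u v
    rw [happ, happ, sum_inner, inner_sum]
    exact Finset.sum_congr rfl fun i _ => (hA i).1 u v
  have hTU : ∀ v ∈ U, (∑ i, A i) v ∈ U := by
    intro v hv
    rw [happ]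
    exact U.sum_mem fun i _ => hAU i v hv
  obtain ⟨ν, w, hwU, hw1, hTw, hle⟩ := eig U hU (∑ i, A i) hTs hTU
  have key : ∀ v, mn (fun i => ‖v - A i v‖ ^ 2) =
      ‖v‖ ^ 2 - (Fintype.card Ω : ℝ)⁻¹ * (inner ℂ ((∑ i, A i) v) v).re := by
    intro v
    have h1 : ∀ i, ‖v - A i v‖ ^ 2 = ‖v‖ ^ 2 - (inner ℂ (A i v) v).re := by
      intro i
      rw [isP_re (hA i), isP_norm_sq (hA i) v]
      ring
    have h2 : (inner ℂ ((∑ i, A i) v) v).re = ∑ i, (inner ℂ (A i v) v).re := by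
      rw [happ, sum_inner, Complex.re_sum]
    simp only [h1]
    rw [mn_sub, mn_const, h2]
    rfl
  refine ⟨(Fintype.card Ω : ℝ)⁻¹ * ν, w, hwU, hw1, ?_, ?_, ?_⟩
  · rw [← happ, hTw]
    congr 2
    rw [← mul_assoc, mul_inv_cancel₀ hc, one_mul]
  · rw [key w, hTw, inner_smul_left, inner_self_eq_norm_sq_to_K, hw1]
    simp
  · intro v hv
    rw [key v]
    have h := mul_le_mul_of_nonneg_left (hle v hv) (inv_nonneg.2 hcp.le)
    nlinarith [h]

end Pool.Agent.MPfe8e9bM
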