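import Mathlib
import Pool.Agent.Lib.MP_fe8e9b_al_M.Defs
import Pool.Agent.Lib.MP_fe8e9b_al_V.Irr
import Pool.Agent.Lib.MP_fe8e9b_al_V.CmlB

/-!
# MP_fe8e9b_al, groups of bounded height: commutators move vectors
-/

set_option autoImplicit false

open scoped BigOperators

namespace Pool.Agent.MPfe8e9bM

open Pool.Agent.MPfe8e9b Pool.Agent.MPfe8e9bA Pool.Agent.MPfe8e9bW Pool.Agent.MPfe8e9bV

/-- Random elements have a phase gap. Proof. `pg_of_mix` (file V/CmlB) for the list `fun g => g` of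
all elements, `η = 0`, `m = 1` (`Mix (fun g : G => g) 0`: the mean is `av ρ v`, `av_apply`). -/
theorem comm1_pg {G : Type} [Group G] [Fintype G] (hG : commutator G = ⊤) :
    PG (fun g : G => g) (1 / 1024) := by
  have hmix : Mix (fun g : G => g) 0 := by
    intro V _ _ _ ρ v hv
    rw [← av_apply, hv, norm_zero, zero_mul]
  have h := pg_of_mix hG le_rfl hmix 1 one_pos (by norm_num)
  have e : (1 / (1024 * ((1 : ℕ) : ℝ) ^ 2)) = 1 / 1024 := by norm_num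
  rwa [e] at h

/-- Scalars of absolute value at most one. If `‖z‖ ≤ 1` and `‖U‖ = ‖v‖` then there is `z'` with
`‖z'‖ = 1` and `‖U - z' • v‖ ≤ 2 * ‖U - z • v‖`.

Proof. `z' = z / ‖z‖` (and `z' = 1` if `z = 0`): `‖z • v - z' • v‖ = (1 - ‖z‖) ‖v‖ ≤ ‖U - z • v‖`
by the triangle inequality. -/
theorem comm1_phase {V : Type} [NormedAddCommGroup V] [InnerProductSpace ℂ V] (z : ℂ)
    (hz : ‖z‖ ≤ 1) : ∃ z' : ℂ, ‖z'‖ = 1 ∧ ∀ U v : V, ‖U‖ = ‖v‖ →
      ‖U - z' • v‖ ≤ 2 * ‖U - z • v‖ := by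
  have key : ∃ z' : ℂ, ‖z'‖ = 1 ∧ ‖z - z'‖ = 1 - ‖z‖ := by
    by_cases h0 : z = 0
    · refine ⟨1, norm_one, ?_⟩
      rw [h0, zero_sub, norm_neg, norm_one, norm_zero, sub_zero]
    · have hn : ‖z‖ ≠ 0 := norm_ne_zero_iff.2 h0
      refine ⟨z / (‖z‖ : ℂ), ?_, ?_⟩
      · rw [norm_div, Complex.norm_real, norm_norm, div_self hn]
      · have hc : ((‖z‖ : ℝ) : ℂ) ≠ 0 := by exact_mod_cast hn
        have e1 : z - z / (‖z‖ : ℂ) = (z / (‖z‖ : ℂ)) * (((‖z‖ - 1 : ℝ)) : ℂ) := by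
          push_cast
          field_simp
        rw [e1, norm_mul, norm_div, Complex.norm_real, norm_norm, div_self hn, one_mul,
          Complex.norm_real, Real.norm_eq_abs, abs_of_nonpos (by linarith)]
        ring
  obtain ⟨z', h1, h2⟩ := key
  refine ⟨z', h1, fun U v hUv => ?_⟩
  have h3 : ‖z • v - z' • v‖ = (1 - ‖z‖) * ‖v‖ := by
    rw [← sub_smul, norm_smul, h2]
  have h4 : ‖U‖ - ‖z • v‖ ≤ ‖U - z • v‖ := norm_sub_norm_le _ _
  rw [norm_smul, hUv] at h4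
  have h5 : U - z' • v = (U - z • v) + (z • v - z' • v) := by abel
  rw [h5]
  refine (norm_add_le _ _).trans ?_
  rw [h3]
  linarith

/-- The mean square distance to central operators: for a family of linear maps `T h` which commute
with the representation and are contractions,
`mn_h ‖ρ h⁻¹ v - T h v‖² ≥ ‖v‖² / 4096` if `av ρ v = 0`.

Proof. `irr_ind` (file V/Irr) with `C x := av ρ x = 0` (stable under the operators which commute
with `ρ`: `av ρ (T x) = T (av ρ x)`) and `Q` the inequality. On a minimal invariant subspace `T h`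
is a scalar `z h` by `schur` (`T h` maps the subspace `U` to itself? use the map
`P ∘ T h`, `P` the orthogonal projection on `U`, which commutes with `ρ`, see the proof of `schur`
and of `irr_ind`; alternatively apply the statement only to the operators of the next theorem,
averages of `ρ`, which preserve every invariant subspace - this is the hypothesis `hTU`).
`‖z h‖ ≤ 1` if `v ≠ 0`, as `T h` is a contraction. Then `comm1_phase` and `comm1_pg` for the list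
`fun g => g` and phases `z' h⁻¹` (`mn_equiv (Equiv.inv G)`):
`‖v‖² / 1024 ≤ mn_h ‖ρ h v - z'(h) v‖² ≤ 4 mn_h ‖ρ h v - z(h) v‖²`. Additivity: for `x`, `y` with
`⟨ρ g x, ρ g' y⟩ = 0` for all `g`, `g'` the vectors `ρ h⁻¹ x - T h x` and `ρ h⁻¹ y - T h y` are
orthogonal because `T h x` is in every invariant subspace containing `x` (`hTU` for the span of the
orbit, or for the orthogonal complement of the span of the orbit of `y`); Pythagoras. -/
theorem comm1_central {G : Type} [Group G] [Fintype G] (hG : commutator G = ⊤)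
    {V : Type} [NormedAddCommGroup V] [InnerProductSpace ℂ V] [FiniteDimensional ℂ V]
    (ρ : G →* (V ≃ₗᵢ[ℂ] V)) (T : G → V →ₗ[ℂ] V) (hT : ∀ h g x, T h (ρ g x) = ρ g (T h x))
    (hTU : ∀ (U : Submodule ℂ V), InvS ρ U → ∀ h, ∀ x ∈ U, T h x ∈ U)
    (hTn : ∀ h x, ‖T h x‖ ≤ ‖x‖) (v : V) (hv : av ρ v = 0) :
    1 / 4096 * ‖v‖ ^ 2 ≤ mn (fun h : G => ‖ρ h⁻¹ v - T h v‖ ^ 2) := by
  refine irr_ind ρ (fun x => av ρ x = 0)
    (fun x => 1 / 4096 * ‖x‖ ^ 2 ≤ mn (fun h : G => ‖ρ h⁻¹ x - T h x‖ ^ 2)) ?_ ?_ ?_ v hv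
  · intro S hS x hx
    have e : av ρ (S x) = S (av ρ x) := by
      rw [av_apply, av_apply, map_smul, map_sum]
      congr 1
      exact Finset.sum_congr rfl fun g _ => (hS g x).symm
    change av ρ (S x) = 0
    have hx' : av ρ x = 0 := hx
    rw [e, hx', map_zero]
  · intro U hU x hxU hx
    have hx' : av ρ x = 0 := hx
    change 1 / 4096 * ‖x‖ ^ 2 ≤ mn (fun h : G => ‖ρ h⁻¹ x - T h x‖ ^ 2)
    by_cases hx0 : x = 0
    · rw [hx0, norm_zero]
      have := mn_nonneg (f := fun h : G => ‖ρ h⁻¹ (0 : V) - T h 0‖ ^ 2)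
        (fun h => by positivity)
      simpa using this
    have hxn : 0 < ‖x‖ := norm_pos_iff.2 hx0
    have h1 : ∀ h : G, ∃ z : ℂ, ∀ y ∈ U, T h y = z • y := fun h =>
      schur ρ U hU (T h) (fun g y => hT h g y) (fun y hy => hTU U hU.1 h y hy)
    choose z hz using h1
    have hzn : ∀ h, ‖z h‖ ≤ 1 := by
      intro h
      have h2 := hTn h x
      rw [hz h x hxU, norm_smul] at h2
      by_contra hcon
      rw [not_le] at hcon
      nlinarith
    have h3 : ∀ h, ∃ z' : ℂ, ‖z'‖ = 1 ∧ ∀ U v : V, ‖U‖ = ‖v‖ →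
      ‖U - z' • v‖ ≤ 2 * ‖U - z h • v‖ := fun h => comm1_phase (z h) (hzn h)
    choose z' hz1 hz2 using h3
    have h4 := comm1_pg hG V ρ (fun g => z' g⁻¹) (fun g => hz1 g⁻¹) x hx'
    have h5 : mn (fun g : G => ‖ρ g x - z' g⁻¹ • x‖ ^ 2) =
        mn (fun h : G => ‖ρ h⁻¹ x - z' h • x‖ ^ 2) := by
      rw [← mn_equiv (Equiv.inv G) (fun g : G => ‖ρ g x - z' g⁻¹ • x‖ ^ 2)]
      congr 1
      funext h
      simp
    have h6 : mn (fun h : G => ‖ρ h⁻¹ x - z' h • x‖ ^ 2) ≤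
        4 * mn (fun h : G => ‖ρ h⁻¹ x - T h x‖ ^ 2) := by
      rw [← mn_mul_left]
      refine mn_mono fun h => ?_
      have h7 := hz2 h (ρ h⁻¹ x) x ((ρ h⁻¹).norm_map x)
      rw [hz h x hxU]
      have h8 : ‖ρ h⁻¹ x - z' h • x‖ ^ 2 ≤ (2 * ‖ρ h⁻¹ x - z h • x‖) ^ 2 :=
        pow_le_pow_left₀ (norm_nonneg _) h7 2
      calc ‖ρ h⁻¹ x - z' h • x‖ ^ 2 ≤ (2 * ‖ρ h⁻¹ x - z h • x‖) ^ 2 := h8
        _ = 4 * ‖ρ h⁻¹ x - z h • x‖ ^ 2 := by ring
    have h9 : 1 / 1024 * ‖x‖ ^ 2 ≤ mn (fun g : G => ‖ρ g x - z' g⁻¹ • x‖ ^ 2) := h4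
    rw [h5] at h9
    linarith
  · intro x y _ _ hxy hx hy
    have hx' : 1 / 4096 * ‖x‖ ^ 2 ≤ mn (fun h : G => ‖ρ h⁻¹ x - T h x‖ ^ 2) := hx
    have hy' : 1 / 4096 * ‖y‖ ^ 2 ≤ mn (fun h : G => ‖ρ h⁻¹ y - T h y‖ ^ 2) := hy
    change 1 / 4096 * ‖x + y‖ ^ 2 ≤ mn (fun h : G => ‖ρ h⁻¹ (x + y) - T h (x + y)‖ ^ 2)
    let W : Submodule ℂ V :=
      { carrier := {u | ∀ g : G, inner ℂ u (ρ g y) = 0}
        add_mem' := fun {a b} ha hb g => by rw [inner_add_left, ha g, hb g, add_zero]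
        zero_mem' := fun g => inner_zero_left _
        smul_mem' := fun c a ha g => by rw [inner_smul_left, ha g, mul_zero] }
    have hW : InvS ρ W := by
      intro γ u hu g
      rw [av_inner_rho]
      have e : ρ γ⁻¹ (ρ g y) = ρ (γ⁻¹ * g) y := by
        rw [map_mul]
        rfl
      rw [e]
      exact hu _
    have hone : ∀ w : V, ρ 1 w = w := fun w => by
      rw [map_one]
      rfl
    have hxW : x ∈ W := by
      intro g
      have h1 := hxy 1 g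
      rwa [hone] at h1
    have hyW : y ∈ Wᗮ := by
      rw [Submodule.mem_orthogonal]
      intro u hu
      have h1 := hu 1
      rwa [hone] at h1
    have hWo := irr_orth ρ W hW
    have hpy : ∀ h : G, ‖ρ h⁻¹ (x + y) - T h (x + y)‖ ^ 2 =
        ‖ρ h⁻¹ x - T h x‖ ^ 2 + ‖ρ h⁻¹ y - T h y‖ ^ 2 := by
      intro h
      have ha : ρ h⁻¹ x - T h x ∈ W := W.sub_mem (hW _ _ hxW) (hTU W hW h x hxW)
      have hb : ρ h⁻¹ y - T h y ∈ Wᗮ := Wᗮ.sub_mem (hWo _ _ hyW) (hTU Wᗮ hWo h y hyW)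
      have hab : inner ℂ (ρ h⁻¹ x - T h x) (ρ h⁻¹ y - T h y) = 0 := by
        rw [Submodule.mem_orthogonal] at hb
        exact hb _ ha
      have e1 : ρ h⁻¹ (x + y) - T h (x + y) = (ρ h⁻¹ x - T h x) + (ρ h⁻¹ y - T h y) := by
        rw [map_add, map_add]
        abel
      rw [e1, norm_add_sq (𝕜 := ℂ), hab]
      simp
    have hn : ‖x + y‖ ^ 2 = ‖x‖ ^ 2 + ‖y‖ ^ 2 := by
      have h1 := hxW 1
      rw [hone] at h1
      rw [norm_add_sq (𝕜 := ℂ), h1]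
      simp
    rw [hn, show (fun h : G => ‖ρ h⁻¹ (x + y) - T h (x + y)‖ ^ 2) =
      fun h => ‖ρ h⁻¹ x - T h x‖ ^ 2 + ‖ρ h⁻¹ y - T h y‖ ^ 2 from funext hpy, mn_add]
    linarith

/-- The square of the norm of a mean. -/
theorem comm1_cs {J : Type} [Fintype J] [Nonempty J] {V : Type} [NormedAddCommGroup V]
    [InnerProductSpace ℂ V] (w : J → V) :
    ‖((Fintype.card J : ℂ))⁻¹ • ∑ j, w j‖ ^ 2 ≤ mn (fun j => ‖w j‖ ^ 2) := by
  have hJ : (0 : ℝ) < (Fintype.card J : ℝ) := by exact_mod_cast Fintype.card_pos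
  rw [norm_smul, norm_inv, Complex.norm_natCast, mul_pow, mn]
  have h1 : ‖∑ j, w j‖ ^ 2 ≤ (∑ j, ‖w j‖) ^ 2 :=
    pow_le_pow_left₀ (norm_nonneg _) (norm_sum_le _ _) 2
  have h2 : (∑ j, ‖w j‖) ^ 2 ≤ (Fintype.card J : ℝ) * ∑ j, ‖w j‖ ^ 2 := by
    have := sq_sum_le_card_mul_sum_sq (s := (Finset.univ : Finset J)) (f := fun j => ‖w j‖)
    rwa [Finset.card_univ] at this
  calc ((Fintype.card J : ℝ))⁻¹ ^ 2 * ‖∑ j, w j‖ ^ 2
      ≤ ((Fintype.card J : ℝ))⁻¹ ^ 2 * ((Fintype.card J : ℝ) * ∑ j, ‖w j‖ ^ 2) :=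
        mul_le_mul_of_nonneg_left (h1.trans h2) (by positivity)
    _ = ((Fintype.card J : ℝ))⁻¹ * ∑ j, ‖w j‖ ^ 2 := by
        field_simp

/-- Commutators of random elements move the vectors without invariants.

Proof. `‖ρ (cm h g) v - v‖ = ‖ρ (g * h⁻¹ * g⁻¹) v - ρ h⁻¹ v‖`. For fixed `h` the mean over `g` of
the square is at least the square of the norm of the mean, `‖T h v - ρ h⁻¹ v‖²`,
`T h = mean over g of ρ (g * h⁻¹ * g⁻¹)`, which commutes with `ρ` (shift of `g`), preserves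
invariant subspaces and is a contraction. `comm1_central` (the constant `1 / 4096` is better than
`c1 = 1 / 8192`). -/
theorem comm_gap {G : Type} [Group G] [Fintype G] (hG : commutator G = ⊤)
    {V : Type} [NormedAddCommGroup V] [InnerProductSpace ℂ V] [FiniteDimensional ℂ V]
    (ρ : G →* (V ≃ₗᵢ[ℂ] V)) (v : V) (hv : av ρ v = 0) :
    c1 * ‖v‖ ^ 2 ≤ mn (fun p : G × G => ‖ρ (cm p.1 p.2) v - v‖ ^ 2) := by
  have hcard : (Fintype.card G : ℂ) ≠ 0 := by exact_mod_cast Fintype.card_ne_zero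
  have hJ : (0 : ℝ) < (Fintype.card G : ℝ) := by exact_mod_cast Fintype.card_pos
  have hmul : ∀ a b : G, ∀ w : V, ρ (a * b) w = ρ a (ρ b w) := fun a b w => by
    rw [map_mul]
    rfl
  let T : G → V →ₗ[ℂ] V := fun h => ((Fintype.card G : ℂ))⁻¹ •
    ∑ g : G, (ρ (g * h⁻¹ * g⁻¹)).toLinearEquiv.toLinearMap
  have hTa : ∀ h x, T h x = ((Fintype.card G : ℂ))⁻¹ • ∑ g : G, ρ (g * h⁻¹ * g⁻¹) x := by
    intro h x
    change (((Fintype.card G : ℂ))⁻¹ •
      ∑ g : G, (ρ (g * h⁻¹ * g⁻¹)).toLinearEquiv.toLinearMap) x = _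
    rw [LinearMap.smul_apply, LinearMap.sum_apply]
    rfl
  have h1 := comm1_central hG ρ T ?_ ?_ ?_ v hv
  · have h2 : mn (fun h : G => ‖ρ h⁻¹ v - T h v‖ ^ 2) ≤
        mn (fun p : G × G => ‖ρ (cm p.1 p.2) v - v‖ ^ 2) := by
      rw [mn_prod]
      refine mn_mono fun h => ?_
      have h3 : ∀ g : G, ‖ρ (cm h g) v - v‖ = ‖ρ h⁻¹ v - ρ (g * h⁻¹ * g⁻¹) v‖ := by
        intro g
        have e1 : ρ (cm h g) v = ρ h (ρ (g * h⁻¹ * g⁻¹) v) := by
          rw [← hmul]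
          congr 2
          rw [cm]
          group
        have e2 : v = ρ h (ρ h⁻¹ v) := by
          rw [← hmul, mul_inv_cancel, map_one]
          rfl
        have e3 : ρ (cm h g) v - v = ρ h (ρ (g * h⁻¹ * g⁻¹) v - ρ h⁻¹ v) := by
          rw [map_sub, ← e1, ← e2]
        rw [e3, LinearIsometryEquiv.norm_map, norm_sub_rev]
      have h4 : ρ h⁻¹ v - T h v = ((Fintype.card G : ℂ))⁻¹ •
          ∑ g : G, (ρ h⁻¹ v - ρ (g * h⁻¹ * g⁻¹) v) := by
        rw [hTa, Finset.sum_sub_distrib, smul_sub, Finset.sum_const, Finset.card_univ,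
          ← Nat.cast_smul_eq_nsmul ℂ, smul_smul, inv_mul_cancel₀ hcard, one_smul]
      rw [h4]
      refine (comm1_cs _).trans (le_of_eq ?_)
      congr 1
      funext g
      rw [← h3 g]
    have h5 : c1 * ‖v‖ ^ 2 ≤ 1 / 4096 * ‖v‖ ^ 2 := by
      have : 0 ≤ ‖v‖ ^ 2 := by positivity
      unfold c1
      linarith
    exact h5.trans (h1.trans h2)
  · intro h g x
    rw [hTa, hTa, map_smul, map_sum]
    congr 1
    refine Fintype.sum_equiv (Equiv.mulLeft g⁻¹) _ _ fun k => ?_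
    rw [Equiv.coe_mulLeft, ← hmul, ← hmul]
    congr 2
    group
  · intro U hU h x hx
    rw [hTa]
    exact U.smul_mem _ (U.sum_mem fun g _ => hU _ _ hx)
  · intro h x
    rw [hTa, norm_smul, norm_inv, Complex.norm_natCast, inv_mul_le_iff₀ hJ]
    calc ‖∑ g, ρ (g * h⁻¹ * g⁻¹) x‖ ≤ ∑ g : G, ‖ρ (g * h⁻¹ * g⁻¹) x‖ := norm_sum_le _ _
      _ = ∑ _g : G, ‖x‖ := Finset.sum_congr rfl fun g _ => (ρ _).norm_map x
      _ = (Fintype.card G : ℝ) * ‖x‖ := by
        rw [Finset.sum_const, Finset.card_univ, nsmul_eq_mul]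

end Pool.Agent.MPfe8e9bM
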