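import Mathlib
import Pool.Agent.Lib.MP_fe8e9b_al_M.Defs
import Pool.Agent.Lib.MP_fe8e9b_al_M.PrB
import Pool.Agent.Lib.MP_fe8e9b_al_M.AlB
import Pool.Agent.Lib.MP_fe8e9b_al_M.Comm1

/-!
# MP_fe8e9b_al, groups of bounded height: angle at one site
-/

set_option autoImplicit false

open scoped BigOperators

namespace Pool.Agent.MPfe8e9bM

open Pool.Agent.MPfe8e9b Pool.Agent.MPfe8e9bA Pool.Agent.MPfe8e9bW Pool.Agent.MPfe8e9bV

/-- The mean square displacement. Proof. `‖ρ h v - v‖² = 2 ‖v‖² - 2 Re ⟨ρ h v, v⟩`, the mean of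
`ρ h v` is `av ρ v`, and `Re ⟨av ρ v, v⟩ = ‖av ρ v‖²` (`isP_re`). -/
theorem mn_disp {H : Type} [Group H] [Fintype H] {V : Type} [NormedAddCommGroup V]
    [InnerProductSpace ℂ V] (ρ : H →* (V ≃ₗᵢ[ℂ] V)) (v : V) :
    mn (fun h : H => ‖ρ h v - v‖ ^ 2) = 2 * (‖v‖ ^ 2 - ‖av ρ v‖ ^ 2) := by
  have h1 : ∀ h : H, ‖ρ h v - v‖ ^ 2 = 2 * ‖v‖ ^ 2 - 2 * (inner ℂ (ρ h v) v).re := by
    intro h
    rw [@norm_sub_sq ℂ, LinearIsometryEquiv.norm_map]
    simp only [RCLike.re_to_complex]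
    ring
  have h2 : mn (fun h : H => (inner ℂ (ρ h v) v).re) = ‖av ρ v‖ ^ 2 := by
    rw [← isP_re ⟨av_symm ρ, av_idem ρ⟩ v, av_apply, inner_smul_left, map_inv₀,
      Complex.conj_natCast, sum_inner, mn, ← Complex.ofReal_natCast, ← Complex.ofReal_inv,
      Complex.re_ofReal_mul, Complex.re_sum]
  simp only [h1]
  rw [mn_sub, mn_const, mn_mul_left, h2]
  ring

open Classical in
/-- Commutators of constant functions on two sets. -/
theorem cm_dl {Z G : Type} [Group G] (R C : Finset Z) (h g : G) :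
    cm (dl G R h) (dl G C g) = dl G (R ∩ C) (cm h g) := by
  funext y
  simp only [cm, Pi.mul_apply, Pi.inv_apply]
  by_cases hR : y ∈ R <;> by_cases hC : y ∈ C
  · rw [dl_apply _ hR, dl_apply _ hC, dl_apply _ (Finset.mem_inter.2 ⟨hR, hC⟩)]
  · rw [dl_apply _ hR, dl_apply_out _ hC,
      dl_apply_out _ (fun h => hC (Finset.mem_inter.1 h).2)]
    group
  · rw [dl_apply_out _ hR, dl_apply _ hC,
      dl_apply_out _ (fun h => hR (Finset.mem_inter.1 h).1)]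
    group
  · rw [dl_apply_out _ hR, dl_apply_out _ hC,
      dl_apply_out _ (fun h => hR (Finset.mem_inter.1 h).1)]
    group

open Classical in
/-- The angle at one site: `v` invariant under the constant functions on the row `R`, without
invariants on the site `R ∩ C`.

Proof. For `h`, `g` in `G`: `dl (R ∩ C) (cm h g) = cm (dl R h) (dl C g)` and `dl R h`, its inverse
fix `v`, so `‖ρ (dl (R ∩ C) (cm h g)) v - v‖ ≤ 2 ‖ρ (dl C g) v - v‖`
(`ρ (dl R h)⁻¹` maps `u = ρ (dl C g)⁻¹ v`, at distance `D g = ‖ρ (dl C g) v - v‖` from `v`, to a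
vector at the same distance from `v`; apply `ρ (dl C g)`: distance at most `2 D g`; apply
`ρ (dl R h)`: the same). `comm_gap` for the representation `ρ.comp (dl G (R ∩ C))`:
`c1 ‖v‖² ≤ 4 mn_g D g ² = 8 (‖v‖² - ‖Pc ρ C v‖²)` (`mn_disp`, `mn_prod`), and
`1 - c1 / 8 = 1 - 1 / 65536 = et ^ 2`. -/
theorem ang_site {Z G : Type} [Group G] [Fintype G] (hG : commutator G = ⊤) {V : Type}
    [NormedAddCommGroup V] [InnerProductSpace ℂ V] [FiniteDimensional ℂ V]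
    (ρ : (Z → G) →* (V ≃ₗᵢ[ℂ] V)) (R C : Finset Z) (v : V) (hR : Pc ρ R v = v)
    (h0 : Pc ρ (R ∩ C) v = 0) : ‖Pc ρ C v‖ ^ 2 ≤ et ^ 2 * ‖v‖ ^ 2 := by
  have hm : ∀ (x y : Z → G) (w : V), ρ (x * y) w = ρ x (ρ y w) := fun x y w => by
    rw [map_mul]
    rfl
  have hfix : ∀ h, ρ (dl G R h) v = v := (pc_fix ρ R v).1 hR
  have hfix' : ∀ h, ρ (dl G R h)⁻¹ v = v := fun h => by
    rw [← map_inv]
    exact hfix h⁻¹
  have h1 : ∀ h g : G, ‖ρ (dl G (R ∩ C) (cm h g)) v - v‖ ≤ 2 * ‖ρ (dl G C g) v - v‖ := by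
    intro h g
    rw [← cm_dl, cm, hm, hm, hm]
    have e1 : ‖ρ (dl G C g)⁻¹ v - v‖ = ‖ρ (dl G C g) v - v‖ := by
      have e0 : ρ (dl G C g) (ρ (dl G C g)⁻¹ v) = v := by
        rw [← hm, mul_inv_cancel, map_one]
        rfl
      rw [← LinearIsometryEquiv.norm_map (ρ (dl G C g)) (ρ (dl G C g)⁻¹ v - v), map_sub, e0,
        norm_sub_rev]
    have e2 : ‖ρ (dl G R h)⁻¹ (ρ (dl G C g)⁻¹ v) - v‖ = ‖ρ (dl G C g) v - v‖ := by
      rw [← e1, ← LinearIsometryEquiv.norm_map (ρ (dl G R h)⁻¹) (ρ (dl G C g)⁻¹ v - v),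
        map_sub, hfix' h]
    have e3 : ‖ρ (dl G C g) (ρ (dl G R h)⁻¹ (ρ (dl G C g)⁻¹ v)) - v‖ ≤
        2 * ‖ρ (dl G C g) v - v‖ := by
      have e5 : ρ (dl G C g) (ρ (dl G R h)⁻¹ (ρ (dl G C g)⁻¹ v)) - v =
          ρ (dl G C g) (ρ (dl G R h)⁻¹ (ρ (dl G C g)⁻¹ v) - v) + (ρ (dl G C g) v - v) := by
        rw [map_sub]
        abel
      rw [e5]
      refine (norm_add_le _ _).trans ?_
      rw [LinearIsometryEquiv.norm_map, e2]
      linarith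
    have e4 : ∀ w : V, ‖ρ (dl G R h) w - v‖ = ‖w - v‖ := fun w => by
      rw [← LinearIsometryEquiv.norm_map (ρ (dl G R h)) (w - v), map_sub, hfix]
    rw [e4]
    exact e3
  have h2 := comm_gap hG (ρ.comp (dl G (R ∩ C))) v h0
  have h3 : mn (fun p : G × G => ‖(ρ.comp (dl G (R ∩ C))) (cm p.1 p.2) v - v‖ ^ 2) ≤
      4 * mn (fun g : G => ‖(ρ.comp (dl G C)) g v - v‖ ^ 2) := by
    rw [mn_prod, ← mn_mul_left]
    refine mn_le fun h => mn_mono fun g => ?_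
    have h4 := h1 h g
    have h5 := norm_nonneg (ρ (dl G (R ∩ C) (cm h g)) v - v)
    change ‖ρ (dl G (R ∩ C) (cm h g)) v - v‖ ^ 2 ≤ 4 * ‖ρ (dl G C g) v - v‖ ^ 2
    nlinarith
  rw [mn_disp] at h3
  rw [et_sq]
  have h6 : Pc ρ C v = av (ρ.comp (dl G C)) v := rfl
  rw [h6]
  unfold c1 at h2
  linarith

end Pool.Agent.MPfe8e9bM
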