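import Mathlib
import Pool.Agent.Lib.MP_fe8e9b_al_M.Defs
import Pool.Agent.Lib.MP_fe8e9b_al_M.PrB
import Pool.Agent.Lib.MP_fe8e9b_al_M.AlB
import Pool.Agent.Lib.MP_fe8e9b_al_M.Ang1

/-!
# MP_fe8e9b_al, groups of bounded height: the angle between rows and columns
-/

set_option autoImplicit false

open scoped BigOperators

namespace Pool.Agent.MPfe8e9bM

open Pool.Agent.MPfe8e9b Pool.Agent.MPfe8e9bA Pool.Agent.MPfe8e9bW Pool.Agent.MPfe8e9bV

section

variable {V : Type} [NormedAddCommGroup V] [InnerProductSpace ℂ V]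

/-- The product of a list of maps. -/
noncomputable def angPi (L : List (V →ₗ[ℂ] V)) : V →ₗ[ℂ] V :=
  L.foldr (fun P T => P ∘ₗ T) LinearMap.id

theorem angPi_apply (L : List (V →ₗ[ℂ] V)) (v : V) :
    angPi L v = L.foldr (fun P x => P x) v := by
  induction L with
  | nil => rfl
  | cons P L ih =>
    show P (angPi L v) = P (L.foldr (fun P x => P x) v)
    rw [ih]

theorem angPi_cons (P : V →ₗ[ℂ] V) (L : List (V →ₗ[ℂ] V)) (v : V) :
    angPi (P :: L) v = P (angPi L v) := rfl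

theorem angPi_comm (Q : V →ₗ[ℂ] V) (L : List (V →ₗ[ℂ] V))
    (h : ∀ P ∈ L, ∀ v, P (Q v) = Q (P v)) (v : V) : angPi L (Q v) = Q (angPi L v) := by
  induction L with
  | nil => rfl
  | cons P L ih =>
    rw [angPi_cons, angPi_cons, ih fun P' hP' => h P' (List.mem_cons_of_mem _ hP'),
      h P List.mem_cons_self]

theorem angPi_isP (L : List (V →ₗ[ℂ] V)) (h : ∀ P ∈ L, IsP P)
    (hc : ∀ P ∈ L, ∀ P' ∈ L, ∀ v, P (P' v) = P' (P v)) : IsP (angPi L) := by
  induction L with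
  | nil => exact isP_id
  | cons P L ih =>
    have h1 : IsP (angPi L) := ih (fun P' hP' => h P' (List.mem_cons_of_mem _ hP'))
      fun P1 h1 P2 h2 => hc P1 (List.mem_cons_of_mem _ h1) P2 (List.mem_cons_of_mem _ h2)
    refine isP_comp (h P List.mem_cons_self) h1 fun v => ?_
    exact (angPi_comm P L (fun P' hP' w =>
      hc P' (List.mem_cons_of_mem _ hP') P List.mem_cons_self w) v).symm

theorem angPi_mem (U : Submodule ℂ V) (L : List (V →ₗ[ℂ] V))
    (h : ∀ P ∈ L, ∀ v ∈ U, P v ∈ U) (v : V) (hv : v ∈ U) : angPi L v ∈ U := by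
  induction L with
  | nil => exact hv
  | cons P L ih =>
    exact h P List.mem_cons_self _ (ih fun P' hP' => h P' (List.mem_cons_of_mem _ hP'))

theorem angPi_fix (L : List (V →ₗ[ℂ] V)) (h : ∀ P ∈ L, IsP P)
    (hc : ∀ P ∈ L, ∀ P' ∈ L, ∀ v, P (P' v) = P' (P v)) (P : V →ₗ[ℂ] V) (hP : P ∈ L) (v : V) :
    P (angPi L v) = angPi L v := by
  induction L with
  | nil => exact absurd hP List.not_mem_nil
  | cons P1 L ih =>
    rw [angPi_cons]
    rcases List.mem_cons.1 hP with h1 | h1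
    · rw [h1, (h P1 List.mem_cons_self).2]
    · rw [hc P hP P1 List.mem_cons_self,
        ih (fun P' hP' => h P' (List.mem_cons_of_mem _ hP'))
          (fun P1 h1 P2 h2 => hc P1 (List.mem_cons_of_mem _ h1) P2 (List.mem_cons_of_mem _ h2))
          h1]

theorem ang_pyth {A : V →ₗ[ℂ] V} (hA : IsP A) (u w : V) :
    ‖(u - A u) + A w‖ ^ 2 = ‖u - A u‖ ^ 2 + ‖A w‖ ^ 2 := by
  have h1 : inner ℂ (A w) (u - A u) = 0 := isP_orth hA w u
  have h := norm_add_sq (𝕜 := ℂ) (A w) (u - A u)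
  rw [h1] at h
  rw [add_comm (u - A u) (A w), h]
  simp only [map_zero, mul_zero, add_zero]
  ring

theorem ang_tel (Q : V →ₗ[ℂ] V) (U : Submodule ℂ V) (c : ℝ) (Ps : List (V →ₗ[ℂ] V))
    (hP : ∀ P ∈ Ps, IsP P ∧ (∀ v, P (Q v) = Q (P v)) ∧ ∀ v ∈ U, P v ∈ U)
    (hPP : ∀ P ∈ Ps, ∀ P' ∈ Ps, ∀ v, P (P' v) = P' (P v))
    (h : ∀ P ∈ Ps, ∀ v ∈ U, P v = 0 → ‖Q v‖ ^ 2 ≤ c * ‖v‖ ^ 2) (v : V) (hv : v ∈ U) :
    ‖Q (v - angPi Ps v)‖ ^ 2 ≤ c * ‖v - angPi Ps v‖ ^ 2 := by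
  induction Ps with
  | nil =>
    have h1 : v - angPi ([] : List (V →ₗ[ℂ] V)) v = 0 := sub_self v
    rw [h1, map_zero, norm_zero]
    simp
  | cons P L ih =>
    have hP' : ∀ P' ∈ L, IsP P' ∧ (∀ v, P' (Q v) = Q (P' v)) ∧ ∀ v ∈ U, P' v ∈ U :=
      fun P' h' => hP P' (List.mem_cons_of_mem _ h')
    have hPP' : ∀ P1 ∈ L, ∀ P2 ∈ L, ∀ v, P1 (P2 v) = P2 (P1 v) := fun P1 h1 P2 h2 =>
      hPP P1 (List.mem_cons_of_mem _ h1) P2 (List.mem_cons_of_mem _ h2)
    have ih' := ih hP' hPP' fun P' h' => h P' (List.mem_cons_of_mem _ h')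
    have hA : IsP (angPi L) := angPi_isP L (fun P' h' => (hP' P' h').1) hPP'
    have hQ : ∀ w, angPi L (Q w) = Q (angPi L w) :=
      angPi_comm Q L fun P' h' => (hP' P' h').2.1
    have hc : ∀ w, angPi L (P w) = P (angPi L w) := angPi_comm P L fun P' h' =>
      hPP P' (List.mem_cons_of_mem _ h') P List.mem_cons_self
    obtain ⟨hP1, hP2, hP3⟩ := hP P List.mem_cons_self
    have e1 : v - angPi (P :: L) v = (v - angPi L v) + angPi L (v - P v) := by
      rw [angPi_cons, map_sub, hc]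
      abel
    have e2 : Q (v - angPi (P :: L) v) = (Q v - angPi L (Q v)) + angPi L (Q (v - P v)) := by
      rw [e1, map_add, map_sub, hQ, hQ]
    have e3 : P (angPi L (v - P v)) = 0 := by
      rw [← hc, map_sub, hP1.2, sub_self, map_zero]
    have hU : angPi L (v - P v) ∈ U := angPi_mem U L (fun P' h' => (hP' P' h').2.2) _
      (U.sub_mem hv (hP3 v hv))
    have h1 := h P List.mem_cons_self _ hU e3
    rw [e2, ang_pyth hA, e1, ang_pyth hA, hQ, hQ, ← map_sub]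
    linarith

end

section

variable {Z S G : Type} [Group G] [Fintype G] {V : Type}
  [NormedAddCommGroup V] [InnerProductSpace ℂ V]

open Classical in
/-- The part of a label. -/
noncomputable def angs (τ : Finset Z) (lab : Z → S) (s : S) : Finset Z :=
  τ.filter fun y => lab y = s

theorem mem_angs (τ : Finset Z) (lab : Z → S) (s : S) (y : Z) :
    y ∈ angs τ lab s ↔ y ∈ τ ∧ lab y = s := by
  classical
  exact Finset.mem_filter

theorem ang_part [Fintype S] (ρ : (Z → G) →* (V ≃ₗᵢ[ℂ] V)) (τ : Finset Z) (lab : Z → S)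
    (v : V) : Al ρ τ lab v = v ↔ ∀ s : S, Pc ρ (angs τ lab s) v = v :=
  al_part ρ τ lab v

/-- The averages over the constant functions on a part of `τ` commute with averages. -/
theorem ang_pc_al {S' : Type} [Fintype S'] (ρ : (Z → G) →* (V ≃ₗᵢ[ℂ] V)) (B τ : Finset Z)
    (lab : Z → S') (h : ∀ y ∈ B, ∀ y' ∈ B, (y ∈ τ ↔ y' ∈ τ) ∧ (y ∈ τ → lab y = lab y'))
    (v : V) : Pc ρ B (Al ρ τ lab v) = Al ρ τ lab (Pc ρ B v) := by
  have h1 := al_comm_al ρ B τ (fun _ : Z => ()) lab (fun y hy y' hy' _ => h y hy y' hy') v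
  rwa [al_const ρ B (fun _ => ()) fun _ _ _ _ => rfl] at h1

open Classical in
theorem ang_inter {S1 S2 : Type} (τ : Finset Z) (a : Z → S1) (b : Z → S2) (s : S1 × S2) :
    angs τ a s.1 ∩ angs τ b s.2 = angs τ (fun y => (a y, b y)) s := by
  ext y
  rw [Finset.mem_inter, mem_angs, mem_angs, mem_angs]
  constructor
  · rintro ⟨⟨h1, h2⟩, -, h3⟩
    exact ⟨h1, Prod.ext h2 h3⟩
  · rintro ⟨h1, h2⟩
    exact ⟨⟨h1, congrArg Prod.fst h2⟩, h1, congrArg Prod.snd h2⟩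

end

/-- Telescoping. `Ps` is a list of projections which commute with each other and with the
projection `Q` and preserve the subspace `U`; on the vectors of `U` killed by one of them `Q` is
small. Then `Q` is small on the vectors of `U` killed by the product.

Proof. For a list `L` put `Π L v = L.foldr (fun P x => P x) v`. Induction on `L`: for `v ∈ U`
`‖Q (v - Π L v)‖² ≤ c ‖v - Π L v‖²`. For `P :: L`: `v - P (Π L v) = x + y`, `x = v - Π L v`,
`y = Π L v - P (Π L v)`; `Π L x = 0`, `Π L y = y` (the maps commute and are idempotent), so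
`⟨x, y⟩ = 0`, and `⟨Q x, Q y⟩ = 0` in the same way (`Π L (Q x) = Q (Π L x) = 0`,
`Π L (Q y) = Q y`; `Π L` is symmetric); `y ∈ U`, `P y = 0`. Pythagoras. -/
theorem tel {V : Type} [NormedAddCommGroup V] [InnerProductSpace ℂ V] (Q : V →ₗ[ℂ] V)
    (U : Submodule ℂ V) (Ps : List (V →ₗ[ℂ] V))
    (hP : ∀ P ∈ Ps, IsP P ∧ (∀ v, P (Q v) = Q (P v)) ∧ ∀ v ∈ U, P v ∈ U)
    (hPP : ∀ P ∈ Ps, ∀ P' ∈ Ps, ∀ v, P (P' v) = P' (P v)) (c : ℝ)
    (h : ∀ P ∈ Ps, ∀ v ∈ U, P v = 0 → ‖Q v‖ ^ 2 ≤ c * ‖v‖ ^ 2) (v : V) (hv : v ∈ U)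
    (h0 : Ps.foldr (fun P x => P x) v = 0) : ‖Q v‖ ^ 2 ≤ c * ‖v‖ ^ 2 := by
  have h1 := ang_tel Q U c Ps hP hPP h v hv
  rwa [angPi_apply, h0, sub_zero] at h1

/-- The angle between the functions of the rows and the functions of the columns.

Proof. `tel` with `Q = Al ρ τ b`, `U` the space of the vectors fixed by `Al ρ τ a` (the submodule
`LinearMap.ker (Al ρ τ a - id)` or `LinearMap.eqLocus`), and `Ps` the list of the
`Pc ρ (site s)`, `s` in `S1 × S2` (`Finset.univ.toList.map`), where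
`site s = τ.filter (fun y => (a y, b y) = s)`. The site averages commute with each other, with
`Al ρ τ a` and `Al ρ τ b`: `al_const` (write `Pc ρ (site s)` as `Al ρ (site s) (fun _ => ())`) and
`al_comm_al`. The product of the site averages applied to `v` is fixed by all site averages, so it
is fixed by `Al ρ τ (a, b)` (`al_part`); the product applied to a vector fixed by
`Al ρ τ (a, b)` is the vector; so the product is `Al ρ τ (a, b)` (or directly: with
`p = ` the product applied to `v`, `p = Al ρ τ (a, b) p = ` product of `Al ρ τ (a, b) v = 0`, as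
`Al ρ τ (a, b)` commutes with the site averages).
For a site `s = (r, c)`, `u ∈ U`, `Pc ρ (site s) u = 0`: with the row `R = τ.filter (a y = r)` and
the column `C = τ.filter (b y = c)`, `R ∩ C = site s`, `Pc ρ R u = u` (`al_part`),
`‖Al ρ τ b u‖ ≤ ‖Pc ρ C u‖` (`isP_le_norm`, `al_part`), `ang_site`. -/
theorem ang {Z S1 S2 G : Type} [Fintype S1] [Fintype S2] [Group G] [Fintype G]
    (hG : commutator G = ⊤) {V : Type} [NormedAddCommGroup V] [InnerProductSpace ℂ V]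
    [FiniteDimensional ℂ V] (ρ : (Z → G) →* (V ≃ₗᵢ[ℂ] V)) (τ : Finset Z) (a : Z → S1)
    (b : Z → S2) (v : V) (hv : Al ρ τ a v = v) (h0 : Al ρ τ (fun y => (a y, b y)) v = 0) :
    ‖Al ρ τ b v‖ ≤ et * ‖v‖ := by
  classical
  obtain ⟨Ps, hPs⟩ : ∃ Ps : List (V →ₗ[ℂ] V), ∀ P, P ∈ Ps ↔
      ∃ s : S1 × S2, P = Pc ρ (angs τ (fun y => (a y, b y)) s) := by
    refine ⟨(Finset.univ : Finset (S1 × S2)).toList.map
      fun s => Pc ρ (angs τ (fun y => (a y, b y)) s), fun P => ?_⟩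
    rw [List.mem_map]
    constructor
    · rintro ⟨s, -, rfl⟩
      exact ⟨s, rfl⟩
    · rintro ⟨s, rfl⟩
      exact ⟨s, Finset.mem_toList.2 (Finset.mem_univ s), rfl⟩
  have hab : ∀ s : S1 × S2, ∀ y ∈ angs τ (fun y => (a y, b y)) s,
      ∀ y' ∈ angs τ (fun y => (a y, b y)) s, y ∈ τ ∧ y' ∈ τ ∧ a y = a y' ∧ b y = b y' := by
    intro s y hy y' hy'
    rw [mem_angs] at hy hy'
    have h1 : (a y, b y) = (a y', b y') := hy.2.trans hy'.2.symm
    exact ⟨hy.1, hy'.1, congrArg Prod.fst h1, congrArg Prod.snd h1⟩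
  have hI : ∀ P ∈ Ps, IsP P := by
    intro P hP
    obtain ⟨s, rfl⟩ := (hPs P).1 hP
    exact pc_isP ρ _
  have hPP : ∀ P ∈ Ps, ∀ P' ∈ Ps, ∀ v, P (P' v) = P' (P v) := by
    intro P hP P' hP' w
    obtain ⟨s, rfl⟩ := (hPs P).1 hP
    obtain ⟨s', rfl⟩ := (hPs P').1 hP'
    have h1 := ang_pc_al ρ (angs τ (fun y => (a y, b y)) s)
      (angs τ (fun y => (a y, b y)) s') (fun _ : Z => ()) (fun y hy y' hy' => ?_) w
    · rwa [al_const ρ _ (fun _ => ()) fun _ _ _ _ => rfl] at h1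
    · obtain ⟨h1, h2, h3, h4⟩ := hab s y hy y' hy'
      refine ⟨?_, fun _ => rfl⟩
      rw [mem_angs, mem_angs, h3, h4]
      exact ⟨fun h => ⟨h2, h.2⟩, fun h => ⟨h1, h.2⟩⟩
  have hcA : ∀ s (w : V), Pc ρ (angs τ (fun y => (a y, b y)) s) (Al ρ τ a w) =
      Al ρ τ a (Pc ρ (angs τ (fun y => (a y, b y)) s) w) := fun s w =>
    ang_pc_al ρ _ τ a (fun y hy y' hy' => by
      obtain ⟨h1, h2, h3, h4⟩ := hab s y hy y' hy'
      exact ⟨⟨fun _ => h2, fun _ => h1⟩, fun _ => h3⟩) w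
  have hcB : ∀ s (w : V), Pc ρ (angs τ (fun y => (a y, b y)) s) (Al ρ τ b w) =
      Al ρ τ b (Pc ρ (angs τ (fun y => (a y, b y)) s) w) := fun s w =>
    ang_pc_al ρ _ τ b (fun y hy y' hy' => by
      obtain ⟨h1, h2, h3, h4⟩ := hab s y hy y' hy'
      exact ⟨⟨fun _ => h2, fun _ => h1⟩, fun _ => h4⟩) w
  have hcAB : ∀ s (w : V), Pc ρ (angs τ (fun y => (a y, b y)) s)
      (Al ρ τ (fun y => (a y, b y)) w) =
      Al ρ τ (fun y => (a y, b y)) (Pc ρ (angs τ (fun y => (a y, b y)) s) w) := fun s w =>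
    ang_pc_al ρ _ τ (fun y => (a y, b y)) (fun y hy y' hy' => by
      obtain ⟨h1, h2, h3, h4⟩ := hab s y hy y' hy'
      refine ⟨⟨fun _ => h2, fun _ => h1⟩, fun _ => ?_⟩
      show (a y, b y) = (a y', b y')
      rw [h3, h4]) w
  have hp : Ps.foldr (fun P x => P x) v = 0 := by
    rw [← angPi_apply]
    have h1 : Al ρ τ (fun y => (a y, b y)) (angPi Ps v) = angPi Ps v := by
      rw [ang_part]
      intro s
      exact angPi_fix Ps hI hPP _ ((hPs _).2 ⟨s, rfl⟩) v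
    have h2 : angPi Ps (Al ρ τ (fun y => (a y, b y)) v) =
        Al ρ τ (fun y => (a y, b y)) (angPi Ps v) := by
      refine angPi_comm _ Ps (fun P hP w => ?_) v
      obtain ⟨s, rfl⟩ := (hPs P).1 hP
      exact hcAB s w
    rw [← h1, ← h2, h0, map_zero]
  have hU : ∀ w : V, w ∈ LinearMap.ker (Al ρ τ a - LinearMap.id) ↔ Al ρ τ a w = w := by
    intro w
    rw [LinearMap.mem_ker, LinearMap.sub_apply, LinearMap.id_apply, sub_eq_zero]
  have hfin : ‖Al ρ τ b v‖ ^ 2 ≤ et ^ 2 * ‖v‖ ^ 2 := by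
    refine tel (Al ρ τ b) (LinearMap.ker (Al ρ τ a - LinearMap.id)) Ps (fun P hP => ?_) hPP
      (et ^ 2) (fun P hP w hw h1 => ?_) v ((hU v).2 hv) hp
    · obtain ⟨s, rfl⟩ := (hPs P).1 hP
      refine ⟨pc_isP ρ _, hcB s, fun w hw => ?_⟩
      rw [hU] at hw ⊢
      rw [← hcA, hw]
    · obtain ⟨s, rfl⟩ := (hPs P).1 hP
      rw [hU, ang_part] at hw
      have h2 := ang_site hG ρ (angs τ a s.1) (angs τ b s.2) w (hw s.1) (by
        rw [ang_inter]
        exact h1)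
      refine le_trans ?_ h2
      have h3 : ‖Al ρ τ b w‖ ≤ ‖Pc ρ (angs τ b s.2) w‖ :=
        isP_le_norm (pc_isP ρ _) (al_isP ρ τ b) (fun u hu => (ang_part ρ τ b u).1 hu s.2) w
      exact pow_le_pow_left₀ (norm_nonneg _) h3 2
  refine le_of_sq_le_sq ?_ (mul_nonneg et_pos.le (norm_nonneg _))
  rw [mul_pow]
  exact hfin

end Pool.Agent.MPfe8e9bM
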