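import Mathlib
import Pool.Agent.Lib.MP_fe8e9b_al_M.Defs
import Pool.Agent.Lib.MP_fe8e9b_al_M.PrB
import Pool.Agent.Lib.MP_fe8e9b_al_M.AlB
import Pool.Agent.Lib.MP_fe8e9b_al_M.Ang

/-!
# MP_fe8e9b_al, groups of bounded height: two projections; joins of labels
-/

set_option autoImplicit false

open scoped BigOperators

namespace Pool.Agent.MPfe8e9bM

open Pool.Agent.MPfe8e9b Pool.Agent.MPfe8e9bA Pool.Agent.MPfe8e9bW Pool.Agent.MPfe8e9bV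

/-- Two projections.

Proof. Let `a = ‖A u‖`, `a' = ‖A' u‖`. `Re ⟨A u + A' u, u⟩ = a² + a'²` (`isP_re`), and
`‖A u + A' u‖² = a² + a'² + 2 Re ⟨A u, A' u⟩`, `|⟨A u, A' u⟩| = |⟨A' (A u), A' u⟩| ≤ η a a' ≤
η (a² + a'²) / 2`. Cauchy-Schwarz: `(a² + a'²)² ≤ (1 + η) (a² + a'²) ‖u‖²`, so
`a² + a'² ≤ (1 + η) ‖u‖²`; `isP_norm_sq` twice. -/
theorem two_proj {V : Type} [NormedAddCommGroup V] [InnerProductSpace ℂ V] {A A' : V →ₗ[ℂ] V}
    (hA : IsP A) (hA' : IsP A') {η : ℝ} (h0 : 0 ≤ η) (u : V)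
    (h : ‖A' (A u)‖ ≤ η * ‖A u‖) :
    (1 - η) * ‖u‖ ^ 2 ≤ ‖u - A u‖ ^ 2 + ‖u - A' u‖ ^ 2 := by
  have h1 := isP_norm_sq hA u
  have h2 := isP_norm_sq hA' u
  have h3 := isP_re hA u
  have h4 := isP_re hA' u
  obtain ⟨S, hS⟩ : ∃ S : ℝ, S = ‖A u‖ ^ 2 + ‖A' u‖ ^ 2 := ⟨_, rfl⟩
  have hS0 : 0 ≤ S := by rw [hS]; positivity
  have h5 : S ≤ ‖A u + A' u‖ * ‖u‖ := by
    have h6 : (inner ℂ (A u + A' u) u).re = S := by
      rw [inner_add_left, Complex.add_re, h3, h4, hS]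
    rw [← h6]
    exact (Complex.re_le_norm _).trans (norm_inner_le_norm _ _)
  have h7 : inner ℂ (A' (A u)) (A' u) = inner ℂ (A u) (A' u) := by
    rw [hA'.1 (A u) (A' u), hA'.2]
  have h8 : (inner ℂ (A u) (A' u)).re ≤ η * (‖A u‖ * ‖A' u‖) := by
    rw [← h7]
    refine (Complex.re_le_norm _).trans ((norm_inner_le_norm _ _).trans ?_)
    calc ‖A' (A u)‖ * ‖A' u‖ ≤ (η * ‖A u‖) * ‖A' u‖ :=
          mul_le_mul_of_nonneg_right h (norm_nonneg _)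
      _ = η * (‖A u‖ * ‖A' u‖) := by ring
  have h9 : ‖A u + A' u‖ ^ 2 ≤ (1 + η) * S := by
    have h10 : ‖A u + A' u‖ ^ 2 = ‖A u‖ ^ 2 + 2 * (inner ℂ (A u) (A' u)).re + ‖A' u‖ ^ 2 :=
      norm_add_sq (𝕜 := ℂ) (A u) (A' u)
    have h11 : 2 * (‖A u‖ * ‖A' u‖) ≤ S := by
      rw [hS]
      nlinarith [sq_nonneg (‖A u‖ - ‖A' u‖)]
    have h12 := mul_le_mul_of_nonneg_left h11 h0
    rw [h10]
    nlinarith
  have h13 : S * S ≤ S * ((1 + η) * ‖u‖ ^ 2) := by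
    have h14 : S * S ≤ (‖A u + A' u‖ * ‖u‖) * (‖A u + A' u‖ * ‖u‖) :=
      mul_self_le_mul_self hS0 h5
    have h15 : (‖A u + A' u‖ * ‖u‖) * (‖A u + A' u‖ * ‖u‖) =
        ‖A u + A' u‖ ^ 2 * ‖u‖ ^ 2 := by ring
    have h16 := mul_le_mul_of_nonneg_right h9 (sq_nonneg ‖u‖)
    nlinarith
  have h17 : S ≤ (1 + η) * ‖u‖ ^ 2 := by
    rcases hS0.eq_or_lt with h18 | h18
    · rw [← h18]
      positivity
    · exact le_of_mul_le_mul_left h13 h18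
  nlinarith

/-- Joins of labels.

Proof. `u = v - Al ρ τ (a, b) v`. `Al ρ τ (a, b) u = 0`, and `Al ρ τ a (Al ρ τ (a, b) v) =
Al ρ τ (a, b) v` (`isP_le`, `al_coarse`), so `u - Al ρ τ a u = v - Al ρ τ a v`, the same for `b`;
`ang` for the vector `Al ρ τ a u` (`Al ρ τ (a, b) (Al ρ τ a u) = Al ρ τ (a, b) u = 0`), and
`two_proj` with `η = et`. -/
theorem join {Z S1 S2 G : Type} [Fintype S1] [Fintype S2] [Group G] [Fintype G]
    (hG : commutator G = ⊤) {V : Type} [NormedAddCommGroup V] [InnerProductSpace ℂ V]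
    [FiniteDimensional ℂ V] (ρ : (Z → G) →* (V ≃ₗᵢ[ℂ] V)) (τ : Finset Z) (a : Z → S1)
    (b : Z → S2) (v : V) :
    (1 - et) * ‖v - Al ρ τ (fun y => (a y, b y)) v‖ ^ 2 ≤
      ‖v - Al ρ τ a v‖ ^ 2 + ‖v - Al ρ τ b v‖ ^ 2 := by
  have hP := al_isP (G := G) ρ τ (fun y => (a y, b y))
  have hPa := al_isP (G := G) ρ τ a
  have hPb := al_isP (G := G) ρ τ b
  have hca := isP_le hPa hP (fun w hw => al_coarse ρ τ a (fun y => (a y, b y))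
    (fun y _ y' _ h => congrArg Prod.fst h) w hw)
  have hcb := isP_le hPb hP (fun w hw => al_coarse ρ τ b (fun y => (a y, b y))
    (fun y _ y' _ h => congrArg Prod.snd h) w hw)
  obtain ⟨u, hu⟩ : ∃ u, u = v - Al ρ τ (fun y => (a y, b y)) v := ⟨_, rfl⟩
  have h0 : Al ρ τ (fun y => (a y, b y)) u = 0 := by
    rw [hu, map_sub, hP.2, sub_self]
  have h1 : v - Al ρ τ a v = u - Al ρ τ a u := by
    rw [hu, map_sub, hca.1]
    abel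
  have h2 : v - Al ρ τ b v = u - Al ρ τ b u := by
    rw [hu, map_sub, hcb.1]
    abel
  rw [h1, h2, ← hu]
  refine two_proj hPa hPb et_pos.le u ?_
  refine ang hG ρ τ a b (Al ρ τ a u) (hPa.2 u) ?_
  rw [hca.2, h0]

end Pool.Agent.MPfe8e9bM
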