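import Mathlib
import Pool.Agent.Lib.MP_fe8e9b_al_M.Defs
import Pool.Agent.Lib.MP_fe8e9b_al_M.PrB
import Pool.Agent.Lib.MP_fe8e9b_al_M.TwoP

/-!
# MP_fe8e9b_al, groups of bounded height: the operators of a pair: one cell, products
-/

set_option autoImplicit false

open scoped BigOperators

namespace Pool.Agent.MPfe8e9bM

open Pool.Agent.MPfe8e9b Pool.Agent.MPfe8e9bA Pool.Agent.MPfe8e9bW Pool.Agent.MPfe8e9bV

variable {V : Type} [NormedAddCommGroup V] [InnerProductSpace ℂ V]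

/-- The trivial pair. -/
theorem pg2_triv {η : ℝ} (h0 : 0 ≤ η) :
    PG2 η (LinearMap.id : V →ₗ[ℂ] V) LinearMap.id LinearMap.id LinearMap.id
      LinearMap.id := by
  have hP : IsP (LinearMap.id : V →ₗ[ℂ] V) := isP_id
  refine ⟨hP, hP, hP, fun v => rfl, fun v => rfl, fun v => rfl, fun v => rfl, hP.1, hP.1,
    fun v => rfl, fun v => rfl, fun v => rfl, fun v => rfl, fun v => rfl, fun v => rfl,
    fun v => le_refl _, ?_, fun v => le_refl _, fun v => le_refl _⟩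
  intro v hv
  have hv' : v = 0 := hv
  subst hv'
  simp

/-- Pythagoras for `B v + c (v - B v)`. -/
theorem pgb_nsq {B : V →ₗ[ℂ] V} (hB : IsP B) (c : ℝ) (v : V) :
    ‖B v + (c : ℂ) • (v - B v)‖ ^ 2 = ‖B v‖ ^ 2 + c ^ 2 * ‖v - B v‖ ^ 2 := by
  have h0 : inner ℂ (B v) ((c : ℂ) • (v - B v)) = 0 := by
    rw [inner_smul_right, isP_orth hB, mul_zero]
  have h1 := norm_add_sq_eq_norm_sq_add_norm_sq_of_inner_eq_zero _ _ h0
  rw [norm_smul] at h1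
  have h2 : ‖(c : ℂ)‖ = |c| := by simp
  rw [h2] at h1
  have h3 : |c| * |c| = c * c := abs_mul_abs_self c
  calc ‖B v + (c : ℂ) • (v - B v)‖ ^ 2
      = ‖B v + (c : ℂ) • (v - B v)‖ * ‖B v + (c : ℂ) • (v - B v)‖ := by ring
    _ = ‖B v‖ * ‖B v‖ + |c| * ‖v - B v‖ * (|c| * ‖v - B v‖) := h1
    _ = ‖B v‖ * ‖B v‖ + (|c| * |c|) * (‖v - B v‖ * ‖v - B v‖) := by ring
    _ = ‖B v‖ ^ 2 + c ^ 2 * ‖v - B v‖ ^ 2 := by rw [h3]; ring

/-- The angle estimate for one cell. -/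
theorem pgb_ang {η : ℝ} (h0 : 0 < η) {A A' B : V →ₗ[ℂ] V}
    (hA : IsP A) (hA' : IsP A') (hB : IsP B) (hBA : ∀ v, B v = v → A v = v)
    (hBA' : ∀ v, B v = v → A' v = v)
    (hang : ∀ v, A v = v → B v = 0 → ‖A' v‖ ≤ η * ‖v‖) (v : V) :
    ‖A' (A v)‖ ≤ ‖B (A v) + (η : ℂ) • (A v - B (A v))‖ := by
  have hAx : A (A v) = A v := hA.2 v
  have hAb : A (B (A v)) = B (A v) := hBA _ (hB.2 _)
  have hA'b : A' (B (A v)) = B (A v) := hBA' _ (hB.2 _)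
  have hAy : A (A v - B (A v)) = A v - B (A v) := by rw [map_sub, hAx, hAb]
  have hBy : B (A v - B (A v)) = 0 := by rw [map_sub, hB.2, sub_self]
  have h1 : ‖A' (A v - B (A v))‖ ≤ η * ‖A v - B (A v)‖ := hang _ hAy hBy
  have h2 : B (A' (A v - B (A v))) = 0 := by
    rw [(isP_le hA' hB hBA').2, hBy]
  have h3 : A' (A v) = B (A v) + A' (A v - B (A v)) := by
    rw [map_sub, hA'b]
    abel
  have h4 : inner ℂ (B (A v)) (A' (A v - B (A v))) = 0 := by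
    have h5 : inner ℂ (B (B (A v))) (A' (A v - B (A v)))
        = inner ℂ (B (A v)) (B (A' (A v - B (A v)))) := hB.1 _ _
    rw [hB.2, h2, inner_zero_right] at h5
    exact h5
  have h6 := norm_add_sq_eq_norm_sq_add_norm_sq_of_inner_eq_zero _ _ h4
  rw [← h3] at h6
  have h7 := pgb_nsq hB η (A v)
  have h8 : ‖A' (A v - B (A v))‖ * ‖A' (A v - B (A v))‖
      ≤ η * ‖A v - B (A v)‖ * (η * ‖A v - B (A v)‖) :=
    mul_self_le_mul_self (norm_nonneg _) h1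
  have h9 : ‖A' (A v)‖ ^ 2 ≤ ‖B (A v) + (η : ℂ) • (A v - B (A v))‖ ^ 2 := by
    rw [h7]
    nlinarith [h6, h8]
  exact (pow_le_pow_iff_left₀ (norm_nonneg _) (norm_nonneg _) two_ne_zero).mp h9

/-- One cell: `D = (1 - √η) B + √η`, `E = (1 - 1 / √η) B + 1 / √η`.

Proof. `B v` and `v - B v` are orthogonal, `D v = B v + √η (v - B v)`, so
`‖D v‖² = ‖B v‖² + η ‖v - B v‖²`. Angle: for `v`, put `x = A v`, `x = B x + (x - B x)`:
`A' (B x) = B x`, `x - B x` is fixed by `A` and killed by `B`, so `‖A' (x - B x)‖ ≤ η ‖x - B x‖`,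
and `B (A' (x - B x)) = 0`, so `‖A' x‖² = ‖B x‖² + ‖A' (x - B x)‖² ≤ ‖B x‖² + η² ‖x - B x‖² =
‖D (D x)‖²` (`D (D x) = B x + η (x - B x)`). -/
theorem pg2_one {η : ℝ} (h0 : 0 < η) (h1 : η ≤ 1) {A A' B : V →ₗ[ℂ] V} (hA : IsP A)
    (hA' : IsP A') (hB : IsP B) (hBA : ∀ v, B v = v → A v = v) (hBA' : ∀ v, B v = v → A' v = v)
    (hang : ∀ v, A v = v → B v = 0 → ‖A' v‖ ≤ η * ‖v‖)
    (hang' : ∀ v, A' v = v → B v = 0 → ‖A v‖ ≤ η * ‖v‖) :
    PG2 η A A' B (((1 - Real.sqrt η : ℝ) : ℂ) • B + ((Real.sqrt η : ℝ) : ℂ) • LinearMap.id)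
      (((1 - (Real.sqrt η)⁻¹ : ℝ) : ℂ) • B + (((Real.sqrt η)⁻¹ : ℝ) : ℂ) • LinearMap.id) := by
  have hs0 : 0 < Real.sqrt η := Real.sqrt_pos.mpr h0
  have hs2 : Real.sqrt η * Real.sqrt η = η := Real.mul_self_sqrt h0.le
  set s : ℝ := Real.sqrt η with hs
  have hsc : (s : ℂ) ≠ 0 := by exact_mod_cast hs0.ne'
  have hs2c : (s : ℂ) * (s : ℂ) = (η : ℂ) := by exact_mod_cast hs2
  have hD : ∀ v, (((1 - s : ℝ) : ℂ) • B + ((s : ℝ) : ℂ) • LinearMap.id : V →ₗ[ℂ] V) v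
      = B v + (s : ℂ) • (v - B v) := by
    intro v
    rw [LinearMap.add_apply, LinearMap.smul_apply, LinearMap.smul_apply, LinearMap.id_apply,
      Complex.ofReal_sub, Complex.ofReal_one, sub_smul, smul_sub, one_smul]
    abel
  have hE : ∀ v, (((1 - s⁻¹ : ℝ) : ℂ) • B + ((s⁻¹ : ℝ) : ℂ) • LinearMap.id : V →ₗ[ℂ] V) v
      = B v + (s : ℂ)⁻¹ • (v - B v) := by
    intro v
    rw [LinearMap.add_apply, LinearMap.smul_apply, LinearMap.smul_apply, LinearMap.id_apply,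
      Complex.ofReal_sub, Complex.ofReal_one, Complex.ofReal_inv, sub_smul, smul_sub, one_smul]
    abel
  have hBz : ∀ v, B (v - B v) = 0 := by
    intro v
    rw [map_sub, hB.2, sub_self]
  have hBc : ∀ (c : ℂ) v, B (B v + c • (v - B v)) = B v := by
    intro c v
    rw [map_add, map_smul, hBz, smul_zero, add_zero, hB.2]
  have hcomp : ∀ (c d : ℂ) v, B (B v + d • (v - B v)) +
      c • ((B v + d • (v - B v)) - B (B v + d • (v - B v))) = B v + (c * d) • (v - B v) := by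
    intro c d v
    rw [hBc, add_sub_cancel_left, smul_smul]
  have hsym : ∀ c : ℝ, ∀ x y : V,
      inner ℂ (B x + (c : ℂ) • (x - B x)) y = inner ℂ x (B y + (c : ℂ) • (y - B y)) := by
    intro c x y
    have h1 : inner ℂ (B x) y = inner ℂ x (B y) := hB.1 x y
    rw [inner_add_left, inner_add_right, inner_smul_left, inner_smul_right, inner_sub_left,
      inner_sub_right, h1, Complex.conj_ofReal]
  have hAA : ∀ (A : V →ₗ[ℂ] V), IsP A → (∀ v, B v = v → A v = v) → ∀ (c : ℂ) (v : V),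
      B (A v) + c • (A v - B (A v)) = A (B v + c • (v - B v)) := by
    intro A hA hBA c v
    have h1 := isP_le hA hB hBA
    rw [map_add, map_smul, map_sub, h1.1, h1.2]
  have hDD : ∀ v, (((1 - s : ℝ) : ℂ) • B + ((s : ℝ) : ℂ) • LinearMap.id : V →ₗ[ℂ] V)
      ((((1 - s : ℝ) : ℂ) • B + ((s : ℝ) : ℂ) • LinearMap.id : V →ₗ[ℂ] V) v)
      = B v + (η : ℂ) • (v - B v) := by
    intro v
    rw [hD v, hD (B v + (s : ℂ) • (v - B v)), hcomp, hs2c]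
  constructor
  · exact hA
  · exact hA'
  · exact hB
  · exact (isP_le hA hB hBA).2
  · exact (isP_le hA hB hBA).1
  · exact (isP_le hA' hB hBA').2
  · exact (isP_le hA' hB hBA').1
  · intro x y
    rw [hD, hD]
    exact hsym s x y
  · intro x y
    rw [hE, hE, ← Complex.ofReal_inv]
    exact hsym s⁻¹ x y
  · intro v
    rw [hE, hD, hcomp, mul_inv_cancel₀ hsc, one_smul, add_sub_cancel]
  · intro v
    rw [hD, hE, hcomp, inv_mul_cancel₀ hsc, one_smul, add_sub_cancel]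
  · intro v
    rw [hD, hD]
    exact hAA A hA hBA _ v
  · intro v
    rw [hD, hD]
    exact hAA A' hA' hBA' _ v
  · intro v
    rw [hD, hB.2, sub_self, smul_zero, add_zero]
  · intro v
    rw [hD]
    exact hBc _ v
  · intro v
    rw [hD]
    have h2 := pgb_nsq hB s v
    have h3 := isP_norm_sq hB v
    have h4 : s ^ 2 ≤ 1 := by
      have : s ^ 2 = η := by rw [← hs2]; ring
      rw [this]
      exact h1
    have h5 : ‖B v + (s : ℂ) • (v - B v)‖ ^ 2 ≤ ‖v‖ ^ 2 := by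
      rw [h2, h3]
      have h6 : 0 ≤ ‖v - B v‖ ^ 2 := by positivity
      nlinarith
    exact (pow_le_pow_iff_left₀ (norm_nonneg _) (norm_nonneg _) two_ne_zero).mp h5
  · intro v hv
    rw [hD, pgb_nsq hB s v, hv, sub_zero, norm_zero]
    have : s ^ 2 = η := by rw [← hs2]; ring
    rw [this]
    simp
  · intro v
    rw [hDD (A v)]
    exact pgb_ang h0 hA hA' hB hBA hBA' hang v
  · intro v
    rw [hDD (A' v)]
    exact pgb_ang h0 hA' hA hB hBA' hBA hang' v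

/-- Two linear maps commute. -/
def Cmt (X Y : V →ₗ[ℂ] V) : Prop := ∀ v, X (Y v) = Y (X v)

/-- The angle estimate for products. -/
theorem pgb_ang_comp {A1 A1' D1 A2 A2' D2 : V →ₗ[ℂ] V}
    (a1 : ∀ v, ‖A1' (A1 v)‖ ≤ ‖D1 (D1 (A1 v))‖) (a2 : ∀ v, ‖A2' (A2 v)‖ ≤ ‖D2 (D2 (A2 v))‖)
    (hAA : Cmt A1 A2) (hAA' : Cmt A1 A2') (hDA : Cmt D1 A2) (hDA' : Cmt D1 A2')
    (hDD : Cmt D1 D2) (v : V) :
    ‖A1' (A2' (A1 (A2 v)))‖ ≤ ‖D1 (D2 (D1 (D2 (A1 (A2 v)))))‖ := by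
  have e1 : A1' (A2' (A1 (A2 v))) = A1' (A1 (A2' (A2 v))) := by rw [hAA' (A2 v)]
  have e2 : D1 (D1 (A1 (A2' (A2 v)))) = A2' (A2 (D1 (D1 (A1 v)))) := by
    rw [hAA' (A2 v), hAA v, hDA' _, hDA' _, hDA _, hDA _]
  have e3 : D1 (D2 (D1 (D2 (A1 (A2 v))))) = D2 (D2 (A2 (D1 (D1 (A1 v))))) := by
    rw [hAA v, hDD (D1 (D2 (A2 (A1 v)))), hDD (A2 (A1 v)),
      hDD (D1 (A2 (A1 v))), hDA (A1 v), hDA (D1 (A1 v))]
  rw [e1, e3]
  refine (a1 _).trans ?_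
  rw [e2]
  exact a2 _

/-- Products of commuting pairs.

Proof. `isP_comp`; all identities by moving the commuting maps. `nD`: twice. `nD0`: let
`B1 (B2 v) = 0` and `v = x + y`, `x = B1 v`, `y = v - B1 v`: `D = D1 ∘ D2` commutes with `B1`, so
`D x` and `D y` are orthogonal (`D x` is fixed and `D y` killed by `B1`);
`D x = D2 (D1 (B1 v)) = D2 x`, `B2 x = 0`, so `‖D x‖² ≤ η ‖x‖²`; `‖D y‖² = ‖D2 (D1 y)‖² ≤
‖D1 y‖² ≤ η ‖y‖²`. `ang`: `A1' (A2' (A1 (A2 v))) = A1' (A1 (A2' (A2 v)))`, norm at most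
`‖D1 (D1 (A1 (A2' (A2 v))))‖ = ‖A2' (A2 (D1 (D1 (A1 v))))‖ ≤
‖D2 (D2 (A2 (D1 (D1 (A1 v)))))‖`. -/
theorem pg2_comp {η : ℝ} (h0 : 0 ≤ η) {A1 A1' B1 D1 E1 A2 A2' B2 D2 E2 : V →ₗ[ℂ] V}
    (h1 : PG2 η A1 A1' B1 D1 E1) (h2 : PG2 η A2 A2' B2 D2 E2)
    (hAA : Cmt A1 A2) (hAA' : Cmt A1 A2') (hAB : Cmt A1 B2) (hAD : Cmt A1 D2) (hAE : Cmt A1 E2)
    (hA'A : Cmt A1' A2) (hA'A' : Cmt A1' A2') (hA'B : Cmt A1' B2) (hA'D : Cmt A1' D2)
    (hA'E : Cmt A1' E2)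
    (hBA : Cmt B1 A2) (hBA' : Cmt B1 A2') (hBB : Cmt B1 B2) (hBD : Cmt B1 D2) (hBE : Cmt B1 E2)
    (hDA : Cmt D1 A2) (hDA' : Cmt D1 A2') (hDB : Cmt D1 B2) (hDD : Cmt D1 D2) (hDE : Cmt D1 E2)
    (hEA : Cmt E1 A2) (hEA' : Cmt E1 A2') (hEB : Cmt E1 B2) (hED : Cmt E1 D2)
    (hEE : Cmt E1 E2) :
    PG2 η (A1 ∘ₗ A2) (A1' ∘ₗ A2') (B1 ∘ₗ B2) (D1 ∘ₗ D2) (E1 ∘ₗ E2) := by
  constructor
  · exact isP_comp h1.hA h2.hA hAA
  · exact isP_comp h1.hA' h2.hA' hA'A'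
  · exact isP_comp h1.hB h2.hB hBB
  · intro v
    simp only [LinearMap.comp_apply]
    rw [← hAB (A2 v), h1.BA, h2.BA]
  · intro v
    simp only [LinearMap.comp_apply]
    rw [← hBA (B2 v), h1.AB, h2.AB]
  · intro v
    simp only [LinearMap.comp_apply]
    rw [← hA'B (A2' v), h1.BA', h2.BA']
  · intro v
    simp only [LinearMap.comp_apply]
    rw [← hBA' (B2 v), h1.A'B, h2.A'B]
  · intro x y
    simp only [LinearMap.comp_apply]
    have e1 : inner ℂ (D1 (D2 x)) y = inner ℂ (D2 x) (D1 y) := h1.hD _ _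
    have e2 : inner ℂ (D2 x) (D1 y) = inner ℂ x (D2 (D1 y)) := h2.hD _ _
    rw [e1, e2, hDD y]
  · intro x y
    simp only [LinearMap.comp_apply]
    have e1 : inner ℂ (E1 (E2 x)) y = inner ℂ (E2 x) (E1 y) := h1.hE _ _
    have e2 : inner ℂ (E2 x) (E1 y) = inner ℂ x (E2 (E1 y)) := h2.hE _ _
    rw [e1, e2, hEE y]
  · intro v
    simp only [LinearMap.comp_apply]
    rw [← hED (E2 v), h1.DE, h2.DE]
  · intro v
    simp only [LinearMap.comp_apply]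
    rw [← hDE (D2 v), h1.ED, h2.ED]
  · intro v
    simp only [LinearMap.comp_apply]
    rw [← hAD (A2 v), h1.DA, h2.DA, hDA (D2 v)]
  · intro v
    simp only [LinearMap.comp_apply]
    rw [← hA'D (A2' v), h1.DA', h2.DA', hDA' (D2 v)]
  · intro v
    simp only [LinearMap.comp_apply]
    rw [← hBD (B2 v), h1.DB, h2.DB]
  · intro v
    simp only [LinearMap.comp_apply]
    rw [← hDB (D2 v), h1.BD, h2.BD]
  · intro v
    simp only [LinearMap.comp_apply]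
    exact (h1.nD _).trans (h2.nD _)
  · intro v hv
    simp only [LinearMap.comp_apply] at hv ⊢
    have hx : D1 (D2 (B1 v)) = D2 (B1 v) := by
      rw [← hBD v, h1.DB]
    have hB2x : B2 (B1 v) = 0 := by rw [← hBB v, hv]
    have hnx : ‖D1 (D2 (B1 v))‖ ^ 2 ≤ η * ‖B1 v‖ ^ 2 := by
      rw [hx]
      exact h2.nD0 _ hB2x
    have hB1y : B1 (v - B1 v) = 0 := by rw [map_sub, h1.hB.2, sub_self]
    have hny : ‖D1 (D2 (v - B1 v))‖ ^ 2 ≤ η * ‖v - B1 v‖ ^ 2 := by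
      rw [hDD]
      refine le_trans ?_ (h1.nD0 _ hB1y)
      exact pow_le_pow_left₀ (norm_nonneg _) (h2.nD _) 2
    have hBy : B1 (D1 (D2 (v - B1 v))) = 0 := by
      rw [h1.BD, hBD, hB1y, map_zero]
    have hBx : B1 (D1 (D2 (B1 v))) = D1 (D2 (B1 v)) := by
      rw [hx, hBD, h1.hB.2]
    have horth : inner ℂ (D1 (D2 (B1 v))) (D1 (D2 (v - B1 v))) = 0 := by
      have e1 : inner ℂ (B1 (D1 (D2 (B1 v)))) (D1 (D2 (v - B1 v)))
          = inner ℂ (D1 (D2 (B1 v))) (B1 (D1 (D2 (v - B1 v)))) := h1.hB.1 _ _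
      rw [hBx, hBy, inner_zero_right] at e1
      exact e1
    have hsum : D1 (D2 v) = D1 (D2 (B1 v)) + D1 (D2 (v - B1 v)) := by
      rw [← map_add, ← map_add, add_sub_cancel]
    have h6 := norm_add_sq_eq_norm_sq_add_norm_sq_of_inner_eq_zero _ _ horth
    rw [← hsum] at h6
    have h7 := isP_norm_sq h1.hB v
    rw [h7]
    nlinarith
  · intro v
    simp only [LinearMap.comp_apply]
    exact pgb_ang_comp h1.ang h2.ang hAA hAA' hDA hDA' hDD v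
  · intro v
    simp only [LinearMap.comp_apply]
    exact pgb_ang_comp h1.ang' h2.ang' hA'A' hA'A hDA' hDA hDD v

end Pool.Agent.MPfe8e9bM
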