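import Mathlib
import Pool.Agent.Lib.MP_fe8e9b_al_M.Defs
import Pool.Agent.Lib.MP_fe8e9b_al_M.PrB
import Pool.Agent.Lib.MP_fe8e9b_al_M.AlB
import Pool.Agent.Lib.MP_fe8e9b_al_M.AcfB

/-!
# MP_fe8e9b_al, groups of bounded height: the random products
-/

set_option autoImplicit false

open scoped BigOperators

namespace Pool.Agent.MPfe8e9bM

open Pool.Agent.MPfe8e9b Pool.Agent.MPfe8e9bA Pool.Agent.MPfe8e9bW Pool.Agent.MPfe8e9bV

variable {Z S S' G : Type} [Fintype Z] [Fintype S] [Fintype S'] [Group G] [Fintype G] {V : Type}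
  [NormedAddCommGroup V] [InnerProductSpace ℂ V] (ρ : (Z → G) →* (V ≃ₗᵢ[ℂ] V))

/-- The operator at a vector. -/
theorem rtb_apply (s : ℝ) (cT : Finset (Finset Z)) (lab : Z → S) (v : V) :
    Rt s ρ cT lab v = ∑ T ∈ cT.powerset,
      (((1 - s) ^ T.card * s ^ (cT.card - T.card) : ℝ) : ℂ) • Acf ρ T lab v := by
  rw [Rt, LinearMap.sum_apply]
  rfl

/-- The empty configuration. -/
theorem rt_empty (s : ℝ) (lab : Z → S) (v : V) : Rt s ρ (∅ : Finset (Finset Z)) lab v = v := by
  rw [rtb_apply, Finset.powerset_empty, Finset.sum_singleton, acf_empty]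
  simp

open Classical in
/-- Insertion of a cell.

Proof. `Finset.sum_powerset_insert`, `acf_insert` (for the subsets `T` of `cT`, `insert τ T` is a
sub-configuration, `dj_mono`), `Finset.card_insert_of_notMem`. -/
theorem rt_insert (s : ℝ) (τ : Finset Z) (cT : Finset (Finset Z)) (hd : Dj (insert τ cT))
    (hτ : τ ∉ cT) (lab : Z → S) (v : V) :
    Rt s ρ (insert τ cT) lab v =
      ((1 - s : ℝ) : ℂ) • Al ρ τ lab (Rt s ρ cT lab v) + (s : ℂ) • Rt s ρ cT lab v := by
  rw [rtb_apply, rtb_apply, Finset.sum_powerset_insert hτ, map_sum, Finset.smul_sum,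
    Finset.smul_sum, add_comm]
  congr 1
  · refine Finset.sum_congr rfl fun T hT => ?_
    have h1 : T ⊆ cT := Finset.mem_powerset.1 hT
    have h2 : τ ∉ T := fun h => hτ (h1 h)
    rw [Finset.card_insert_of_notMem h2, Finset.card_insert_of_notMem hτ,
      Nat.add_sub_add_right, acf_insert ρ τ T (dj_mono hd (Finset.insert_subset_insert _ h1)) h2,
      map_smul, smul_smul]
    congr 1
    push_cast
    ring
  · refine Finset.sum_congr rfl fun T hT => ?_
    have h1 : T ⊆ cT := Finset.mem_powerset.1 hT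
    have h3 : cT.card + 1 - T.card = cT.card - T.card + 1 := by
      have := Finset.card_le_card h1
      omega
    rw [Finset.card_insert_of_notMem hτ, h3, smul_smul]
    congr 1
    push_cast
    ring

/-- Symmetry. Proof. Real combination of symmetric maps (`acf_isP`). -/
theorem rt_symm (s : ℝ) (cT : Finset (Finset Z)) (lab : Z → S) :
    (Rt (G := G) s ρ cT lab).IsSymmetric := by
  intro u v
  rw [rtb_apply, rtb_apply, sum_inner, inner_sum]
  refine Finset.sum_congr rfl fun T _ => ?_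
  rw [inner_smul_left, inner_smul_right, Complex.conj_ofReal, (acf_isP ρ T lab).1 u v]

/-- `s = 1`. Proof. Only `T = ∅` has nonzero weight (`0 ^ T.card`), `acf_empty`. -/
theorem rt_one (cT : Finset (Finset Z)) (lab : Z → S) (v : V) : Rt 1 ρ cT lab v = v := by
  rw [rtb_apply, Finset.sum_eq_single (∅ : Finset (Finset Z))]
  · rw [acf_empty]
    simp
  · intro T _ hT
    have h1 : T.card ≠ 0 := fun h => hT (Finset.card_eq_zero.1 h)
    rw [sub_self, zero_pow h1, zero_mul, Complex.ofReal_zero, zero_smul]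
  · intro h
    exact absurd (Finset.empty_mem_powerset cT) h

/-- The operators for one label and the averages for another label commute if the averages commute
on every cell. Proof. `acf_comm`, linearity. -/
theorem rt_comm_acf (s : ℝ) {cT : Finset (Finset Z)} (hd : Dj cT) (lab : Z → S) (lab' : Z → S')
    (h : ∀ τ ∈ cT, ∀ v, Al ρ τ lab (Al ρ τ lab' v) = Al ρ τ lab' (Al ρ τ lab v))
    {T : Finset (Finset Z)} (hT : T ⊆ cT) (v : V) :
    Rt s ρ cT lab (Acf ρ T lab' v) = Acf ρ T lab' (Rt s ρ cT lab v) := by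
  rw [rtb_apply, rtb_apply, map_sum]
  refine Finset.sum_congr rfl fun T' hT' => ?_
  rw [map_smul, acf_comm ρ hd lab lab' h (Finset.mem_powerset.1 hT') hT v]

/-- A cell disjoint from the configuration: commutation. Proof. `al_comm_acf`. -/
theorem al_comm_rt (s : ℝ) (τ : Finset Z) (cT : Finset (Finset Z))
    (h : ∀ σ ∈ cT, Disjoint τ σ) (lab : Z → S) (lab' : Z → S') (v : V) :
    Al ρ τ lab (Rt s ρ cT lab' v) = Rt s ρ cT lab' (Al ρ τ lab v) := by
  rw [rtb_apply, rtb_apply, map_sum]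
  refine Finset.sum_congr rfl fun T hT => ?_
  rw [map_smul, al_comm_acf ρ τ T (fun σ hσ => h σ (Finset.mem_powerset.1 hT hσ)) lab lab' v]

/-- The semigroup property.

Proof. Induction on `cT` with `rt_insert` and `al_comm_rt`: for one cell with projection `b`,
`((1 - s) b + s) ((1 - s') b + s') = (1 - s s') b + s s'`. -/
theorem rt_mul (s s' : ℝ) {cT : Finset (Finset Z)} (hd : Dj cT) (lab : Z → S) (v : V) :
    Rt s ρ cT lab (Rt s' ρ cT lab v) = Rt (s * s') ρ cT lab v := by
  classical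
  induction cT using Finset.induction_on generalizing v with
  | empty => rw [rt_empty, rt_empty, rt_empty]
  | insert τ cT hτ ih =>
    have hd' : Dj cT := dj_mono hd (Finset.subset_insert _ _)
    have h1 : ∀ σ ∈ cT, Disjoint τ σ := fun σ hσ =>
      hd.2 τ (Finset.mem_insert_self _ _) σ (Finset.mem_insert_of_mem hσ)
        fun h => hτ (h ▸ hσ)
    have h2 : Al ρ τ lab (Al ρ τ lab (Rt (s * s') ρ cT lab v)) =
        Al ρ τ lab (Rt (s * s') ρ cT lab v) := (al_isP ρ τ lab).2 _
    rw [rt_insert ρ s τ cT hd hτ, rt_insert ρ s' τ cT hd hτ, rt_insert ρ (s * s') τ cT hd hτ,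
      map_add, map_smul, map_smul, ← al_comm_rt ρ s τ cT h1, ih hd', map_add, map_smul, map_smul,
      h2]
    push_cast
    module

/-- On the vectors fixed by all cells the operator is one.

Proof. `Acf ρ T lab (Acf ρ cT lab v) = Acf ρ cT lab v` for `T ⊆ cT` (`isP_le`, `acf_coarse` with
`lab' = lab`), and the sum of the weights is one (`Finset.sum_powerset_apply_card` or
`Finset.sum_pow_mul_eq_add_pow`: `∑ T ∈ cT.powerset, a ^ T.card * b ^ (cT.card - T.card) =
(a + b) ^ cT.card`). -/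
theorem rt_acf (s : ℝ) {cT : Finset (Finset Z)} (hd : Dj cT) (lab : Z → S) (v : V) :
    Rt s ρ cT lab (Acf ρ cT lab v) = Acf ρ cT lab v := by
  rw [rtb_apply]
  have h1 : ∀ T ∈ cT.powerset, (((1 - s) ^ T.card * s ^ (cT.card - T.card) : ℝ) : ℂ) •
      Acf ρ T lab (Acf ρ cT lab v) =
      (((1 - s) ^ T.card * s ^ (cT.card - T.card) : ℝ) : ℂ) • Acf ρ cT lab v := by
    intro T hT
    rw [acf_coarse ρ hd (Finset.mem_powerset.1 hT) lab lab (fun _ _ h => h) _
      ((acf_isP ρ cT lab).2 v)]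
  rw [Finset.sum_congr rfl h1, ← Finset.sum_smul, ← Complex.ofReal_sum,
    Finset.sum_pow_mul_eq_add_pow, sub_add_cancel, one_pow, Complex.ofReal_one, one_smul]

/-- The quadratic form. Proof. `isP_re` for every `T`. -/
theorem rt_re (s : ℝ) (cT : Finset (Finset Z)) (lab : Z → S) (v : V) :
    (inner ℂ (Rt s ρ cT lab v) v).re =
      ∑ T ∈ cT.powerset, ((1 - s) ^ T.card * s ^ (cT.card - T.card)) *
        ‖Acf ρ T lab v‖ ^ 2 := by
  rw [rtb_apply, sum_inner, Complex.re_sum]
  refine Finset.sum_congr rfl fun T _ => ?_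
  rw [inner_smul_left, Complex.conj_ofReal, Complex.re_ofReal_mul, isP_re (acf_isP ρ T lab)]

/-- The sum of the weights. Proof. `Finset.sum_pow_mul_eq_add_pow`. -/
theorem rt_wt (s : ℝ) (cT : Finset (Finset Z)) :
    ∑ T ∈ cT.powerset, ((1 - s) ^ T.card * s ^ (cT.card - T.card)) = 1 := by
  rw [Finset.sum_pow_mul_eq_add_pow, sub_add_cancel, one_pow]

/-- Monotony in the label, `0 ≤ s ≤ 1`. Proof. `rt_re`, `acf_norm` for the configuration `T` and the
sub-configuration `T`. -/
theorem rt_mono {s : ℝ} (h0 : 0 ≤ s) (h1 : s ≤ 1) {cT : Finset (Finset Z)} (hd : Dj cT)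
    (lab : Z → S) (lab' : Z → S') (h : ∀ y y', lab' y = lab' y' → lab y = lab y') (v : V) :
    (inner ℂ (Rt s ρ cT lab' v) v).re ≤ (inner ℂ (Rt s ρ cT lab v) v).re := by
  rw [rt_re, rt_re]
  refine Finset.sum_le_sum fun T hT => ?_
  have h2 : (0 : ℝ) ≤ (1 - s) ^ T.card * s ^ (cT.card - T.card) :=
    mul_nonneg (pow_nonneg (by linarith) _) (pow_nonneg h0 _)
  exact mul_le_mul_of_nonneg_left (pow_le_pow_left₀ (norm_nonneg _)
    (acf_norm ρ (dj_mono hd (Finset.mem_powerset.1 hT)) (Finset.Subset.refl T) lab lab' h v) 2) h2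

end Pool.Agent.MPfe8e9bM
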