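import Mathlib
import Pool.Agent.Lib.MP_fe8e9b_al_M.Defs
import Pool.Agent.Lib.MP_fe8e9b_al_M.PrB
import Pool.Agent.Lib.MP_fe8e9b_al_M.AlB
import Pool.Agent.Lib.MP_fe8e9b_al_M.AcfB
import Pool.Agent.Lib.MP_fe8e9b_al_M.RtB
import Pool.Agent.Lib.MP_fe8e9b_al_M.Ang
import Pool.Agent.Lib.MP_fe8e9b_al_M.Pgb

/-!
# MP_fe8e9b_al, groups of bounded height: the operators of a pair of labels
-/

set_option autoImplicit false

open scoped BigOperators

namespace Pool.Agent.MPfe8e9bM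

open Pool.Agent.MPfe8e9b Pool.Agent.MPfe8e9bA Pool.Agent.MPfe8e9bW Pool.Agent.MPfe8e9bV

/-- One cell.

Proof. `pg2_one` with `A = Al ρ τ a`, `A' = Al ρ τ b`, `B = Al ρ τ (a, b)`: `al_isP`,
`al_coarse`, and the angle is `ang` (for the labels `b`, `a` use `al_congr` for the pair in the
other order). -/
theorem pg2_cell {Z S1 S2 G : Type} [Fintype S1] [Fintype S2] [Group G] [Fintype G]
    (hG : commutator G = ⊤) {V : Type} [NormedAddCommGroup V] [InnerProductSpace ℂ V]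
    [FiniteDimensional ℂ V] (ρ : (Z → G) →* (V ≃ₗᵢ[ℂ] V)) (τ : Finset Z) (a : Z → S1)
    (b : Z → S2) :
    PG2 et (Al ρ τ a) (Al ρ τ b) (Al ρ τ (fun y => (a y, b y)))
      (((1 - Real.sqrt et : ℝ) : ℂ) • (Al ρ τ (fun y => (a y, b y))) +
        ((Real.sqrt et : ℝ) : ℂ) • LinearMap.id)
      (((1 - (Real.sqrt et)⁻¹ : ℝ) : ℂ) • (Al ρ τ (fun y => (a y, b y))) +
        (((Real.sqrt et)⁻¹ : ℝ) : ℂ) • LinearMap.id) := by
  refine pg2_one et_pos et_lt.le (al_isP ρ τ a) (al_isP ρ τ b)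
    (al_isP ρ τ (fun y => (a y, b y))) ?_ ?_ ?_ ?_
  · exact al_coarse ρ τ a (fun y => (a y, b y)) fun y _ y' _ h => congrArg Prod.fst h
  · exact al_coarse ρ τ b (fun y => (a y, b y)) fun y _ y' _ h => congrArg Prod.snd h
  · exact fun v hv h0 => ang hG ρ τ a b v hv h0
  · intro v hv h0
    refine ang hG ρ τ b a v hv ?_
    have h1 : Al (G := G) ρ τ (fun y => (b y, a y)) = Al ρ τ (fun y => (a y, b y)) :=
      al_congr ρ τ (fun y => (b y, a y)) (fun y => (a y, b y)) fun y _ y' _ =>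
        ⟨fun h => Prod.ext (congrArg Prod.snd h) (congrArg Prod.fst h),
          fun h => Prod.ext (congrArg Prod.snd h) (congrArg Prod.fst h)⟩
    rw [h1, h0]

/-- Linear combinations with the identity commute. -/
theorem pairc_comb {V : Type} [NormedAddCommGroup V] [InnerProductSpace ℂ V]
    {X Y : V →ₗ[ℂ] V} (h : Cmt X Y) (c d : ℂ) : Cmt (c • X + d • LinearMap.id) Y := by
  intro v
  simp only [LinearMap.add_apply, LinearMap.smul_apply, LinearMap.id_apply, map_add, map_smul,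
    h v]

/-- A configuration.

Proof. Induction on `cT` (`Finset.induction_on`; the hypothesis `Dj` is inherited, `dj_mono`).
Empty: all maps are the identity (`acf_empty`, `rt_empty`), `pg2_triv`. Insertion of `τ`: by
`acf_insert` and `rt_insert` the maps for `insert τ cT` are the compositions of the maps of
`pg2_cell` for `τ` and of the maps for `cT`; `pg2_comp`, the commutations are `al_comm_acf`,
`al_comm_rt` and linearity (the cells of `cT` are disjoint from `τ`). -/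
theorem pairC {Z S1 S2 G : Type} [Fintype Z] [Fintype S1] [Fintype S2] [Group G] [Fintype G]
    (hG : commutator G = ⊤) {V : Type} [NormedAddCommGroup V] [InnerProductSpace ℂ V]
    [FiniteDimensional ℂ V] (ρ : (Z → G) →* (V ≃ₗᵢ[ℂ] V)) (cT : Finset (Finset Z))
    (hd : Dj cT) (a : Z → S1) (b : Z → S2) :
    PG2 et (Acf ρ cT a) (Acf ρ cT b) (Acf ρ cT (fun y => (a y, b y)))
      (Rt (Real.sqrt et) ρ cT (fun y => (a y, b y)))
      (Rt (Real.sqrt et)⁻¹ ρ cT (fun y => (a y, b y))) := by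
  classical
  induction cT using Finset.induction_on with
  | empty =>
    have e1 : Acf ρ (∅ : Finset (Finset Z)) a = LinearMap.id :=
      LinearMap.ext (acf_empty ρ a)
    have e2 : Acf ρ (∅ : Finset (Finset Z)) b = LinearMap.id :=
      LinearMap.ext (acf_empty ρ b)
    have e3 : Acf ρ (∅ : Finset (Finset Z)) (fun y => (a y, b y)) = LinearMap.id :=
      LinearMap.ext (acf_empty ρ fun y => (a y, b y))
    have e4 : ∀ s : ℝ, Rt s ρ (∅ : Finset (Finset Z)) (fun y => (a y, b y)) =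
        LinearMap.id := fun s => LinearMap.ext (rt_empty ρ s fun y => (a y, b y))
    rw [e1, e2, e3, e4, e4]
    exact pg2_triv et_pos.le
  | insert τ cT hτ ih =>
    have hd' : Dj cT := dj_mono hd (Finset.subset_insert τ cT)
    have hdj : ∀ σ ∈ cT, Disjoint τ σ := fun σ hσ =>
      hd.2 τ (Finset.mem_insert_self τ cT) σ (Finset.mem_insert_of_mem hσ)
        fun h => hτ (h ▸ hσ)
    have e1 : Acf ρ (insert τ cT) a = Al ρ τ a ∘ₗ Acf ρ cT a :=
      LinearMap.ext fun v => acf_insert ρ τ cT hd hτ a v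
    have e2 : Acf ρ (insert τ cT) b = Al ρ τ b ∘ₗ Acf ρ cT b :=
      LinearMap.ext fun v => acf_insert ρ τ cT hd hτ b v
    have e3 : Acf ρ (insert τ cT) (fun y => (a y, b y)) =
        Al ρ τ (fun y => (a y, b y)) ∘ₗ Acf ρ cT (fun y => (a y, b y)) :=
      LinearMap.ext fun v => acf_insert ρ τ cT hd hτ (fun y => (a y, b y)) v
    have e4 : ∀ s : ℝ, Rt s ρ (insert τ cT) (fun y => (a y, b y)) =
        (((1 - s : ℝ) : ℂ) • (Al ρ τ (fun y => (a y, b y))) +
          ((s : ℝ) : ℂ) • LinearMap.id) ∘ₗ Rt s ρ cT (fun y => (a y, b y)) := by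
      intro s
      refine LinearMap.ext fun v => ?_
      rw [rt_insert ρ s τ cT hd hτ (fun y => (a y, b y)) v]
      rfl
    rw [e1, e2, e3, e4, e4]
    have c1 : Cmt (Al ρ τ a) (Acf ρ cT a) := al_comm_acf ρ τ cT hdj a a
    have c2 : Cmt (Al ρ τ a) (Acf ρ cT b) := al_comm_acf ρ τ cT hdj a b
    have c3 : Cmt (Al ρ τ a) (Acf ρ cT (fun y => (a y, b y))) :=
      al_comm_acf ρ τ cT hdj a fun y => (a y, b y)
    have c4 : ∀ s : ℝ, Cmt (Al ρ τ a) (Rt s ρ cT (fun y => (a y, b y))) := fun s =>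
      al_comm_rt ρ s τ cT hdj a fun y => (a y, b y)
    have d1 : Cmt (Al ρ τ b) (Acf ρ cT a) := al_comm_acf ρ τ cT hdj b a
    have d2 : Cmt (Al ρ τ b) (Acf ρ cT b) := al_comm_acf ρ τ cT hdj b b
    have d3 : Cmt (Al ρ τ b) (Acf ρ cT (fun y => (a y, b y))) :=
      al_comm_acf ρ τ cT hdj b fun y => (a y, b y)
    have d4 : ∀ s : ℝ, Cmt (Al ρ τ b) (Rt s ρ cT (fun y => (a y, b y))) := fun s =>
      al_comm_rt ρ s τ cT hdj b fun y => (a y, b y)
    have g1 : Cmt (Al ρ τ (fun y => (a y, b y))) (Acf ρ cT a) :=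
      al_comm_acf ρ τ cT hdj (fun y => (a y, b y)) a
    have g2 : Cmt (Al ρ τ (fun y => (a y, b y))) (Acf ρ cT b) :=
      al_comm_acf ρ τ cT hdj (fun y => (a y, b y)) b
    have g3 : Cmt (Al ρ τ (fun y => (a y, b y))) (Acf ρ cT (fun y => (a y, b y))) :=
      al_comm_acf ρ τ cT hdj (fun y => (a y, b y)) fun y => (a y, b y)
    have g4 : ∀ s : ℝ, Cmt (Al ρ τ (fun y => (a y, b y)))
        (Rt s ρ cT (fun y => (a y, b y))) := fun s =>
      al_comm_rt ρ s τ cT hdj (fun y => (a y, b y)) fun y => (a y, b y)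
    exact pg2_comp et_pos.le (pg2_cell hG ρ τ a b) (ih hd')
      c1 c2 c3 (c4 _) (c4 _) d1 d2 d3 (d4 _) (d4 _) g1 g2 g3 (g4 _) (g4 _)
      (pairc_comb g1 _ _) (pairc_comb g2 _ _) (pairc_comb g3 _ _) (pairc_comb (g4 _) _ _)
      (pairc_comb (g4 _) _ _)
      (pairc_comb g1 _ _) (pairc_comb g2 _ _) (pairc_comb g3 _ _) (pairc_comb (g4 _) _ _)
      (pairc_comb (g4 _) _ _)

end Pool.Agent.MPfe8e9bM
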