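import Mathlib
import Pool.Agent.Lib.MP_fe8e9b_al_M.Defs
import Pool.Agent.Lib.MP_fe8e9b_al_M.PrB
import Pool.Agent.Lib.MP_fe8e9b_al_M.TwoP

/-!
# MP_fe8e9b_al, groups of bounded height: the main inequality for an eigenvector
-/

set_option autoImplicit false

open scoped BigOperators

namespace Pool.Agent.MPfe8e9bM

open Pool.Agent.MPfe8e9b Pool.Agent.MPfe8e9bA Pool.Agent.MPfe8e9bW Pool.Agent.MPfe8e9bV

/-- The vector `u = w - B w` of the docstrings. -/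
private theorem star_aux {V : Type} [NormedAddCommGroup V] [InnerProductSpace ℂ V] {η : ℝ}
    (h0 : 0 < η) {A A' B D E : V →ₗ[ℂ] V} (h : PG2 η A A' B D E) (w : V) :
    ∃ u : V, A' (A w) = A' (A u) + B w ∧ B u = 0 ∧ ‖D (A u)‖ ≤ ‖D u‖ ∧
      (1 - η) * ‖D u‖ ^ 2 ≤ ‖D (w - A w)‖ ^ 2 + ‖D (w - A' w)‖ ^ 2 := by
  obtain ⟨u, hu⟩ : ∃ u, u = w - B w := ⟨_, rfl⟩
  have hBu : B u = 0 := by rw [hu, map_sub, h.hB.2, sub_self]
  have hAu : A u = A w - B w := by rw [hu, map_sub, h.AB]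
  have hAu' : A' u = A' w - B w := by rw [hu, map_sub, h.A'B]
  have h1 : D u - A (D u) = D (w - A w) := by
    rw [← h.DA, ← map_sub, hAu, hu]
    congr 1
    abel
  have h2 : D u - A' (D u) = D (w - A' w) := by
    rw [← h.DA', ← map_sub, hAu', hu]
    congr 1
    abel
  have h3 : B (D u) = 0 := by rw [h.BD, hBu]
  have h4 : B (A (D u)) = 0 := by rw [h.BA, h3]
  have h5 : B (D (A (D u))) = 0 := by rw [h.BD, h4]
  have h6 : ‖D (D (A (D u)))‖ ≤ η * ‖A (D u)‖ := by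
    refine le_of_sq_le_sq ?_ (by positivity)
    have h7 := h.nD0 _ h5
    have h8 := mul_le_mul_of_nonneg_left (h.nD0 _ h4) h0.le
    calc ‖D (D (A (D u)))‖ ^ 2 ≤ η * ‖D (A (D u))‖ ^ 2 := h7
      _ ≤ η * (η * ‖A (D u)‖ ^ 2) := h8
      _ = (η * ‖A (D u)‖) ^ 2 := by ring
  refine ⟨u, ?_, hBu, ?_, ?_⟩
  · rw [hAu, map_sub, h.A'B, sub_add_cancel]
  · rw [h.DA]
    exact isP_norm_le h.hA _
  · have h9 := two_proj h.hA h.hA' h0.le (D u) ((h.ang _).trans h6)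
    rwa [h1, h2] at h9

/-- The mean of the projections at an eigenvector. -/
private theorem star_eig {V : Type} [NormedAddCommGroup V] [InnerProductSpace ℂ V] {Ω : Type}
    [Fintype Ω] [Nonempty Ω] (A : Ω → V →ₗ[ℂ] V) (μ : ℝ) (w : V)
    (hw : ∑ i, A i w = ((Fintype.card Ω * μ : ℝ) : ℂ) • w) (v : V) :
    mn (fun i => (inner ℂ v (A i w)).re) = μ * (inner ℂ v w).re := by
  have hn : (Fintype.card Ω : ℝ) ≠ 0 := by exact_mod_cast Fintype.card_ne_zero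
  have h1 : ∑ i, (inner ℂ v (A i w)).re = (Fintype.card Ω * μ) * (inner ℂ v w).re := by
    rw [← Complex.re_sum, ← inner_sum, hw, inner_smul_right, Complex.re_ofReal_mul]
  rw [mn, h1, ← mul_assoc, ← mul_assoc, inv_mul_cancel₀ hn, one_mul]

/-- One pair. `u = w - B w`. Then the products `A' A w`, `(1 - B) A w` and the cross term are
controlled by `α = ‖D (w - A w)‖²`, `α' = ‖D (w - A' w)‖²`.

Proof. `x = D u`; `B x = B u = 0`. `‖A' (A x)‖ ≤ ‖D (D (A x))‖ ≤ η ‖A x‖` (`B (A x) = B x = 0`,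
`B (D (A x)) = 0`, `nD0` twice), so by `two_proj`
`(1 - η) ‖x‖² ≤ ‖x - A x‖² + ‖x - A' x‖² = α + α'` (`x - A x = D (u - A u) = D (w - A w)` as
`A (B w) = B w`). And `‖D (A u)‖ = ‖A x‖ ≤ ‖x‖`.
Cross term: `A' (A w) = A' (A u) + B w`, `⟨B w, w - A w⟩ = ⟨w, B w - B (A w)⟩ = 0`,
`⟨A' (A u), w - A w⟩ = ⟨E (A' (A u)), D (w - A w)⟩` (`D (E y) = y`, `D` symmetric), and
`E (A' (A u)) = A' (A (E u))` (`E` commutes with `A` and `A'`, from `DA`, `DE`, `ED`), norm at most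
`‖D (D (A (E u)))‖ = ‖D (A u)‖`. So the cross term is at most
`√((α + α') / (1 - η)) √α ≤ (α + α') / (1 - η)`. -/
theorem star_cross {V : Type} [NormedAddCommGroup V] [InnerProductSpace ℂ V] {η : ℝ}
    (h0 : 0 < η) (h1 : η < 1) {A A' B D E : V →ₗ[ℂ] V} (h : PG2 η A A' B D E) (w : V) :
    |(inner ℂ (A' (A w)) (w - A w)).re| ≤
      (‖D (w - A w)‖ ^ 2 + ‖D (w - A' w)‖ ^ 2) / (1 - η) := by
  obtain ⟨u, h2, h3, h4, h5⟩ := star_aux h0 h w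
  have hη : 0 < 1 - η := by linarith
  obtain ⟨K, hK⟩ : ∃ K : ℝ, K = (‖D (w - A w)‖ ^ 2 + ‖D (w - A' w)‖ ^ 2) / (1 - η) := ⟨_, rfl⟩
  have hK1 : ‖D u‖ ^ 2 ≤ K := by
    rw [hK, le_div_iff₀ hη, mul_comm]
    exact h5
  have hK2 : ‖D (w - A w)‖ ^ 2 ≤ K := by
    rw [hK, le_div_iff₀ hη]
    nlinarith [sq_nonneg ‖D (w - A w)‖, sq_nonneg ‖D (w - A' w)‖]
  rw [← hK]
  have h6 : inner ℂ (B w) (w - A w) = 0 := by
    rw [h.hB.1, map_sub, h.BA, sub_self, inner_zero_right]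
  have hEA : ∀ v, E (A v) = A (E v) := fun v => by
    have h7 : E (A (D (E v))) = A (E v) := by rw [← h.DA, h.ED]
    rwa [h.DE] at h7
  have hEA' : ∀ v, E (A' v) = A' (E v) := fun v => by
    have h7 : E (A' (D (E v))) = A' (E v) := by rw [← h.DA', h.ED]
    rwa [h.DE] at h7
  have h7 : inner ℂ (A' (A w)) (w - A w) = inner ℂ (A' (A (E u))) (D (w - A w)) := by
    rw [h2, inner_add_left, h6, add_zero, ← hEA, ← hEA', ← h.hD, h.DE]
  have h8 : ‖A' (A (E u))‖ ≤ ‖D u‖ := by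
    refine (h.ang _).trans ?_
    rw [h.DA, h.DE]
    exact h4
  rw [h7]
  refine (Complex.abs_re_le_norm _).trans ((norm_inner_le_norm _ _).trans ?_)
  have h9 := mul_le_mul_of_nonneg_right h8 (norm_nonneg (D (w - A w)))
  nlinarith [sq_nonneg (‖D u‖ - ‖D (w - A w)‖)]

/-- One pair, the other inequality.

Proof. As in `star_cross`. `‖A w - A' (A w)‖² = ‖A w‖² - ‖A' (A w)‖²`,
`A' (A w) = A' (A u) + B w` with orthogonal summands (`B (A' (A u)) = B u = 0`), so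
`‖A' (A w)‖² = ‖A' (A u)‖² + ‖B w‖²`; `‖A w - B (A w)‖² = ‖A w‖² - ‖B w‖²`; and
`‖A' (A u)‖ ≤ ‖D (D (A u))‖ ≤ ‖D (A u)‖ ≤ ‖D u‖`, `(1 - η) ‖D u‖² ≤ α + α'`. -/
theorem star_two {V : Type} [NormedAddCommGroup V] [InnerProductSpace ℂ V] {η : ℝ}
    (h0 : 0 < η) (h1 : η < 1) {A A' B D E : V →ₗ[ℂ] V} (h : PG2 η A A' B D E) (w : V) :
    ‖A w - B (A w)‖ ^ 2 ≤ ‖A w - A' (A w)‖ ^ 2 +
      (‖D (w - A w)‖ ^ 2 + ‖D (w - A' w)‖ ^ 2) / (1 - η) := by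
  obtain ⟨u, h2, h3, h4, h5⟩ := star_aux h0 h w
  have hη : 0 < 1 - η := by linarith
  obtain ⟨K, hK⟩ : ∃ K : ℝ, K = (‖D (w - A w)‖ ^ 2 + ‖D (w - A' w)‖ ^ 2) / (1 - η) := ⟨_, rfl⟩
  have hK1 : ‖D u‖ ^ 2 ≤ K := by
    rw [hK, le_div_iff₀ hη, mul_comm]
    exact h5
  rw [← hK]
  have h6 : ‖A' (A u)‖ ≤ ‖D u‖ := (h.ang _).trans ((h.nD _).trans h4)
  have h7 : ‖A' (A u)‖ ^ 2 ≤ ‖D u‖ ^ 2 := pow_le_pow_left₀ (norm_nonneg _) h6 2
  have e1 := isP_norm_sq h.hB (A w)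
  have e2 := isP_norm_sq h.hA' (A w)
  have e3 := isP_norm_sq h.hB (A' (A w))
  have e4 : A' (A w) - B w = A' (A u) := by rw [h2, add_sub_cancel_right]
  rw [h.BA', h.BA, e4] at e3
  rw [h.BA] at e1 ⊢
  linarith

/-- The main inequality.

Proof. Let `mn_i A i w = μ w`. `mn_i ‖A i w‖² = mn_i Re ⟨A i w, w⟩ = μ ‖w‖²`.
`mn_j Re ⟨A j (A i w), w⟩ = Re ⟨A i w, mn_j A j w⟩ = μ Re ⟨A i w, w⟩ = μ ‖A i w‖²`, so
`mn_{ij} Re ⟨A j (A i w), w⟩ = μ² ‖w‖²`, and with `x = mn_{ij} ‖A j (A i w)‖² =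
mn_{ij} Re ⟨A j (A i w), A i w⟩`: `c := mn_{ij} Re ⟨A j (A i w), w - A i w⟩ = μ² ‖w‖² - x` and
`mn_{ij} ‖A i w - A j (A i w)‖² = μ ‖w‖² - x = μ (1 - μ) ‖w‖² + c`.
Let `Lb = mn_i Re ⟨R i w, w⟩ - μ ‖w‖²`. `mn_{ij} ‖D i j (w - A i w)‖² =
mn_{ij} Re ⟨D (D (w - A i w)), w - A i w⟩ ≤ mn_i Re ⟨R i (w - A i w), w - A i w⟩ = Lb`
(`hR`; `R i (A i w) = A i w` and symmetry: `Re ⟨R i (w - A i w), w - A i w⟩ =
Re ⟨R i w, w⟩ - ‖A i w‖²`), and the same for `‖D i j (w - A j w)‖²` with `hR'` (`mn_comm`).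
`star_cross`: `c ≤ 2 Lb / (1 - η)`; `star_two`: `mn_{ij} ‖A i w - B i j (A i w)‖² ≤
μ (1 - μ) ‖w‖² + c + 2 Lb / (1 - η) ≤ μ (1 - μ) ‖w‖² + 4 Lb / (1 - η)`, and
`Lb = (1 - μ) ‖w‖² - (‖w‖² - mn_i Re ⟨R i w, w⟩)`. -/
theorem star {V : Type} [NormedAddCommGroup V] [InnerProductSpace ℂ V] {Ω : Type} [Fintype Ω]
    [Nonempty Ω] {η : ℝ} (h0 : 0 < η) (h1 : η < 1) (A : Ω → V →ₗ[ℂ] V)
    (B D E : Ω → Ω → V →ₗ[ℂ] V) (R : Ω → V →ₗ[ℂ] V)
    (hP : ∀ i j, PG2 η (A i) (A j) (B i j) (D i j) (E i j))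
    (hR : ∀ i j v, (inner ℂ (D i j (D i j v)) v).re ≤ (inner ℂ (R i v) v).re)
    (hR' : ∀ i j v, (inner ℂ (D i j (D i j v)) v).re ≤ (inner ℂ (R j v) v).re)
    (hRs : ∀ i, (R i).IsSymmetric) (hRA : ∀ i v, R i (A i v) = A i v) (μ : ℝ) (w : V)
    (hw : ∑ i, A i w = ((Fintype.card Ω * μ : ℝ) : ℂ) • w) :
    mn (fun i => mn (fun j => ‖A i w - B i j (A i w)‖ ^ 2)) +
        4 / (1 - η) * (‖w‖ ^ 2 - mn (fun i => (inner ℂ (R i w) w).re)) ≤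
      (μ + 4 / (1 - η)) * (1 - μ) * ‖w‖ ^ 2 := by
  have hη : 0 < 1 - η := by linarith
  obtain ⟨c0, hc0⟩ : ∃ c0 : ℝ, c0 = (1 - η)⁻¹ := ⟨_, rfl⟩
  have hA : ∀ i, IsP (A i) := fun i => (hP i i).hA
  obtain ⟨Nw, hN⟩ : ∃ Nw : ℝ, Nw = ‖w‖ ^ 2 := ⟨_, rfl⟩
  obtain ⟨P, hPe⟩ : ∃ P : ℝ, P = mn (fun i => (inner ℂ (R i w) w).re) := ⟨_, rfl⟩
  -- the first moment
  have m1 : mn (fun i => ‖A i w‖ ^ 2) = μ * Nw := by
    have e : ∀ i, ‖A i w‖ ^ 2 = (inner ℂ w (A i w)).re := fun i => by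
      rw [← (hA i).1, isP_re (hA i)]
    simp only [e]
    rw [star_eig A μ w hw w, hN, inner_self_eq_norm_sq_to_K]
    norm_cast
  -- the second moment
  have m2 : mn (fun i => mn (fun j => (inner ℂ (A j (A i w)) w).re)) = μ * (μ * Nw) := by
    have e : ∀ i, mn (fun j => (inner ℂ (A j (A i w)) w).re) = μ * ‖A i w‖ ^ 2 := fun i => by
      have e1 : ∀ j, (inner ℂ (A j (A i w)) w).re = (inner ℂ (A i w) (A j w)).re := fun j => by
        rw [(hA j).1]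
      simp only [e1]
      rw [star_eig A μ w hw (A i w), isP_re (hA i)]
    simp only [e]
    rw [mn_mul_left, m1]
  obtain ⟨x, hx⟩ : ∃ x : ℝ, x = mn (fun i => mn (fun j => ‖A j (A i w)‖ ^ 2)) := ⟨_, rfl⟩
  have m3 : mn (fun i => mn (fun j => (inner ℂ (A j (A i w)) (w - A i w)).re)) =
      μ * (μ * Nw) - x := by
    have e : ∀ i j, (inner ℂ (A j (A i w)) (w - A i w)).re =
        (inner ℂ (A j (A i w)) w).re - ‖A j (A i w)‖ ^ 2 := fun i j => by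
      rw [inner_sub_right, Complex.sub_re, isP_re (hA j)]
    simp only [e]
    simp only [mn_sub]
    rw [m2, hx]
  have m4 : mn (fun i => mn (fun j => ‖A i w - A j (A i w)‖ ^ 2)) = μ * Nw - x := by
    have e : ∀ i j, ‖A i w - A j (A i w)‖ ^ 2 = ‖A i w‖ ^ 2 - ‖A j (A i w)‖ ^ 2 := fun i j => by
      rw [isP_norm_sq (hA j) (A i w)]
      ring
    simp only [e]
    simp only [mn_sub, mn_const]
    rw [m1, hx]
  -- the bound by `R`
  have hq : ∀ i, (inner ℂ (R i (w - A i w)) (w - A i w)).re =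
      (inner ℂ (R i w) w).re - ‖A i w‖ ^ 2 := fun i => by
    have e1 : (inner ℂ (R i w) (A i w)).re = ‖A i w‖ ^ 2 := by
      rw [hRs i w (A i w), hRA, ← (hA i).1, isP_re (hA i)]
    have e2 : (inner ℂ (A i w) (A i w)).re = ‖A i w‖ ^ 2 := by
      rw [inner_self_eq_norm_sq_to_K]
      norm_cast
    rw [map_sub, hRA, inner_sub_left, inner_sub_right, inner_sub_right, Complex.sub_re,
      Complex.sub_re, Complex.sub_re, e1, e2, isP_re (hA i)]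
    ring
  have hDD : ∀ i j v, ‖D i j v‖ ^ 2 = (inner ℂ (D i j (D i j v)) v).re := fun i j v => by
    rw [(hP i j).hD (D i j v) v, inner_self_eq_norm_sq_to_K]
    norm_cast
  have m5 : mn (fun i => mn (fun j => ‖D i j (w - A i w)‖ ^ 2)) ≤ P - μ * Nw := by
    have e : ∀ i, mn (fun j => ‖D i j (w - A i w)‖ ^ 2) ≤
        (inner ℂ (R i w) w).re - ‖A i w‖ ^ 2 := fun i => by
      refine mn_le fun j => ?_
      rw [hDD, ← hq]
      exact hR i j _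
    refine (mn_mono e).trans ?_
    rw [mn_sub, m1, hPe]
  have m6 : mn (fun i => mn (fun j => ‖D i j (w - A j w)‖ ^ 2)) ≤ P - μ * Nw := by
    rw [mn_comm]
    have e : ∀ j, mn (fun i => ‖D i j (w - A j w)‖ ^ 2) ≤
        (inner ℂ (R j w) w).re - ‖A j w‖ ^ 2 := fun j => by
      refine mn_le fun i => ?_
      rw [hDD, ← hq]
      exact hR' i j _
    refine (mn_mono e).trans ?_
    rw [mn_sub, m1, hPe]
  have m7 : mn (fun i => mn (fun j =>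
      (‖D i j (w - A i w)‖ ^ 2 + ‖D i j (w - A j w)‖ ^ 2) / (1 - η))) ≤
      2 * c0 * (P - μ * Nw) := by
    simp only [div_eq_mul_inv, ← hc0, mn_mul_right, mn_add]
    have hc : 0 ≤ c0 := by rw [hc0]; positivity
    nlinarith
  -- the cross term
  have m8 : μ * (μ * Nw) - x ≤ 2 * c0 * (P - μ * Nw) := by
    rw [← m3]
    refine le_trans (mn_mono fun i => mn_mono fun j => ?_) m7
    exact (le_abs_self _).trans (star_cross h0 h1 (hP i j) w)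
  have m9 : mn (fun i => mn (fun j => ‖A i w - B i j (A i w)‖ ^ 2)) ≤
      (μ * Nw - x) + 2 * c0 * (P - μ * Nw) := by
    have e := mn_mono fun i => mn_mono fun j => star_two h0 h1 (hP i j) w
    refine e.trans ?_
    simp only [mn_add] at m7 ⊢
    rw [m4]
    linarith
  rw [← hPe, ← hN, div_eq_mul_inv, ← hc0]
  nlinarith

/-- The mean of the square norms. Proof. See the proof of `star`. -/
theorem star_mu {V : Type} [NormedAddCommGroup V] [InnerProductSpace ℂ V] {Ω : Type} [Fintype Ω]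
    [Nonempty Ω] (A : Ω → V →ₗ[ℂ] V) (hA : ∀ i, IsP (A i)) (μ : ℝ) (w : V)
    (hw : ∑ i, A i w = ((Fintype.card Ω * μ : ℝ) : ℂ) • w) :
    mn (fun i => ‖A i w‖ ^ 2) = μ * ‖w‖ ^ 2 := by
  have e : ∀ i, ‖A i w‖ ^ 2 = (inner ℂ w (A i w)).re := fun i => by
    rw [← (hA i).1, isP_re (hA i)]
  simp only [e]
  rw [star_eig A μ w hw w, inner_self_eq_norm_sq_to_K]
  norm_cast

end Pool.Agent.MPfe8e9bM
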