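import Mathlib
import Pool.Agent.Lib.MP_fe8e9b_al_M.Defs
import Pool.Agent.Lib.MP_fe8e9b_al_M.PrB
import Pool.Agent.Lib.MP_fe8e9b_al_M.AlB
import Pool.Agent.Lib.MP_fe8e9b_al_M.AcfB
import Pool.Agent.Lib.MP_fe8e9b_al_M.RtB
import Pool.Agent.Lib.MP_fe8e9b_al_M.PairC
import Pool.Agent.Lib.MP_fe8e9b_al_M.Star
import Pool.Agent.Lib.MP_fe8e9b_al_M.Conf

/-!
# MP_fe8e9b_al, groups of bounded height: the main inequality for configurations
-/

set_option autoImplicit false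

open scoped BigOperators

namespace Pool.Agent.MPfe8e9bM

open Pool.Agent.MPfe8e9b Pool.Agent.MPfe8e9bA Pool.Agent.MPfe8e9bW Pool.Agent.MPfe8e9bV

/-- The main inequality for configurations.

Proof. `star` for `A i = Acf ρ cT (lab i)`, `B i j = Acf ρ cT (lab i, lab j)`,
`D i j = Rt √et ..`, `E i j = Rt (√et)⁻¹ ..` (`pairC`), `R i = Rt et ρ cT (lab i)`:
`D (D v) = Rt et ρ cT (pair) v` (`rt_mul`, `√et * √et = et`), `hR`, `hR'` by `rt_mono`,
`rt_symm`, `rt_acf`; `rt_re` for the second term: `‖w‖² - Re ⟨R i w, w⟩ =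
∑ T, wt T * (‖w‖² - ‖Acf ρ T (lab i) w‖²) = ∑ T, wt T * ‖w - Acf ρ T (lab i) w‖²` (`rt_wt`,
`isP_norm_sq`), and `mn_sum`. The first term: `B i j (A i w) = Acf ρ cT (pair) w =
Acf ρ (ref cT (lab i)) (lab j) w` (`acf_ref`), and the latter maps `A i w` to the same vector:
`Acf ρ (ref cT (lab i)) (lab j) (A i w) = Acf ρ cT (pair) (A i w)`. -/
theorem m1_star {Z S Ω G : Type} [Fintype Z] [Fintype S] [Fintype Ω] [Nonempty Ω] [Group G]
    [Fintype G] (hG : commutator G = ⊤) {V : Type} [NormedAddCommGroup V]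
    [InnerProductSpace ℂ V] [FiniteDimensional ℂ V] (ρ : (Z → G) →* (V ≃ₗᵢ[ℂ] V))
    (lab : Ω → Z → S) {cT : Finset (Finset Z)} (hd : Dj cT) (μ : ℝ) (w : V)
    (hw : ∑ i, Acf ρ cT (lab i) w = ((Fintype.card Ω * μ : ℝ) : ℂ) • w) :
    mn (fun i => mn (fun j => ‖Acf ρ cT (lab i) w -
        Acf ρ (ref cT (lab i)) (lab j) (Acf ρ cT (lab i) w)‖ ^ 2)) +
      4 / (1 - et) * (∑ T ∈ cT.powerset, ((1 - et) ^ T.card * et ^ (cT.card - T.card)) *
        mn (fun i => ‖w - Acf ρ T (lab i) w‖ ^ 2)) ≤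
      (μ + 4 / (1 - et)) * (1 - μ) * ‖w‖ ^ 2 := by
  have hP : ∀ i j, PG2 et (Acf ρ cT (lab i)) (Acf ρ cT (lab j))
      (Acf ρ cT (fun y => (lab i y, lab j y)))
      (Rt (Real.sqrt et) ρ cT (fun y => (lab i y, lab j y)))
      (Rt (Real.sqrt et)⁻¹ ρ cT (fun y => (lab i y, lab j y))) := fun i j =>
    pairC hG ρ cT hd (lab i) (lab j)
  have hss : Real.sqrt et * Real.sqrt et = et := Real.mul_self_sqrt et_pos.le
  have hDD : ∀ i j v, Rt (Real.sqrt et) ρ cT (fun y => (lab i y, lab j y))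
      (Rt (Real.sqrt et) ρ cT (fun y => (lab i y, lab j y)) v) =
      Rt et ρ cT (fun y => (lab i y, lab j y)) v := fun i j v => by
    rw [rt_mul ρ _ _ hd, hss]
  have key := star et_pos et_lt (fun i => Acf ρ cT (lab i))
    (fun i j => Acf ρ cT (fun y => (lab i y, lab j y)))
    (fun i j => Rt (Real.sqrt et) ρ cT (fun y => (lab i y, lab j y)))
    (fun i j => Rt (Real.sqrt et)⁻¹ ρ cT (fun y => (lab i y, lab j y)))
    (fun i => Rt et ρ cT (lab i)) hP
    (fun i j v => by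
      simp only [hDD]
      exact rt_mono ρ et_pos.le et_lt.le hd (lab i) _ (fun y y' h => (Prod.ext_iff.1 h).1) v)
    (fun i j v => by
      simp only [hDD]
      exact rt_mono ρ et_pos.le et_lt.le hd (lab j) _ (fun y y' h => (Prod.ext_iff.1 h).2) v)
    (fun i => rt_symm ρ et cT (lab i)) (fun i v => rt_acf ρ et hd (lab i) v) μ w hw
  have h1 : (fun i => mn (fun j => ‖Acf ρ cT (lab i) w -
        Acf ρ (ref cT (lab i)) (lab j) (Acf ρ cT (lab i) w)‖ ^ 2)) =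
      fun i => mn (fun j => ‖Acf ρ cT (lab i) w -
        Acf ρ cT (fun y => (lab i y, lab j y)) (Acf ρ cT (lab i) w)‖ ^ 2) := by
    funext i
    have : (fun j => ‖Acf ρ cT (lab i) w -
        Acf ρ (ref cT (lab i)) (lab j) (Acf ρ cT (lab i) w)‖ ^ 2) =
        fun j => ‖Acf ρ cT (lab i) w -
        Acf ρ cT (fun y => (lab i y, lab j y)) (Acf ρ cT (lab i) w)‖ ^ 2 := by
      funext j
      rw [acf_ref ρ hd]
    rw [this]
  have e1 : ∀ i, ‖w‖ ^ 2 - (inner ℂ (Rt et ρ cT (lab i) w) w).re =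
      ∑ T ∈ cT.powerset, ((1 - et) ^ T.card * et ^ (cT.card - T.card)) *
        ‖w - Acf ρ T (lab i) w‖ ^ 2 := by
    intro i
    have h3 : ‖w‖ ^ 2 = ∑ T ∈ cT.powerset,
        ((1 - et) ^ T.card * et ^ (cT.card - T.card)) * ‖w‖ ^ 2 := by
      rw [← Finset.sum_mul, rt_wt, one_mul]
    have h4 : (inner ℂ (Rt et ρ cT (lab i) w) w).re =
      ∑ T ∈ cT.powerset, ((1 - et) ^ T.card * et ^ (cT.card - T.card)) *
        ‖Acf ρ T (lab i) w‖ ^ 2 := rt_re ρ et cT (lab i) w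
    calc ‖w‖ ^ 2 - (inner ℂ (Rt et ρ cT (lab i) w) w).re
        = ∑ T ∈ cT.powerset, ((1 - et) ^ T.card * et ^ (cT.card - T.card)) * ‖w‖ ^ 2 -
          ∑ T ∈ cT.powerset, ((1 - et) ^ T.card * et ^ (cT.card - T.card)) *
            ‖Acf ρ T (lab i) w‖ ^ 2 := by rw [← h3, h4]
      _ = _ := by
        rw [← Finset.sum_sub_distrib]
        refine Finset.sum_congr rfl fun T _ => ?_
        rw [← mul_sub]
        congr 1
        have h5 := isP_norm_sq (acf_isP ρ T (lab i)) w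
        linarith
  have h2 : ‖w‖ ^ 2 - mn (fun i => (inner ℂ (Rt et ρ cT (lab i) w) w).re) =
      ∑ T ∈ cT.powerset, ((1 - et) ^ T.card * et ^ (cT.card - T.card)) *
        mn (fun i => ‖w - Acf ρ T (lab i) w‖ ^ 2) := by
    calc ‖w‖ ^ 2 - mn (fun i => (inner ℂ (Rt et ρ cT (lab i) w) w).re)
        = mn (fun _ : Ω => ‖w‖ ^ 2) -
          mn (fun i => (inner ℂ (Rt et ρ cT (lab i) w) w).re) := by rw [mn_const]
      _ = mn (fun i => ‖w‖ ^ 2 - (inner ℂ (Rt et ρ cT (lab i) w) w).re) :=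
          (mn_sub _ _).symm
      _ = mn (fun i => ∑ T ∈ cT.powerset, ((1 - et) ^ T.card * et ^ (cT.card - T.card)) *
            ‖w - Acf ρ T (lab i) w‖ ^ 2) := by
          congr 1
          funext i
          exact e1 i
      _ = _ := by
          rw [mn_sum cT.powerset (fun T i => ((1 - et) ^ T.card * et ^ (cT.card - T.card)) *
            ‖w - Acf ρ T (lab i) w‖ ^ 2)]
          refine Finset.sum_congr rfl fun T _ => ?_
          exact mn_mul_left _ _
  rw [h1, ← h2]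
  exact key

end Pool.Agent.MPfe8e9bM
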