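import Mathlib
import Pool.Agent.Lib.MP_fe8e9b_al_M.Defs
import Pool.Agent.Lib.MP_fe8e9b_al_M.Conf

/-!
# MP_fe8e9b_al, groups of bounded height: large cells have many parts
-/

set_option autoImplicit false

open scoped BigOperators

namespace Pool.Agent.MPfe8e9bM

open Pool.Agent.MPfe8e9b Pool.Agent.MPfe8e9bA Pool.Agent.MPfe8e9bW Pool.Agent.MPfe8e9bV

open Classical in
/-- The number of labels on a set, Cauchy-Schwarz.

Proof. `τ.card = ∑ s ∈ τ.image lab, (part s).card`, so `τ.card ^ 2 ≤ (τ.image lab).card *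
∑ s, (part s).card ^ 2`, and the last sum is the number of the pairs with the same label. -/
theorem many_cs {Z S : Type} (τ : Finset Z) (lab : Z → S) :
    (τ.card : ℝ) ^ 2 ≤ ((τ.image lab).card : ℝ) *
      ∑ y ∈ τ, ∑ y' ∈ τ, ind (lab y = lab y') := by
  set a : S → ℝ := fun s => ((τ.filter (fun y => lab y = s)).card : ℝ) with ha
  have h1 : (τ.card : ℝ) = ∑ s ∈ τ.image lab, a s := by
    rw [Finset.card_eq_sum_card_image lab τ]
    push_cast
    rfl
  have h3 : ∀ y ∈ τ, ∑ y' ∈ τ, ind (lab y = lab y') = a (lab y) := by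
    intro y _
    rw [ha]
    simp only
    rw [Finset.card_filter]
    push_cast
    refine Finset.sum_congr rfl fun y' _ => ?_
    by_cases h : lab y = lab y'
    · rw [ind_true h, if_pos h.symm]
    · rw [ind_false h, if_neg (fun h' => h h'.symm)]
  have h2 : ∑ y ∈ τ, ∑ y' ∈ τ, ind (lab y = lab y') = ∑ s ∈ τ.image lab, a s ^ 2 := by
    rw [Finset.sum_congr rfl h3, ← Finset.sum_fiberwise_of_maps_to (s := τ)
      (t := τ.image lab) (g := lab) (fun y hy => Finset.mem_image_of_mem _ hy)]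
    refine Finset.sum_congr rfl fun s _ => ?_
    rw [Finset.sum_congr rfl (g := fun _ => a s), Finset.sum_const, nsmul_eq_mul, pow_two]
    intro y hy
    rw [(Finset.mem_filter.1 hy).2]
  rw [h1, h2]
  exact sq_sum_le_card_mul_sum_sq

open Classical in
/-- The mean of the inverse of the number of labels on a large set.

Proof. `many_cs`: `1 / (image).card ≤ (∑ ∑ ind) / τ.card ^ 2`; take the mean over `i`: the diagonal
pairs give `τ.card`, the others at most `p` each: at most `1 / τ.card + p`. -/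
theorem many_inv {Z S Ω : Type} [Fintype Ω] [Nonempty Ω] (lab : Ω → Z → S) {p : ℝ}
    (hp0 : 0 ≤ p) (hp : ∀ y y', y ≠ y' → ag lab y y' ≤ p) (τ : Finset Z) {m0 : ℕ}
    (hm0 : 0 < m0) (hm : m0 < τ.card) :
    mn (fun i => ((τ.image (lab i)).card : ℝ)⁻¹) ≤ 1 / (m0 : ℝ) + p := by
  have hm0' : (0 : ℝ) < m0 := by exact_mod_cast hm0
  have hc : (m0 : ℝ) < τ.card := by exact_mod_cast hm
  have hc0 : (0 : ℝ) < τ.card := hm0'.trans hc
  have hne : τ.Nonempty := Finset.card_pos.1 (by omega)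
  have h1 : ∀ i, ((τ.image (lab i)).card : ℝ)⁻¹ ≤
      ((τ.card : ℝ) ^ 2)⁻¹ * ∑ y ∈ τ, ∑ y' ∈ τ, ind (lab i y = lab i y') := by
    intro i
    have hn : (0 : ℝ) < ((τ.image (lab i)).card : ℝ) := by
      exact_mod_cast Finset.card_pos.2 (hne.image (lab i))
    have h2 := many_cs τ (lab i)
    rw [inv_mul_eq_div, inv_eq_one_div, div_le_div_iff₀ hn (by positivity), one_mul, mul_comm]
    exact h2
  refine (mn_mono h1).trans ?_
  rw [mn_mul_left, mn_sum]
  have h3 : ∀ y ∈ τ, mn (fun i => ∑ y' ∈ τ, ind (lab i y = lab i y')) ≤ 1 + τ.card * p := by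
    intro y hy
    rw [mn_sum]
    have h4 : ∀ y' ∈ τ, mn (fun i => ind (lab i y = lab i y')) ≤
        (if y = y' then (1 : ℝ) else 0) + p := by
      intro y' _
      by_cases h : y = y'
      · rw [if_pos h]
        have h5 : mn (fun i => ind (lab i y = lab i y')) ≤ 1 := mn_le fun i => ind_le_one _
        linarith
      · rw [if_neg h, zero_add]
        exact hp y y' h
    refine (Finset.sum_le_sum h4).trans ?_
    rw [Finset.sum_add_distrib, Finset.sum_const, nsmul_eq_mul, Finset.sum_ite_eq, if_pos hy]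
  have h6 : ∑ y ∈ τ, mn (fun i => ∑ y' ∈ τ, ind (lab i y = lab i y')) ≤
      τ.card * (1 + τ.card * p) := by
    refine (Finset.sum_le_sum h3).trans ?_
    rw [Finset.sum_const, nsmul_eq_mul]
  refine (mul_le_mul_of_nonneg_left h6 (by positivity)).trans ?_
  have h7 : ((τ.card : ℝ) ^ 2)⁻¹ * (τ.card * (1 + τ.card * p)) = 1 / (τ.card : ℝ) + p := by
    field_simp
  rw [h7]
  have h8 : 1 / (τ.card : ℝ) ≤ 1 / (m0 : ℝ) := one_div_le_one_div_of_le hm0' hc.le
  linarith

/-- Large cells have many parts for most letters.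

Proof. Let `n i τ = (τ.image (lab i)).card ≥ 1`, `N = cT.card ≥ 1` (if `cT` is empty the event
`0 < 0` is impossible), `(ref cT (lab i)).card = ∑ τ, n i τ` (`card_ref`). By Cauchy-Schwarz
`N² ≤ (∑ τ, n i τ) (∑ τ, 1 / n i τ)`. If `(ref ..).card < R N` then
`∑ τ, 1 / n i τ ≥ N / R`, so `ind ≤ (R / N) ∑ τ, 1 / n i τ`; take the mean and use `many_inv`. -/
theorem many {Z S Ω : Type} [Fintype S] [Fintype Ω] [Nonempty Ω] (lab : Ω → Z → S) {p : ℝ}
    (hp0 : 0 ≤ p) (hp : ∀ y y', y ≠ y' → ag lab y y' ≤ p) {cT : Finset (Finset Z)} (hd : Dj cT)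
    {m0 : ℕ} (hm0 : 0 < m0) (hm : ∀ τ ∈ cT, m0 < τ.card) (R : ℕ) :
    mn (fun i => ind ((ref cT (lab i)).card < R * cT.card)) ≤
      (R : ℝ) * (1 / (m0 : ℝ) + p) := by
  classical
  have hr0 : (0 : ℝ) ≤ (R : ℝ) * (1 / (m0 : ℝ) + p) := by positivity
  by_cases hN : cT.card = 0
  · refine mn_le fun i => ?_
    rw [ind_false]
    · exact hr0
    · rw [hN, mul_zero]
      exact Nat.not_lt_zero _
  have hN0 : (0 : ℝ) < cT.card := by exact_mod_cast Nat.pos_of_ne_zero hN
  have hnp : ∀ i, ∀ τ ∈ cT, (0 : ℝ) < ((τ.image (lab i)).card : ℝ) := fun i τ hτ => by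
    exact_mod_cast Finset.card_pos.2 ((hd.1 τ hτ).image (lab i))
  have h1 : ∀ i, ind ((ref cT (lab i)).card < R * cT.card) ≤
      (R : ℝ) / cT.card * ∑ τ ∈ cT, ((τ.image (lab i)).card : ℝ)⁻¹ := by
    intro i
    have hs0 : 0 ≤ ∑ τ ∈ cT, ((τ.image (lab i)).card : ℝ)⁻¹ :=
      Finset.sum_nonneg fun τ hτ => (inv_pos.2 (hnp i τ hτ)).le
    by_cases h : (ref cT (lab i)).card < R * cT.card
    · rw [ind_true h]
      rw [card_ref hd] at h
      have h' : (∑ τ ∈ cT, ((τ.image (lab i)).card : ℝ)) ≤ R * cT.card := by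
        exact_mod_cast h.le
      have hcs : (cT.card : ℝ) ^ 2 ≤ (∑ τ ∈ cT, ((τ.image (lab i)).card : ℝ)) *
          ∑ τ ∈ cT, ((τ.image (lab i)).card : ℝ)⁻¹ := by
        have h2 := Finset.sum_mul_sq_le_sq_mul_sq cT
          (fun τ => Real.sqrt ((τ.image (lab i)).card : ℝ))
          (fun τ => Real.sqrt (((τ.image (lab i)).card : ℝ)⁻¹))
        have h3 : ∑ τ ∈ cT, Real.sqrt ((τ.image (lab i)).card : ℝ) *
            Real.sqrt (((τ.image (lab i)).card : ℝ)⁻¹) = cT.card := by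
          rw [Finset.sum_congr rfl (g := fun _ => (1 : ℝ)), Finset.sum_const, nsmul_eq_mul,
            mul_one]
          intro τ hτ
          rw [← Real.sqrt_mul (hnp i τ hτ).le, mul_inv_cancel₀ (hnp i τ hτ).ne', Real.sqrt_one]
        rw [h3] at h2
        refine h2.trans (le_of_eq ?_)
        congr 1
        · refine Finset.sum_congr rfl fun τ hτ => ?_
          rw [Real.sq_sqrt (hnp i τ hτ).le]
        · refine Finset.sum_congr rfl fun τ hτ => ?_
          rw [Real.sq_sqrt (inv_pos.2 (hnp i τ hτ)).le]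
      have h4 : (cT.card : ℝ) ^ 2 ≤ (R * cT.card) *
          ∑ τ ∈ cT, ((τ.image (lab i)).card : ℝ)⁻¹ :=
        hcs.trans (mul_le_mul_of_nonneg_right h' hs0)
      rw [div_mul_eq_mul_div, le_div_iff₀ hN0, one_mul]
      have h5 : (cT.card : ℝ) * cT.card ≤ (cT.card : ℝ) *
          ((R : ℝ) * ∑ τ ∈ cT, ((τ.image (lab i)).card : ℝ)⁻¹) := by
        nlinarith [h4]
      exact le_of_mul_le_mul_left h5 hN0
    · rw [ind_false h]
      positivity
  refine (mn_mono h1).trans ?_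
  rw [mn_mul_left, mn_sum]
  have h2 : ∑ τ ∈ cT, mn (fun i => ((τ.image (lab i)).card : ℝ)⁻¹) ≤
      cT.card * (1 / (m0 : ℝ) + p) := by
    refine (Finset.sum_le_sum fun τ hτ => many_inv lab hp0 hp τ hm0 (hm τ hτ)).trans ?_
    rw [Finset.sum_const, nsmul_eq_mul]
  refine (mul_le_mul_of_nonneg_left h2 (by positivity)).trans (le_of_eq ?_)
  field_simp

end Pool.Agent.MPfe8e9bM
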