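import Mathlib
import Pool.Agent.Lib.MP_fe8e9b_al_M.Defs
import Pool.Agent.Lib.MP_fe8e9b_al_M.PrB
import Pool.Agent.Lib.MP_fe8e9b_al_M.AlB
import Pool.Agent.Lib.MP_fe8e9b_al_M.AcfB
import Pool.Agent.Lib.MP_fe8e9b_al_M.Conf

/-!
# MP_fe8e9b_al, groups of bounded height: configurations with a small cell
-/

set_option autoImplicit false

open scoped BigOperators

namespace Pool.Agent.MPfe8e9bM

open Pool.Agent.MPfe8e9b Pool.Agent.MPfe8e9bA Pool.Agent.MPfe8e9bW Pool.Agent.MPfe8e9bV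

/-- A configuration with a small cell.

Proof. Let `bad i` be: two different points of `τ` have the same label. `ind (bad i) ≤` the sum
over the pairs `y ≠ y'` of points of `τ` of `ind (lab i y = lab i y')`, each pair counted in both
orders, so `2 ind (bad i) ≤ ∑`, and the mean of `ind (bad i)` is at most `m0² p / 2 ≤ 1 / 2`. If `i`
is not bad then `Acf ρ cT (lab i) v = 0`: it is fixed by `Al ρ τ (lab i)` (`acf_fix`), so equal to
`Al ρ τ (lab i) (Acf ..) `, and `Pc ρ {y} (Acf ρ cT (lab i) v) = Acf ρ cT (lab i) (Pc ρ {y} v) = 0`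
(`pc_one_acf`) for a point `y` of `τ`; `al_inj_zero`. So
`mn_i ‖v - Acf ρ cT (lab i) v‖² ≥ mn_i (1 - ind (bad i)) ‖v‖² ≥ ‖v‖² / 2`. -/
theorem smallc {Z S Ω G : Type} [Fintype Z] [Fintype S] [Fintype Ω] [Nonempty Ω] [Group G]
    [Fintype G] {V : Type} [NormedAddCommGroup V] [InnerProductSpace ℂ V]
    (ρ : (Z → G) →* (V ≃ₗᵢ[ℂ] V)) (lab : Ω → Z → S) {p : ℝ} (hp0 : 0 ≤ p)
    (hp : ∀ y y', y ≠ y' → ag lab y y' ≤ p) {cT : Finset (Finset Z)} (hd : Dj cT)
    {τ : Finset Z} (hτ : τ ∈ cT) {m0 : ℕ} (hm : τ.card ≤ m0) (hpm : p * (m0 : ℝ) ^ 2 ≤ 1)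
    {v : V} (hv : v ∈ Vs ρ cT) :
    1 / 2 * ‖v‖ ^ 2 ≤ mn (fun i => ‖v - Acf ρ cT (lab i) v‖ ^ 2) := by
  classical
  set bad : Ω → Prop := fun i => ∃ y ∈ τ, ∃ y' ∈ τ, y ≠ y' ∧ lab i y = lab i y' with hbad
  have h1 : ∀ i, 2 * ind (bad i) ≤ ∑ q ∈ τ.offDiag, ind (lab i q.1 = lab i q.2) := by
    intro i
    by_cases hb : bad i
    · rw [ind_true hb]
      obtain ⟨y, hy, y', hy', hne, he⟩ := hb
      have h2 : ({(y, y'), (y', y)} : Finset (Z × Z)) ⊆ τ.offDiag := by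
        intro q hq
        rw [Finset.mem_insert, Finset.mem_singleton] at hq
        rcases hq with rfl | rfl
        · exact Finset.mem_offDiag.2 ⟨hy, hy', hne⟩
        · exact Finset.mem_offDiag.2 ⟨hy', hy, hne.symm⟩
      have h3 : ((y, y') : Z × Z) ≠ (y', y) := fun h => hne (Prod.mk.inj h).1
      refine le_trans (le_of_eq ?_)
        (Finset.sum_le_sum_of_subset_of_nonneg h2 fun q _ _ => ind_nonneg _)
      rw [Finset.sum_pair h3, ind_true he, ind_true he.symm]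
      norm_num
    · rw [ind_false hb, mul_zero]
      exact Finset.sum_nonneg fun q _ => ind_nonneg _
  have h2 : 2 * mn (fun i => ind (bad i)) ≤ 1 := by
    have h3 : mn (fun i => 2 * ind (bad i)) ≤
        ∑ q ∈ τ.offDiag, ag lab q.1 q.2 := by
      refine (mn_mono h1).trans (le_of_eq ?_)
      rw [mn_sum]
      rfl
    rw [mn_mul_left] at h3
    refine h3.trans ?_
    have h4 : ∑ q ∈ τ.offDiag, ag lab q.1 q.2 ≤ ∑ _q ∈ τ.offDiag, p :=
      Finset.sum_le_sum fun q hq => hp _ _ (Finset.mem_offDiag.1 hq).2.2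
    refine h4.trans ?_
    rw [Finset.sum_const, nsmul_eq_mul]
    have h5 : (τ.offDiag.card : ℝ) ≤ (m0 : ℝ) ^ 2 := by
      have h6 : τ.offDiag.card ≤ m0 ^ 2 := by
        rw [Finset.offDiag_card, pow_two]
        exact (Nat.sub_le _ _).trans (Nat.mul_le_mul hm hm)
      exact_mod_cast h6
    calc (τ.offDiag.card : ℝ) * p ≤ (m0 : ℝ) ^ 2 * p := mul_le_mul_of_nonneg_right h5 hp0
      _ = p * (m0 : ℝ) ^ 2 := mul_comm _ _
      _ ≤ 1 := hpm
  have h3 : ∀ i, ‖v‖ ^ 2 - ind (bad i) * ‖v‖ ^ 2 ≤ ‖v - Acf ρ cT (lab i) v‖ ^ 2 := by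
    intro i
    by_cases hb : bad i
    · rw [ind_true hb, one_mul, sub_self]
      exact sq_nonneg _
    · rw [ind_false hb, zero_mul, sub_zero]
      obtain ⟨y, hy⟩ := hd.1 τ hτ
      have h4 : Pc ρ {y} (Acf ρ cT (lab i) v) = 0 := by
        rw [pc_one_acf, ((mem_Vs ρ cT v).1 hv).1 y, map_zero]
      have h5 := (acf_fix ρ hd (lab i) (Acf ρ cT (lab i) v)).1
        ((acf_isP ρ cT (lab i)).2 v) τ hτ
      have h6 : Al ρ τ (lab i) (Acf ρ cT (lab i) v) = 0 := by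
        refine al_inj_zero ρ τ (lab i) (fun z hz z' hz' he => ?_) y hy _ h4
        by_contra hne
        exact hb ⟨z, hz, z', hz', hne, he⟩
      rw [← h5, h6, sub_zero]
  refine le_trans ?_ (mn_mono h3)
  rw [mn_sub, mn_const, mn_mul_right]
  nlinarith [mul_nonneg (sub_nonneg.2 h2) (sq_nonneg ‖v‖)]

end Pool.Agent.MPfe8e9bM
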