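import Mathlib
import Pool.Agent.Lib.MP_fe8e9b_al_M.Defs
import Pool.Agent.Lib.MP_fe8e9b_al_M.PrB
import Pool.Agent.Lib.MP_fe8e9b_al_M.AlB
import Pool.Agent.Lib.MP_fe8e9b_al_M.AcfB
import Pool.Agent.Lib.MP_fe8e9b_al_M.Star
import Pool.Agent.Lib.MP_fe8e9b_al_M.Conf
import Pool.Agent.Lib.MP_fe8e9b_al_M.SmallC
import Pool.Agent.Lib.MP_fe8e9b_al_M.ManyC
import Pool.Agent.Lib.MP_fe8e9b_al_M.Num
import Pool.Agent.Lib.MP_fe8e9b_al_M.M1a

/-!
# MP_fe8e9b_al, groups of bounded height: the minimal ratio, one step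
-/

set_option autoImplicit false

open scoped BigOperators

namespace Pool.Agent.MPfe8e9bM

open Pool.Agent.MPfe8e9b Pool.Agent.MPfe8e9bA Pool.Agent.MPfe8e9bW Pool.Agent.MPfe8e9bV

/-- The minimal ratio, one step: if at the configuration `cT` the ratio `r` is attained by a unit
vector `w` and `r` is a lower bound for all configurations, then `1 / 2 ≤ r` (`r > 0`).

Proof. By contradiction, let `r < 1 / 2`. `N = cT.card ≥ 1`, `ε = 1 - μ = r * hh M N < 1 / 2`,
`μ > 1 / 2`. If `cT` has a cell with at most `8 R` points, `smallc` (`p0 * (8 R)² = 1`) gives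
`ε ≥ 1 / 2` (`hmu`). Otherwise `m1_star`; put `w i = Acf ρ cT (lab i) w`, in
`Vs ρ (ref cT (lab i))` by `vs_acf`, so by `hr` for `ref cT (lab i)` (nonempty by `card_le_ref`,
`ref_dj`) the first term is at least `mn_i (r * hh M (ref cT (lab i)).card * ‖w i‖²)`. The second
term: for `T ⊆ cT` nonempty `hr` for `T` (`dj_mono`, `vs_mono`), for `T = ∅` `hh M 0 = 0` and the
term is nonnegative, so it is at least `4 / (1 - et) * r * ∑ T, wt T * hh M T.card`
`= 4 / (1 - et) * r * ∑ j ∈ range (N + 1), N.choose j * ((1 - et)^j et^(N-j)) * hh M j`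
(`Finset.sum_powerset_apply_card`, `nsmul_eq_mul`). As `(μ + 4 / (1 - et)) * ε =
(μ + lam) * r * hh M N`, dividing by `r > 0`:
`mn_i (hh M (ref ..).card * ‖w i‖²) + lam * ∑ ≤ (μ + lam) * hh M N`.
Now `hh M (ref ..).card ≥ hh M N + ind (good i) * (hh M (R N) - hh M N)`, good i:
`R * N ≤ (ref ..).card` (`card_le_ref`, `hh_mono`), `mn_i ‖w i‖² = μ` (`star_mu`), and
`mn_i (ind (good i) * ‖w i‖²) ≥ mn_i ‖w i‖² - mn_i (ind (bad i)) ≥ 1 / 2 - 1 / 4`
(`‖w i‖ ≤ 1`; `many`: `R (1 / (8 R) + 1 / (64 R²)) ≤ 1 / 4`). So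
`1 / 4 (hh M (R N) - hh M N) ≤ lam (hh M N - ∑)`, which contradicts `hnum`. -/
theorem m1_step {Z S Ω G : Type} [Fintype Z] [Fintype S] [Fintype Ω] [Nonempty Ω] [Group G]
    [Fintype G] (hG : commutator G = ⊤) {V : Type} [NormedAddCommGroup V]
    [InnerProductSpace ℂ V] [FiniteDimensional ℂ V] (ρ : (Z → G) →* (V ≃ₗᵢ[ℂ] V))
    (lab : Ω → Z → S) {M R : ℕ} (hM : 0 < M) (hR : 0 < R)
    (hnum : ∀ N : ℕ, 1 ≤ N →
      4 / (1 - et) * (hh M N - ∑ j ∈ Finset.range (N + 1),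
        (N.choose j : ℝ) * ((1 - et) ^ j * et ^ (N - j)) * hh M j) <
      1 / 4 * (hh M (R * N) - hh M N))
    (hp : ∀ y y', y ≠ y' → ag lab y y' ≤ 1 / (64 * (R : ℝ) ^ 2))
    {cT : Finset (Finset Z)} (hd : Dj cT) (hne : cT.Nonempty) {r μ : ℝ} (hr0 : 0 < r)
    {w : V} (hw : w ∈ Vs ρ cT) (hw1 : ‖w‖ = 1)
    (hw2 : ∑ i, Acf ρ cT (lab i) w = ((Fintype.card Ω * μ : ℝ) : ℂ) • w)
    (hmu : mn (fun i => ‖w - Acf ρ cT (lab i) w‖ ^ 2) = 1 - μ)
    (hrμ : 1 - μ = r * hh M cT.card)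
    (hr : ∀ T : Finset (Finset Z), Dj T → T.Nonempty → ∀ v ∈ Vs ρ T,
      r * hh M T.card * ‖v‖ ^ 2 ≤ mn (fun i => ‖v - Acf ρ T (lab i) v‖ ^ 2)) :
    1 / 2 ≤ r := by
  by_contra hlt
  rw [not_le] at hlt
  have hRr : (0 : ℝ) < R := by exact_mod_cast hR
  have hN : 1 ≤ cT.card := Finset.card_pos.2 hne
  have hN1 := hh_le_one M cT.card
  have hN0 := hh_pos M hM hN
  have hmu2 : 1 / 2 < μ := by nlinarith
  have hp0 : (0 : ℝ) ≤ 1 / (64 * (R : ℝ) ^ 2) := by positivity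
  have hbig : ∀ τ ∈ cT, 8 * R < τ.card := by
    intro τ hτ
    by_contra hc
    rw [not_lt] at hc
    have h1 := smallc ρ lab hp0 hp hd hτ hc (by
      push_cast
      rw [div_mul_eq_mul_div, one_mul, div_le_one (by positivity)]
      nlinarith) hw
    rw [hmu, hw1] at h1
    linarith
  have hstar := m1_star hG ρ lab hd μ w hw2
  rw [hw1, hrμ] at hstar
  have het : 0 < 1 - et := by linarith [et_lt]
  have hlam : 0 < 4 / (1 - et) := by positivity
  have hfirst : mn (fun i => r * (hh M (ref cT (lab i)).card * ‖Acf ρ cT (lab i) w‖ ^ 2)) ≤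
      mn (fun i => mn (fun j => ‖Acf ρ cT (lab i) w -
        Acf ρ (ref cT (lab i)) (lab j) (Acf ρ cT (lab i) w)‖ ^ 2)) := by
    refine mn_mono fun i => ?_
    have hne2 : (ref cT (lab i)).Nonempty :=
      Finset.card_pos.1 (lt_of_lt_of_le (Nat.lt_of_lt_of_le Nat.zero_lt_one hN)
        (card_le_ref hd (lab i)))
    have h1 := hr _ (ref_dj hd (lab i)) hne2 _ (vs_acf ρ hd (lab i) hw)
    linarith
  have hsec : ∀ T ∈ cT.powerset, ((1 - et) ^ T.card * et ^ (cT.card - T.card)) *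
      (r * hh M T.card) ≤ ((1 - et) ^ T.card * et ^ (cT.card - T.card)) *
        mn (fun i => ‖w - Acf ρ T (lab i) w‖ ^ 2) := by
    intro T hT
    rw [Finset.mem_powerset] at hT
    have hwt : 0 ≤ (1 - et) ^ T.card * et ^ (cT.card - T.card) :=
      mul_nonneg (pow_nonneg het.le _) (pow_nonneg et_pos.le _)
    refine mul_le_mul_of_nonneg_left ?_ hwt
    rcases T.eq_empty_or_nonempty with rfl | hTn
    · rw [Finset.card_empty, hh_zero, mul_zero]
      exact mn_nonneg fun i => by positivity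
    · have h1 := hr T (dj_mono hd hT) hTn w (vs_mono ρ hT hw)
      rw [hw1] at h1
      linarith
  have hsum : ∑ T ∈ cT.powerset, ((1 - et) ^ T.card * et ^ (cT.card - T.card)) *
      (r * hh M T.card) = r * ∑ j ∈ Finset.range (cT.card + 1),
        (cT.card.choose j : ℝ) * ((1 - et) ^ j * et ^ (cT.card - j)) * hh M j := by
    rw [Finset.sum_powerset_apply_card
      (fun j => ((1 - et) ^ j * et ^ (cT.card - j)) * (r * hh M j)), Finset.mul_sum]
    refine Finset.sum_congr rfl fun j _ => ?_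
    rw [nsmul_eq_mul]
    ring
  have hsec2 := Finset.sum_le_sum hsec
  rw [hsum] at hsec2
  have hle : R * cT.card ≥ cT.card := Nat.le_mul_of_pos_left _ hR
  have hRN : hh M cT.card ≤ hh M (R * cT.card) := hh_mono M hM hle
  have hnorm : ∀ i, ‖Acf ρ cT (lab i) w‖ ^ 2 ≤ 1 := by
    intro i
    have h1 := isP_norm_le (acf_isP ρ cT (lab i)) w
    rw [hw1] at h1
    nlinarith [norm_nonneg (Acf ρ cT (lab i) w)]
  have hpt : ∀ i, hh M cT.card * ‖Acf ρ cT (lab i) w‖ ^ 2 +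
      (hh M (R * cT.card) - hh M cT.card) * (‖Acf ρ cT (lab i) w‖ ^ 2 -
        ind ((ref cT (lab i)).card < R * cT.card)) ≤
      hh M (ref cT (lab i)).card * ‖Acf ρ cT (lab i) w‖ ^ 2 := by
    intro i
    have ha : 0 ≤ ‖Acf ρ cT (lab i) w‖ ^ 2 := by positivity
    have ha1 := hnorm i
    by_cases hb : (ref cT (lab i)).card < R * cT.card
    · rw [ind_true hb]
      have h1 : hh M cT.card ≤ hh M (ref cT (lab i)).card := hh_mono M hM (card_le_ref hd (lab i))
      nlinarith [mul_nonneg (sub_nonneg.2 hRN) (sub_nonneg.2 ha1),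
        mul_le_mul_of_nonneg_right h1 ha]
    · rw [ind_false hb]
      rw [not_lt] at hb
      have h1 : hh M (R * cT.card) ≤ hh M (ref cT (lab i)).card := hh_mono M hM hb
      nlinarith [mul_le_mul_of_nonneg_right h1 ha]
  have hmean := mn_mono hpt
  rw [mn_add, mn_mul_left, mn_mul_left, mn_sub, star_mu (fun i => Acf ρ cT (lab i))
    (fun i => acf_isP ρ cT (lab i)) μ w hw2, hw1] at hmean
  have hmany := many lab hp0 hp hd (m0 := 8 * R) (by omega) hbig R
  have hmany2 : mn (fun i => ind ((ref cT (lab i)).card < R * cT.card)) ≤ 1 / 4 := by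
    refine hmany.trans ?_
    push_cast
    have hR1 : (1 : ℝ) ≤ R := by exact_mod_cast hR
    have h1 : (R : ℝ) * (1 / (8 * R) + 1 / (64 * (R : ℝ) ^ 2)) = 1 / 8 + 1 / (64 * R) := by
      field_simp
    rw [h1]
    have h2 : 1 / (64 * (R : ℝ)) ≤ 1 / 64 := by
      apply one_div_le_one_div_of_le <;> linarith
    linarith
  rw [mn_mul_left] at hfirst
  have hn := hnum cT.card hN
  have hmul := mul_le_mul_of_nonneg_left hsec2 hlam.le
  have hkey : r * (mn (fun i => hh M (ref cT (lab i)).card * ‖Acf ρ cT (lab i) w‖ ^ 2) +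
      4 / (1 - et) * ∑ j ∈ Finset.range (cT.card + 1),
        (cT.card.choose j : ℝ) * ((1 - et) ^ j * et ^ (cT.card - j)) * hh M j) ≤
      r * ((μ + 4 / (1 - et)) * hh M cT.card) := by
    have h1 : (μ + 4 / (1 - et)) * (r * hh M cT.card) * 1 ^ 2 =
        r * ((μ + 4 / (1 - et)) * hh M cT.card) := by ring
    rw [h1] at hstar
    linarith
  have hkey2 := le_of_mul_le_mul_left hkey hr0
  have h5 : (hh M (R * cT.card) - hh M cT.card) * (1 / 4) ≤
      (hh M (R * cT.card) - hh M cT.card) * (μ * 1 ^ 2 -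
        mn (fun i => ind ((ref cT (lab i)).card < R * cT.card))) := by
    refine mul_le_mul_of_nonneg_left ?_ (sub_nonneg.2 hRN)
    linarith
  linarith

end Pool.Agent.MPfe8e9bM
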