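import Mathlib
import Pool.Agent.Lib.MP_fe8e9b_al_M.Defs
import Pool.Agent.Lib.MP_fe8e9b_al_M.PrB
import Pool.Agent.Lib.MP_fe8e9b_al_M.AlB
import Pool.Agent.Lib.MP_fe8e9b_al_M.AcfB
import Pool.Agent.Lib.MP_fe8e9b_al_M.Ang1
import Pool.Agent.Lib.MP_fe8e9b_al_M.Conf

/-!
# MP_fe8e9b_al, groups of bounded height: no common invariants
-/

set_option autoImplicit false

open scoped BigOperators commutatorElement

namespace Pool.Agent.MPfe8e9bM

open Pool.Agent.MPfe8e9b Pool.Agent.MPfe8e9bA Pool.Agent.MPfe8e9bW Pool.Agent.MPfe8e9bV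

private theorem pos_inv_fix {Z G : Type} [Group G] {V : Type} [NormedAddCommGroup V]
    [InnerProductSpace ℂ V] (ρ : (Z → G) →* (V ≃ₗᵢ[ℂ] V)) {B : Finset Z} (a : G) (v : V)
    (ha : ρ (dl G B a) v = v) : ρ (dl G B a⁻¹) v = v := by
  have h : ρ (dl G B a⁻¹) (ρ (dl G B a) v) = v := by
    change (ρ (dl G B a⁻¹) * ρ (dl G B a)) v = v
    rw [← map_mul, ← map_mul, inv_mul_cancel, map_one, map_one]
    rfl
  rwa [ha] at h

/-- Intersections. If `v` is fixed by the constant functions on `B` and on `B'` then it is fixed by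
the constant functions on `B ∩ B'` (`G` perfect).

Proof. `cm (dl G B h) (dl G B' g) = dl G (B ∩ B') (cm h g)` (`cm_dl`) fixes `v`. The elements `g`
with `ρ (dl G (B ∩ B') g) v = v` form a subgroup which contains all commutators
(`commutator_def`, `Subgroup.commutator_le` or `Subgroup.closure_le`), so it is `⊤`. -/
theorem pc_inter {Z G : Type} [Group G] [Fintype G] (hG : commutator G = ⊤) {V : Type}
    [NormedAddCommGroup V] [InnerProductSpace ℂ V] (ρ : (Z → G) →* (V ≃ₗᵢ[ℂ] V))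
    (B B' C : Finset Z) (hC : ∀ y, y ∈ C ↔ y ∈ B ∧ y ∈ B') (v : V) (h : Pc ρ B v = v)
    (h' : Pc ρ B' v = v) : Pc ρ C v = v := by
  have h1 : ∀ g, ρ (dl G B g) v = v := (av_eq_iff (ρ.comp (dl G B))).1 h
  have h2 : ∀ g, ρ (dl G B' g) v = v := (av_eq_iff (ρ.comp (dl G B'))).1 h'
  refine (av_eq_iff (ρ.comp (dl G C))).2 fun g => ?_
  change ρ (dl G C g) v = v
  -- the stabiliser of `v`
  let N : Subgroup G :=
    { carrier := {g | ρ (dl G C g) v = v}
      mul_mem' := by
        intro a b ha hb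
        change ρ (dl G C (a * b)) v = v
        rw [map_mul, map_mul]
        change ρ (dl G C a) (ρ (dl G C b) v) = v
        rw [show ρ (dl G C b) v = v from hb]
        exact ha
      one_mem' := by
        change ρ (dl G C 1) v = v
        rw [map_one, map_one]
        rfl
      inv_mem' := by
        intro a ha
        exact pos_inv_fix ρ _ v ha }
  have hcm : ∀ a b : G, ρ (dl G C ⁅a, b⁆) v = v := by
    intro a b
    have e : dl G C ⁅a, b⁆ = dl G B a * dl G B' b * (dl G B a)⁻¹ * (dl G B' b)⁻¹ := by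
      rw [← map_inv, ← map_inv, commutatorElement_def]
      funext y
      simp only [Pi.mul_apply]
      by_cases hy : y ∈ B
      · by_cases hy' : y ∈ B'
        · rw [dl_apply _ ((hC y).2 ⟨hy, hy'⟩), dl_apply _ hy, dl_apply _ hy, dl_apply _ hy',
            dl_apply _ hy']
        · rw [dl_apply_out _ (fun hc => hy' ((hC y).1 hc).2), dl_apply _ hy, dl_apply _ hy,
            dl_apply_out _ hy', dl_apply_out _ hy']
          group
      · rw [dl_apply_out _ (fun hc => hy ((hC y).1 hc).1), dl_apply_out _ hy, dl_apply_out _ hy,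
          one_mul, mul_one, map_inv]
        exact (mul_inv_cancel _).symm
    have i1 : ρ ((dl G B a)⁻¹) v = v := by rw [← map_inv]; exact h1 _
    have i2 : ρ ((dl G B' b)⁻¹) v = v := by rw [← map_inv]; exact h2 _
    rw [e, map_mul, map_mul, map_mul]
    change ρ (dl G B a) (ρ (dl G B' b) (ρ ((dl G B a)⁻¹) (ρ ((dl G B' b)⁻¹) v))) = v
    rw [i2, i1, h2, h1]
  have hN : commutator G ≤ N := by
    rw [commutator_def, Subgroup.commutator_le]
    intro a _ b _
    exact hcm a b
  rw [hG] at hN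
  exact hN (Subgroup.mem_top g)

/-- No common invariants in the space of a configuration.

Proof. Let `τ ∈ cT`, `y ∈ τ`. By induction on a finite set `U` of points `≠ y`
(`Finset.induction_on`) there is a set `B ⊆ τ` with `y ∈ B`, `B` disjoint from `U`, and
`Pc ρ B w = w`: start with `B = τ` (`w ∈ Vs`); for `y'` take `i` with `lab i y ≠ lab i y'`, the
part `C` of `τ` with label `lab i y` does not contain `y'` and `Pc ρ C w = w` (`acf_fix`,
`al_part`); intersect (`pc_inter`). With `U = univ.erase y` we get `B = {y}` and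
`w = Pc ρ {y} w = 0`. -/
theorem pos {Z S Ω G : Type} [Fintype Z] [Fintype S] [Group G] [Fintype G]
    (hG : commutator G = ⊤) {V : Type} [NormedAddCommGroup V] [InnerProductSpace ℂ V]
    (ρ : (Z → G) →* (V ≃ₗᵢ[ℂ] V)) (lab : Ω → Z → S)
    (hsep : ∀ y y', y ≠ y' → ∃ i, lab i y ≠ lab i y') {cT : Finset (Finset Z)} (hd : Dj cT)
    (hne : cT.Nonempty) {w : V} (hw : w ∈ Vs ρ cT) (h : ∀ i, Acf ρ cT (lab i) w = w) :
    w = 0 := by
  classical
  obtain ⟨τ, hτ⟩ := hne
  obtain ⟨y, hy⟩ := hd.1 τ hτ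
  have key : ∀ U : Finset Z, y ∉ U → ∃ B : Finset Z, y ∈ B ∧ (∀ z ∈ B, z ∈ τ ∧ z ∉ U) ∧
      Pc ρ B w = w := by
    intro U
    induction U using Finset.induction_on with
    | empty => exact fun _ => ⟨τ, hy, fun z hz => ⟨hz, Finset.notMem_empty z⟩, hw.2 τ hτ⟩
    | insert y' U _ ih =>
      intro hyU
      rw [Finset.mem_insert, not_or] at hyU
      obtain ⟨B, h1, h2, h3⟩ := ih hyU.2
      obtain ⟨i, hi⟩ := hsep y y' hyU.1
      have h4 := (al_part ρ τ (lab i) w).1 ((acf_fix ρ hd (lab i) w).1 (h i) τ hτ) (lab i y)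
      refine ⟨B.filter (fun z => lab i z = lab i y), Finset.mem_filter.2 ⟨h1, rfl⟩, ?_, ?_⟩
      · intro z hz
        obtain ⟨h5, h6⟩ := Finset.mem_filter.1 hz
        refine ⟨(h2 z h5).1, ?_⟩
        rw [Finset.mem_insert, not_or]
        refine ⟨?_, (h2 z h5).2⟩
        rintro rfl
        exact hi h6.symm
      · refine pc_inter hG ρ B _ _ (fun z => ?_) w h3 h4
        rw [Finset.mem_filter, Finset.mem_filter]
        exact ⟨fun ⟨a, b⟩ => ⟨a, (h2 z a).1, b⟩, fun ⟨a, _, b⟩ => ⟨a, b⟩⟩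
  obtain ⟨B, h1, h2, h3⟩ := key (Finset.univ.erase y) (Finset.notMem_erase y _)
  have hB : B = {y} := by
    rw [Finset.eq_singleton_iff_unique_mem]
    refine ⟨h1, fun z hz => ?_⟩
    by_contra hne
    exact (h2 z hz).2 (Finset.mem_erase.2 ⟨hne, Finset.mem_univ z⟩)
  rw [hB, hw.1 y] at h3
  exact h3.symm

end Pool.Agent.MPfe8e9bM
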