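import Mathlib
import Pool.Agent.Lib.MP_fe8e9b_al_M.Defs
import Pool.Agent.Lib.MP_fe8e9b_al_M.PrB
import Pool.Agent.Lib.MP_fe8e9b_al_M.AlB
import Pool.Agent.Lib.MP_fe8e9b_al_M.AcfB
import Pool.Agent.Lib.MP_fe8e9b_al_M.Eig
import Pool.Agent.Lib.MP_fe8e9b_al_M.Conf
import Pool.Agent.Lib.MP_fe8e9b_al_M.Pos
import Pool.Agent.Lib.MP_fe8e9b_al_M.Num
import Pool.Agent.Lib.MP_fe8e9b_al_M.M1b

/-!
# MP_fe8e9b_al, groups of bounded height: the minimal ratio
-/

set_option autoImplicit false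

open scoped BigOperators

namespace Pool.Agent.MPfe8e9bM

open Pool.Agent.MPfe8e9b Pool.Agent.MPfe8e9bA Pool.Agent.MPfe8e9bW Pool.Agent.MPfe8e9bV

/-- All configurations.

Proof. For every configuration `T` (`Dj T`, nonempty) with `Vs ρ T ≠ ⊥` take `μ T` and `w T` from
`eig_mean` (`U = Vs ρ T`, `vs_inv`). If there is no such configuration, all `v` are zero. Otherwise
take one, `cT`, with minimal `r = (1 - μ T) / hh M T.card` (`Finset.exists_min_image` over the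
finite set of these configurations). `r > 0`: otherwise `1 - μ cT ≤ 0`, so
`mn_i ‖w - Acf ρ cT (lab i) w‖² = 0`, all terms vanish, and `pos` gives `w = 0` (two different
points are separated by some letter, otherwise `ag lab y y' = 1 > 1 / (64 R²)`). `m1_step` gives
`1 / 2 ≤ r`, and for every configuration `T` and `v ∈ Vs ρ T`:
`1 / 2 * hh M T.card * ‖v‖² ≤ r * hh M T.card * ‖v‖² ≤ (1 - μ T) ‖v‖² ≤ mn`. -/
theorem m1_all {Z S Ω G : Type} [Fintype Z] [Fintype S] [Fintype Ω] [Nonempty Ω] [Group G]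
    [Fintype G] (hG : commutator G = ⊤) {V : Type} [NormedAddCommGroup V]
    [InnerProductSpace ℂ V] [FiniteDimensional ℂ V] (ρ : (Z → G) →* (V ≃ₗᵢ[ℂ] V))
    (lab : Ω → Z → S) {M R : ℕ} (hM : 0 < M) (hR : 0 < R)
    (hnum : ∀ N : ℕ, 1 ≤ N →
      4 / (1 - et) * (hh M N - ∑ j ∈ Finset.range (N + 1),
        (N.choose j : ℝ) * ((1 - et) ^ j * et ^ (N - j)) * hh M j) <
      1 / 4 * (hh M (R * N) - hh M N))
    (hp : ∀ y y', y ≠ y' → ag lab y y' ≤ 1 / (64 * (R : ℝ) ^ 2))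
    {cT : Finset (Finset Z)} (hd : Dj cT) (hne : cT.Nonempty) {v : V} (hv : v ∈ Vs ρ cT) :
    1 / 2 * hh M cT.card * ‖v‖ ^ 2 ≤ mn (fun i => ‖v - Acf ρ cT (lab i) v‖ ^ 2) := by
  classical
  have key : ∀ T : Finset (Finset Z), Dj T → T.Nonempty → Vs ρ T ≠ ⊥ →
      ∃ (μ : ℝ) (w : V), w ∈ Vs ρ T ∧ ‖w‖ = 1 ∧
        ∑ i, Acf ρ T (lab i) w = ((Fintype.card Ω * μ : ℝ) : ℂ) • w ∧
        mn (fun i => ‖w - Acf ρ T (lab i) w‖ ^ 2) = 1 - μ ∧
        ∀ v ∈ Vs ρ T, (1 - μ) * ‖v‖ ^ 2 ≤ mn (fun i => ‖v - Acf ρ T (lab i) v‖ ^ 2) := by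
    intro T hT _ hV
    exact eig_mean (fun i => Acf ρ T (lab i)) (fun i => acf_isP ρ T (lab i)) (Vs ρ T) hV
      (fun i v hv => vs_inv ρ hT (lab i) hv)
  choose! μ w hμw using key
  have hpos : ∀ T : Finset (Finset Z), T.Nonempty → 0 < hh M T.card := fun T hT =>
    hh_pos M hM (Finset.card_pos.2 hT)
  have hnn : ∀ (T : Finset (Finset Z)) (u : V),
      0 ≤ mn (fun i => ‖u - Acf ρ T (lab i) u‖ ^ 2) := fun T u =>
    mn_nonneg fun i => by positivity
  by_cases hv0 : v = 0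
  · rw [hv0, norm_zero]
    have h1 := hnn cT 0
    have h2 : (1 : ℝ) / 2 * hh M cT.card * 0 ^ 2 = 0 := by ring
    rw [h2]
    exact h1
  have hVs : Vs ρ cT ≠ ⊥ := by
    intro h
    rw [h] at hv
    exact hv0 ((Submodule.mem_bot ℂ).1 hv)
  obtain ⟨T0, hT0, hmin⟩ := Finset.exists_min_image
    ((Finset.univ : Finset (Finset (Finset Z))).filter
      (fun T => Dj T ∧ T.Nonempty ∧ Vs ρ T ≠ ⊥))
    (fun T => (1 - μ T) / hh M T.card)
    ⟨cT, Finset.mem_filter.2 ⟨Finset.mem_univ _, hd, hne, hVs⟩⟩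
  obtain ⟨-, hd0, hne0, hV0⟩ := Finset.mem_filter.1 hT0
  obtain ⟨hw, hw1, hw2, hw3, hw4⟩ := hμw T0 hd0 hne0 hV0
  have hh0 : 0 < hh M T0.card := hpos T0 hne0
  have hsep : ∀ y y' : Z, y ≠ y' → ∃ i, lab i y ≠ lab i y' := by
    intro y y' hy
    by_contra hcon
    push Not at hcon
    have h1 := hp y y' hy
    have h2 : ag lab y y' = 1 := by
      unfold ag
      have h3 : (fun i => ind (lab i y = lab i y')) = fun _ : Ω => (1 : ℝ) := by
        funext i
        exact ind_true (hcon i)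
      rw [h3, mn_const]
    rw [h2] at h1
    have h4 : (1 : ℝ) ≤ (R : ℝ) := by exact_mod_cast hR
    have h5 : (64 : ℝ) ≤ 64 * (R : ℝ) ^ 2 := by nlinarith
    have h6 : 1 / (64 * (R : ℝ) ^ 2) ≤ 1 / 64 := one_div_le_one_div_of_le (by norm_num) h5
    linarith
  have hμ0 : 0 < 1 - μ T0 := by
    by_contra hcon
    push Not at hcon
    have h1 : mn (fun i => ‖w T0 - Acf ρ T0 (lab i) (w T0)‖ ^ 2) = 0 :=
      le_antisymm (hw3.le.trans hcon) (hnn T0 (w T0))
    have h2 : ∀ i, Acf ρ T0 (lab i) (w T0) = w T0 := by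
      intro i
      unfold mn at h1
      have hc : (Fintype.card Ω : ℝ) ≠ 0 := by exact_mod_cast Fintype.card_ne_zero
      have h3 : ∑ i, ‖w T0 - Acf ρ T0 (lab i) (w T0)‖ ^ 2 = 0 := by
        rcases mul_eq_zero.1 h1 with h | h
        · exact absurd (inv_eq_zero.1 h) hc
        · exact h
      have h4 := (Finset.sum_eq_zero_iff_of_nonneg (fun i _ => by positivity)).1 h3 i
        (Finset.mem_univ i)
      have h5 : ‖w T0 - Acf ρ T0 (lab i) (w T0)‖ = 0 := by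
        simpa using h4
      exact (sub_eq_zero.1 (norm_eq_zero.1 h5)).symm
    have h6 := pos hG ρ lab hsep hd0 hne0 hw h2
    rw [h6, norm_zero] at hw1
    exact one_ne_zero hw1.symm
  have hr0 : 0 < (1 - μ T0) / hh M T0.card := div_pos hμ0 hh0
  have hr : ∀ T : Finset (Finset Z), Dj T → T.Nonempty → ∀ u ∈ Vs ρ T,
      (1 - μ T0) / hh M T0.card * hh M T.card * ‖u‖ ^ 2 ≤
        mn (fun i => ‖u - Acf ρ T (lab i) u‖ ^ 2) := by
    intro T hT hTn u hu
    by_cases hV : Vs ρ T = ⊥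
    · rw [hV] at hu
      have hu0 : u = 0 := (Submodule.mem_bot ℂ).1 hu
      have h1 := hnn T u
      have h2 : ‖u‖ ^ 2 = 0 := by rw [hu0, norm_zero]; ring
      rw [h2, mul_zero]
      exact h1
    · have h1 := hmin T (Finset.mem_filter.2 ⟨Finset.mem_univ _, hT, hTn, hV⟩)
      have h2 : (1 - μ T0) / hh M T0.card * hh M T.card ≤ 1 - μ T := by
        calc (1 - μ T0) / hh M T0.card * hh M T.card ≤ (1 - μ T) / hh M T.card * hh M T.card :=
              mul_le_mul_of_nonneg_right h1 (hpos T hTn).le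
          _ = 1 - μ T := div_mul_cancel₀ _ (hpos T hTn).ne'
      obtain ⟨-, -, -, -, h3⟩ := hμw T hT hTn hV
      exact (mul_le_mul_of_nonneg_right h2 (by positivity)).trans (h3 u hu)
  have hhalf := m1_step hG ρ lab hM hR hnum hp hd0 hne0 hr0 hw hw1 hw2 hw3
    (div_mul_cancel₀ _ hh0.ne').symm hr
  refine le_trans ?_ (hr cT hd hne v hv)
  have h1 := (hpos cT hne).le
  gcongr

end Pool.Agent.MPfe8e9bM
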