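import Mathlib
import Pool.Agent.Lib.MP_fe8e9b_al_M.Defs
import Pool.Agent.Lib.MP_fe8e9b_al_M.PrB
import Pool.Agent.Lib.MP_fe8e9b_al_M.AlB
import Pool.Agent.Lib.MP_fe8e9b_al_M.AcfB
import Pool.Agent.Lib.MP_fe8e9b_al_M.Num
import Pool.Agent.Lib.MP_fe8e9b_al_M.ThmM1

/-!
# MP_fe8e9b_al, groups of bounded height: Theorem M
-/

set_option autoImplicit false

open scoped BigOperators

namespace Pool.Agent.MPfe8e9bM

open Pool.Agent.MPfe8e9b Pool.Agent.MPfe8e9bA Pool.Agent.MPfe8e9bW Pool.Agent.MPfe8e9bV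

/-- Theorem M, vectors without invariants at the points.

Proof. `M`, `R` from `num` for `η = et`, `lam = 4 / (1 - et)`; `p0 = 1 / (64 R²)`,
`κ0 = hh M 1 / 2` (`≤ 1` by `hh_le_one`). `cT = {univ}` is a configuration. Let
`x = Pc ρ univ v`. `x ∈ Vs ρ {univ}` (`Pc ρ {y} x = Pc ρ univ (Pc ρ {y} v) = 0`: sum over `g` of
`rho_pc_one`). `m1_all` and `acf_single`: `κ0 ‖x‖² ≤ mn_i ‖x - Al ρ univ (lab i) x‖²`. And
`Al ρ univ (lab i) v = Al ρ univ (lab i) x` (`isP_le`, `al_pc`), `v - Al v = (v - x) + (x - Al x)`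
with orthogonal summands (`x`, `Al x` are fixed by `Pc ρ univ`, which kills `v - x`):
`‖v - Al v‖² = ‖v - x‖² + ‖x - Al x‖²`, and `‖v‖² = ‖v - x‖² + ‖x‖²`, `κ0 ≤ 1`. -/
theorem thmM : ∃ p0 κ0 : ℝ, 0 < p0 ∧ 0 < κ0 ∧ κ0 ≤ 1 ∧
    ∀ (G : Type) [Group G] [Fintype G], commutator G = ⊤ →
    ∀ (Z S Ω : Type) [Fintype Z] [Nonempty Z] [Fintype S] [Fintype Ω] [Nonempty Ω]
      (lab : Ω → Z → S), (∀ y y', y ≠ y' → ag lab y y' ≤ p0) →
    ∀ (V : Type) [NormedAddCommGroup V] [InnerProductSpace ℂ V] [FiniteDimensional ℂ V]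
      (ρ : (Z → G) →* (V ≃ₗᵢ[ℂ] V)) (v : V), (∀ y, Pc ρ {y} v = 0) →
      κ0 * ‖v‖ ^ 2 ≤ mn (fun i => ‖v - Al ρ Finset.univ (lab i) v‖ ^ 2) := by
  have het := et_lt
  have hlam : 0 < 4 / (1 - et) := div_pos (by norm_num) (by linarith)
  obtain ⟨M, R, hM, hR, hnum⟩ := num et_pos.le et_lt hlam
  have hR' : (0 : ℝ) < R := by exact_mod_cast hR
  have hκ := hh_pos M hM (le_refl 1)
  have hκ1 := hh_le_one M 1
  refine ⟨1 / (64 * (R : ℝ) ^ 2), 1 / 2 * hh M 1, by positivity, by linarith, by linarith, ?_⟩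
  intro G _ _ hG Z S Ω _ _ _ _ _ lab hp V _ _ _ ρ v hv
  have hP := pc_isP (G := G) ρ (Finset.univ : Finset Z)
  have hd : Dj ({Finset.univ} : Finset (Finset Z)) := by
    refine ⟨fun τ hτ => ?_, fun τ hτ τ' hτ' h => ?_⟩
    · rw [Finset.mem_singleton.1 hτ]
      exact Finset.univ_nonempty
    · exact absurd ((Finset.mem_singleton.1 hτ).trans (Finset.mem_singleton.1 hτ').symm) h
  obtain ⟨x, hx⟩ : ∃ x, x = Pc ρ Finset.univ v := ⟨_, rfl⟩
  have hxV : x ∈ Vs ρ ({Finset.univ} : Finset (Finset Z)) := by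
    rw [mem_Vs]
    refine ⟨fun y => ?_, fun τ hτ => ?_⟩
    · have h1 := al_const ρ (Finset.univ : Finset Z) (fun _ => ()) (fun _ _ _ _ => rfl)
      rw [hx, ← h1, pc_one_al, hv y, map_zero]
    · rw [Finset.mem_singleton.1 hτ, hx, hP.2]
  have h1 := m1_all hG ρ lab hM hR hnum hp hd (Finset.singleton_nonempty _) hxV
  rw [Finset.card_singleton] at h1
  have h2 : ∀ i, ‖v - Al ρ Finset.univ (lab i) v‖ ^ 2 =
      ‖x - Acf ρ ({Finset.univ} : Finset (Finset Z)) (lab i) x‖ ^ 2 + ‖v - x‖ ^ 2 := by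
    intro i
    have hA := al_isP (G := G) ρ (Finset.univ : Finset Z) (lab i)
    obtain ⟨e1, e2⟩ := isP_le hP hA (fun w hw => al_pc ρ Finset.univ (lab i) w hw)
    rw [acf_single ρ Finset.univ Finset.univ_nonempty (lab i) x]
    have e3 : Al ρ Finset.univ (lab i) x = Al ρ Finset.univ (lab i) v := by rw [hx, e2]
    have e4 := isP_norm_sq hP (v - Al ρ Finset.univ (lab i) v)
    rw [map_sub, e1, ← hx] at e4
    rw [e4, e3]
    congr 3
    abel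
  have h3 := isP_norm_sq hP v
  rw [← hx] at h3
  have h4 : mn (fun i => ‖v - Al ρ Finset.univ (lab i) v‖ ^ 2) =
      mn (fun i => ‖x - Acf ρ ({Finset.univ} : Finset (Finset Z)) (lab i) x‖ ^ 2) +
        ‖v - x‖ ^ 2 := by
    rw [show (fun i => ‖v - Al ρ Finset.univ (lab i) v‖ ^ 2) = fun i =>
      ‖x - Acf ρ ({Finset.univ} : Finset (Finset Z)) (lab i) x‖ ^ 2 + ‖v - x‖ ^ 2 from
      funext h2, mn_add, mn_const]
  rw [h4, h3]
  have h5 : 1 / 2 * hh M 1 * ‖v - x‖ ^ 2 ≤ 1 * ‖v - x‖ ^ 2 :=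
    mul_le_mul_of_nonneg_right (by linarith) (by positivity)
  linarith

end Pool.Agent.MPfe8e9bM
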