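import Mathlib
import Pool.Agent.Lib.MP_fe8e9b_al_M.Defs
import Pool.Agent.Lib.MP_fe8e9b_al_M.PrB
import Pool.Agent.Lib.MP_fe8e9b_al_M.AlB
import Pool.Agent.Lib.MP_fe8e9b_al_M.ThmM

/-!
# MP_fe8e9b_al, groups of bounded height: supports
-/

set_option autoImplicit false

open scoped BigOperators

namespace Pool.Agent.MPfe8e9bM

open Pool.Agent.MPfe8e9b Pool.Agent.MPfe8e9bA Pool.Agent.MPfe8e9bW Pool.Agent.MPfe8e9bV

/-- Decomposition by supports.

Proof. By induction on a finite set `U` of points: if `Q` holds for the vectors `v` with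
`Pc ρ {y} v = 0 ∨ Pc ρ {y} v = v` for all `y ∉ U`, hmm, let us say it in this way: for every finite
set `U`, every `v` with `Pc ρ {y} v = 0 ∨ Pc ρ {y} v = v` for all `y ∉ U` satisfies `Q`. `U = ∅` is
`h`. Insert `y`: apply the induction hypothesis to `Pc ρ {y} v` and `v - Pc ρ {y} v` (the maps
`Pc ρ {y'}` commute with `Pc ρ {y}`, `pc_one_pc`, and `Pc ρ {y}` is `1` resp. `0` on these two
vectors), then `hadd`. Take `U = univ`. -/
theorem supp_dec {Z G : Type} [Fintype Z] [Group G] [Fintype G] {V : Type}
    [NormedAddCommGroup V] [InnerProductSpace ℂ V] (ρ : (Z → G) →* (V ≃ₗᵢ[ℂ] V))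
    (Q : V → Prop)
    (hadd : ∀ (y : Z) (v : V), Q (Pc ρ {y} v) → Q (v - Pc ρ {y} v) → Q v)
    (h : ∀ v, (∀ y, Pc ρ {y} v = 0 ∨ Pc ρ {y} v = v) → Q v) (v : V) : Q v := by
  classical
  have key : ∀ U : Finset Z, ∀ v : V, (∀ y, y ∉ U → Pc ρ {y} v = 0 ∨ Pc ρ {y} v = v) → Q v := by
    intro U
    induction U using Finset.induction_on with
    | empty =>
      intro v hv
      exact h v fun y => hv y (Finset.notMem_empty y)
    | insert y U hy ih =>
      intro v hv
      refine hadd y v (ih _ fun y' hy' => ?_) (ih _ fun y' hy' => ?_)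
      · by_cases hyy : y' = y
        · rw [hyy]
          exact Or.inr ((pc_isP ρ {y}).2 v)
        · have h1 : y' ∉ insert y U := by
            rw [Finset.mem_insert]
            exact fun h => h.elim hyy hy'
          rcases hv y' h1 with h2 | h2
          · left
            rw [pc_one_pc, h2, map_zero]
          · right
            rw [pc_one_pc, h2]
      · by_cases hyy : y' = y
        · left
          rw [hyy, map_sub, (pc_isP ρ {y}).2 v, sub_self]
        · have h1 : y' ∉ insert y U := by
            rw [Finset.mem_insert]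
            exact fun h => h.elim hyy hy'
          rcases hv y' h1 with h2 | h2
          · left
            rw [map_sub, pc_one_pc, h2, map_zero, sub_zero]
          · right
            rw [map_sub, pc_one_pc, h2]
  exact key Finset.univ v fun y hy => absurd (Finset.mem_univ y) hy

open Classical in
/-- Extension by one. -/
noncomputable def xt {Z : Type} (G : Type) [Group G] (p : Z → Prop) :
    ({y // p y} → G) →* (Z → G) where
  toFun f := fun y => if h : p y then f ⟨y, h⟩ else 1
  map_one' := by
    funext y
    by_cases h : p y <;> simp [h]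
  map_mul' f f' := by
    funext y
    by_cases h : p y <;> simp [h]

/-- Restriction of the support. If `v` is invariant under the elements at the points outside of `p`
then the average over the functions of the label on `univ` is the average over the functions of the
label on `{y // p y}`, in the representation `ρ.comp (xt G p)`.

Proof. `v` is fixed by every `g : Z → G` with `g y = 1` for `p y` (such a `g` is a product of
elements at the points outside of `p`: induction on a finite set as in `al_part`, or
`Pi.mulSingle` products). So for `f : S → G`: `ρ (clf G univ lab f) v =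
ρ (xt G p (clf G univ (lab ∘ Subtype.val) f)) v` (the quotient of the two elements is `1` on `p`).
Sum over `f`. -/
theorem supp_al {Z S G : Type} [Fintype Z] [Fintype S] [Group G] [Fintype G] {V : Type}
    [NormedAddCommGroup V] [InnerProductSpace ℂ V] (ρ : (Z → G) →* (V ≃ₗᵢ[ℂ] V))
    (p : Z → Prop) [Fintype {y // p y}] (lab : Z → S) (v : V)
    (hv : ∀ y, ¬ p y → Pc ρ {y} v = v) :
    Al ρ Finset.univ lab v =
      Al (ρ.comp (xt G p)) Finset.univ (fun y : {y // p y} => lab y) v := by
  classical
  -- elements which are trivial on `p` fix `v`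
  have hfix : ∀ g : Z → G, (∀ y, p y → g y = 1) → ρ g v = v := by
    intro g hg
    have key : ∀ U : Finset Z, ρ (fun y => if y ∈ U then g y else 1) v = v := by
      intro U
      induction U using Finset.induction_on with
      | empty =>
        have h1 : (fun y => if y ∈ (∅ : Finset Z) then g y else 1) = (1 : Z → G) := by
          funext y
          simp
        rw [h1, map_one]
        rfl
      | insert y U hy ih =>
        have h1 : (fun z => if z ∈ insert y U then g z else 1) =
            (fun z => if z ∈ U then g z else 1) * dl G {y} (g y) := by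
          funext z
          rw [Pi.mul_apply]
          by_cases hz : z = y
          · rw [hz, if_pos (Finset.mem_insert_self y U), if_neg hy,
              dl_apply _ (Finset.mem_singleton_self y), one_mul]
          · rw [dl_apply_out _ (fun h => hz (Finset.mem_singleton.1 h)), mul_one]
            by_cases hzU : z ∈ U
            · rw [if_pos (Finset.mem_insert_of_mem hzU), if_pos hzU]
            · rw [if_neg (fun h => (Finset.mem_insert.1 h).elim hz hzU), if_neg hzU]
        have h2 : ρ (dl G {y} (g y)) v = v := by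
          by_cases hp : p y
          · rw [hg y hp, map_one, map_one]
            rfl
          · exact (pc_fix ρ {y} v).1 (hv y hp) (g y)
        rw [h1, map_mul]
        show ρ (fun z => if z ∈ U then g z else 1) (ρ (dl G {y} (g y)) v) = v
        rw [h2, ih]
    have h3 := key Finset.univ
    simp only [Finset.mem_univ, if_true] at h3
    exact h3
  show ((Fintype.card (S → G) : ℂ))⁻¹ • ∑ f : S → G, ρ (clf G Finset.univ lab f) v =
    ((Fintype.card (S → G) : ℂ))⁻¹ • ∑ f : S → G,
      ρ (xt G p (clf G Finset.univ (fun y : {y // p y} => lab y) f)) v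
  congr 1
  refine Finset.sum_congr rfl fun f _ => ?_
  set a := clf G Finset.univ lab f with ha
  set b := xt G p (clf G Finset.univ (fun y : {y // p y} => lab y) f) with hb
  have h1 : a = b * (b⁻¹ * a) := (mul_inv_cancel_left b a).symm
  have h2 : ρ (b⁻¹ * a) v = v := by
    refine hfix _ fun y hy => ?_
    rw [Pi.mul_apply, Pi.inv_apply, inv_mul_eq_one]
    have h3 : b y = f (lab y) := by
      rw [hb]
      show (if h : p y then clf G Finset.univ (fun y : {y // p y} => lab y) f ⟨y, h⟩ else 1) =
        f (lab y)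
      rw [dif_pos hy, clf_apply _ (Finset.mem_univ _)]
    rw [h3, ha, clf_apply _ (Finset.mem_univ _)]
  rw [h1, map_mul]
  show ρ b (ρ (b⁻¹ * a) v) = ρ b v
  rw [h2]

/-- Theorem M for all vectors (`Al ρ univ id` is the average over all elements of `Z → G`).

Proof. `p0`, `κ0` of `thmM`. `supp_dec` with `Q v` the inequality. `hadd`: `Pc ρ {y}` commutes with
the averages (`pc_one_al`), so for `x = Pc ρ {y} v`, `x' = v - x` the vectors `x - Al x` and
`x' - Al x'` are orthogonal (fixed resp. killed by `Pc ρ {y}`), and the two sides of the inequality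
are additive. `h`: let `p y := Pc ρ {y} v = 0`. If no `y` satisfies `p` then `v` is fixed by
everything: `Al ρ univ id v = v` (`al_part`, the parts are points), the left side is zero. Otherwise
`{y // p y}` is nonempty, `‖v - Al ρ univ id v‖ ≤ ‖v‖`, and `thmM` for `ρ.comp (xt G p)`, the
labels `fun i y => lab i y.1` and `v`: `Pc (ρ.comp (xt G p)) {y} v = Pc ρ {y.1} v = 0`
(`xt G p (dl G {y} g) = dl G {y.1} g`); `supp_al`. -/
theorem thmM2 : ∃ p0 κ0 : ℝ, 0 < p0 ∧ 0 < κ0 ∧ κ0 ≤ 1 ∧
    ∀ (G : Type) [Group G] [Fintype G], commutator G = ⊤ →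
    ∀ (Z S Ω : Type) [Fintype Z] [Fintype S] [Fintype Ω] [Nonempty Ω]
      (lab : Ω → Z → S), (∀ y y', y ≠ y' → ag lab y y' ≤ p0) →
    ∀ (V : Type) [NormedAddCommGroup V] [InnerProductSpace ℂ V] [FiniteDimensional ℂ V]
      (ρ : (Z → G) →* (V ≃ₗᵢ[ℂ] V)) (v : V),
      κ0 * ‖v - Al ρ Finset.univ (fun y : Z => y) v‖ ^ 2 ≤
        mn (fun i => ‖v - Al ρ Finset.univ (lab i) v‖ ^ 2) := by
  obtain ⟨p0, κ0, hp0, hκ0, hκ1, hM⟩ := thmM
  refine ⟨p0, κ0, hp0, hκ0, hκ1, ?_⟩
  intro G _ _ hG Z S Ω _ _ _ _ lab hlab V _ _ _ ρ v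
  classical
  refine supp_dec ρ (fun v => κ0 * ‖v - Al ρ Finset.univ (fun y : Z => y) v‖ ^ 2 ≤
    mn (fun i => ‖v - Al ρ Finset.univ (lab i) v‖ ^ 2)) ?_ ?_ v
  · intro y v h1 h2
    have key : ∀ B : V →ₗ[ℂ] V, (∀ w, Pc ρ {y} (B w) = B (Pc ρ {y} w)) →
        ‖v - B v‖ ^ 2 = ‖Pc ρ {y} v - B (Pc ρ {y} v)‖ ^ 2 +
          ‖v - Pc ρ {y} v - B (v - Pc ρ {y} v)‖ ^ 2 := by
      intro B hB
      rw [isP_norm_sq (pc_isP ρ {y}) (v - B v), map_sub, hB]
      congr 3
      rw [map_sub]
      abel
    have h3 : (fun i => ‖v - Al ρ Finset.univ (lab i) v‖ ^ 2) = fun i =>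
        ‖Pc ρ {y} v - Al ρ Finset.univ (lab i) (Pc ρ {y} v)‖ ^ 2 +
          ‖v - Pc ρ {y} v - Al ρ Finset.univ (lab i) (v - Pc ρ {y} v)‖ ^ 2 := by
      funext i
      exact key _ fun w => pc_one_al ρ y _ _ w
    show κ0 * ‖v - Al ρ Finset.univ (fun y : Z => y) v‖ ^ 2 ≤
      mn (fun i => ‖v - Al ρ Finset.univ (lab i) v‖ ^ 2)
    rw [h3, mn_add, key _ fun w => pc_one_al ρ y _ _ w, mul_add]
    exact add_le_add h1 h2
  · intro v hv
    show κ0 * ‖v - Al ρ Finset.univ (fun y : Z => y) v‖ ^ 2 ≤
      mn (fun i => ‖v - Al ρ Finset.univ (lab i) v‖ ^ 2)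
    have hnn : 0 ≤ mn (fun i => ‖v - Al ρ Finset.univ (lab i) v‖ ^ 2) :=
      mn_nonneg fun i => sq_nonneg _
    by_cases hne : Nonempty {y // Pc ρ {y} v = 0}
    · have h1 : ∀ y, ¬ Pc ρ {y} v = 0 → Pc ρ {y} v = v := fun y hy => (hv y).resolve_left hy
      have h2 := hM G hG {y // Pc ρ {y} v = 0} S Ω (fun i y => lab i y.1)
        (fun y y' hyy => hlab y.1 y'.1 fun h => hyy (Subtype.ext h)) V
        (ρ.comp (xt G fun y => Pc ρ {y} v = 0)) v (by
          intro y
          have h3 : (ρ.comp (xt G fun y => Pc ρ {y} v = 0)).comp (dl G {y}) =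
              ρ.comp (dl G {y.1}) := by
            refine MonoidHom.ext fun g => ?_
            show ρ (xt G (fun y => Pc ρ {y} v = 0) (dl G {y} g)) = ρ (dl G {y.1} g)
            congr 1
            funext z
            show (if h : Pc ρ {z} v = 0 then dl G {y} g ⟨z, h⟩ else 1) = dl G {y.1} g z
            by_cases hz : z = y.1
            · have h4 : Pc ρ {z} v = 0 := by
                rw [hz]
                exact y.2
              rw [dif_pos h4, dl_apply _ (Finset.mem_singleton.2 (Subtype.ext hz)),
                dl_apply _ (Finset.mem_singleton.2 hz)]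
            · rw [dl_apply_out _ (fun h => hz (Finset.mem_singleton.1 h))]
              by_cases h4 : Pc ρ {z} v = 0
              · rw [dif_pos h4, dl_apply_out]
                intro h
                exact hz (congrArg Subtype.val (Finset.mem_singleton.1 h))
              · rw [dif_neg h4]
          show av ((ρ.comp (xt G fun y => Pc ρ {y} v = 0)).comp (dl G {y})) v = 0
          rw [h3]
          exact y.2)
      have h4 : (fun i => ‖v - Al ρ Finset.univ (lab i) v‖ ^ 2) = fun i =>
          ‖v - Al (ρ.comp (xt G fun y => Pc ρ {y} v = 0)) Finset.univ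
            (fun y : {y // Pc ρ {y} v = 0} => lab i y.1) v‖ ^ 2 := by
        funext i
        rw [supp_al ρ (fun y => Pc ρ {y} v = 0) (lab i) v h1]
      rw [h4]
      refine le_trans (mul_le_mul_of_nonneg_left ?_ hκ0.le) h2
      have h5 := isP_norm_sq (al_isP ρ Finset.univ (fun y : Z => y)) v
      have h6 := sq_nonneg ‖Al ρ Finset.univ (fun y : Z => y) v‖
      linarith
    · have h1 : Al ρ Finset.univ (fun y : Z => y) v = v := by
        rw [al_part]
        intro s
        have h3 : Pc ρ {s} v = v :=
          (hv s).resolve_left fun h => hne ⟨⟨s, h⟩⟩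
        have h2 : ∀ T : Finset Z, (∀ z, z ∈ T ↔ z = s) → Pc ρ T v = v := by
          intro T hT
          have h7 : T = {s} := by
            ext z
            rw [hT, Finset.mem_singleton]
          rw [h7]
          exact h3
        exact h2 _ fun z => by simp
      rw [h1, sub_self, norm_zero]
      simpa using hnn

end Pool.Agent.MPfe8e9bM
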