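import Mathlib
import Pool.Agent.Lib.MP_fe8e9b_al_M.Defs
import Pool.Agent.Lib.MP_fe8e9b_al_M.PrB
import Pool.Agent.Lib.MP_fe8e9b_al_M.AlB
import Pool.Agent.Lib.MP_fe8e9b_al_M.TwoP
import Pool.Agent.Lib.MP_fe8e9b_al_M.Supp

/-!
# MP_fe8e9b_al, groups of bounded height: Theorem M3
-/

set_option autoImplicit false

open scoped BigOperators

namespace Pool.Agent.MPfe8e9bM

open Pool.Agent.MPfe8e9b Pool.Agent.MPfe8e9bA Pool.Agent.MPfe8e9bW Pool.Agent.MPfe8e9bV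

/-- Doubling: the pairs of letters.

Proof. Letters `Ω × Ω`, labels `(lab i y, lab j y)`: `ag = (ag lab y y')² ≤ q²` (`mn_prod`,
`ind_and`). The hypothesis `h` for these labels and `join`:
`κ ‖v - P v‖² ≤ mn_{ij} ‖v - Al (pair) v‖² ≤ (1 - et)⁻¹ (mn_{ij} (‖v - Al (lab i) v‖² +
‖v - Al (lab j) v‖²)) = 2 (1 - et)⁻¹ mn_i ..`. -/
theorem m3_double {Z S Ω G : Type} [Fintype Z] [Fintype S] [Fintype Ω] [Nonempty Ω] [Group G]
    [Fintype G] (hG : commutator G = ⊤) {V : Type} [NormedAddCommGroup V]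
    [InnerProductSpace ℂ V] [FiniteDimensional ℂ V] (ρ : (Z → G) →* (V ≃ₗᵢ[ℂ] V))
    (lab : Ω → Z → S) {κ : ℝ} (v P : V)
    (h : κ * ‖v - P‖ ^ 2 ≤ mn (fun i : Ω × Ω =>
      ‖v - Al ρ Finset.univ (fun y => (lab i.1 y, lab i.2 y)) v‖ ^ 2)) :
    κ * ((1 - et) / 2) * ‖v - P‖ ^ 2 ≤
      mn (fun i => ‖v - Al ρ Finset.univ (lab i) v‖ ^ 2) := by
  have h0 : 0 ≤ (1 - et) / 2 := by
    have := et_lt
    linarith
  have h1 := mul_le_mul_of_nonneg_left h h0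
  rw [← mn_mul_left] at h1
  have h2 : κ * ((1 - et) / 2) * ‖v - P‖ ^ 2 = (1 - et) / 2 * (κ * ‖v - P‖ ^ 2) := by ring
  rw [h2]
  refine h1.trans ?_
  have h3 : ∀ i : Ω × Ω, (1 - et) / 2 *
      ‖v - Al ρ Finset.univ (fun y => (lab i.1 y, lab i.2 y)) v‖ ^ 2 ≤
      1 / 2 * ‖v - Al ρ Finset.univ (lab i.1) v‖ ^ 2 +
        1 / 2 * ‖v - Al ρ Finset.univ (lab i.2) v‖ ^ 2 := by
    intro i
    have h4 := join hG ρ Finset.univ (lab i.1) (lab i.2) v
    linarith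
  refine (mn_mono h3).trans (le_of_eq ?_)
  rw [mn_prod]
  simp only [mn_add, mn_const, mn_mul_left]
  ring

/-- Agreement of pairs of letters. -/
theorem m3_ag {Z S Ω : Type} [Fintype Ω] (lab : Ω → Z → S) (y y' : Z) :
    ag (fun (i : Ω × Ω) (z : Z) => (lab i.1 z, lab i.2 z)) y y' = ag lab y y' ^ 2 := by
  unfold ag
  rw [mn_prod]
  have h1 : ∀ i j : Ω, ind ((lab i y, lab j y) = (lab i y', lab j y')) =
      ind (lab i y = lab i y') * ind (lab j y = lab j y') := by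
    intro i j
    rw [← ind_and, Prod.mk.injEq]
  simp only [h1, mn_mul_left, mn_mul_right]
  ring

/-- Theorem M3: any separation.

Proof. Claim: for all `m : ℕ` the statement holds for every `q ≥ 0` with `q ^ (2 ^ m) ≤ p0`
(`thmM2`): induction on `m` (for all types `S`, `Ω`), `m3_double`, `m3_ag`,
`(q²) ^ (2 ^ m) = q ^ (2 ^ (m + 1))`. For `q < 1` there is such an `m`
(`exists_pow_lt_of_lt_one`, `m ≤ 2 ^ m`); replace `q` by `max q 0`. -/
theorem thmM3 (q : ℝ) (hq : q < 1) : ∃ κ : ℝ, 0 < κ ∧ κ ≤ 1 ∧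
    ∀ (G : Type) [Group G] [Fintype G], commutator G = ⊤ →
    ∀ (Z S Ω : Type) [Fintype Z] [Fintype S] [Fintype Ω] [Nonempty Ω]
      (lab : Ω → Z → S), (∀ y y', y ≠ y' → ag lab y y' ≤ q) →
    ∀ (V : Type) [NormedAddCommGroup V] [InnerProductSpace ℂ V] [FiniteDimensional ℂ V]
      (ρ : (Z → G) →* (V ≃ₗᵢ[ℂ] V)) (v : V),
      κ * ‖v - Al ρ Finset.univ (fun y : Z => y) v‖ ^ 2 ≤
        mn (fun i => ‖v - Al ρ Finset.univ (lab i) v‖ ^ 2) := by
  obtain ⟨p0, κ0, hp0, hκ0, hκ1, hM⟩ := thmM2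
  have h0 : 0 < (1 - et) / 2 := by
    have := et_lt
    linarith
  have h0' : (1 - et) / 2 ≤ 1 := by
    have := et_pos
    linarith
  have key : ∀ (m : ℕ) (q : ℝ), 0 ≤ q → q ^ (2 ^ m) ≤ p0 →
      ∀ (G : Type) [Group G] [Fintype G], commutator G = ⊤ →
      ∀ (Z S Ω : Type) [Fintype Z] [Fintype S] [Fintype Ω] [Nonempty Ω]
        (lab : Ω → Z → S), (∀ y y', y ≠ y' → ag lab y y' ≤ q) →
      ∀ (V : Type) [NormedAddCommGroup V] [InnerProductSpace ℂ V] [FiniteDimensional ℂ V]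
        (ρ : (Z → G) →* (V ≃ₗᵢ[ℂ] V)) (v : V),
        κ0 * ((1 - et) / 2) ^ m * ‖v - Al ρ Finset.univ (fun y : Z => y) v‖ ^ 2 ≤
          mn (fun i => ‖v - Al ρ Finset.univ (lab i) v‖ ^ 2) := by
    intro m
    induction m with
    | zero =>
      intro q hq0 hq G _ _ hG Z S Ω _ _ _ _ lab hlab V _ _ _ ρ v
      rw [pow_zero, pow_one] at hq
      rw [pow_zero, mul_one]
      exact hM G hG Z S Ω lab (fun y y' hy => (hlab y y' hy).trans hq) V ρ v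
    | succ m ih =>
      intro q hq0 hq G _ _ hG Z S Ω _ _ _ _ lab hlab V _ _ _ ρ v
      have h1 : (q ^ 2) ^ (2 ^ m) ≤ p0 := by
        rw [← pow_mul]
        rwa [pow_succ, mul_comm] at hq
      have h2 := ih (q ^ 2) (by positivity) h1 G hG Z (S × S) (Ω × Ω)
        (fun i y => (lab i.1 y, lab i.2 y)) (fun y y' hy => by
          rw [m3_ag]
          exact pow_le_pow_left₀ (mn_nonneg fun i => ind_nonneg _) (hlab y y' hy) 2) V ρ v
      have h3 := m3_double hG ρ lab v _ h2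
      rw [pow_succ, ← mul_assoc]
      exact h3
  obtain ⟨q', hq'⟩ : ∃ q' : ℝ, q' = max q 0 := ⟨_, rfl⟩
  have hq0 : 0 ≤ q' := by
    rw [hq']
    exact le_max_right _ _
  have hq1 : q' < 1 := by
    rw [hq']
    exact max_lt hq one_pos
  have hqq : q ≤ q' := by
    rw [hq']
    exact le_max_left _ _
  obtain ⟨n, hn⟩ := exists_pow_lt_of_lt_one hp0 hq1
  have hn2 : q' ^ (2 ^ n) ≤ p0 :=
    (pow_le_pow_of_le_one hq0 hq1.le n.lt_two_pow_self.le).trans hn.le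
  refine ⟨κ0 * ((1 - et) / 2) ^ n, by positivity, ?_, ?_⟩
  · exact mul_le_one₀ hκ1 (by positivity) (pow_le_one₀ h0.le h0')
  · intro G _ _ hG Z S Ω _ _ _ _ lab hlab V _ _ _ ρ v
    exact key n q' hq0 hn2 G hG Z S Ω lab (fun y y' hy => (hlab y y' hy).trans hqq) V ρ v

end Pool.Agent.MPfe8e9bM
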