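import Mathlib
import Pool.Agent.Lib.MP_fe8e9b_al_M.Defs
import Pool.Agent.Lib.MP_fe8e9b_al_M.PrB
import Pool.Agent.Lib.MP_fe8e9b_al_M.AlB
import Pool.Agent.Lib.MP_fe8e9b_al_M.ThmM3
import Pool.Agent.Lib.MP_fe8e9b_al_M.MnF

/-!
# MP_fe8e9b_al, groups of bounded height: one type, without twist
-/

set_option autoImplicit false

open scoped BigOperators

namespace Pool.Agent.MPfe8e9bM

open Pool.Agent.MPfe8e9b Pool.Agent.MPfe8e9bA Pool.Agent.MPfe8e9bW Pool.Agent.MPfe8e9bV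

/-- The averages over conjugate groups of functions, on an invariant vector.

Proof. `β h (Al ρ univ lab x) = mean of β h (ρ (clf T univ lab f) x) =
mean of ρ (clf T univ (lab ∘ (act h)⁻¹) f) (β h x)` and `β h x = x`. -/
theorem typa_conj {T Y S H : Type} [Group T] [Fintype T] [Fintype Y] [Fintype S] [Group H]
    (act : H →* Equiv.Perm Y) (lab : Y → S) {V : Type} [NormedAddCommGroup V]
    [InnerProductSpace ℂ V] (ρ : (Y → T) →* (V ≃ₗᵢ[ℂ] V)) (β : H →* (V ≃ₗᵢ[ℂ] V))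
    (hβ : ∀ h u v, β h (ρ u v) = ρ (fun y => u ((act h)⁻¹ y)) (β h v)) (x : V)
    (hx : ∀ h, β h x = x) (h : H) :
    Al ρ Finset.univ (fun y => lab ((act h)⁻¹ y)) x = β h (Al ρ Finset.univ lab x) := by
  classical
  rw [show Al ρ Finset.univ (fun y => lab ((act h)⁻¹ y)) x =
      ((Fintype.card (S → T) : ℂ))⁻¹ •
        ∑ f, (ρ.comp (clf T Finset.univ (fun y => lab ((act h)⁻¹ y)))) f x from rfl,
    show Al ρ Finset.univ lab x = ((Fintype.card (S → T) : ℂ))⁻¹ •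
      ∑ f, (ρ.comp (clf T Finset.univ lab)) f x from rfl, map_smul, map_sum]
  congr 1
  refine Finset.sum_congr rfl fun f _ => ?_
  change ρ (clf T Finset.univ (fun y => lab ((act h)⁻¹ y)) f) x =
    β h (ρ (clf T Finset.univ lab f) x)
  rw [hβ, hx]
  congr 2
  funext y
  rw [clf_apply _ (Finset.mem_univ y), clf_apply _ (Finset.mem_univ _)]

/-- One type, without twist.

Proof. `thmM3 (3 / 4)` for `Ω = H` and the labels `fun h y => lab ((act h)⁻¹ y)`: `ag` is the mean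
of `ind (lab ((act h)⁻¹ y) = lab ((act h)⁻¹ y'))`, which is at most `3 / 4` by `hlab` and `mn_inv`.
Every term on the right is `‖x - Al ρ univ lab x‖²` by `typa_conj`
(`‖x - β h w‖ = ‖β h x - β h w‖ = ‖x - w‖`). -/
theorem typ_a : ∃ κ : ℝ, 0 < κ ∧ κ ≤ 1 ∧
    ∀ (T : Type) [Group T] [Fintype T], commutator T = ⊤ →
    ∀ (Y S H : Type) [Fintype Y] [Fintype S] [Group H] [Fintype H] (act : H →* Equiv.Perm Y)
      (lab : Y → S), (∀ y y', y ≠ y' →
        mn (fun h => ind (lab (act h y) = lab (act h y'))) ≤ 3 / 4) →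
    ∀ (V : Type) [NormedAddCommGroup V] [InnerProductSpace ℂ V] [FiniteDimensional ℂ V]
      (ρ : (Y → T) →* (V ≃ₗᵢ[ℂ] V)) (β : H →* (V ≃ₗᵢ[ℂ] V)),
      (∀ h u v, β h (ρ u v) = ρ (fun y => u ((act h)⁻¹ y)) (β h v)) → ∀ x : V,
      (∀ h, β h x = x) →
      κ * ‖x - Al ρ Finset.univ (fun y : Y => y) x‖ ^ 2 ≤
        ‖x - Al ρ Finset.univ lab x‖ ^ 2 := by
  obtain ⟨κ, hκ0, hκ1, hκ⟩ := thmM3 (3 / 4) (by norm_num)
  refine ⟨κ, hκ0, hκ1, ?_⟩
  intro T _ _ hT Y S H _ _ _ _ act lab hlab V _ _ _ ρ β hβ x hx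
  have h1 := hκ T hT Y S H (fun h y => lab ((act h)⁻¹ y)) (fun y y' hy => ?_) V ρ x
  · refine h1.trans (le_of_eq ?_)
    have h2 : ∀ h : H, ‖x - Al ρ Finset.univ (fun y => lab ((act h)⁻¹ y)) x‖ ^ 2 =
        ‖x - Al ρ Finset.univ lab x‖ ^ 2 := by
      intro h
      rw [typa_conj act lab ρ β hβ x hx h]
      have h3 : x - β h (Al ρ Finset.univ lab x) = β h (x - Al ρ Finset.univ lab x) := by
        rw [map_sub, hx]
      rw [h3, LinearIsometryEquiv.norm_map]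
    simp only [h2]
    exact mn_const _
  · have h2 := mn_inv (fun h : H => ind (lab (act h y) = lab (act h y')))
    have h3 : ag (fun (h : H) y => lab ((act h)⁻¹ y)) y y' =
        mn (fun h : H => ind (lab (act h⁻¹ y) = lab (act h⁻¹ y'))) := by
      simp only [ag, map_inv]
    rw [h3, h2]
    exact hlab y y' hy

end Pool.Agent.MPfe8e9bM
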