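import Mathlib
import Pool.Agent.Lib.MP_fe8e9b_al_M.Defs
import Pool.Agent.Lib.MP_fe8e9b_al_M.PrB
import Pool.Agent.Lib.MP_fe8e9b_al_M.AlB
import Pool.Agent.Lib.MP_fe8e9b_al_M.Ang1
import Pool.Agent.Lib.MP_fe8e9b_al_M.Gou

/-!
# MP_fe8e9b_al, groups of bounded height: twisted labels: one site
-/

set_option autoImplicit false

open scoped BigOperators

namespace Pool.Agent.MPfe8e9bM

open Pool.Agent.MPfe8e9b Pool.Agent.MPfe8e9bA Pool.Agent.MPfe8e9bW Pool.Agent.MPfe8e9bV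

/-- Words of bounded length: if `X` generates the finite group `H` there is `W` such that in every
unitary representation of `H`: if all elements of `X` move `v` by at most `D` then all elements of
`H` move `v` by at most `W * D`.

Proof. For every `h` there is a number `n h` with: all representations, displacement at most
`n h * D` (`Subgroup.closure_induction` on `h ∈ closure X`: one `0`, elements of `X` `1`, products
`n h + n h'`, inverses the same number). Take the sum of the `n h` over `H` (choice), or the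
maximum. -/
theorem word_bound {H : Type} [Group H] [Fintype H] (X : Set H)
    (hX : Subgroup.closure X = ⊤) :
    ∃ W : ℕ, 0 < W ∧ ∀ (V : Type) [NormedAddCommGroup V] [InnerProductSpace ℂ V]
      (ρ : H →* (V ≃ₗᵢ[ℂ] V)) (v : V) (D : ℝ), 0 ≤ D → (∀ x ∈ X, ‖ρ x v - v‖ ≤ D) →
      ∀ h : H, ‖ρ h v - v‖ ≤ W * D := by
  have key : ∀ h : H, ∃ n : ℕ, ∀ (V : Type) [NormedAddCommGroup V] [InnerProductSpace ℂ V]
      (ρ : H →* (V ≃ₗᵢ[ℂ] V)) (v : V) (D : ℝ), 0 ≤ D → (∀ x ∈ X, ‖ρ x v - v‖ ≤ D) →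
      ‖ρ h v - v‖ ≤ n * D := by
    intro h
    have hh : h ∈ Subgroup.closure X := by
      rw [hX]
      exact Subgroup.mem_top h
    refine Subgroup.closure_induction (p := fun h _ => ∃ n : ℕ, ∀ (V : Type)
      [NormedAddCommGroup V] [InnerProductSpace ℂ V]
      (ρ : H →* (V ≃ₗᵢ[ℂ] V)) (v : V) (D : ℝ), 0 ≤ D → (∀ x ∈ X, ‖ρ x v - v‖ ≤ D) →
      ‖ρ h v - v‖ ≤ n * D) ?_ ?_ ?_ ?_ hh
    · intro x hx
      refine ⟨1, fun V _ _ ρ v D _ hD => ?_⟩
      rw [Nat.cast_one, one_mul]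
      exact hD x hx
    · refine ⟨0, fun V _ _ ρ v D _ _ => ?_⟩
      have h1 : ρ 1 v = v := by
        rw [map_one]
        rfl
      rw [h1, sub_self, norm_zero, Nat.cast_zero, zero_mul]
    · rintro x y _ _ ⟨n, hn⟩ ⟨m, hm⟩
      refine ⟨n + m, fun V _ _ ρ v D h0 hD => ?_⟩
      have h1 : ρ (x * y) v - v = ρ x (ρ y v - v) + (ρ x v - v) := by
        have h2 : ρ (x * y) v = ρ x (ρ y v) := by
          rw [map_mul]
          rfl
        rw [h2, map_sub]
        abel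
      rw [h1, Nat.cast_add, add_mul]
      refine (norm_add_le _ _).trans ?_
      rw [LinearIsometryEquiv.norm_map]
      have h3 := hn V ρ v D h0 hD
      have h4 := hm V ρ v D h0 hD
      linarith
    · rintro x _ ⟨n, hn⟩
      refine ⟨n, fun V _ _ ρ v D h0 hD => ?_⟩
      have h1 : ρ x (ρ x⁻¹ v - v) = v - ρ x v := by
        have h2 : ρ x (ρ x⁻¹ v) = v := by
          have h3 : ρ x (ρ x⁻¹ v) = ρ (x * x⁻¹) v := by
            rw [map_mul]
            rfl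
          rw [h3, mul_inv_cancel, map_one]
          rfl
        rw [map_sub, h2]
      rw [← LinearIsometryEquiv.norm_map (ρ x) (ρ x⁻¹ v - v), h1, norm_sub_rev]
      exact hn V ρ v D h0 hD
  choose n hn using key
  refine ⟨1 + ∑ h, n h, by omega, fun V _ _ ρ v D h0 hD h => ?_⟩
  refine (hn h V ρ v D h0 hD).trans (mul_le_mul_of_nonneg_right ?_ h0)
  have h1 : n h ≤ ∑ h, n h :=
    Finset.single_le_sum (f := n) (fun i _ => Nat.zero_le _) (Finset.mem_univ h)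
  exact_mod_cast h1.trans (Nat.le_add_left _ _)

open Classical in
/-- Twisted functions of a label: `f (lab y)` where `c y = false`, `α (f (lab y))` where
`c y = true`. -/
noncomputable def tlf {Z S T : Type} [Group T] (α : MulAut T) (c : Z → Bool) (τ : Finset Z)
    (lab : Z → S) : (S → T) →* (Z → T) where
  toFun f := fun y => if y ∈ τ then (if c y = true then α (f (lab y)) else f (lab y)) else 1
  map_one' := by
    funext y
    by_cases h : y ∈ τ <;> by_cases h' : c y = true <;> simp [h, h']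
  map_mul' f f' := by
    funext y
    by_cases h : y ∈ τ <;> by_cases h' : c y = true <;> simp [h, h']

open Classical in
/-- The average over the twisted functions of a label. -/
noncomputable def Tw {Z S T : Type} [Fintype S] [Group T] [Fintype T] {V : Type}
    [NormedAddCommGroup V] [InnerProductSpace ℂ V] (ρ : (Z → T) →* (V ≃ₗᵢ[ℂ] V))
    (α : MulAut T) (c : Z → Bool) (τ : Finset Z) (lab : Z → S) : V →ₗ[ℂ] V :=
  av (ρ.comp (tlf α c τ lab))

/-- The displacement by a commutator with an element which fixes the vector. -/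
private theorem pairs_cm {H V : Type} [Group H] [NormedAddCommGroup V] [InnerProductSpace ℂ V]
    (ρ : H →* (V ≃ₗᵢ[ℂ] V)) (a k : H) (v : V) (ha : ρ a v = v) :
    ‖ρ (cm a k) v - v‖ ≤ 2 * ‖ρ k v - v‖ := by
  have hm : ∀ x y : H, ∀ w : V, ρ (x * y) w = ρ x (ρ y w) := by
    intro x y w
    rw [map_mul]
    rfl
  have hinv : ∀ x : H, ∀ w : V, ρ x (ρ x⁻¹ w) = w := by
    intro x w
    rw [← hm, mul_inv_cancel, map_one]
    rfl
  have ha' : ρ a⁻¹ v = v := by
    have h := hinv a⁻¹ v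
    rw [inv_inv, ha] at h
    exact h
  have h1 : ‖ρ (cm a k) v - v‖ = ‖ρ k (ρ a⁻¹ (ρ k⁻¹ v)) - v‖ := by
    have h2 : ρ (cm a k) v - v = ρ a (ρ k (ρ a⁻¹ (ρ k⁻¹ v)) - v) := by
      rw [map_sub, ha, cm, hm, hm, hm]
    rw [h2, LinearIsometryEquiv.norm_map]
  have h3 : ‖ρ k (ρ a⁻¹ (ρ k⁻¹ v)) - v‖ ≤ ‖ρ a⁻¹ (ρ k⁻¹ v) - v‖ + ‖ρ k v - v‖ := by
    have h4 : ρ k (ρ a⁻¹ (ρ k⁻¹ v)) - v = ρ k (ρ a⁻¹ (ρ k⁻¹ v) - v) + (ρ k v - v) := by
      rw [map_sub]
      abel
    rw [h4]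
    refine (norm_add_le _ _).trans ?_
    rw [LinearIsometryEquiv.norm_map]
  have h5 : ‖ρ a⁻¹ (ρ k⁻¹ v) - v‖ = ‖ρ k⁻¹ v - v‖ := by
    have h6 : ρ a⁻¹ (ρ k⁻¹ v) - v = ρ a⁻¹ (ρ k⁻¹ v - v) := by
      rw [map_sub, ha']
    rw [h6, LinearIsometryEquiv.norm_map]
  have h7 : ‖ρ k⁻¹ v - v‖ = ‖ρ k v - v‖ := by
    have h8 : ρ k (ρ k⁻¹ v - v) = v - ρ k v := by
      rw [map_sub, hinv]
    rw [← LinearIsometryEquiv.norm_map (ρ k) (ρ k⁻¹ v - v), h8, norm_sub_rev]
  rw [h1]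
  linarith

private theorem pairs_av {H V : Type} [Group H] [NormedAddCommGroup V] [InnerProductSpace ℂ V]
    (i1 i2 : Fintype H) (ρ : H →* (V ≃ₗᵢ[ℂ] V)) (v : V) :
    @av H _ i1 V _ _ ρ v = @av H _ i2 V _ _ ρ v := by
  rw [Subsingleton.elim i1 i2]

open Classical in
private theorem pairs_tlf {Z T : Type} [Group T] (α : MulAut T) (c : Z → Bool) (R C : Finset Z)
    (h t : T) :
    cm (dl T R h) (tlf α c C (fun _ => ()) (fun _ => t)) =
      clf T (R ∩ C) c (fun s => cm h (if s = true then α t else t)) := by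
  funext y
  have hcm : ∀ a b : Z → T, cm a b y = cm (a y) (b y) := fun a b => rfl
  rw [hcm]
  have htl : tlf α c C (fun _ => ()) (fun _ => t) y =
      if y ∈ C then (if c y = true then α t else t) else 1 := rfl
  rw [htl]
  by_cases hR : y ∈ R
  · by_cases hC : y ∈ C
    · rw [dl_apply h hR, if_pos hC, clf_apply _ (Finset.mem_inter.2 ⟨hR, hC⟩)]
    · rw [if_neg hC, cm_one_right, clf_apply_out _ fun hh => hC (Finset.mem_inter.1 hh).2]
  · rw [dl_apply_out h hR, cm_one_left, clf_apply_out _ fun hh => hR (Finset.mem_inter.1 hh).1]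

open Classical in
/-- One site, twisted.

Proof. `H = Bool → T`, `X` the generating set of `gou`, `W` from `word_bound`,
`κ = 1 / (4 * W ^ 2 * card T)`. For `h`, `t` in `T` the element `cm (dl T R h) k`, `k` the twisted
constant `tlf α c C (fun _ => ()) (fun _ => t)`, is
`clf T (R ∩ C) c (fun s => cm h (if s then α t else t))` (check at every point), and it moves `v`
by at most `2 D t`, `D t = ‖ρ k v - v‖` (as in `ang_site`: `ρ (dl T R h) v = v`). With
`D` the maximum of the `D t`, attained at `t0`: by `word_bound` for the representation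
`ρ.comp (clf T (R ∩ C) c)` all elements move `v` by at most `2 W D`. As
`Al ρ (R ∩ C) c v = 0`, `mn_disp` gives `2 ‖v‖² = mn ≤ (2 W D)²`. So `D² ≥ ‖v‖² / (2 W²)`, and
`mn_t D t² ≥ D² / card T`; `mn_disp` for the twisted constants (`Unit → T`; reindex by
`t ↦ (fun _ => t)`, `mn_equiv`): `2 (‖v‖² - ‖Tw v‖²) = mn_t D t² ≥ ‖v‖² / (2 W² card T)`. -/
theorem tw_site (T : Type) [Group T] [Fintype T] [IsSimpleGroup T] (hT : commutator T = ⊤)
    (α : MulAut T) (hα : α ≠ 1) : ∃ κ : ℝ, 0 < κ ∧ κ ≤ 1 ∧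
    ∀ (Z : Type) (V : Type) [NormedAddCommGroup V] [InnerProductSpace ℂ V]
      [FiniteDimensional ℂ V] (ρ : (Z → T) →* (V ≃ₗᵢ[ℂ] V)) (c : Z → Bool) (R C : Finset Z)
      (v : V), Pc ρ R v = v → Al ρ (R ∩ C) c v = 0 →
      ‖Tw ρ α c C (fun _ => ()) v‖ ^ 2 ≤ (1 - κ) * ‖v‖ ^ 2 := by
  obtain ⟨W, hW, hWb⟩ := word_bound (H := Bool → T) _ (gou hT α hα)
  have hW1 : (1 : ℝ) ≤ W := by exact_mod_cast hW
  have hc1 : (1 : ℝ) ≤ Fintype.card T := by
    exact_mod_cast (Fintype.card_pos (α := T))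
  have hpos : (0 : ℝ) < 4 * W ^ 2 * Fintype.card T := by positivity
  refine ⟨1 / (4 * W ^ 2 * Fintype.card T), by positivity, ?_, ?_⟩
  · rw [div_le_one hpos]
    nlinarith [mul_le_mul hW1 hW1 zero_le_one (by linarith), sq_nonneg ((W : ℝ) - 1)]
  intro Z V _ _ _ ρ c R C v hR h0
  obtain ⟨D, hD⟩ : ∃ D : T → ℝ, D = fun t =>
    ‖ρ (tlf α c C (fun _ => ()) (fun _ => t)) v - v‖ := ⟨_, rfl⟩
  have hD0 : ∀ t, 0 ≤ D t := fun t => by
    rw [hD]
    exact norm_nonneg _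
  obtain ⟨t0, ht0⟩ : ∃ t0 : T, ∀ t, D t ≤ D t0 := Finite.exists_max D
  -- all elements of the label group
  have h1 : ∀ f : Bool → T, ‖(ρ.comp (clf T (R ∩ C) c)) f v - v‖ ≤ W * (2 * D t0) := by
    refine hWb V (ρ.comp (clf T (R ∩ C) c)) v (2 * D t0) (by linarith [hD0 t0]) ?_
    rintro x ⟨h, t, rfl⟩
    change ‖ρ (clf T (R ∩ C) c (fun s => cm h (if s = true then α t else t))) v - v‖ ≤ _
    rw [← pairs_tlf]
    have h2 := pairs_cm ρ (dl T R h) (tlf α c C (fun _ => ()) (fun _ => t)) v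
      ((pc_fix ρ R v).1 hR h)
    have h3 : ‖ρ (tlf α c C (fun _ => ()) (fun _ => t)) v - v‖ = D t := by rw [hD]
    rw [h3] at h2
    linarith [ht0 t]
  have h2 : 2 * ‖v‖ ^ 2 ≤ (W * (2 * D t0)) ^ 2 := by
    have h3 := mn_disp (ρ.comp (clf T (R ∩ C) c)) v
    have h4 : av (ρ.comp (clf T (R ∩ C) c)) v = 0 := (pairs_av _ _ _ _).trans h0
    rw [h4, norm_zero] at h3
    have h5 : mn (fun f : Bool → T => ‖(ρ.comp (clf T (R ∩ C) c)) f v - v‖ ^ 2) ≤
        (W * (2 * D t0)) ^ 2 :=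
      mn_le fun f => pow_le_pow_left₀ (norm_nonneg _) (h1 f) 2
    linarith
  have h6 : D t0 ^ 2 / Fintype.card T ≤ mn (fun t => D t ^ 2) := by
    unfold mn
    rw [div_eq_inv_mul]
    exact mul_le_mul_of_nonneg_left
      (Finset.single_le_sum (f := fun t => D t ^ 2) (fun i _ => sq_nonneg _)
        (Finset.mem_univ t0)) (inv_nonneg.2 (Nat.cast_nonneg _))
  have h7 : mn (fun t => D t ^ 2) = 2 * (‖v‖ ^ 2 - ‖Tw ρ α c C (fun _ => ()) v‖ ^ 2) := by
    have h8 := mn_disp (ρ.comp (tlf α c C (fun _ : Z => ()))) v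
    have h9 := mn_equiv (Equiv.funUnique Unit T).symm
      (fun f : Unit → T => ‖(ρ.comp (tlf α c C (fun _ : Z => ()))) f v - v‖ ^ 2)
    have h10 : av (ρ.comp (tlf α c C (fun _ : Z => ()))) v = Tw ρ α c C (fun _ => ()) v :=
      pairs_av _ _ _ _
    rw [h8, h10] at h9
    rw [hD, ← h9]
    rfl
  rw [h7] at h6
  have hcp : (0 : ℝ) < Fintype.card T := by linarith
  have h10 : ‖v‖ ^ 2 ≤ 2 * W ^ 2 * D t0 ^ 2 := by nlinarith
  have h11 : D t0 ^ 2 ≤ 2 * (‖v‖ ^ 2 - ‖Tw ρ α c C (fun _ => ()) v‖ ^ 2) * Fintype.card T :=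
    (div_le_iff₀ hcp).1 h6
  have h12 : ‖v‖ ^ 2 ≤ 4 * W ^ 2 * Fintype.card T *
      (‖v‖ ^ 2 - ‖Tw ρ α c C (fun _ => ()) v‖ ^ 2) := by
    have h13 := mul_le_mul_of_nonneg_left h11 (by positivity : (0 : ℝ) ≤ 2 * W ^ 2)
    nlinarith
  have h14 : 1 / (4 * (W : ℝ) ^ 2 * Fintype.card T) * ‖v‖ ^ 2 ≤
      ‖v‖ ^ 2 - ‖Tw ρ α c C (fun _ => ()) v‖ ^ 2 := by
    rw [one_div, inv_mul_le_iff₀ hpos]
    exact h12
  linarith

end Pool.Agent.MPfe8e9bM
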