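import Mathlib
import Pool.Agent.Lib.MP_fe8e9b_al_M.Defs
import Pool.Agent.Lib.MP_fe8e9b_al_M.PrB
import Pool.Agent.Lib.MP_fe8e9b_al_M.AlB
import Pool.Agent.Lib.MP_fe8e9b_al_M.Ang
import Pool.Agent.Lib.MP_fe8e9b_al_M.TwoP
import Pool.Agent.Lib.MP_fe8e9b_al_M.PairS

/-!
# MP_fe8e9b_al, groups of bounded height: twisted labels: joins
-/

set_option autoImplicit false

open scoped BigOperators

namespace Pool.Agent.MPfe8e9bM

open Pool.Agent.MPfe8e9b Pool.Agent.MPfe8e9bA Pool.Agent.MPfe8e9bW Pool.Agent.MPfe8e9bV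

theorem pairt_tlf_apply {Z S T : Type} [Group T] (α : MulAut T) {c : Z → Bool} {τ : Finset Z}
    {lab : Z → S} (f : S → T) {y : Z} (h : y ∈ τ) :
    tlf α c τ lab f y = if c y = true then α (f (lab y)) else f (lab y) := by
  simp [tlf, h]

theorem pairt_tlf_out {Z S T : Type} [Group T] (α : MulAut T) {c : Z → Bool} {τ : Finset Z}
    {lab : Z → S} (f : S → T) {y : Z} (h : y ∉ τ) : tlf α c τ lab f y = 1 := by
  simp [tlf, h]

/-- Basic facts on the twisted averages. -/
theorem tw_isP {Z S T : Type} [Fintype S] [Group T] [Fintype T] {V : Type}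
    [NormedAddCommGroup V] [InnerProductSpace ℂ V] (ρ : (Z → T) →* (V ≃ₗᵢ[ℂ] V))
    (α : MulAut T) (c : Z → Bool) (τ : Finset Z) (lab : Z → S) :
    IsP (Tw ρ α c τ lab) := by
  classical
  exact ⟨av_symm _, av_idem _⟩

/-- Fixed vectors. Proof. `av_eq_iff`. -/
theorem tw_fix {Z S T : Type} [Fintype S] [Group T] [Fintype T] {V : Type}
    [NormedAddCommGroup V] [InnerProductSpace ℂ V] (ρ : (Z → T) →* (V ≃ₗᵢ[ℂ] V))
    (α : MulAut T) (c : Z → Bool) (τ : Finset Z) (lab : Z → S) (v : V) :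
    Tw ρ α c τ lab v = v ↔ ∀ f : S → T, ρ (tlf α c τ lab f) v = v := by
  classical
  exact av_eq_iff (ρ.comp (tlf α c τ lab))

/-- A function of the pair `(lab', c)` on `τ'` which refines the label: commutation of the average
over the functions of `(c, ...)`. Precisely: if the values of `c` and of `lab` are constant on the
parts of `τ'` for the label `lab'`, and `τ'` is contained in `τ`, the averages commute.

Proof. `rho_al_comm`: `tlf α c τ lab f` is a function of `lab'` on `τ'`. -/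
theorem tw_al_comm {Z S S' T : Type} [Fintype S] [Fintype S'] [Group T] [Fintype T] {V : Type}
    [NormedAddCommGroup V] [InnerProductSpace ℂ V] (ρ : (Z → T) →* (V ≃ₗᵢ[ℂ] V))
    (α : MulAut T) (c : Z → Bool) (τ : Finset Z) (lab : Z → S) (τ' : Finset Z) (lab' : Z → S')
    (hτ : τ' ⊆ τ) (h : ∀ y ∈ τ', ∀ y' ∈ τ', lab' y = lab' y' → c y = c y' ∧ lab y = lab y')
    (v : V) : Al ρ τ' lab' (Tw ρ α c τ lab v) = Tw ρ α c τ lab (Al ρ τ' lab' v) := by
  classical
  have h1 : ∀ f : S → T, Al ρ τ' lab' (ρ (tlf α c τ lab f) v) =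
      ρ (tlf α c τ lab f) (Al ρ τ' lab' v) := by
    intro f
    refine (rho_al_comm ρ τ' lab' _ (fun y hy y' hy' hl => ?_) v).symm
    obtain ⟨h2, h3⟩ := h y hy y' hy' hl
    rw [pairt_tlf_apply α f (hτ hy), pairt_tlf_apply α f (hτ hy'), h2, h3]
  rw [show Tw ρ α c τ lab v = ((Fintype.card (S → T) : ℂ))⁻¹ •
      ∑ f, (ρ.comp (tlf α c τ lab)) f v from rfl,
    show Tw ρ α c τ lab (Al ρ τ' lab' v) = ((Fintype.card (S → T) : ℂ))⁻¹ •
      ∑ f, (ρ.comp (tlf α c τ lab)) f (Al ρ τ' lab' v) from rfl, map_smul, map_sum]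
  congr 1
  exact Finset.sum_congr rfl fun f _ => h1 f

/-- The product of commuting projections is fixed by each of them. -/
theorem pairt_foldr_fix {V : Type} [NormedAddCommGroup V] [InnerProductSpace ℂ V]
    (v : V) : ∀ Ps : List (V →ₗ[ℂ] V), (∀ P ∈ Ps, IsP P) →
      (∀ P ∈ Ps, ∀ P' ∈ Ps, ∀ v, P (P' v) = P' (P v)) →
      ∀ P ∈ Ps, P (Ps.foldr (fun P x => P x) v) = Ps.foldr (fun P x => P x) v := by
  intro Ps
  induction Ps with
  | nil =>
    intro _ _ P hP
    exact absurd hP List.not_mem_nil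
  | cons P0 L ih =>
    intro hP hPP P' hP'
    rw [List.foldr_cons]
    rcases List.mem_cons.1 hP' with h1 | h1
    · rw [h1]
      exact (hP P0 List.mem_cons_self).2 _
    · rw [hPP P' hP' P0 List.mem_cons_self,
        ih (fun P h => hP P (List.mem_cons_of_mem _ h))
          (fun P h P' h' => hPP P (List.mem_cons_of_mem _ h) P' (List.mem_cons_of_mem _ h')) P' h1]

/-- Maps which commute with all factors commute with the product. -/
theorem pairt_foldr_comm {V : Type} [NormedAddCommGroup V] [InnerProductSpace ℂ V]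
    (A : V →ₗ[ℂ] V) (v : V) : ∀ Ps : List (V →ₗ[ℂ] V), (∀ P ∈ Ps, ∀ v, A (P v) = P (A v)) →
      A (Ps.foldr (fun P x => P x) v) = Ps.foldr (fun P x => P x) (A v) := by
  intro Ps
  induction Ps with
  | nil =>
    intro _
    rfl
  | cons P0 L ih =>
    intro hP
    rw [List.foldr_cons, List.foldr_cons, hP P0 List.mem_cons_self,
      ih (fun P h => hP P (List.mem_cons_of_mem _ h))]

/-- The product of the vector zero. -/
theorem pairt_foldr_zero {V : Type} [NormedAddCommGroup V] [InnerProductSpace ℂ V] :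
    ∀ Ps : List (V →ₗ[ℂ] V), Ps.foldr (fun P x => P x) (0 : V) = 0 := by
  intro Ps
  induction Ps with
  | nil => rfl
  | cons P0 L ih => rw [List.foldr_cons, ih, map_zero]

/-- The angle between the functions of the rows and the twisted functions of the columns.

Proof. As `ang`, with `Q = Tw ρ α c univ b`, `U` the space of the vectors fixed by
`Al ρ univ a`, and the list of the averages `Al ρ (site s) c`, `s` in `S1 × S2`,
`site s = univ.filter (fun y => (a y, b y) = s)`. They commute with each other, with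
`Al ρ univ a` (`al_comm_al`) and with `Tw` (`tw_al_comm`). A vector is fixed by
`Al ρ univ (a, b, c)` if and only if it is fixed by all `Al ρ (site s) c` (`al_part` for both: the
parts are the same sets). For a site `s = (r, c')`, `u ∈ U` with `Al ρ (site s) c u = 0`: the row
`R`, the column `C`, `R ∩ C = site s`, `Pc ρ R u = u`, `tw_site`, and
`‖Tw ρ α c univ b u‖ ≤ ‖Tw ρ α c C (fun _ => ()) u‖` (`isP_le_norm`: the twisted constants on the
column are twisted functions of `b`). -/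
theorem tw_ang (T : Type) [Group T] [Fintype T] [IsSimpleGroup T] (hT : commutator T = ⊤)
    (α : MulAut T) (hα : α ≠ 1) : ∃ κ : ℝ, 0 < κ ∧ κ ≤ 1 ∧
    ∀ (Z S1 S2 : Type) [Fintype Z] [Fintype S1] [Fintype S2] (V : Type) [NormedAddCommGroup V]
      [InnerProductSpace ℂ V] [FiniteDimensional ℂ V] (ρ : (Z → T) →* (V ≃ₗᵢ[ℂ] V))
      (a : Z → S1) (b : Z → S2) (c : Z → Bool) (v : V), Al ρ Finset.univ a v = v →
      Al ρ Finset.univ (fun y => (a y, b y, c y)) v = 0 →
      ‖Tw ρ α c Finset.univ b v‖ ^ 2 ≤ (1 - κ) * ‖v‖ ^ 2 := by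
  classical
  obtain ⟨κ, hκ0, hκ1, hκ⟩ := tw_site T hT α hα
  refine ⟨κ, hκ0, hκ1, ?_⟩
  intro Z S1 S2 _ _ _ V _ _ _ ρ a b c v hv h0
  obtain ⟨site, hsite⟩ : ∃ site : S1 × S2 → Finset Z, ∀ s y, y ∈ site s ↔ (a y, b y) = s :=
    ⟨fun s => Finset.univ.filter (fun y => (a y, b y) = s), fun s y => by simp⟩
  obtain ⟨Ps, hPs⟩ : ∃ Ps : List (V →ₗ[ℂ] V), ∀ P, P ∈ Ps ↔ ∃ s, Al ρ (site s) c = P := by
    refine ⟨(Finset.univ : Finset (S1 × S2)).toList.map (fun s => Al ρ (site s) c), fun P => ?_⟩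
    simp
  have hIs : ∀ P ∈ Ps, IsP P := by
    intro P hP
    obtain ⟨s, rfl⟩ := (hPs P).1 hP
    exact al_isP ρ _ _
  have hPP : ∀ P ∈ Ps, ∀ P' ∈ Ps, ∀ v, P (P' v) = P' (P v) := by
    intro P hP P' hP' v
    obtain ⟨s, rfl⟩ := (hPs P).1 hP
    obtain ⟨s', rfl⟩ := (hPs P').1 hP'
    refine al_comm_al ρ _ _ c c (fun y hy y' hy' hl => ⟨?_, fun _ => hl⟩) v
    rw [hsite, hsite, (hsite s y).1 hy, (hsite s y').1 hy']
  refine tel (Tw ρ α c Finset.univ b) (LinearMap.eqLocus (Al ρ Finset.univ a) LinearMap.id) Ps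
    (fun P hP => ⟨hIs P hP, ?_, ?_⟩) hPP (1 - κ) ?_ v ?_ ?_
  · intro u
    obtain ⟨s, rfl⟩ := (hPs P).1 hP
    refine tw_al_comm ρ α c Finset.univ b (site s) c (Finset.subset_univ _)
      (fun y hy y' hy' hl => ⟨hl, ?_⟩) u
    have h1 := (hsite s y).1 hy
    have h2 := (hsite s y').1 hy'
    exact congrArg Prod.snd (h1.trans h2.symm)
  · intro u hu
    obtain ⟨s, rfl⟩ := (hPs P).1 hP
    rw [LinearMap.mem_eqLocus, LinearMap.id_apply] at hu ⊢
    rw [← al_comm_al ρ (site s) Finset.univ c a (fun y hy y' hy' _ => ⟨by simp, fun _ => ?_⟩) u,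
      hu]
    have h1 := (hsite s y).1 hy
    have h2 := (hsite s y').1 hy'
    exact congrArg Prod.fst (h1.trans h2.symm)
  · intro P hP u hu h1
    obtain ⟨s, rfl⟩ := (hPs P).1 hP
    rw [LinearMap.mem_eqLocus, LinearMap.id_apply] at hu
    have hR := (al_part ρ Finset.univ a u).1 hu s.1
    have hRC : (Finset.univ.filter fun y => a y = s.1) ∩ (Finset.univ.filter fun y => b y = s.2) =
        site s := by
      ext y
      rw [hsite, Finset.mem_inter, Finset.mem_filter, Finset.mem_filter, Prod.ext_iff]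
      simp
    have h2 := hκ Z V ρ c (Finset.univ.filter fun y => a y = s.1)
      (Finset.univ.filter fun y => b y = s.2) u hR (by rw [hRC]; exact h1)
    refine le_trans ?_ h2
    refine pow_le_pow_left₀ (norm_nonneg _) ?_ 2
    refine isP_le_norm (tw_isP ρ α c _ _) (tw_isP ρ α c _ _) (fun w hw => ?_) u
    rw [tw_fix] at hw ⊢
    intro f
    have h3 : tlf α c (Finset.univ.filter fun y => b y = s.2) (fun _ => ()) f =
        tlf α c Finset.univ b (fun t => if t = s.2 then f () else 1) := by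
      funext y
      rw [pairt_tlf_apply α _ (Finset.mem_univ y)]
      by_cases hy : b y = s.2
      · rw [pairt_tlf_apply α (y := y) f (Finset.mem_filter.2 ⟨Finset.mem_univ _, hy⟩), if_pos hy]
      · rw [pairt_tlf_out α (y := y) f (fun h4 => hy (Finset.mem_filter.1 h4).2), if_neg hy,
          map_one, ite_self]
    rw [h3]
    exact hw _
  · rw [LinearMap.mem_eqLocus, LinearMap.id_apply]
    exact hv
  · have h1 := pairt_foldr_fix v Ps hIs hPP
    have h2 := pairt_foldr_comm (Al ρ Finset.univ (fun y => (a y, b y, c y))) v Ps (by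
      intro P hP u
      obtain ⟨s, rfl⟩ := (hPs P).1 hP
      refine al_comm_al ρ Finset.univ (site s) _ c (fun y _ y' _ hl => ⟨?_, fun _ => ?_⟩) u
      · have h3 : a y = a y' := congrArg Prod.fst hl
        have h4 : b y = b y' := congrArg (fun p : S1 × S2 × Bool => p.2.1) hl
        rw [hsite, hsite, h3, h4]
      · exact congrArg (fun p : S1 × S2 × Bool => p.2.2) hl)
    rw [h0, pairt_foldr_zero] at h2
    rw [← h2]
    refine ((al_part ρ Finset.univ (fun y => (a y, b y, c y)) _).2 fun s => ?_).symm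
    have h3 := h1 (Al ρ (site (s.1, s.2.1)) c) ((hPs _).2 ⟨_, rfl⟩)
    have h4 := (al_part ρ (site (s.1, s.2.1)) c _).1 h3 s.2.2
    have h5 : ∀ (X Y : Finset Z) (w : V), (∀ y, y ∈ X ↔ y ∈ Y) → Pc ρ Y w = w →
        Pc ρ X w = w := by
      intro X Y w h hw
      rw [Finset.ext h]
      exact hw
    refine h5 _ _ _ (fun y => ?_) h4
    simp [hsite, Prod.ext_iff, and_assoc]

/-- Joins with twisted labels.

Proof. As `join`, with `η = √(1 - κ)`, `κ'` the constant of `tw_ang`: `κ = 1 - √(1 - κ')`;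
`u = v - Al ρ univ (a, b, c) v`; the vectors fixed by `Al ρ univ (a, b, c)` are fixed by
`Al ρ univ a` (`al_coarse`) and by `Tw ρ α c univ b` (`tw_fix`: a twisted function of `b` is a
function of `(a, b, c)`). -/
theorem tw_join (T : Type) [Group T] [Fintype T] [IsSimpleGroup T] (hT : commutator T = ⊤)
    (α : MulAut T) (hα : α ≠ 1) : ∃ κ : ℝ, 0 < κ ∧ κ ≤ 1 ∧
    ∀ (Z S1 S2 : Type) [Fintype Z] [Fintype S1] [Fintype S2] (V : Type) [NormedAddCommGroup V]
      [InnerProductSpace ℂ V] [FiniteDimensional ℂ V] (ρ : (Z → T) →* (V ≃ₗᵢ[ℂ] V))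
      (a : Z → S1) (b : Z → S2) (c : Z → Bool) (v : V),
      κ * ‖v - Al ρ Finset.univ (fun y => (a y, b y, c y)) v‖ ^ 2 ≤
        ‖v - Al ρ Finset.univ a v‖ ^ 2 + ‖v - Tw ρ α c Finset.univ b v‖ ^ 2 := by
  classical
  obtain ⟨κ, hκ0, hκ1, hκ⟩ := tw_ang T hT α hα
  have hη0 : 0 ≤ Real.sqrt (1 - κ) := Real.sqrt_nonneg _
  have hη1 : Real.sqrt (1 - κ) < 1 := by
    rw [Real.sqrt_lt' one_pos]
    linarith
  have hη2 : Real.sqrt (1 - κ) ^ 2 = 1 - κ := Real.sq_sqrt (by linarith)
  refine ⟨1 - Real.sqrt (1 - κ), by linarith, by linarith, ?_⟩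
  intro Z S1 S2 _ _ _ V _ _ _ ρ a b c v
  have hP := al_isP (G := T) ρ Finset.univ (fun y => (a y, b y, c y))
  have hPa := al_isP (G := T) ρ Finset.univ a
  have hPb := tw_isP ρ α c Finset.univ b
  have hca := isP_le hPa hP (fun w hw => al_coarse ρ Finset.univ a (fun y => (a y, b y, c y))
    (fun y _ y' _ h => congrArg Prod.fst h) w hw)
  have hcb := isP_le hPb hP (fun w hw => by
    rw [tw_fix]
    rw [al_fix] at hw
    intro f
    have h3 : tlf α c Finset.univ b f = clf T Finset.univ (fun y => (a y, b y, c y))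
        (fun s => if s.2.2 = true then α (f s.2.1) else f s.2.1) := by
      funext y
      rw [pairt_tlf_apply α _ (Finset.mem_univ y), clf_apply _ (Finset.mem_univ y)]
    rw [h3]
    exact hw _)
  obtain ⟨u, hu⟩ : ∃ u, u = v - Al ρ Finset.univ (fun y => (a y, b y, c y)) v := ⟨_, rfl⟩
  have h0 : Al ρ Finset.univ (fun y => (a y, b y, c y)) u = 0 := by
    rw [hu, map_sub, hP.2, sub_self]
  have h1 : v - Al ρ Finset.univ a v = u - Al ρ Finset.univ a u := by
    rw [hu, map_sub, hca.1]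
    abel
  have h2 : v - Tw ρ α c Finset.univ b v = u - Tw ρ α c Finset.univ b u := by
    rw [hu, map_sub, hcb.1]
    abel
  rw [h1, h2, ← hu]
  refine two_proj hPa hPb hη0 u ?_
  have h3 := hκ Z S1 S2 V ρ a b c (Al ρ Finset.univ a u) (hPa.2 u) (by rw [hca.2, h0])
  refine (pow_le_pow_iff_left₀ (norm_nonneg _) (by positivity) two_ne_zero).1 ?_
  rw [mul_pow, hη2]
  exact h3

end Pool.Agent.MPfe8e9bM
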