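import Mathlib
import Pool.Agent.Lib.MP_fe8e9b_al_M.Defs
import Pool.Agent.Lib.MP_fe8e9b_al_M.PrB
import Pool.Agent.Lib.MP_fe8e9b_al_M.AlB
import Pool.Agent.Lib.MP_fe8e9b_al_M.ThmM3
import Pool.Agent.Lib.MP_fe8e9b_al_M.MnF
import Pool.Agent.Lib.MP_fe8e9b_al_M.PairS
import Pool.Agent.Lib.MP_fe8e9b_al_M.PairT
import Pool.Agent.Lib.MP_fe8e9b_al_M.TypA

/-!
# MP_fe8e9b_al, groups of bounded height: one type, with a twist
-/

set_option autoImplicit false

open scoped BigOperators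

namespace Pool.Agent.MPfe8e9bM

open Pool.Agent.MPfe8e9b Pool.Agent.MPfe8e9bA Pool.Agent.MPfe8e9bW Pool.Agent.MPfe8e9bV

/-- The averages over conjugate groups of functions, on an invariant vector, with a twist.

Proof. As `typa_conj`: `β h (ρ (clf T univ lab f) x) =
ρ (tlf τ (c h) univ (lab ∘ (act h)⁻¹) f) x`. -/
theorem typb_conj {T Y S H : Type} [Group T] [Fintype T] [Fintype Y] [Fintype S] [Group H]
    (τ : MulAut T) (c : H → Y → Bool) (act : H →* Equiv.Perm Y) (lab : Y → S) {V : Type}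
    [NormedAddCommGroup V] [InnerProductSpace ℂ V] (ρ : (Y → T) →* (V ≃ₗᵢ[ℂ] V))
    (β : H →* (V ≃ₗᵢ[ℂ] V))
    (hβ : ∀ h u v, β h (ρ u v) =
      ρ (fun y => if c h y = true then τ (u ((act h)⁻¹ y)) else u ((act h)⁻¹ y)) (β h v))
    (x : V) (hx : ∀ h, β h x = x) (h : H) :
    Tw ρ τ (c h) Finset.univ (fun y => lab ((act h)⁻¹ y)) x =
      β h (Al ρ Finset.univ lab x) := by
  classical
  have h1 : Tw ρ τ (c h) Finset.univ (fun y => lab ((act h)⁻¹ y)) x =
      ((Fintype.card (S → T) : ℂ))⁻¹ •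
        ∑ f, (ρ.comp (tlf τ (c h) Finset.univ (fun y => lab ((act h)⁻¹ y)))) f x := rfl
  have h2 : Al ρ Finset.univ lab x = ((Fintype.card (S → T) : ℂ))⁻¹ •
      ∑ f, (ρ.comp (clf T Finset.univ lab)) f x := rfl
  rw [h1, h2, map_smul, map_sum]
  congr 1
  refine Finset.sum_congr rfl fun f _ => ?_
  have h3 : (ρ.comp (clf T Finset.univ lab)) f x = ρ (clf T Finset.univ lab f) x := rfl
  rw [h3, hβ, hx]
  have h4 : tlf τ (c h) Finset.univ (fun y => lab ((act h)⁻¹ y)) f =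
      fun y => if c h y = true then τ (clf T Finset.univ lab f ((act h)⁻¹ y))
        else clf T Finset.univ lab f ((act h)⁻¹ y) := by
    funext y
    rw [pairt_tlf_apply τ f (Finset.mem_univ y), clf_apply f (Finset.mem_univ _)]
  rw [← h4]
  rfl

/-- One type, with a twist, for a fixed group.

Proof. `κ₁` from `thmM3 (3 / 4)`, `κ₂` from `tw_join T hT τ hτ`, `κ = κ₁ * κ₂ / 2`. For `h : H`
the label `(lab y, lab ((act h)⁻¹ y), c h y)`; agreement implies agreement of the second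
coordinate, so `ag ≤ 3 / 4` (`ind_mono`, `mn_mono`, `mn_inv`). `tw_join` with `a = lab`,
`b = lab ∘ (act h)⁻¹`, `c = c h`, and `typb_conj`: `κ₂ ‖x - Al (triple) x‖² ≤
2 ‖x - Al ρ univ lab x‖²`. Take the mean over `h` and use `thmM3`. -/
theorem typ_b0 (T : Type) [Group T] [Fintype T] [IsSimpleGroup T] (hT : commutator T = ⊤)
    (τ : MulAut T) (hτ : τ ≠ 1) : ∃ κ : ℝ, 0 < κ ∧ κ ≤ 1 ∧
    ∀ (Y S H : Type) [Fintype Y] [Fintype S] [Group H] [Fintype H] (act : H →* Equiv.Perm Y)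
      (c : H → Y → Bool) (lab : Y → S), (∀ y y', y ≠ y' →
        mn (fun h => ind (lab (act h y) = lab (act h y'))) ≤ 3 / 4) →
    ∀ (V : Type) [NormedAddCommGroup V] [InnerProductSpace ℂ V] [FiniteDimensional ℂ V]
      (ρ : (Y → T) →* (V ≃ₗᵢ[ℂ] V)) (β : H →* (V ≃ₗᵢ[ℂ] V)),
      (∀ h u v, β h (ρ u v) =
        ρ (fun y => if c h y = true then τ (u ((act h)⁻¹ y)) else u ((act h)⁻¹ y)) (β h v)) →
      ∀ x : V, (∀ h, β h x = x) →
      κ * ‖x - Al ρ Finset.univ (fun y : Y => y) x‖ ^ 2 ≤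
        ‖x - Al ρ Finset.univ lab x‖ ^ 2 := by
  obtain ⟨κ₁, hκ₁, hκ₁', h1⟩ := thmM3 (3 / 4) (by norm_num)
  obtain ⟨κ₂, hκ₂, hκ₂', h2⟩ := tw_join T hT τ hτ
  refine ⟨κ₁ * κ₂ / 2, by positivity, ?_, ?_⟩
  · have h3 : κ₁ * κ₂ ≤ 1 := mul_le_one₀ hκ₁' hκ₂.le hκ₂'
    linarith
  intro Y S H _ _ _ _ act c lab hlab V _ _ _ ρ β hβ x hx
  have h3 : ∀ y y' : Y, y ≠ y' →
      ag (fun (h : H) (z : Y) => (lab z, lab ((act h)⁻¹ z), c h z)) y y' ≤ 3 / 4 := by
    intro y y' hy
    unfold ag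
    have h4 : mn (fun h : H => ind (lab ((act h)⁻¹ y) = lab ((act h)⁻¹ y'))) ≤ 3 / 4 := by
      have h5 := mn_inv (fun h : H => ind (lab (act h y) = lab (act h y')))
      have h6 : (fun p : H => ind (lab (act p⁻¹ y) = lab (act p⁻¹ y'))) =
          fun h : H => ind (lab ((act h)⁻¹ y) = lab ((act h)⁻¹ y')) := by
        funext p
        rw [map_inv]
      rw [← h6]
      rw [h5]
      exact hlab y y' hy
    refine (mn_mono fun h => ?_).trans h4
    refine ind_mono fun hh => ?_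
    have h7 := congrArg (fun s : S × S × Bool => s.2.1) hh
    exact h7
  have h4 := h1 T hT Y (S × S × Bool) H
    (fun (h : H) (z : Y) => (lab z, lab ((act h)⁻¹ z), c h z)) h3 V ρ x
  have h5 : ∀ h : H, κ₂ * ‖x - Al ρ Finset.univ
      (fun z => (lab z, lab ((act h)⁻¹ z), c h z)) x‖ ^ 2 ≤
        2 * ‖x - Al ρ Finset.univ lab x‖ ^ 2 := by
    intro h
    have h6 := h2 Y S S V ρ lab (fun z => lab ((act h)⁻¹ z)) (c h) x
    rw [typb_conj τ c act lab ρ β hβ x hx h] at h6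
    have h7 : ‖x - β h (Al ρ Finset.univ lab x)‖ = ‖x - Al ρ Finset.univ lab x‖ := by
      have h8 : x - β h (Al ρ Finset.univ lab x) = β h (x - Al ρ Finset.univ lab x) := by
        rw [map_sub, hx]
      rw [h8, LinearIsometryEquiv.norm_map]
    rw [h7] at h6
    linarith
  have h6 := mn_mono h5
  rw [mn_mul_left, mn_const] at h6
  have h7 : κ₂ * (κ₁ * ‖x - Al ρ Finset.univ (fun y : Y => y) x‖ ^ 2) ≤
      κ₂ * mn (fun h : H => ‖x - Al ρ Finset.univ
        (fun z => (lab z, lab ((act h)⁻¹ z), c h z)) x‖ ^ 2) :=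
    mul_le_mul_of_nonneg_left h4 hκ₂.le
  have h8 := h7.trans h6
  nlinarith

/-- One type, with a twist: the constant depends only on the isomorphism class.

Proof. `typ_b0` for the representation `ρ' u = ρ (fun y => e.symm (u y))` of `Y → T`; the averages
over the functions of a label are the same maps (`isP_ext`, `al_fix`: the same elements; or
reindex the sum over `f` by `e`). -/
theorem typ_b (T : Type) [Group T] [Fintype T] [IsSimpleGroup T] (hT : commutator T = ⊤)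
    (τ : MulAut T) (hτ : τ ≠ 1) : ∃ κ : ℝ, 0 < κ ∧ κ ≤ 1 ∧
    ∀ (T' : Type) [Group T'] [Fintype T'] (e : T' ≃* T) (τ' : MulAut T'),
      (∀ t, e (τ' t) = τ (e t)) →
    ∀ (Y S H : Type) [Fintype Y] [Fintype S] [Group H] [Fintype H] (act : H →* Equiv.Perm Y)
      (c : H → Y → Bool) (lab : Y → S), (∀ y y', y ≠ y' →
        mn (fun h => ind (lab (act h y) = lab (act h y'))) ≤ 3 / 4) →
    ∀ (V : Type) [NormedAddCommGroup V] [InnerProductSpace ℂ V] [FiniteDimensional ℂ V]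
      (ρ : (Y → T') →* (V ≃ₗᵢ[ℂ] V)) (β : H →* (V ≃ₗᵢ[ℂ] V)),
      (∀ h u v, β h (ρ u v) =
        ρ (fun y => if c h y = true then τ' (u ((act h)⁻¹ y)) else u ((act h)⁻¹ y)) (β h v)) →
      ∀ x : V, (∀ h, β h x = x) →
      κ * ‖x - Al ρ Finset.univ (fun y : Y => y) x‖ ^ 2 ≤
        ‖x - Al ρ Finset.univ lab x‖ ^ 2 := by
  obtain ⟨κ, hκ, hκ', h1⟩ := typ_b0 T hT τ hτ
  refine ⟨κ, hκ, hκ', ?_⟩
  intro T' _ _ e τ' he Y S H _ _ _ _ act c lab hlab V _ _ _ ρ β hβ x hx
  obtain ⟨ρ', hρ'⟩ : ∃ ρ' : (Y → T) →* (V ≃ₗᵢ[ℂ] V),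
      ρ' = ρ.comp (e.symm.toMonoidHom.compLeft Y) := ⟨_, rfl⟩
  have hap : ∀ u : Y → T, ρ' u = ρ (fun y => e.symm (u y)) := by
    intro u
    rw [hρ']
    rfl
  have hsym : ∀ t : T, e.symm (τ t) = τ' (e.symm t) := by
    intro t
    apply e.injective
    rw [he, e.apply_symm_apply, e.apply_symm_apply]
  have hal : ∀ (S' : Type) [Fintype S'] (l : Y → S'),
      Al ρ' Finset.univ l = Al ρ Finset.univ l := by
    intro S' _ l
    refine isP_ext (al_isP ρ' _ l) (al_isP ρ _ l) fun v => ?_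
    rw [al_fix, al_fix]
    constructor
    · intro h f
      have h2 := h (fun s => e (f s))
      rw [hap] at h2
      have h3 : (fun y => e.symm (clf T Finset.univ l (fun s => e (f s)) y)) =
          clf T' Finset.univ l f := by
        funext y
        rw [clf_apply _ (Finset.mem_univ y), clf_apply _ (Finset.mem_univ y),
          e.symm_apply_apply]
      rw [h3] at h2
      exact h2
    · intro h f
      rw [hap]
      have h3 : (fun y => e.symm (clf T Finset.univ l f y)) =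
          clf T' Finset.univ l (fun s => e.symm (f s)) := by
        funext y
        rw [clf_apply _ (Finset.mem_univ y), clf_apply _ (Finset.mem_univ y)]
      rw [h3]
      exact h _
  have h2 := h1 Y S H act c lab hlab V ρ' β (by
    intro h u v
    rw [hap, hap, hβ]
    congr 2
    funext y
    by_cases hc : c h y = true
    · rw [if_pos hc, if_pos hc, hsym]
    · rw [if_neg hc, if_neg hc]) x hx
  rw [hal, hal] at h2
  exact h2

end Pool.Agent.MPfe8e9bM
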