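import Mathlib
import Pool.Agent.Lib.MP_fe8e9b_al_M.Defs
import Pool.Agent.Lib.MP_fe8e9b_al_M.LemS
import Pool.Agent.Lib.MP_fe8e9b_al_M.LDat
import Pool.Agent.Lib.MP_fe8e9b_al_M.TypA
import Pool.Agent.Lib.MP_fe8e9b_al_M.TypB
import Pool.Agent.Lib.MP_fe8e9b_al_M.CmpD
import Pool.Agent.Lib.MP_fe8e9b_al_M.CmpB
import Pool.Agent.Lib.MP_fe8e9b_al_M.PsiX
import Pool.Agent.Lib.MP_fe8e9b_al_M.LdX

/-!
# MP_fe8e9b_al, groups of bounded height: the estimates for the types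
-/

set_option autoImplicit false

open scoped BigOperators

namespace Pool.Agent.MPfe8e9bM

open Pool.Agent.MPfe8e9b Pool.Agent.MPfe8e9bA Pool.Agent.MPfe8e9bW Pool.Agent.MPfe8e9bV

/-- The alternating groups which occur. -/
theorem estx_alt (n : ℕ) (hn : 5 ≤ n) :
    IsSimpleGroup (alternatingGroup (Fin n)) ∧ commutator (alternatingGroup (Fin n)) = ⊤ := by
  have h : 5 ≤ Nat.card (Fin n) := by
    rw [Nat.card_eq_fintype_card, Fintype.card_fin]
    exact hn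
  exact ⟨alternatingGroup.isSimpleGroup h, commutator_alternatingGroup_eq_top h⟩

/-- The conjugation by a transposition is not trivial. -/
theorem estx_ne5 :
    (MulAut.conjNormal (Equiv.swap (0 : Fin 5) 1) : MulAut (alternatingGroup (Fin 5))) ≠ 1 := by
  intro h
  have hm : Equiv.swap (0 : Fin 5) 1 * Equiv.swap 1 2 ∈ alternatingGroup (Fin 5) := by
    rw [Equiv.Perm.mem_alternatingGroup]
    decide
  have h1 := congrArg (fun f : MulAut (alternatingGroup (Fin 5)) =>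
    ((f ⟨_, hm⟩ : alternatingGroup (Fin 5)) : Equiv.Perm (Fin 5)) 0) h
  simp only [MulAut.conjNormal_apply, MulAut.one_apply] at h1
  revert h1
  decide

theorem estx_ne6 :
    (MulAut.conjNormal (Equiv.swap (0 : Fin 6) 1) : MulAut (alternatingGroup (Fin 6))) ≠ 1 := by
  intro h
  have hm : Equiv.swap (0 : Fin 6) 1 * Equiv.swap 1 2 ∈ alternatingGroup (Fin 6) := by
    rw [Equiv.Perm.mem_alternatingGroup]
    decide
  have h1 := congrArg (fun f : MulAut (alternatingGroup (Fin 6)) =>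
    ((f ⟨_, hm⟩ : alternatingGroup (Fin 6)) : Equiv.Perm (Fin 6)) 0) h
  simp only [MulAut.conjNormal_apply, MulAut.one_apply] at h1
  revert h1
  decide

open Classical in
/-- The estimates for the types.

Proof. `κ` is the minimum of the constants of `typ_a`, of `typ_b` for `alternatingGroup (Fin 5)`,
`τ = MulAut.conjNormal (Equiv.swap 0 1)` (simple and perfect: Mathlib
`alternatingGroup.isSimpleGroup..`, files MP_fe8e9b_al_W/Perf and MP_fe8e9b_al_A; `τ ≠ 1`: evaluate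
at a 3-cycle), and of `typ_b` for `alternatingGroup (Fin 6)`. For a type `k` and a vector `x` fixed
by `ad G h`, `h ∈ D.Hs`: the representation `ρ' = (lm G).comp (u0 Ψ T0 k)` of `D.Y k → T0 k` and
`β = (ad G).comp D.Hs.subtype`, the action `(D.ac k).comp D.Hs.subtype`. By `ad_lm` and `psi_conj`,
with `l y ∈ L` from `h ∈ D.Hs`: `β h (ρ' u v) = lm G (h * u0 u * h⁻¹) (β h v)`, and
`h * u0 u * h⁻¹ = u0 (y ↦ l (π⁻¹ y) (u (π⁻¹ y)))`. First case of `(hSG _).typ`: `l` fixes the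
elements of `S0`, `typ_a` (`commutator (S0 _) = ⊤` is `(hSG _).prf`). Second case: `S0 = ⊤`;
`typ_b` with `T' = S0 (D.rep k)`, `e = ` (the isomorphism from `⊤`, `Subgroup.topEquiv`) followed
by `φ`, `τ' = ` the automorphism of `T'` corresponding to `τ` under `e`
(`(MulAut.congr e).symm τ`), and `c h y = true` if and only if the chosen `l (π⁻¹ y)` is not `1`
(choose `l` for every `h` and `y` first, as a function). -/
theorem est_x : ∃ κ : ℝ, 0 < κ ∧ κ ≤ 1 ∧ ∀ (G X : Type) [Group G] [Fintype G] [Finite X]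
    (C : X → Subgroup G) (act : G →* Equiv.Perm X) (_ : Cmp C act)
    (L : ∀ x, Subgroup (MulAut (C x))) (D : Crd C act L) (S0 : ∀ x, Subgroup (C x)) (c : ℕ)
    (_ : ∀ x, SG c (C x) (S0 x) (L x)) (Ψ : (∀ k, D.Y k → D.T k) →* G)
    (_ : ∀ k y t, Ψ (Pi.mulSingle k (Pi.mulSingle y t)) = D.ι k y t)
    [∀ k, Fintype (D.Y k)] [∀ k, Fintype (S0 (D.rep k))] [Fintype D.Hs] (S : D.K → Type)
    [∀ k, Fintype (S k)] (lab : ∀ k, D.Y k → S k)
    (_ : ∀ k y y', y ≠ y' → mn (fun h : D.Hs =>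
      ind (lab k (D.ac k h.1 y) = lab k (D.ac k h.1 y'))) ≤ 3 / 4),
    Est Ψ (fun k => S0 (D.rep k)) D.Hs lab κ := by
  obtain ⟨hs5, hp5⟩ := estx_alt 5 le_rfl
  obtain ⟨hs6, hp6⟩ := estx_alt 6 (by norm_num)
  obtain ⟨κ₁, hκ₁, hκ₁', h1⟩ := typ_a
  obtain ⟨κ₂, hκ₂, hκ₂', h2⟩ := typ_b (alternatingGroup (Fin 5)) hp5 _ estx_ne5
  obtain ⟨κ₃, hκ₃, hκ₃', h3⟩ := typ_b (alternatingGroup (Fin 6)) hp6 _ estx_ne6
  refine ⟨min κ₁ (min κ₂ κ₃), lt_min hκ₁ (lt_min hκ₂ hκ₃), (min_le_left _ _).trans hκ₁', ?_⟩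
  intro G X _ _ _ C act hC L D S0 c hSG Ψ hΨ _ _ _ S _ lab hlab k x hx
  have hfK : Fintype D.K := D.fK
  have hΨ' : ∀ (k : D.K) (y : D.Y k) (t : D.T k),
      Ψ (Pi.mulSingle k (@Pi.mulSingle (D.Y k) (fun _ => D.T k) _
        (fun a b => Classical.propDecidable (a = b)) y t)) = D.ι k y t := by
    intro k y t
    rw [← hΨ k y t]
    congr 2
    exact congrArg (fun i => @Pi.mulSingle (D.Y k) (fun _ => D.T k) _ i y t)
      (Subsingleton.elim _ _)
  -- the action of the supplement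
  have hch : ∀ (h : D.Hs) (y : D.Y k), ∃ l ∈ L (D.rep k),
      ∀ s, h.1 * D.ι k y s * h.1⁻¹ = D.ι k (D.ac k h.1 y) (l s) := fun h y => h.2 k y
  choose l hl hlh using hch
  have hconj : ∀ (h : D.Hs) (u : D.Y k → S0 (D.rep k)) (w : EuclideanSpace ℂ (G × G))
      (u' : D.Y k → S0 (D.rep k)), (∀ y, ((u' y : S0 (D.rep k)) : D.T k) =
        l h ((D.ac k h.1)⁻¹ y) (u ((D.ac k h.1)⁻¹ y) : D.T k)) →
      ad G h.1 (lm G (u0 Ψ (fun k => S0 (D.rep k)) k u) w) =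
        lm G (u0 Ψ (fun k => S0 (D.rep k)) k u') (ad G h.1 w) := by
    intro h u w u' hu'
    rw [ad_lm]
    congr 2
    have h4 := psi_conj D.ι Ψ hΨ' h.1 k (D.ac k h.1) (l h) (hlh h) (fun y => (u y : D.T k))
    refine h4.trans ?_
    show Ψ (Pi.mulSingle k _) = Ψ (Pi.mulSingle k _)
    congr 2
    funext y
    exact (hu' y).symm
  have hβx : ∀ h : D.Hs, ((ad G).comp D.Hs.subtype) h x = x := fun h => hx h.1 h.2
  have hlab' : ∀ y y' : D.Y k, y ≠ y' → mn (fun h : D.Hs =>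
      ind (lab k (((D.ac k).comp D.Hs.subtype) h y) =
        lab k (((D.ac k).comp D.Hs.subtype) h y'))) ≤ 3 / 4 := fun y y' hy => hlab k y y' hy
  set R := ‖x - Al ((lm G).comp (u0 Ψ (fun k => S0 (D.rep k)) k)) Finset.univ
    (fun y : D.Y k => y) x‖ ^ 2 with hR
  have hR0 : 0 ≤ R := sq_nonneg _
  have htw : ∀ (n : ℕ) (φ : D.T k ≃* alternatingGroup (Fin n))
      (τ : MulAut (alternatingGroup (Fin n))) (κ' : ℝ) (_ : S0 (D.rep k) = ⊤)
      (_ : ∀ l ∈ L (D.rep k), l = 1 ∨ ∀ t, φ (l t) = τ (φ t))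
      (_ : ∀ (T' : Type) [Group T'] [Fintype T'] (e : T' ≃* alternatingGroup (Fin n))
        (τ' : MulAut T'), (∀ t, e (τ' t) = τ (e t)) →
      ∀ (Y S H : Type) [Fintype Y] [Fintype S] [Group H] [Fintype H] (act : H →* Equiv.Perm Y)
        (c : H → Y → Bool) (lab : Y → S), (∀ y y', y ≠ y' →
          mn (fun h => ind (lab (act h y) = lab (act h y'))) ≤ 3 / 4) →
      ∀ (V : Type) [NormedAddCommGroup V] [InnerProductSpace ℂ V] [FiniteDimensional ℂ V]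
        (ρ : (Y → T') →* (V ≃ₗᵢ[ℂ] V)) (β : H →* (V ≃ₗᵢ[ℂ] V)),
        (∀ h u v, β h (ρ u v) =
          ρ (fun y => if c h y = true then τ' (u ((act h)⁻¹ y)) else u ((act h)⁻¹ y))
            (β h v)) →
        ∀ x : V, (∀ h, β h x = x) →
        κ' * ‖x - Al ρ Finset.univ (fun y : Y => y) x‖ ^ 2 ≤
          ‖x - Al ρ Finset.univ lab x‖ ^ 2),
      κ' * R ≤ ‖x - Al ((lm G).comp (u0 Ψ (fun k => S0 (D.rep k)) k)) Finset.univ
        (lab k) x‖ ^ 2 := by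
    intro n φ τ κ' h0 hτ hκ'
    obtain ⟨e, he⟩ : ∃ e : S0 (D.rep k) ≃* alternatingGroup (Fin n),
        ∀ t : S0 (D.rep k), e t = φ (t : D.T k) :=
      ⟨((MulEquiv.subgroupCongr h0).trans Subgroup.topEquiv).trans φ, fun t => rfl⟩
    obtain ⟨τ', hτ'⟩ : ∃ τ' : MulAut (S0 (D.rep k)), ∀ t, e (τ' t) = τ (e t) :=
      ⟨(e.trans τ).trans e.symm, fun t => e.apply_symm_apply _⟩
    refine hκ' (S0 (D.rep k)) e τ' hτ' (D.Y k) (S k) D.Hs ((D.ac k).comp D.Hs.subtype)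
      (fun h y => decide (l h ((D.ac k h.1)⁻¹ y) ≠ 1)) (lab k) hlab'
      (EuclideanSpace ℂ (G × G)) _ ((ad G).comp D.Hs.subtype) ?_ x hβx
    intro h u v
    refine hconj h u v _ fun y => ?_
    show ((if decide (l h ((D.ac k h.1)⁻¹ y) ≠ 1) = true then τ' (u ((D.ac k h.1)⁻¹ y))
      else u ((D.ac k h.1)⁻¹ y) : S0 (D.rep k)) : D.T k) = _
    by_cases hc : l h ((D.ac k h.1)⁻¹ y) = 1
    · rw [hc, if_neg (by simp)]
      rfl
    · rw [if_pos (by simpa using hc)]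
      rcases hτ _ (hl h ((D.ac k h.1)⁻¹ y)) with h5 | h5
      · exact absurd h5 hc
      · apply φ.injective
        rw [h5, ← he, hτ', he]
  rcases (hSG (D.rep k)).typ with h4 | ⟨h0, φ, hφ⟩ | ⟨h0, φ, hφ⟩
  · have h5 := h1 (S0 (D.rep k)) (hSG (D.rep k)).prf (D.Y k) (S k) D.Hs
      ((D.ac k).comp D.Hs.subtype) (lab k) hlab' (EuclideanSpace ℂ (G × G))
      ((lm G).comp (u0 Ψ (fun k => S0 (D.rep k)) k)) ((ad G).comp D.Hs.subtype)
      (fun h u v => hconj h u v _ fun y => (h4 _ (hl h _) _ (u _).2).symm) x hβx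
    exact (mul_le_mul_of_nonneg_right (min_le_left _ _) hR0).trans h5
  · refine (mul_le_mul_of_nonneg_right ((min_le_right _ _).trans (min_le_left _ _)) hR0).trans
      (htw 5 φ _ κ₂ h0 hφ ?_)
    exact h2
  · refine (mul_le_mul_of_nonneg_right ((min_le_right _ _).trans (min_le_right _ _)) hR0).trans
      (htw 6 φ _ κ₃ h0 hφ ?_)
    exact h3

end Pool.Agent.MPfe8e9bM
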