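import Mathlib
import Pool.Agent.Lib.MP_fe8e9b_al_M.Defs
import Pool.Agent.Lib.MP_fe8e9b_al_W.Rep1

/-!
# MP_fe8e9b_al, groups of bounded height: the gap of a quotient, and displacement
-/

set_option autoImplicit false

open scoped BigOperators

namespace Pool.Agent.MPfe8e9bM

open Pool.Agent.MPfe8e9b Pool.Agent.MPfe8e9bA Pool.Agent.MPfe8e9bW Pool.Agent.MPfe8e9bV

/-- A tuple with a gap which moves `v` little. Proof. `gap_rep` for `v - av ρ v`
(`av (v - av v) = 0`; the letters move `v - av ρ v` as they move `v`):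
`κ ‖v - av ρ v‖² ≤ ∑ ‖ρ (s i) v - v‖² ≤ k δ²`; and `disp_le_of_fix` for all elements. -/
theorem gap_disp {G : Type} [Group G] [Fintype G] {k : ℕ} {s : Fin k → G} {κ : ℝ} (hκ : 0 < κ)
    (h : Gap s κ) {V : Type} [NormedAddCommGroup V] [InnerProductSpace ℂ V]
    [FiniteDimensional ℂ V] (ρ : G →* (V ≃ₗᵢ[ℂ] V)) (v : V) {δ : ℝ} (hδ : 0 ≤ δ)
    (hs : ∀ i, ‖ρ (s i) v - v‖ ≤ δ) (g : G) :
    ‖ρ g v - v‖ ≤ 2 * Real.sqrt (k / κ) * δ := by
  have h0 : av ρ (v - av ρ v) = 0 := by rw [map_sub, av_idem, sub_self]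
  have h1 := gap_rep h ρ (v - av ρ v) h0
  have h2 : ∀ i, ‖ρ (s i) (v - av ρ v) - (v - av ρ v)‖ ^ 2 ≤ δ ^ 2 := by
    intro i
    have : ρ (s i) (v - av ρ v) - (v - av ρ v) = ρ (s i) v - v := by
      rw [map_sub, rho_av]
      abel
    rw [this]
    exact pow_le_pow_left₀ (norm_nonneg _) (hs i) 2
  have h3 : κ * ‖v - av ρ v‖ ^ 2 ≤ k * δ ^ 2 := by
    refine h1.trans ((Finset.sum_le_sum fun i _ => h2 i).trans_eq ?_)
    rw [Finset.sum_const, Finset.card_univ, Fintype.card_fin, nsmul_eq_mul]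
  have h4 : ‖v - av ρ v‖ ^ 2 ≤ (Real.sqrt (k / κ) * δ) ^ 2 := by
    rw [mul_pow, Real.sq_sqrt (div_nonneg (Nat.cast_nonneg _) hκ.le), div_mul_eq_mul_div,
      le_div_iff₀ hκ]
    linarith
  have h5 : ‖v - av ρ v‖ ≤ Real.sqrt (k / κ) * δ :=
    (pow_le_pow_iff_left₀ (norm_nonneg _) (mul_nonneg (Real.sqrt_nonneg _) hδ) two_ne_zero).1 h4
  have h6 := disp_le_of_fix (v := v) ρ (rho_av ρ g v)
  linarith

private theorem qgap_sum {Q : Type} [Fintype Q] {V : Type} [NormedAddCommGroup V]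
    [InnerProductSpace ℂ V] {ι : Type*} [Fintype ι] (b : OrthonormalBasis ι ℂ V)
    (F : Q → V) {c : ℝ} (hF : ∀ q, ‖F q‖ = c) :
    ∑ u, MPfe8e9b.sq (fun q => inner ℂ (b u) (F q)) = (Fintype.card Q : ℝ) * c ^ 2 := by
  unfold MPfe8e9b.sq
  rw [Finset.sum_comm]
  have h1 : ∀ q : Q, ∑ u, ‖inner ℂ (b u) (F q)‖ ^ 2 = c ^ 2 := by
    intro q
    rw [b.sum_sq_norm_inner_right, hF q]
  rw [Finset.sum_congr rfl fun q _ => h1 q, Finset.sum_const, Finset.card_univ, nsmul_eq_mul]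

/-- The gap of a quotient. `H` is a group with a surjective homomorphism to `Q`; a vector fixed by
the kernel.

Proof. As `gap_rep` (file W/Rep1): for `q : Q` choose `h q : H` over `q` and put
`F q = β (h q) (x - av β x)`; `β h' (x - av β x)` depends only on the image of `h'` (the kernel
fixes `x` and `av β x`). Take an orthonormal basis `b` of `V` (`stdOrthonormalBasis`) and
`f u q = inner ℂ (b u) (F q)`: `∑ q, f u q = 0` as the mean of the `F q` is
`av β (x - av β x) = 0` (the fibres of `H → Q` have the same cardinality),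
`∑ u, sq (f u) = card Q * ‖x - av β x‖²`, and `rt (π (s i)) (f u) q - f u q =
inner ℂ (b u) (β (h q) (β (s i) x - x))`. Sum the inequalities of `Gap` over `u`. -/
theorem quot_gap {H Q : Type} [Group H] [Fintype H] [Group Q] [Fintype Q] (π : H →* Q)
    (hπ : Function.Surjective π) {k : ℕ} {s : Fin k → H} {κ : ℝ}
    (hg : Gap (fun i => π (s i)) κ) {V : Type} [NormedAddCommGroup V] [InnerProductSpace ℂ V]
    [FiniteDimensional ℂ V] (β : H →* (V ≃ₗᵢ[ℂ] V)) (x : V)
    (hx : ∀ a, π a = 1 → β a x = x) :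
    κ * ‖x - av β x‖ ^ 2 ≤ ∑ i, ‖β (s i) x - x‖ ^ 2 := by
  obtain ⟨w, hw⟩ : ∃ w, w = x - av β x := ⟨_, rfl⟩
  have hmul : ∀ (a c : H) (y : V), β (a * c) y = β a (β c y) := by
    intro a c y
    rw [map_mul]
    rfl
  have hw0 : av β w = 0 := by rw [hw, map_sub, av_idem, sub_self]
  have hker : ∀ a, π a = 1 → β a w = w := by
    intro a ha
    rw [hw, map_sub, hx a ha, rho_av]
  have hdep : ∀ a c : H, π a = π c → β a w = β c w := by
    intro a c hac
    have h1 : β (c⁻¹ * a) w = w := hker _ (by rw [map_mul, map_inv, hac, inv_mul_cancel])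
    have h2 : a = c * (c⁻¹ * a) := by group
    rw [h2, hmul, h1]
  have hi : ∀ i, β (s i) w - w = β (s i) x - x := by
    intro i
    rw [hw, map_sub, rho_av]
    abel
  obtain ⟨r, hr⟩ := hπ.hasRightInverse
  have hsum : ∑ q, β (r q) w = 0 := by
    have h1 : ∀ g : H, β g (∑ q, β (r q) w) = ∑ q, β (r q) w := by
      intro g
      rw [map_sum]
      refine Fintype.sum_equiv (Equiv.mulLeft (π g)) _ _ fun q => ?_
      rw [← hmul]
      refine hdep _ _ ?_
      rw [map_mul, hr, Equiv.coe_mulLeft, hr]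
    have h2 : av β (∑ q, β (r q) w) = ∑ q, β (r q) w := av_of_fix β h1
    have h3 : ∀ g : H, av β (β g w) = av β w := by
      intro g
      rw [av_apply, av_apply]
      congr 1
      refine Fintype.sum_equiv (Equiv.mulRight g) _ _ fun y => ?_
      rw [← hmul]
      rfl
    rw [← h2, map_sum]
    refine Finset.sum_eq_zero fun q _ => ?_
    rw [h3, hw0]
  have hn : (0 : ℝ) < Fintype.card Q := by exact_mod_cast Fintype.card_pos
  have h1 : ∀ u, κ * MPfe8e9b.sq (fun q => inner ℂ (stdOrthonormalBasis ℂ V u) (β (r q) w)) ≤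
      ∑ i, MPfe8e9b.sq
        (fun q => inner ℂ (stdOrthonormalBasis ℂ V u) (β (r q) (β (s i) x - x))) := by
    intro u
    have h2 := hg (fun q => inner ℂ (stdOrthonormalBasis ℂ V u) (β (r q) w)) (by
      rw [← inner_sum, hsum, inner_zero_right])
    refine h2.trans_eq (Finset.sum_congr rfl fun i _ => ?_)
    congr 1
    funext q
    rw [Pi.sub_apply, rt_apply, ← inner_sub_right]
    congr 1
    have h3 : β (r (q * π (s i))) w = β (r q) (β (s i) w) := by
      rw [← hmul]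
      refine hdep _ _ ?_
      rw [map_mul, hr, hr]
    rw [h3, ← map_sub, hi]
  have h2 := Finset.sum_le_sum fun u (_ : u ∈ Finset.univ) => h1 u
  rw [← Finset.mul_sum, Finset.sum_comm] at h2
  rw [qgap_sum (stdOrthonormalBasis ℂ V) (fun q => β (r q) w) (c := ‖w‖)
    (fun q => LinearIsometryEquiv.norm_map _ _)] at h2
  have h4 : ∀ i, ∑ u, MPfe8e9b.sq
      (fun q => inner ℂ (stdOrthonormalBasis ℂ V u) (β (r q) (β (s i) x - x))) =
      (Fintype.card Q : ℝ) * ‖β (s i) x - x‖ ^ 2 := fun i =>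
    qgap_sum (stdOrthonormalBasis ℂ V) (fun q => β (r q) (β (s i) x - x))
      (fun q => LinearIsometryEquiv.norm_map _ _)
  rw [Finset.sum_congr rfl fun i _ => h4 i, ← Finset.mul_sum] at h2
  rw [← hw]
  refine le_of_mul_le_mul_left ?_ hn
  linarith

/-- A vector with average zero is moved by some element. Proof. `mn_disp` (or directly): the mean
of `‖ρ h v - v‖²` is `2 ‖v‖²`, so some term is at least the mean. -/
theorem big_disp {H : Type} [Group H] [Fintype H] {V : Type} [NormedAddCommGroup V]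
    [InnerProductSpace ℂ V] (ρ : H →* (V ≃ₗᵢ[ℂ] V)) (v : V) (hv : av ρ v = 0) :
    ∃ h : H, ‖v‖ ≤ ‖ρ h v - v‖ := by
  obtain ⟨h0, hh0⟩ := Finite.exists_max fun h : H => ‖ρ h v - v‖
  have h1 := norm_sub_av_le ρ v hh0
  rw [hv, sub_zero] at h1
  exact ⟨h0, h1⟩

end Pool.Agent.MPfe8e9bM
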