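import Mathlib
import Pool.Agent.Lib.MP_fe8e9b_al_M.Defs
import Pool.Agent.Lib.MP_fe8e9b_al_M.PrB

/-!
# MP_fe8e9b_al, groups of bounded height: telescoping over the types
-/

set_option autoImplicit false

open scoped BigOperators

namespace Pool.Agent.MPfe8e9bM

open Pool.Agent.MPfe8e9b Pool.Agent.MPfe8e9bA Pool.Agent.MPfe8e9bW Pool.Agent.MPfe8e9bV

/-- The product of the operators of a list. -/
private noncomputable def tele2_L {V K : Type} [NormedAddCommGroup V] [InnerProductSpace ℂ V]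
    (P : K → V →ₗ[ℂ] V) : List K → V →ₗ[ℂ] V
  | [] => LinearMap.id
  | k :: L => P k ∘ₗ tele2_L P L

section

variable {V K : Type} [NormedAddCommGroup V] [InnerProductSpace ℂ V] (P Q : K → V →ₗ[ℂ] V)

private theorem tele2_cons (k : K) (L : List K) (v : V) :
    tele2_L P (k :: L) v = P k (tele2_L P L v) := rfl

private theorem tele2_comm (A : V →ₗ[ℂ] V) (L : List K)
    (h : ∀ j ∈ L, ∀ v, A (P j v) = P j (A v)) (v : V) :
    A (tele2_L P L v) = tele2_L P L (A v) := by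
  induction L with
  | nil => rfl
  | cons k L ih =>
    rw [tele2_cons, tele2_cons, h k List.mem_cons_self,
      ih fun j hj => h j (List.mem_cons_of_mem k hj)]

private theorem tele2_isP (hP : ∀ k, IsP (P k))
    (hPP : ∀ j k, j ≠ k → ∀ v, P j (P k v) = P k (P j v)) (L : List K) (hL : L.Nodup) :
    IsP (tele2_L P L) := by
  induction L with
  | nil => exact isP_id
  | cons k L ih =>
    have h1 := List.nodup_cons.1 hL
    refine isP_comp (hP k) (ih h1.2) fun v => ?_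
    exact tele2_comm P (P k) L (fun j hj w => hPP k j (fun e => h1.1 (e ▸ hj)) w) v

private theorem tele2_fix (hP : ∀ k, IsP (P k))
    (hPP : ∀ j k, j ≠ k → ∀ v, P j (P k v) = P k (P j v)) (L : List K) (hL : L.Nodup)
    (k : K) (hk : k ∈ L) (v : V) : P k (tele2_L P L v) = tele2_L P L v := by
  induction L with
  | nil => exact absurd hk (by simp)
  | cons j L ih =>
    have h1 := List.nodup_cons.1 hL
    rw [tele2_cons]
    by_cases hkj : k = j
    · rw [hkj, (hP j).2]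
    · rw [hPP k j hkj, ih h1.2 ((List.mem_cons.1 hk).resolve_left hkj)]

private theorem tele2_pyth {A : V →ₗ[ℂ] V} (hA : IsP A) (a b : V) (ha : A a = 0) (hb : A b = b) :
    ‖a + b‖ ^ 2 = ‖a‖ ^ 2 + ‖b‖ ^ 2 := by
  have h1 := isP_norm_sq hA (a + b)
  rw [map_add, ha, hb, zero_add, add_sub_cancel_right] at h1
  rw [h1]
  ring

private theorem tele2_step (hP : ∀ k, IsP (P k))
    (hPP : ∀ j k, j ≠ k → ∀ v, P j (P k v) = P k (P j v)) (k : K) (L : List K)
    (hL : (k :: L).Nodup) (x : V) :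
    ‖x - tele2_L P (k :: L) x‖ ^ 2 =
      ‖x - P k x‖ ^ 2 + ‖P k x - tele2_L P L (P k x)‖ ^ 2 := by
  have h1 := List.nodup_cons.1 hL
  have hc : ∀ v, P k (tele2_L P L v) = tele2_L P L (P k v) := fun v =>
    tele2_comm P (P k) L (fun j hj w => hPP k j (fun e => h1.1 (e ▸ hj)) w) v
  have h2 : x - tele2_L P (k :: L) x = (x - P k x) + (P k x - tele2_L P L (P k x)) := by
    rw [tele2_cons, hc]
    abel
  rw [h2]
  refine tele2_pyth (hP k) _ _ ?_ ?_
  · rw [map_sub, (hP k).2, sub_self]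
  · rw [map_sub, (hP k).2, hc, (hP k).2]

private theorem tele2_main (hP : ∀ k, IsP (P k)) (hQ : ∀ k, IsP (Q k))
    (hle : ∀ k v, P k v = v → Q k v = v) (hPP : ∀ j k, j ≠ k → ∀ v, P j (P k v) = P k (P j v))
    (hPQ : ∀ j k, j ≠ k → ∀ v, P j (Q k v) = Q k (P j v))
    (hQQ : ∀ j k, j ≠ k → ∀ v, Q j (Q k v) = Q k (Q j v)) (U : Submodule ℂ V)
    (hU : ∀ k, ∀ v ∈ U, P k v ∈ U) {c : ℝ}
    (h : ∀ k, ∀ x ∈ U, c * ‖x - P k x‖ ^ 2 ≤ ‖x - Q k x‖ ^ 2) (L : List K) (hL : L.Nodup) :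
    ∀ x ∈ U, c * ‖x - tele2_L P L x‖ ^ 2 ≤ ‖x - tele2_L Q L x‖ ^ 2 := by
  induction L with
  | nil =>
    intro x _
    change c * ‖x - x‖ ^ 2 ≤ ‖x - x‖ ^ 2
    rw [sub_self, norm_zero]
    simp
  | cons k L ih =>
    intro x hx
    have h1 := List.nodup_cons.1 hL
    have h2 := ih h1.2 (P k x) (hU k x hx)
    have h3 : P k x - tele2_L Q L (P k x) = P k (x - tele2_L Q L x) := by
      rw [map_sub, tele2_comm Q (P k) L fun j hj w => hPQ k j (fun e => h1.1 (e ▸ hj)) w]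
    have h4 : Q k x - tele2_L Q L (Q k x) = Q k (x - tele2_L Q L x) := by
      rw [map_sub, tele2_comm Q (Q k) L fun j hj w => hQQ k j (fun e => h1.1 (e ▸ hj)) w]
    have h5 : ‖P k (x - tele2_L Q L x)‖ ≤ ‖Q k (x - tele2_L Q L x)‖ :=
      isP_le_norm (hQ k) (hP k) (hle k) _
    rw [tele2_step P hP hPP k L hL x, tele2_step Q hQ hQQ k L hL x, h4]
    rw [h3] at h2
    have h6 := h k x hx
    have h7 := pow_le_pow_left₀ (norm_nonneg _) h5 2
    rw [mul_add]
    linarith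

end

/-- Telescoping over the types.

Proof. For a list `L` of different elements of `K` let `PL x = L.foldr (fun k y => P k y) x`, the
same for `Q`. Claim: for `x ∈ U`, `c * ‖x - PL x‖² ≤ ‖x - QL x‖²`. Induction: `k :: L`, with
`P (PL x) = PL (P x)` (commutation):
`‖x - PL (P x)‖² = ‖x - P x‖² + ‖P x - PL (P x)‖²` (the second vector is fixed by `P = P k`, the
first is killed by it), `P x ∈ U`, so `c * ‖..‖² ≤ ‖x - Q x‖² + ‖P x - QL (P x)‖²`,
`P x - QL (P x) = P (x - QL x)`, norm at most `‖Q (x - QL x)‖` (`isP_le_norm`), and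
`‖x - QL (Q x)‖² = ‖x - Q x‖² + ‖Q x - QL (Q x)‖²`. Take `L = Finset.univ.toList`, `y = PL x`, fixed
by all `P k`. `‖x - QL x‖ ≤ ‖x - z‖`: `QL z = z`, and `QL` is a product of commuting projections,
so a projection (`isP_comp`), and `x - z = (x - QL x) + QL (x - z)` is orthogonal. -/
theorem tele2 {V : Type} [NormedAddCommGroup V] [InnerProductSpace ℂ V] {K : Type} [Fintype K]
    (P Q : K → V →ₗ[ℂ] V) (hP : ∀ k, IsP (P k)) (hQ : ∀ k, IsP (Q k))
    (hle : ∀ k v, P k v = v → Q k v = v) (hPP : ∀ j k, j ≠ k → ∀ v, P j (P k v) = P k (P j v))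
    (hPQ : ∀ j k, j ≠ k → ∀ v, P j (Q k v) = Q k (P j v))
    (hQQ : ∀ j k, j ≠ k → ∀ v, Q j (Q k v) = Q k (Q j v)) (U : Submodule ℂ V)
    (hU : ∀ k, ∀ v ∈ U, P k v ∈ U) {c : ℝ} (hc : 0 ≤ c)
    (h : ∀ k, ∀ x ∈ U, c * ‖x - P k x‖ ^ 2 ≤ ‖x - Q k x‖ ^ 2) (x : V) (hx : x ∈ U) (z : V)
    (hz : ∀ k, Q k z = z) : ∃ y, (∀ k, P k y = y) ∧ c * ‖x - y‖ ^ 2 ≤ ‖x - z‖ ^ 2 := by
  have hL : (Finset.univ : Finset K).toList.Nodup := Finset.nodup_toList _
  obtain ⟨L, hLe⟩ : ∃ L, L = (Finset.univ : Finset K).toList := ⟨_, rfl⟩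
  rw [← hLe] at hL
  refine ⟨tele2_L P L x, fun k => ?_, ?_⟩
  · refine tele2_fix P hP hPP L hL k ?_ x
    rw [hLe]
    exact Finset.mem_toList.2 (Finset.mem_univ k)
  · refine (tele2_main P Q hP hQ hle hPP hPQ hQQ U hU h L hL x hx).trans ?_
    have hz' : ∀ L : List K, tele2_L Q L z = z := by
      intro L
      induction L with
      | nil => rfl
      | cons k L ih => rw [tele2_cons, ih, hz]
    have h1 := isP_norm_sq (tele2_isP Q hQ hQQ L hL) (x - z)
    have h2 : x - z - tele2_L Q L (x - z) = x - tele2_L Q L x := by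
      rw [map_sub, hz' L]
      abel
    rw [h2] at h1
    rw [h1]
    linarith [sq_nonneg ‖tele2_L Q L (x - z)‖]

end Pool.Agent.MPfe8e9bM
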