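import Mathlib
import Pool.Agent.Lib.MP_fe8e9b_al_M.Defs
import Pool.Agent.Lib.MP_fe8e9b_al_M.PrB
import Pool.Agent.Lib.MP_fe8e9b_al_M.AlB
import Pool.Agent.Lib.MP_fe8e9b_al_M.LemS
import Pool.Agent.Lib.MP_fe8e9b_al_M.Tele2
import Pool.Agent.Lib.MP_fe8e9b_al_M.QGap
import Pool.Agent.Lib.MP_fe8e9b_al_M.LDat

/-!
# MP_fe8e9b_al, groups of bounded height: the main estimate
-/

set_option autoImplicit false

open scoped BigOperators

namespace Pool.Agent.MPfe8e9bM

open Pool.Agent.MPfe8e9b Pool.Agent.MPfe8e9bA Pool.Agent.MPfe8e9bW Pool.Agent.MPfe8e9bV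

/-- Averages of commuting actions commute. -/
theorem maine_av {V H H' : Type} [NormedAddCommGroup V] [InnerProductSpace ℂ V] [Group H]
    [Fintype H] [Group H'] [Fintype H'] (α : H →* (V ≃ₗᵢ[ℂ] V)) (β : H' →* (V ≃ₗᵢ[ℂ] V))
    (h : ∀ a b v, α a (β b v) = β b (α a v)) (v : V) : av α (av β v) = av β (av α v) := by
  have h1 : ∀ b, av α (β b v) = β b (av α v) := fun b =>
    (av_comm α (β b) (Equiv.refl H) (fun a w => (h a b w).symm) v).symm
  rw [av_apply β v, av_apply β (av α v), map_smul, map_sum]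
  congr 1
  exact Finset.sum_congr rfl fun b _ => h1 b

/-- Elements of different types commute. -/
theorem maine_comm {G K : Type} [Group G] {Y T : K → Type} [∀ k, Group (T k)]
    (Ψ : (∀ k, Y k → T k) →* G) (T0 : ∀ k, Subgroup (T k)) {j k : K} (hjk : j ≠ k)
    (u : Y j → T0 j) (u' : Y k → T0 k) :
    u0 Ψ T0 j u * u0 Ψ T0 k u' = u0 Ψ T0 k u' * u0 Ψ T0 j u := by
  classical
  have h1 := Pi.mulSingle_commute (f := fun k => Y k → T k) hjk (fun y => (u y : T j))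
    (fun y => (u' y : T k))
  have h2 := congrArg Ψ h1.eq
  rw [map_mul, map_mul] at h2
  exact h2

/-- Induction over the types. -/
theorem maine_ind {G K : Type} [Group G] [Fintype K] {Y T : K → Type} [∀ k, Group (T k)]
    (Ψ : (∀ k, Y k → T k) →* G) (T0 : ∀ k, Subgroup (T k)) (p : G → Prop) (h1 : p 1)
    (hm : ∀ a b, p a → p b → p (a * b)) (h : ∀ k (u : Y k → T0 k), p (u0 Ψ T0 k u))
    (u : ∀ k, Y k → T k) (hu : ∀ k y, u k y ∈ T0 k) : p (Ψ u) := by
  classical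
  have key : ∀ U : Finset K, p (Ψ (fun k => if k ∈ U then u k else 1)) := by
    intro U
    induction U using Finset.induction_on with
    | empty =>
      have h2 : (fun k => if k ∈ (∅ : Finset K) then u k else 1) = (1 : ∀ k, Y k → T k) := by
        funext k
        simp
      rw [h2, map_one]
      exact h1
    | insert k U hk ih =>
      have h2 : (fun k' => if k' ∈ insert k U then u k' else 1) =
          (Pi.mulSingle k (fun y => (((⟨u k y, hu k y⟩ : T0 k)) : T k)) : ∀ k, Y k → T k) *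
            (fun k' => if k' ∈ U then u k' else 1) := by
        funext k'
        rw [Pi.mul_apply]
        by_cases hkk : k' = k
        · subst hkk
          rw [Pi.mulSingle_eq_same, if_pos (Finset.mem_insert_self _ _), if_neg hk, mul_one]
        · rw [Pi.mulSingle_eq_of_ne hkk, one_mul]
          simp only [Finset.mem_insert, hkk, false_or]
      rw [h2, map_mul]
      exact hm _ _ (h k fun y => ⟨u k y, hu k y⟩) ih
  have h2 := key Finset.univ
  simpa using h2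

/-- Composition of displacements. -/
theorem maine_mul {G : Type} [Group G] {V : Type} [NormedAddCommGroup V]
    [InnerProductSpace ℂ V] (ρ : G →* (V ≃ₗᵢ[ℂ] V)) (v : V) (a b : G) :
    ‖ρ (a * b) v - v‖ ≤ ‖ρ a v - v‖ + ‖ρ b v - v‖ := by
  have h1 : ρ (a * b) v - v = ρ a (ρ b v - v) + (ρ a v - v) := by
    rw [map_mul, map_sub]
    change ρ a (ρ b v) - v = ρ a (ρ b v) - ρ a v + (ρ a v - v)
    abel
  rw [h1]
  refine (norm_add_le _ _).trans ?_
  rw [LinearIsometryEquiv.norm_map]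
  linarith

theorem maine_inv {G : Type} [Group G] {V : Type} [NormedAddCommGroup V]
    [InnerProductSpace ℂ V] (ρ : G →* (V ≃ₗᵢ[ℂ] V)) (v : V) (a : G) :
    ‖ρ a⁻¹ v - v‖ = ‖ρ a v - v‖ := by
  have h1 : ρ a v - v = ρ a (v - ρ a⁻¹ v) := by
    rw [map_sub]
    have h2 : ρ a (ρ a⁻¹ v) = ρ (a * a⁻¹) v := by
      rw [map_mul]
      rfl
    rw [h2, mul_inv_cancel, map_one]
    rfl
  rw [h1, LinearIsometryEquiv.norm_map, norm_sub_rev]

theorem maine_list {G : Type} [Group G] {V : Type} [NormedAddCommGroup V]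
    [InnerProductSpace ℂ V] (ρ : G →* (V ≃ₗᵢ[ℂ] V)) (v : V) (D : ℝ) (L : List G)
    (h : ∀ g ∈ L, ‖ρ g v - v‖ ≤ D) : ‖ρ L.prod v - v‖ ≤ (L.length : ℝ) * D := by
  induction L with
  | nil =>
    rw [List.prod_nil, map_one]
    change ‖v - v‖ ≤ _
    simp
  | cons a L ih =>
    rw [List.prod_cons]
    refine (maine_mul ρ v a L.prod).trans ?_
    have h1 := h a List.mem_cons_self
    have h2 := ih fun g hg => h g (List.mem_cons_of_mem a hg)
    rw [List.length_cons]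
    push_cast
    linarith

/-- The displacement of a near vector. -/
theorem maine_near {G : Type} [Group G] {V : Type} [NormedAddCommGroup V]
    [InnerProductSpace ℂ V] (ρ : G →* (V ≃ₗᵢ[ℂ] V)) (x y : V) (g : G) :
    ‖ρ g y - y‖ ≤ ‖ρ g x - x‖ + 2 * ‖x - y‖ := by
  have h1 : ρ g y - y = (ρ g x - x) + (x - y) - ρ g (x - y) := by
    rw [map_sub]
    abel
  rw [h1]
  refine (norm_sub_le _ _).trans ?_
  rw [LinearIsometryEquiv.norm_map]
  have h2 := norm_add_le (ρ g x - x) (x - y)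
  linarith

/-- The identical label. -/
theorem maine_clf {Z G : Type} [Fintype Z] [Group G] (f : Z → G) :
    clf G Finset.univ (fun y : Z => y) f = f := by
  funext y
  exact clf_apply f (Finset.mem_univ y)

/-- Many types: from the letters to the elements with coordinates in `T0`.

Let `x1` be invariant under `ad H`, and let all `lm G (Ψ (phi lab f))`, `f` with values in `T0`,
move `x1` by at most `δ`. Then all elements `Ψ u`, `u` with values in `T0`, move `x1` by at most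
`2 δ / √κ`.

Proof. `tele2` with `K`, `P k = Al ((lm G).comp (u0 Ψ T0 k)) univ (fun y => y)`,
`Q k = Al ((lm G).comp (u0 Ψ T0 k)) univ (lab k)`, `U` the space of the vectors fixed by `ad G h`,
`h ∈ H`. `hle`: `al_coarse`. Commutation for `j ≠ k`: the elements `u0 Ψ T0 j u` and
`u0 Ψ T0 k u'` commute (`Pi.mulSingle_commute`, `Ψ` is a homomorphism), so the averages commute
(`av_apply`, sums). `hU`: for `h ∈ H` and `e` from `hD.nrm h`, `ad G h (lm G (u0 Ψ T0 k u) v) =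
lm G (u0 Ψ T0 k (e u)) (ad G h v)` (`ad_lm`), so `ad G h` commutes with `P k` (`P k` is the average
over all `u : Y k → T0 k`: reindex by `e`; `clf _ univ (fun y => y)` is the identity). `h` is
`hE`. `z` = the average of `x1` over the group `∀ k, S k → T0 k` acting by
`lm G (Ψ (phi lab (coe f)))`; `‖x1 - z‖ ≤ δ` (`norm_sub_av_le`), `Q k z = z` for all `k` (`al_fix`:
`u0 Ψ T0 k (clf _ univ (lab k) f) = Ψ (phi lab (mulSingle k f))`). So there is `y` fixed by all
`P k` with `κ ‖x1 - y‖² ≤ δ²`. `Ψ u` for `u` with values in `T0` is the product over `k` of the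
`u0 Ψ T0 k (u k)` (they commute; by induction on a finite set of types, or
`Finset.noncommProd`), so it fixes `y`, and moves `x1` by at most `2 ‖x1 - y‖`
(`disp_le_of_fix`). -/
theorem me_types {G K : Type} [Group G] [Fintype G] [Fintype K] {Y S T : K → Type}
    [∀ k, Fintype (Y k)] [∀ k, Fintype (S k)] [∀ k, Group (T k)] [∀ k, Fintype (T k)]
    {C : ℕ} {Ψ : (∀ k, Y k → T k) →* G} {T0 : ∀ k, Subgroup (T k)} [∀ k, Fintype (T0 k)]
    {H : Subgroup G} (hD : LD C Ψ T0 H) (lab : ∀ k, Y k → S k) {κ : ℝ} (hκ : 0 < κ)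
    (hE : Est Ψ T0 H lab κ) (x1 : EuclideanSpace ℂ (G × G)) (hx1 : ∀ h ∈ H, ad G h x1 = x1)
    {δ : ℝ} (hδ : 0 ≤ δ)
    (hf : ∀ f : ∀ k, S k → T k, (∀ k s, f k s ∈ T0 k) → ‖lm G (Ψ (phi lab f)) x1 - x1‖ ≤ δ)
    (u : ∀ k, Y k → T k) (hu : ∀ k y, u k y ∈ T0 k) :
    ‖lm G (Ψ u) x1 - x1‖ ≤ 2 * (δ / Real.sqrt κ) := by
  classical
  set P : ∀ k, EuclideanSpace ℂ (G × G) →ₗ[ℂ] EuclideanSpace ℂ (G × G) := fun k =>
    Al ((lm G).comp (u0 Ψ T0 k)) Finset.univ (fun y : Y k => y) with hP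
  set Q : ∀ k, EuclideanSpace ℂ (G × G) →ₗ[ℂ] EuclideanSpace ℂ (G × G) := fun k =>
    Al ((lm G).comp (u0 Ψ T0 k)) Finset.univ (lab k) with hQ
  have hlm : ∀ (a b : G) (w : EuclideanSpace ℂ (G × G)), lm G a (lm G b w) = lm G (a * b) w := by
    intro a b w
    rw [map_mul]
    rfl
  have hcom : ∀ j k, j ≠ k → ∀ (u : Y j → T0 j) (u' : Y k → T0 k)
      (w : EuclideanSpace ℂ (G × G)), lm G (u0 Ψ T0 j u) (lm G (u0 Ψ T0 k u') w) =
        lm G (u0 Ψ T0 k u') (lm G (u0 Ψ T0 j u) w) := by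
    intro j k hjk u u' w
    rw [hlm, hlm, maine_comm Ψ T0 hjk]
  let U : Submodule ℂ (EuclideanSpace ℂ (G × G)) :=
    { carrier := {x | ∀ h ∈ H, ad G h x = x}
      add_mem' := fun {a b} ha hb h hh => by rw [map_add, ha h hh, hb h hh]
      zero_mem' := fun h _ => map_zero _
      smul_mem' := fun c a ha h hh => by rw [map_smul, ha h hh] }
  have hU : ∀ k, ∀ w ∈ U, P k w ∈ U := by
    intro k w hw h hh
    obtain ⟨e, he⟩ := hD.nrm h hh k
    have h1 := av_comm (((lm G).comp (u0 Ψ T0 k)).comp (clf (T0 k) Finset.univ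
      (fun y : Y k => y))) (ad G h) e (fun f w' => by
        change ad G h (lm G (u0 Ψ T0 k (clf (T0 k) Finset.univ (fun y : Y k => y) f)) w') =
          lm G (u0 Ψ T0 k (clf (T0 k) Finset.univ (fun y : Y k => y) (e f))) (ad G h w')
        rw [maine_clf, maine_clf, ad_lm, he]) w
    rw [hw h hh] at h1
    exact h1
  -- the average over the functions of the labels
  let cz : (∀ k, S k → T0 k) →* (∀ k, S k → T k) :=
    { toFun := fun f k s => (f k s : T k)
      map_one' := rfl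
      map_mul' := fun _ _ => rfl }
  let β : (∀ k, S k → T0 k) →* (EuclideanSpace ℂ (G × G) ≃ₗᵢ[ℂ] EuclideanSpace ℂ (G × G)) :=
    (lm G).comp (Ψ.comp ((phi lab).comp cz))
  have hz1 : ‖x1 - av β x1‖ ≤ δ :=
    norm_sub_av_le β x1 fun f => hf (cz f) fun k s => (f k s).2
  have hz2 : ∀ k, Q k (av β x1) = av β x1 := by
    intro k
    refine (al_fix ((lm G).comp (u0 Ψ T0 k)) Finset.univ (lab k) (av β x1)).2 fun f => ?_
    have h1 := rho_av β (Pi.mulSingle k f) x1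
    have h2 : Ψ (phi lab (cz (Pi.mulSingle k f))) =
        u0 Ψ T0 k (clf (T0 k) Finset.univ (lab k) f) := by
      change Ψ _ = Ψ _
      congr 1
      funext k' y
      change ((Pi.mulSingle k f : ∀ k, S k → T0 k) k' (lab k' y) : T k') =
        (Pi.mulSingle k (fun y => ((clf (T0 k) Finset.univ (lab k) f y : T0 k) : T k)) :
          ∀ k, Y k → T k) k' y
      by_cases hk : k' = k
      · subst hk
        rw [Pi.mulSingle_eq_same, Pi.mulSingle_eq_same, clf_apply f (Finset.mem_univ y)]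
      · rw [Pi.mulSingle_eq_of_ne hk, Pi.mulSingle_eq_of_ne hk]
        rfl
    change lm G (Ψ (phi lab (cz (Pi.mulSingle k f)))) (av β x1) = av β x1 at h1
    rw [h2] at h1
    exact h1
  obtain ⟨y, hy1, hy2⟩ := tele2 P Q (fun k => al_isP _ _ _) (fun k => al_isP _ _ _)
    (fun k v hv => al_coarse ((lm G).comp (u0 Ψ T0 k)) Finset.univ (lab k) (fun y : Y k => y)
      (fun y _ y' _ h => by rw [h]) v hv)
    (fun j k hjk v => maine_av _ _ (fun a b w => hcom j k hjk _ _ w) v)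
    (fun j k hjk v => maine_av _ _ (fun a b w => hcom j k hjk _ _ w) v)
    (fun j k hjk v => maine_av _ _ (fun a b w => hcom j k hjk _ _ w) v)
    U hU hκ.le (fun k x hx => hE k x hx) x1 hx1 (av β x1) hz2
  have hfix : lm G (Ψ u) y = y := by
    refine maine_ind Ψ T0 (fun g => lm G g y = y) ?_ ?_ ?_ u hu
    · rw [map_one]
      rfl
    · intro a b ha hb
      rw [← hlm, show lm G b y = y from hb, show lm G a y = y from ha]
    · intro k f
      have h1 := (al_fix ((lm G).comp (u0 Ψ T0 k)) Finset.univ (fun y : Y k => y) y).1 (hy1 k) f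
      rw [maine_clf] at h1
      exact h1
  have h1 : ‖x1 - y‖ ≤ δ / Real.sqrt κ := by
    have h2 : κ * ‖x1 - y‖ ^ 2 ≤ δ ^ 2 := hy2.trans (pow_le_pow_left₀ (norm_nonneg _) hz1 2)
    have h3 : 0 < Real.sqrt κ := Real.sqrt_pos.2 hκ
    rw [le_div_iff₀ h3]
    refine le_of_sq_le_sq ?_ hδ
    rw [mul_pow, Real.sq_sqrt hκ.le]
    linarith
  have h2 := disp_le_of_fix (v := x1) (lm G) hfix
  linarith


/-- The elements with coordinates in `T0` commute with the intersection of `H` and the range.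

Proof. `hD.cmA` and the product decomposition of `Ψ u` (see `me_types`). -/
theorem me_comm {G K : Type} [Group G] [Fintype K] {Y T : K → Type} [∀ k, Group (T k)]
    {C : ℕ} {Ψ : (∀ k, Y k → T k) →* G} {T0 : ∀ k, Subgroup (T k)} {H : Subgroup G}
    (hD : LD C Ψ T0 H) (a : G) (ha : a ∈ H) (ha' : a ∈ Ψ.range) (u : ∀ k, Y k → T k)
    (hu : ∀ k y, u k y ∈ T0 k) : a * Ψ u = Ψ u * a := by
  refine maine_ind Ψ T0 (fun g => a * g = g * a) (by rw [mul_one, one_mul]) ?_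
    (fun k f => hD.cmA a ha ha' k f) u hu
  intro g g' h h'
  rw [← mul_assoc, h, mul_assoc, h', mul_assoc]

/-- From `T0` to `T`: if all elements `Ψ u`, `u` with values in `T0`, move `v` by at most `δ`, and
all `Ψ (phi lab f)` move `v` by at most `δ'`, then all elements of the range of `Ψ` move `v` by at
most `C (2 δ' + δ)`.

Proof. `c` from `hD.prd`; for `t : ∀ k, Y k → T k` choose for all `k`, `y` the `x j` and put
`X j k y = x j`; `t = (List.ofFn fun j => cc j * X j * (cc j)⁻¹).prod` in `∀ k, Y k → T k`, with the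
constants `cc j = fun k _ => c j k = phi lab (fun k _ => c j k)`. `Ψ` of it is the product of the
`Ψ (cc j) * Ψ (X j) * (Ψ (cc j))⁻¹`, each moves `v` by at most `2 δ' + δ`. -/
theorem me_prod {G K : Type} [Group G] {Y S T : K → Type} [∀ k, Group (T k)]
    {C : ℕ} {Ψ : (∀ k, Y k → T k) →* G} {T0 : ∀ k, Subgroup (T k)} {H : Subgroup G}
    (hD : LD C Ψ T0 H) (lab : ∀ k, Y k → S k) {V : Type} [NormedAddCommGroup V]
    [InnerProductSpace ℂ V] (ρ : G →* (V ≃ₗᵢ[ℂ] V)) (v : V) {δ δ' : ℝ}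
    (h1 : ∀ u : ∀ k, Y k → T k, (∀ k y, u k y ∈ T0 k) → ‖ρ (Ψ u) v - v‖ ≤ δ)
    (h2 : ∀ f : ∀ k, S k → T k, ‖ρ (Ψ (phi lab f)) v - v‖ ≤ δ') (t : ∀ k, Y k → T k) :
    ‖ρ (Ψ t) v - v‖ ≤ (C : ℝ) * (2 * δ' + δ) := by
  obtain ⟨c, hc⟩ := hD.prd
  choose x hx using fun (k : K) (y : Y k) => hc k (t k y)
  have h3 : t = (List.ofFn fun j => (fun (k : K) (_ : Y k) => c j k) *
      (fun (k : K) (y : Y k) => (x k y j : T k)) *
      (fun (k : K) (_ : Y k) => c j k)⁻¹).prod := by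
    funext k y
    let ev : (∀ k, Y k → T k) →* T k :=
      (Pi.evalMonoidHom (fun _ : Y k => T k) y).comp (Pi.evalMonoidHom (fun k => Y k → T k) k)
    have h30 : ev (List.ofFn fun j => (fun (k : K) (_ : Y k) => c j k) *
        (fun (k : K) (y : Y k) => (x k y j : T k)) *
        (fun (k : K) (_ : Y k) => c j k)⁻¹).prod =
        (List.ofFn fun j => c j k * (x k y j : T k) * (c j k)⁻¹).prod := by
      rw [map_list_prod, List.map_ofFn]
      rfl
    exact (hx k y).trans h30.symm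
  have h4 : Ψ t = (List.ofFn fun j => Ψ (fun (k : K) (_ : Y k) => c j k) *
      Ψ (fun (k : K) (y : Y k) => (x k y j : T k)) *
      (Ψ (fun (k : K) (_ : Y k) => c j k))⁻¹).prod := by
    rw [h3, map_list_prod, List.map_ofFn]
    congr 2
    funext j
    rw [Function.comp_apply, map_mul, map_mul, map_inv]
  have h5 := maine_list ρ v (2 * δ' + δ) (List.ofFn fun j =>
      Ψ (fun (k : K) (_ : Y k) => c j k) * Ψ (fun (k : K) (y : Y k) => (x k y j : T k)) *
      (Ψ (fun (k : K) (_ : Y k) => c j k))⁻¹) (by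
    intro g hg
    obtain ⟨j, rfl⟩ := (List.mem_ofFn' _ _).1 hg
    have h6 := maine_mul ρ v (Ψ (fun (k : K) (_ : Y k) => c j k) *
      Ψ (fun (k : K) (y : Y k) => (x k y j : T k))) (Ψ (fun (k : K) (_ : Y k) => c j k))⁻¹
    have h7 := maine_mul ρ v (Ψ (fun (k : K) (_ : Y k) => c j k))
      (Ψ (fun (k : K) (y : Y k) => (x k y j : T k)))
    rw [maine_inv] at h6
    have h8 : ‖ρ (Ψ (fun (k : K) (_ : Y k) => c j k)) v - v‖ ≤ δ' := h2 fun k _ => c j k
    have h9 := h1 (fun k y => (x k y j : T k)) fun k y => (x k y j).2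
    linarith)
  rw [List.length_ofFn, ← h4] at h5
  exact h5

/-- The main estimate.

Proof. Choose `δ₀` below; suppose that all letters move the unit vector `v` by at most `δ ≤ δ₀`.
(1) `gap_disp` for the group `∀ k, S k → T k`, the tuple `xs` and the representation
`ρ.comp (Ψ.comp (phi lab))`: all `Ψ (phi lab f)` move `v` by at most `δ1 = 2 √(kK / κK) δ`.
(2) `lem_s` for `A = H ⊓ Ψ.range` (normal in `H` as the range is normal) gives `x`, `‖x‖ = 1`.
(3) `quot_gap` for the group `H`, `π : H →* G ⧸ N` (`N = Ψ.range`; onto by `hD.cov`; the kernel is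
`A`), the tuple `s`, `β = (ad G).comp H.subtype`: with `x1 = av β x` (fixed by all `ad G h`,
`h ∈ H`): `κQ ‖x - x1‖² ≤ ∑ ‖ad G (s i) x - x‖² ≤ 2 kQ δ`. Let `θ = ‖x - x1‖`,
`θ² ≤ 2 kQ δ / κQ`.
(4) For `f` with values in `T0`: `Ψ (phi lab f)` commutes with `A` (`me_comm`), so it moves `x` as
it moves `v` (`lem_s`), at most `δ1`, and `x1` at most `δ1 + 2 θ`.
(5) `me_types`: `Ψ u`, `u` with values in `T0`, moves `x1` by at most `2 (δ1 + 2 θ) / √κ1`, `x` by
at most that plus `2 θ`, and `v` by the same (`me_comm`, `lem_s`).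
(6) `me_prod`: all elements of the range move `v` by at most
`C (2 δ1 + 2 (δ1 + 2 θ) / √κ1 + 2 θ)`. This contradicts `big_disp` for the range (`hv`) if it is
less than `1`. As `δ1 ≤ c₁ δ ≤ c₁ √δ` and `θ ≤ c₂ √δ` for `δ ≤ 1`, it is at most `c₃ √δ` and
`δ₀ = min 1 (1 / (2 c₃ + 2))²` is fine. -/
theorem main_e (kK kQ C : ℕ) {κK κQ κ1 : ℝ} (hκK : 0 < κK) (hκQ : 0 < κQ) (hκ1 : 0 < κ1) :
    ∃ δ₀ : ℝ, 0 < δ₀ ∧ ∀ (G K : Type) [Group G] [Fintype G] [Fintype K] (Y S T : K → Type)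
    [∀ k, Fintype (Y k)] [∀ k, Fintype (S k)] [∀ k, Group (T k)] [∀ k, Fintype (T k)]
    [Fintype (∀ k, S k → T k)]
    (Ψ : (∀ k, Y k → T k) →* G) (T0 : ∀ k, Subgroup (T k)) [∀ k, Fintype (T0 k)]
    (H : Subgroup G) (_ : LD C Ψ T0 H) (lab : ∀ k, Y k → S k) (_ : Est Ψ T0 H lab κ1)
    (N : Subgroup G) [N.Normal] [Fintype (G ⧸ N)] [Fintype N] (_ : N = Ψ.range)
    (s : Fin kQ → G) (_ : ∀ i, s i ∈ H) (_ : Gap (fun i => (s i : G ⧸ N)) κQ)
    (xs : Fin kK → ∀ k, S k → T k) (_ : Gap xs κK)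
    (V : Type) [NormedAddCommGroup V] [InnerProductSpace ℂ V] [FiniteDimensional ℂ V]
    (ρ : G →* (V ≃ₗᵢ[ℂ] V)) (v : V), av (ρ.comp N.subtype) v = 0 → ‖v‖ = 1 →
    (∃ i, δ₀ < ‖ρ (s i) v - v‖) ∨ ∃ j, δ₀ < ‖ρ (Ψ (phi lab (xs j))) v - v‖ := by
  classical
  obtain ⟨c1', hc1'⟩ : ∃ c, c = 2 * Real.sqrt ((kK : ℝ) / κK) := ⟨_, rfl⟩
  obtain ⟨c2', hc2'⟩ : ∃ c, c = Real.sqrt (2 * (kQ : ℝ) / κQ) := ⟨_, rfl⟩
  have hc1 : 0 ≤ c1' := by rw [hc1']; positivity
  have hc2 : 0 ≤ c2' := by rw [hc2']; positivity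
  have hr : 0 < Real.sqrt κ1 := Real.sqrt_pos.2 hκ1
  obtain ⟨c3, hc3'⟩ : ∃ c, c = (C : ℝ) * (2 * c1' + (2 * ((c1' + 2 * c2') / Real.sqrt κ1) +
    2 * c2')) := ⟨_, rfl⟩
  have hc3 : 0 ≤ c3 := by rw [hc3']; positivity
  obtain ⟨e, he'⟩ : ∃ e : ℝ, e = 1 / (c3 + 1) := ⟨_, rfl⟩
  have he : 0 < e := by rw [he']; positivity
  have he1 : e ≤ 1 := by
    rw [he', div_le_one (by linarith)]
    linarith
  have hce : c3 * e < 1 := by
    rw [he', mul_one_div, div_lt_one (by linarith)]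
    linarith
  refine ⟨e ^ 2, by positivity, ?_⟩
  intro G K _ _ _ Y S T _ _ _ _ _ Ψ T0 _ H hD lab hE N _ _ _ hN s hs hgs xs hxs V _ _ _ ρ v
    hv hv1
  by_contra hcon
  push Not at hcon
  obtain ⟨hc4, hc5⟩ := hcon
  have hee : e ^ 2 ≤ e := by nlinarith
  -- (1)
  have hA1 : ∀ f : ∀ k, S k → T k, ‖ρ (Ψ (phi lab f)) v - v‖ ≤ c1' * e := by
    intro f
    have h1 := gap_disp hκK hxs (ρ.comp (Ψ.comp (phi lab))) v (sq_nonneg e) (fun j => hc5 j) f
    change ‖ρ (Ψ (phi lab f)) v - v‖ ≤ _ at h1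
    rw [← hc1'] at h1
    exact h1.trans (mul_le_mul_of_nonneg_left hee hc1)
  -- (2)
  obtain ⟨x, hx1, hx2, hx3, hx4⟩ := lem_s (H ⊓ Ψ.range) H (fun h hh a ha =>
    ⟨H.mul_mem (H.mul_mem hh ha.1) (H.inv_mem hh), hD.nml.conj_mem a ha.2 h⟩) ρ v
  have hx5 : ∀ u : ∀ k, Y k → T k, (∀ k y, u k y ∈ T0 k) →
      ‖lm G (Ψ u) x - x‖ = ‖ρ (Ψ u) v - v‖ := fun u hu =>
    hx2 (Ψ u) fun a ha => me_comm hD a ha.1 ha.2 u hu
  -- (3)
  have : Fintype H := Fintype.ofFinite H
  have hsurj : Function.Surjective ((QuotientGroup.mk' N).comp H.subtype) := by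
    intro q
    obtain ⟨g, rfl⟩ := QuotientGroup.mk_surjective q
    obtain ⟨h, hh, n, hn, rfl⟩ := hD.cov g
    refine ⟨⟨h, hh⟩, ?_⟩
    change (QuotientGroup.mk h : G ⧸ N) = QuotientGroup.mk (h * n)
    rw [QuotientGroup.eq, inv_mul_cancel_left, hN]
    exact hn
  have hq := quot_gap ((QuotientGroup.mk' N).comp H.subtype) hsurj
    (s := fun i => (⟨s i, hs i⟩ : H)) (κ := κQ) hgs ((ad G).comp H.subtype) x (by
      intro a ha
      have h1 : (a : G) ∈ N := (QuotientGroup.eq_one_iff (a : G)).1 ha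
      rw [hN] at h1
      exact hx4 a ⟨a.2, h1⟩)
  obtain ⟨x1, hx1'⟩ : ∃ w, w = av ((ad G).comp H.subtype) x := ⟨_, rfl⟩
  rw [← hx1'] at hq
  have hfix : ∀ h ∈ H, ad G h x1 = x1 := by
    intro h hh
    rw [hx1']
    exact rho_av ((ad G).comp H.subtype) ⟨h, hh⟩ x
  have hth : ‖x - x1‖ ≤ c2' * e := by
    have h1 : ∀ i : Fin kQ, ‖ad G (s i) x - x‖ ^ 2 ≤ 2 * e ^ 2 := by
      intro i
      refine (hx3 (s i) (hs i)).trans ?_
      rw [hv1, mul_one]
      exact mul_le_mul_of_nonneg_left (hc4 i) zero_le_two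
    have h2 : κQ * ‖x - x1‖ ^ 2 ≤ kQ * (2 * e ^ 2) := by
      refine hq.trans ((Finset.sum_le_sum fun i _ => h1 i).trans_eq ?_)
      rw [Finset.sum_const, Finset.card_univ, Fintype.card_fin, nsmul_eq_mul]
    refine le_of_sq_le_sq ?_ (mul_nonneg hc2 he.le)
    rw [mul_pow, hc2', Real.sq_sqrt (by positivity), div_mul_eq_mul_div, le_div_iff₀ hκQ]
    linarith
  -- (4), (5)
  have hB : ∀ u : ∀ k, Y k → T k, (∀ k y, u k y ∈ T0 k) → ‖ρ (Ψ u) v - v‖ ≤
      2 * ((c1' * e + 2 * (c2' * e)) / Real.sqrt κ1) + 2 * (c2' * e) := by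
    intro u hu
    have h1 := me_types hD lab hκ1 hE x1 hfix (δ := c1' * e + 2 * (c2' * e)) (by positivity)
      (fun f hf => by
        have h2 := maine_near (lm G) x x1 (Ψ (phi lab f))
        rw [hx5 (phi lab f) fun k y => hf k (lab k y)] at h2
        have h3 := hA1 f
        linarith) u hu
    have h2 := maine_near (lm G) x1 x (Ψ u)
    rw [hx5 u hu, norm_sub_rev x1 x] at h2
    linarith
  -- (6)
  have hF := me_prod hD lab ρ v hB hA1
  obtain ⟨n, hn⟩ := big_disp (ρ.comp N.subtype) v hv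
  have hnN : (n : G) ∈ Ψ.range := by
    rw [← hN]
    exact n.2
  obtain ⟨t, ht⟩ := hnN
  have h1 : ‖v‖ ≤ ‖ρ (n : G) v - v‖ := hn
  have h2 := hF t
  rw [ht] at h2
  rw [hv1] at h1
  have h3 : (C : ℝ) * (2 * (c1' * e) +
      (2 * ((c1' * e + 2 * (c2' * e)) / Real.sqrt κ1) + 2 * (c2' * e))) = c3 * e := by
    rw [hc3']
    field_simp
  linarith

end Pool.Agent.MPfe8e9bM
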