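import Mathlib
import Pool.Agent.Lib.MP_fe8e9b_al_M.Defs
import Pool.Agent.Lib.MP_fe8e9b_al_M.CmpD

/-!
# MP_fe8e9b_al, groups of bounded height: structures on the model groups
-/

set_option autoImplicit false

open scoped BigOperators

namespace Pool.Agent.MPfe8e9bM

open Pool.Agent.MPfe8e9b Pool.Agent.MPfe8e9bA Pool.Agent.MPfe8e9bW Pool.Agent.MPfe8e9bV

/-- Automorphisms which fix `S0` are determined by the images of the conjugating elements.

Proof. `l ↦ (fun j => l (h j))` is injective on `cen S0`: `l t` is the product of the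
`l (h j) * x j * (l (h j))⁻¹`. So `card ≤ card (Fin c → T) = card T ^ c`. -/
theorem cen_card {T : Type} [Group T] [Finite T] (S0 : Subgroup T) {c : ℕ}
    (h : ∃ h : Fin c → T, ∀ t : T, ∃ x : Fin c → S0,
      t = (List.ofFn fun j => h j * (x j : T) * (h j)⁻¹).prod) :
    Nat.card (cen S0) ≤ Nat.card T ^ c := by
  obtain ⟨h, hh⟩ := h
  have h1 : Nat.card (Fin c → T) = Nat.card T ^ c := by
    rw [Nat.card_pi, Finset.prod_const, Finset.card_univ, Fintype.card_fin]
  rw [← h1]
  refine Nat.card_le_card_of_injective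
    (fun (l : cen S0) (j : Fin c) => (l : MulAut T) (h j)) ?_
  intro l l' hl
  apply Subtype.ext
  apply MulEquiv.ext
  intro t
  obtain ⟨x, hx⟩ := hh t
  have h2 : ∀ m : cen S0, (m : MulAut T) t =
      (List.ofFn fun j => (m : MulAut T) (h j) * (x j : T) * ((m : MulAut T) (h j))⁻¹).prod := by
    intro m
    conv_lhs => rw [hx]
    rw [map_list_prod, List.map_ofFn]
    refine congrArg List.prod (congrArg List.ofFn ?_)
    funext j
    show (m : MulAut T) (h j * (x j : T) * (h j)⁻¹) = _
    rw [map_mul, map_mul, map_inv, m.2 (x j : T) (x j).2]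
  rw [h2 l, h2 l']
  refine congrArg List.prod (congrArg List.ofFn ?_)
  funext j
  have h3 : (l : MulAut T) (h j) = (l' : MulAut T) (h j) := congrFun hl j
  rw [h3]

/-- Tame structures. Proof. `inn`: `l s = s` for `s ∈ S0`, so `t * s * t⁻¹ = s`; `stb` is clear;
`crd` is `cen_card`; `typ`: the first case. -/
theorem sg_tame {T : Type} [Group T] [Finite T] (S0 : Subgroup T) {c : ℕ}
    (hp : commutator S0 = ⊤) (h : ∃ h : Fin c → T, ∀ t : T, ∃ x : Fin c → S0,
      t = (List.ofFn fun j => h j * (x j : T) * (h j)⁻¹).prod) : SG c T S0 (cen S0) where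
  prf := hp
  inn := by
    rintro t ⟨l, hl, h1⟩ s hs
    have h2 := h1 s
    rw [hl s hs] at h2
    exact mul_inv_eq_iff_eq_mul.1 h2
  stb := fun l hl s hs => by rw [hl s hs]; exact hs
  prd := h
  crd := cen_card S0 h
  typ := Or.inl fun l hl s hs => hl s hs

/-- Transport. Proof. Straightforward: `commutator` of the isomorphic group
(`Subgroup.equivMapOfInjective`, perfect groups: the image of a perfect group is perfect); `inn`,
`stb`, `prd` through `e`; `crd`: `Nat.card` of an isomorphic group; `typ`: compose `φ` with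
`e.symm`. -/
theorem sg_transport {T T' : Type} [Group T] [Group T'] (e : T ≃* T') {S0 : Subgroup T}
    {L : Subgroup (MulAut T)} {c : ℕ} (h : SG c T S0 L) :
    SG c T' (S0.map e.toMonoidHom) (L.map (MulAut.congr e).toMonoidHom) where
  prf := by
    have h1 := Subgroup.map_commutator (⊤ : Subgroup S0) ⊤ (e.toMonoidHom.subgroupMap S0)
    have h2 := MonoidHom.range_eq_top.2 (e.toMonoidHom.subgroupMap_surjective S0)
    have h3 := h.prf
    rw [commutator_def] at h3 ⊢
    rw [h3, ← MonoidHom.range_eq_map, h2] at h1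
    exact h1.symm
  inn := by
    rintro t' ⟨l', ⟨l, hl, rfl⟩, h1⟩ s' ⟨s, hs, rfl⟩
    have h2 := h.inn (e.symm t') ⟨l, hl, fun r => ?_⟩ s hs
    · have h3 := congrArg e h2
      rw [map_mul, map_mul, e.apply_symm_apply] at h3
      exact h3
    · have h3 := congrArg e.symm (h1 (e r))
      rw [map_mul, map_mul, map_inv, e.symm_apply_apply] at h3
      rw [h3]
      show e.symm (e (l (e.symm (e r)))) = l r
      rw [e.symm_apply_apply, e.symm_apply_apply]
  stb := by
    rintro l' ⟨l, hl, rfl⟩ s' ⟨s, hs, rfl⟩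
    refine ⟨l s, h.stb l hl s hs, ?_⟩
    show e (l s) = e (l (e.symm (e s)))
    rw [e.symm_apply_apply]
  prd := by
    obtain ⟨h', hh⟩ := h.prd
    refine ⟨fun j => e (h' j), fun t' => ?_⟩
    obtain ⟨x, hx⟩ := hh (e.symm t')
    refine ⟨fun j => ⟨e (x j : T), ⟨(x j : T), (x j).2, rfl⟩⟩, ?_⟩
    have h1 := congrArg e hx
    rw [e.apply_symm_apply, map_list_prod, List.map_ofFn] at h1
    rw [h1]
    refine congrArg List.prod (congrArg List.ofFn ?_)
    funext j
    show e (h' j * (x j : T) * (h' j)⁻¹) = e (h' j) * e (x j : T) * (e (h' j))⁻¹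
    rw [map_mul, map_mul, map_inv]
  crd := by
    rw [← Nat.card_congr e.toEquiv]
    refine le_trans (le_of_eq ?_) h.crd
    exact (Nat.card_congr (L.equivMapOfInjective (MulAut.congr e).toMonoidHom
      (MulAut.congr e).injective).toEquiv).symm
  typ := by
    have htop : S0 = ⊤ → S0.map e.toMonoidHom = ⊤ := by
      rintro rfl
      exact Subgroup.map_top_of_surjective _ e.surjective
    rcases h.typ with h1 | ⟨h1, φ, h2⟩ | ⟨h1, φ, h2⟩
    · left
      rintro l' ⟨l, hl, rfl⟩ s' ⟨s, hs, rfl⟩
      show e (l (e.symm (e s))) = e s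
      rw [e.symm_apply_apply, h1 l hl s hs]
    · right
      left
      refine ⟨htop h1, e.symm.trans φ, ?_⟩
      rintro l' ⟨l, hl, rfl⟩
      rcases h2 l hl with rfl | h3
      · left
        exact map_one _
      · right
        intro t'
        show φ (e.symm (e (l (e.symm t')))) = _
        rw [e.symm_apply_apply, h3]
        rfl
    · right
      right
      refine ⟨htop h1, e.symm.trans φ, ?_⟩
      rintro l' ⟨l, hl, rfl⟩
      rcases h2 l hl with rfl | h3
      · left
        exact map_one _
      · right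
        intro t'
        show φ (e.symm (e (l (e.symm t')))) = _
        rw [e.symm_apply_apply, h3]
        rfl

/-- Larger `c`. Proof. `prd`: the additional `h j`, `x j` are one. -/
theorem sg_mono {T : Type} [Group T] [Finite T] {S0 : Subgroup T}
    {L : Subgroup (MulAut T)} {c c' : ℕ} (hc : c ≤ c') (h : SG c T S0 L) : SG c' T S0 L where
  prf := h.prf
  inn := h.inn
  stb := h.stb
  prd := by
    obtain ⟨d, rfl⟩ := Nat.exists_eq_add_of_le hc
    obtain ⟨h', hh⟩ := h.prd
    refine ⟨Fin.append h' fun _ => 1, fun t => ?_⟩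
    obtain ⟨x, hx⟩ := hh t
    refine ⟨Fin.append x fun _ => 1, ?_⟩
    rw [List.ofFn_add, List.prod_append]
    simp only [Fin.append_right, OneMemClass.coe_one, mul_one, inv_one,
      List.ofFn_const, List.prod_replicate, one_pow]
    refine hx.trans (congrArg List.prod (congrArg List.ofFn ?_))
    funext j
    have h1 : Fin.append h' (fun _ : Fin d => (1 : T)) (Fin.castAdd d j) = h' j :=
      Fin.append_left _ _ _
    have h2 : Fin.append x (fun _ : Fin d => (1 : S0)) (Fin.castAdd d j) = x j :=
      Fin.append_left _ _ _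
    show h' j * (x j : T) * (h' j)⁻¹ =
      Fin.append h' (fun _ : Fin d => (1 : T)) (Fin.castAdd d j) *
        ((Fin.append x (fun _ : Fin d => (1 : S0)) (Fin.castAdd d j) : S0) : T) *
          (Fin.append h' (fun _ : Fin d => (1 : T)) (Fin.castAdd d j))⁻¹
    rw [h1, h2]
  crd := h.crd.trans (Nat.pow_le_pow_right Nat.card_pos hc)
  typ := h.typ

/-- The centralizer under an isomorphism of pairs. Proof. `MulAut.congr e l (e s) = e (l s)`. -/
theorem cen_congr {T T' : Type} [Group T] [Group T'] (e : T ≃* T') (S0 : Subgroup T)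
    (S0' : Subgroup T') (h : ∀ s, s ∈ S0 ↔ e s ∈ S0') (l : MulAut T) :
    l ∈ cen S0 ↔ MulAut.congr e l ∈ cen S0' := by
  constructor
  · intro hl s' hs'
    have h1 : e.symm s' ∈ S0 := (h _).2 (by rwa [e.apply_symm_apply])
    show e (l (e.symm s')) = s'
    rw [hl _ h1, e.apply_symm_apply]
  · intro hl s hs
    have h1 : e (l (e.symm (e s))) = e s := hl (e s) ((h s).1 hs)
    rw [e.symm_apply_apply] at h1
    exact e.injective h1

end Pool.Agent.MPfe8e9bM
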