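import Mathlib
import Pool.Agent.Lib.MP_fe8e9b_al_M.Defs
import Pool.Agent.Lib.MP_fe8e9b_al_M.CmpD
import Pool.Agent.Lib.MP_fe8e9b_al_M.SGT
import Pool.Agent.Lib.MP_fe8e9b_al_A.Alt3
import Pool.Agent.Lib.MP_fe8e9b_al_W.Perf

/-!
# MP_fe8e9b_al, groups of bounded height: the structure on alternating groups
-/

set_option autoImplicit false

open scoped BigOperators

namespace Pool.Agent.MPfe8e9bM

open Pool.Agent.MPfe8e9b Pool.Agent.MPfe8e9bA Pool.Agent.MPfe8e9bW Pool.Agent.MPfe8e9bV

/-- A transposition (of the first two points). -/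
def tsw (n : ℕ) : Equiv.Perm (Fin n) :=
  if h : 2 ≤ n then Equiv.swap ⟨0, by omega⟩ ⟨1, by omega⟩ else 1

/-- The alternating group of the points from the third on, for degree at least seven, and the full
group otherwise. -/
def A0 (n : ℕ) : Subgroup (alternatingGroup (Fin n)) where
  carrier := {σ | 7 ≤ n → ∀ i : Fin n, i.val < 2 → (σ : Equiv.Perm (Fin n)) i = i}
  mul_mem' := fun {a b} ha hb h i hi => by
    show (a : Equiv.Perm (Fin n)) ((b : Equiv.Perm (Fin n)) i) = i
    rw [hb h i hi, ha h i hi]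
  one_mem' := fun _ i _ => rfl
  inv_mem' := fun {a} ha h i hi => by
    show (a : Equiv.Perm (Fin n))⁻¹ i = i
    rw [Equiv.Perm.inv_eq_iff_eq, ha h i hi]

/-- The automorphisms which fix `A0 n`, for degree at least seven, and the group generated by the
conjugation by a transposition otherwise. -/
noncomputable def L0 (n : ℕ) : Subgroup (MulAut (alternatingGroup (Fin n))) :=
  if 7 ≤ n then cen (A0 n) else Subgroup.zpowers (MulAut.conjNormal (tsw n))

private theorem sga_perf_mem {G H : Type} [Group G] [Group H] (f : G →* H)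
    (h : commutator G = ⊤) (g : G) : f g ∈ commutator H := by
  have h1 : g ∈ commutator G := by
    rw [h]
    exact Subgroup.mem_top g
  have h2 : f g ∈ (commutator G).map f := Subgroup.mem_map_of_mem f h1
  rw [_root_.commutator_def, Subgroup.map_commutator] at h2
  rw [_root_.commutator_def]
  exact Subgroup.commutator_mono le_top le_top h2

private theorem sga_top {n : ℕ} (hn : ¬ 7 ≤ n) : A0 n = ⊤ := by
  rw [eq_top_iff]
  intro σ _ h
  exact absurd h hn

private theorem sga_two {n : ℕ} (hn : 6 ≤ n) (u v p q i j : Fin n) (huv : u ≠ v) (hij : i ≠ j)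
    (hup : u ≠ p) (huq : u ≠ q) (hvp : v ≠ p) (hvq : v ≠ q) (hip : i ≠ p) (hiq : i ≠ q)
    (hjp : j ≠ p) (hjq : j ≠ q) : ∃ y : alternatingGroup (Fin n),
      y.1 p = p ∧ y.1 q = q ∧ y.1 u = i ∧ y.1 v = j := by
  obtain ⟨y, hy, hy'⟩ := alt3_ext (({p, q} : Finset (Fin n))ᶜ) {u, v} (by
      intro x hx
      rw [Finset.mem_compl, Finset.mem_insert, Finset.mem_singleton, not_or]
      rw [Finset.mem_insert, Finset.mem_singleton] at hx
      rcases hx with rfl | rfl
      · exact ⟨hup, huq⟩
      · exact ⟨hvp, hvq⟩) (fun x => if x = u then i else j) (by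
      intro x hx x' hx' h
      simp only [Finset.coe_insert, Finset.coe_singleton, Set.mem_insert_iff,
        Set.mem_singleton_iff] at hx hx'
      rcases hx with rfl | rfl
      · rcases hx' with rfl | rfl
        · rfl
        · simp only [if_true, if_neg huv.symm] at h
          exact absurd h hij
      · rcases hx' with rfl | rfl
        · simp only [if_true, if_neg huv.symm] at h
          exact absurd h.symm hij
        · rfl) (by
      intro x _
      rw [Finset.mem_compl, Finset.mem_insert, Finset.mem_singleton, not_or]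
      by_cases hx : x = u
      · simp only [if_pos hx]
        exact ⟨hip, hiq⟩
      · simp only [if_neg hx]
        exact ⟨hjp, hjq⟩) (by
      have h1 : ({u, v} : Finset (Fin n)).card ≤ 2 := Finset.card_le_two
      have h2 : ({p, q} : Finset (Fin n)).card ≤ 2 := Finset.card_le_two
      rw [Finset.card_compl, Fintype.card_fin]
      omega)
  refine ⟨y, hy p (by simp), hy q (by simp), ?_, ?_⟩
  · rw [hy' u (by simp), if_pos rfl]
  · rw [hy' v (by simp), if_neg huv.symm]

private theorem sga_cover {n : ℕ} (hn : 7 ≤ n) (g : alternatingGroup (Fin n)) :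
    ∃ z y : alternatingGroup (Fin n), z.1 ⟨4, by omega⟩ = ⟨4, by omega⟩ ∧
      z.1 ⟨5, by omega⟩ = ⟨5, by omega⟩ ∧ y.1 ⟨2, by omega⟩ = ⟨2, by omega⟩ ∧
      y.1 ⟨3, by omega⟩ = ⟨3, by omega⟩ ∧
      (z.1 * y.1) ⟨0, by omega⟩ = g.1 ⟨0, by omega⟩ ∧
      (z.1 * y.1) ⟨1, by omega⟩ = g.1 ⟨1, by omega⟩ := by
  have hij : g.1 ⟨0, by omega⟩ ≠ g.1 ⟨1, by omega⟩ := fun h => by
    have h1 := g.1.injective h
    simp at h1
  generalize g.1 ⟨0, by omega⟩ = i at hij
  generalize g.1 ⟨1, by omega⟩ = j at hij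
  have hij' : i.val ≠ j.val := fun h => hij (Fin.ext h)
  have ne : ∀ (a : Fin n) (k : ℕ) (hk : k < n), a.val ≠ k → a ≠ ⟨k, hk⟩ := by
    rintro a k hk h rfl
    exact h rfl
  by_cases h1 : i.val ≠ 2 ∧ i.val ≠ 3 ∧ j.val ≠ 2 ∧ j.val ≠ 3
  · obtain ⟨y, h2, h3, h4, h5⟩ := sga_two (by omega : 6 ≤ n)
      ⟨0, by omega⟩ ⟨1, by omega⟩ ⟨2, by omega⟩ ⟨3, by omega⟩ i j
      (by simp) hij (by simp) (by simp) (by simp) (by simp) (ne _ _ _ h1.1) (ne _ _ _ h1.2.1)
      (ne _ _ _ h1.2.2.1) (ne _ _ _ h1.2.2.2)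
    refine ⟨1, y, rfl, rfl, h2, h3, ?_, ?_⟩
    · rw [Equiv.Perm.mul_apply, h4]
      rfl
    · rw [Equiv.Perm.mul_apply, h5]
      rfl
  by_cases h2 : i.val ≠ 4 ∧ i.val ≠ 5 ∧ j.val ≠ 4 ∧ j.val ≠ 5
  · obtain ⟨z, h3, h4, h5, h6⟩ := sga_two (by omega : 6 ≤ n)
      ⟨0, by omega⟩ ⟨1, by omega⟩ ⟨4, by omega⟩ ⟨5, by omega⟩ i j
      (by simp) hij (by simp) (by simp) (by simp) (by simp) (ne _ _ _ h2.1) (ne _ _ _ h2.2.1)
      (ne _ _ _ h2.2.2.1) (ne _ _ _ h2.2.2.2)
    refine ⟨z, 1, h3, h4, rfl, rfl, ?_, ?_⟩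
    · rw [Equiv.Perm.mul_apply]
      exact h5
    · rw [Equiv.Perm.mul_apply]
      exact h6
  by_cases h3 : i.val = 2 ∨ i.val = 3
  · have h4 : j.val = 4 ∨ j.val = 5 := by omega
    obtain ⟨y, hy2, hy3, hy0, hy1⟩ := sga_two (by omega : 6 ≤ n)
      ⟨0, by omega⟩ ⟨1, by omega⟩ ⟨2, by omega⟩ ⟨3, by omega⟩ ⟨0, by omega⟩ j
      (by simp) (ne _ _ _ (by omega)).symm (by simp) (by simp) (by simp) (by simp) (by simp)
      (by simp) (ne _ _ _ (by omega)) (ne _ _ _ (by omega))
    obtain ⟨z, hz4, hz5, hz0, hz1⟩ := sga_two (by omega : 6 ≤ n)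
      ⟨0, by omega⟩ ⟨1, by omega⟩ ⟨4, by omega⟩ ⟨5, by omega⟩ i ⟨1, by omega⟩
      (by simp) (ne _ _ _ (by omega)) (by simp) (by simp) (by simp) (by simp)
      (ne _ _ _ (by omega)) (ne _ _ _ (by omega)) (by simp) (by simp)
    refine ⟨z, y, hz4, hz5, hy2, hy3, ?_, ?_⟩
    · rw [Equiv.Perm.mul_apply, hy0, hz0]
    · rw [Equiv.Perm.mul_apply, hy1]
      rcases h4 with h4 | h4
      · have h5 : j = ⟨4, by omega⟩ := Fin.ext h4
        rw [h5]
        exact hz4
      · have h5 : j = ⟨5, by omega⟩ := Fin.ext h4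
        rw [h5]
        exact hz5
  · have h4 : i.val = 4 ∨ i.val = 5 := by omega
    have h5 : j.val = 2 ∨ j.val = 3 := by omega
    obtain ⟨y, hy2, hy3, hy0, hy1⟩ := sga_two (by omega : 6 ≤ n)
      ⟨0, by omega⟩ ⟨1, by omega⟩ ⟨2, by omega⟩ ⟨3, by omega⟩ i ⟨1, by omega⟩
      (by simp) (ne _ _ _ (by omega)) (by simp) (by simp) (by simp) (by simp)
      (ne _ _ _ (by omega)) (ne _ _ _ (by omega)) (by simp) (by simp)
    obtain ⟨z, hz4, hz5, hz0, hz1⟩ := sga_two (by omega : 6 ≤ n)
      ⟨0, by omega⟩ ⟨1, by omega⟩ ⟨4, by omega⟩ ⟨5, by omega⟩ ⟨0, by omega⟩ j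
      (by simp) (ne _ _ _ (by omega)).symm (by simp) (by simp) (by simp) (by simp) (by simp)
      (by simp) (ne _ _ _ (by omega)) (ne _ _ _ (by omega))
    refine ⟨z, y, hz4, hz5, hy2, hy3, ?_, ?_⟩
    · rw [Equiv.Perm.mul_apply, hy0]
      rcases h4 with h4 | h4
      · have h6 : i = ⟨4, by omega⟩ := Fin.ext h4
        rw [h6]
        exact hz4
      · have h6 : i = ⟨5, by omega⟩ := Fin.ext h4
        rw [h6]
        exact hz5
    · rw [Equiv.Perm.mul_apply, hy1, hz1]

private theorem sga_conj {n : ℕ} (hn : 2 ≤ n) (b y : alternatingGroup (Fin n)) {p q : Fin n}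
    (hb0 : b.1 ⟨0, by omega⟩ = p) (hb1 : b.1 ⟨1, by omega⟩ = q) (hp : y.1 p = p)
    (hq : y.1 q = q) : b⁻¹ * y * b ∈ A0 n := by
  intro _ i hi
  show (b.1⁻¹ * y.1 * b.1) i = i
  have hi' : i = ⟨0, by omega⟩ ∨ i = ⟨1, by omega⟩ := by
    rcases Nat.lt_succ_iff_lt_or_eq.1 hi with h | h
    · left
      apply Fin.ext
      show i.val = 0
      omega
    · right
      exact Fin.ext h
  rw [Equiv.Perm.mul_apply, Equiv.Perm.mul_apply, Equiv.Perm.inv_eq_iff_eq]
  rcases hi' with h | h
  · rw [h, hb0, hp]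
  · rw [h, hb1, hq]

private theorem sga_sq (n : ℕ) : tsw n ^ 2 = 1 := by
  rw [tsw]
  split_ifs
  · rw [pow_two, Equiv.swap_mul_self]
  · rw [one_pow]

private theorem sga_sign {n : ℕ} (hn : 2 ≤ n) : Equiv.Perm.sign (tsw n) = -1 := by
  rw [tsw, dif_pos hn]
  exact Equiv.Perm.sign_swap (by simp)

private theorem sga_L0 {n : ℕ} (hn : ¬ 7 ≤ n) (l : MulAut (alternatingGroup (Fin n)))
    (hl : l ∈ L0 n) : l = 1 ∨ l = MulAut.conjNormal (tsw n) := by
  have hL : L0 n = Subgroup.zpowers (MulAut.conjNormal (tsw n)) := if_neg hn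
  rw [hL, Subgroup.mem_zpowers_iff] at hl
  obtain ⟨k, rfl⟩ := hl
  have h2 : (MulAut.conjNormal (H := alternatingGroup (Fin n)) (tsw n)) ^ (2 : ℤ) = 1 := by
    rw [zpow_ofNat, ← map_pow, sga_sq, map_one]
  rcases Int.even_or_odd' k with ⟨m, h | h⟩
  · left
    rw [h, zpow_mul, h2, one_zpow]
  · right
    rw [h, zpow_add, zpow_mul, h2, one_zpow, one_mul, zpow_one]

private theorem sga_central {n : ℕ} (hn : 4 ≤ n) (u : Equiv.Perm (Fin n))
    (hu : ∀ s : alternatingGroup (Fin n), u * s.1 = s.1 * u) : u = 1 := by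
  by_contra hne
  have h1 : ∃ a, u a ≠ a := by
    by_contra hcon
    push Not at hcon
    exact hne (Equiv.ext hcon)
  obtain ⟨a, ha⟩ := h1
  obtain ⟨b, hb⟩ : ∃ b, b ∉ ({a, u a} : Finset (Fin n)) := by
    by_contra hcon
    push Not at hcon
    have h2 := Finset.card_le_card (fun x _ => hcon x : (Finset.univ : Finset (Fin n)) ⊆ {a, u a})
    have h3 : ({a, u a} : Finset (Fin n)).card ≤ 2 := Finset.card_le_two
    rw [Finset.card_univ, Fintype.card_fin] at h2
    omega
  rw [Finset.mem_insert, Finset.mem_singleton, not_or] at hb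
  obtain ⟨s, hs, hs'⟩ := alt3_ext (({a} : Finset (Fin n))ᶜ) {u a} (by
      intro x hx
      rw [Finset.mem_singleton] at hx
      rw [Finset.mem_compl, Finset.mem_singleton, hx]
      exact ha) (fun _ => b) (by
      intro x hx x' hx' _
      simp only [Finset.coe_singleton, Set.mem_singleton_iff] at hx hx'
      rw [hx, hx']) (by
      intro x _
      rw [Finset.mem_compl, Finset.mem_singleton]
      exact hb.1) (by
      rw [Finset.card_compl, Fintype.card_fin, Finset.card_singleton, Finset.card_singleton]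
      omega)
  have h2 := congrArg (fun w : Equiv.Perm (Fin n) => w a) (hu s)
  simp only [Equiv.Perm.mul_apply] at h2
  rw [hs a (by simp), hs' (u a) (by simp)] at h2
  exact hb.2 h2.symm

/-- `A0 n` is perfect. Proof. `n ≥ 7`: it is isomorphic to the alternating group of the points
`≥ 2`, which are `n - 2 ≥ 5` (`Equiv.Perm.subtypeEquivSubtypePerm`, sign); perfect by
`commutator_alternatingGroup_eq_top`-like theorems of Mathlib or the files MP_fe8e9b_al_W/Perf,
MP_fe8e9b_al/Perf. `n = 5, 6`: the full alternating group. -/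
theorem a0_perf {n : ℕ} (hn : 5 ≤ n) : commutator (A0 n) = ⊤ := by
  by_cases h7 : 7 ≤ n
  · let e : Fin (n - 2) ↪ Fin n := ⟨fun i => ⟨i.val + 2, by omega⟩, fun a b h => by
      have h1 := congrArg Fin.val h
      simp only [Nat.add_right_cancel_iff] at h1
      exact Fin.ext h1⟩
    have hr : ∀ x : Fin n, x ∉ Set.range e → x.val < 2 := by
      intro x hx
      by_contra h
      apply hx
      refine ⟨⟨x.val - 2, by omega⟩, Fin.ext ?_⟩
      show x.val - 2 + 2 = x.val
      omega
    have hr' : ∀ x : Fin n, x.val < 2 → x ∉ Set.range e := by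
      rintro x hx ⟨y, rfl⟩
      have h1 : (e y).val = y.val + 2 := rfl
      omega
    let f : alternatingGroup (Fin (n - 2)) →* A0 n := (emb e).codRestrict (A0 n)
      (fun σ => fun _ i hi => emb_apply_of_notMem e σ i (hr' i hi))
    have hp : commutator (alternatingGroup (Fin (n - 2))) = ⊤ :=
      commutator_alternatingGroup_eq_top (by
        rw [Nat.card_eq_fintype_card, Fintype.card_fin]
        omega)
    rw [eq_top_iff]
    rintro ⟨x, hx⟩ _
    obtain ⟨a, ha⟩ := alt3_emb e x (fun i hi => hx h7 i (hr i hi))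
    have h1 := sga_perf_mem f hp a
    have h2 : f a = ⟨x, hx⟩ := Subtype.ext ha.symm
    rwa [h2] at h1
  · rw [sga_top h7]
    exact perfect_iso Subgroup.topEquiv.symm (commutator_alternatingGroup_eq_top (by
      rw [Nat.card_eq_fintype_card, Fintype.card_fin]
      exact hn))

/-- Three conjugates of `A0 n` (helper4's argument).

Proof. `n ≥ 7`: let `A`, `B`, `C` be the pointwise stabilizers in `Alt(n)` of `{0, 1}`, `{2, 3}`,
`{4, 5}`; `B = b A b⁻¹`, `C = c A c⁻¹` with even permutations `b`, `c` mapping `(0, 1)` to `(2, 3)`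
resp. `(4, 5)`. Claim `Alt(n) = C B A`: for `g` in `Alt(n)` let `(i, j) = (g 0, g 1)`; it is enough
to find `y ∈ B`, `z ∈ C` with `z y (0, 1) = (i, j)`: then `(z y)⁻¹ g` fixes `0` and `1`. `B` acts
doubly transitively on the `n - 2 ≥ 5` points different from `2`, `3`, `C` on the points different
from `4`, `5`. If `i, j ∉ {2, 3}`: `z = 1`. If `i, j ∉ {4, 5}`: `y = 1`. Otherwise one of `i, j` is
in `{2, 3}` and one in `{4, 5}`: if `i ∈ {2, 3}`, `j ∈ {4, 5}`: `y (0, 1) = (0, j)` and `z` fixes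
`4`, `5`, `z 0 = i`; if `i ∈ {4, 5}`, `j ∈ {2, 3}`: `y (0, 1) = (i, 1)`, `z 1 = j`.
In the form below: `g = z * y * x = (c * z' * c⁻¹) * (b * y' * b⁻¹) * (1 * x * 1⁻¹)`.
(`alt3_ext` in the file MP_fe8e9b_al_A/Alt3 gives even permutations with prescribed values on small
sets and support in a given set.) `n = 5, 6`: `A0 n = ⊤`. -/
theorem a0_three {n : ℕ} (hn : 5 ≤ n) : ∃ h : Fin 3 → alternatingGroup (Fin n),
    ∀ t : alternatingGroup (Fin n), ∃ x : Fin 3 → A0 n,
      t = (List.ofFn fun j => h j * (x j : alternatingGroup (Fin n)) * (h j)⁻¹).prod := by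
  by_cases h7 : 7 ≤ n
  · obtain ⟨b, -, -, hb0, hb1⟩ := sga_two (by omega : 6 ≤ n)
      ⟨0, by omega⟩ ⟨1, by omega⟩ ⟨4, by omega⟩ ⟨5, by omega⟩ ⟨2, by omega⟩ ⟨3, by omega⟩
      (by simp) (by simp) (by simp) (by simp) (by simp) (by simp) (by simp) (by simp) (by simp)
      (by simp)
    obtain ⟨c, -, -, hc0, hc1⟩ := sga_two (by omega : 6 ≤ n)
      ⟨0, by omega⟩ ⟨1, by omega⟩ ⟨2, by omega⟩ ⟨3, by omega⟩ ⟨4, by omega⟩ ⟨5, by omega⟩
      (by simp) (by simp) (by simp) (by simp) (by simp) (by simp) (by simp) (by simp) (by simp)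
      (by simp)
    refine ⟨![c, b, 1], fun t => ?_⟩
    obtain ⟨z, y, hz4, hz5, hy2, hy3, h0, h1⟩ := sga_cover h7 t
    have hx : (z * y)⁻¹ * t ∈ A0 n := by
      intro _ i hi
      show ((z.1 * y.1)⁻¹ * t.1) i = i
      rw [Equiv.Perm.mul_apply, Equiv.Perm.inv_eq_iff_eq]
      have hi' : i = ⟨0, by omega⟩ ∨ i = ⟨1, by omega⟩ := by
        rcases Nat.lt_succ_iff_lt_or_eq.1 hi with h | h
        · left
          apply Fin.ext
          show i.val = 0
          omega
        · right
          exact Fin.ext h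
      rcases hi' with h | h
      · rw [h]
        exact h0.symm
      · rw [h]
        exact h1.symm
    have hy' : b⁻¹ * y * b ∈ A0 n := sga_conj (by omega) b y hb0 hb1 hy2 hy3
    have hz' : c⁻¹ * z * c ∈ A0 n := sga_conj (by omega) c z hc0 hc1 hz4 hz5
    refine ⟨![⟨_, hz'⟩, ⟨_, hy'⟩, ⟨_, hx⟩], ?_⟩
    simp only [List.ofFn_succ, List.ofFn_zero, List.prod_cons, List.prod_nil, Matrix.cons_val_zero,
      Matrix.cons_val_succ, Fin.succ_zero_eq_one, Matrix.cons_val_one]
    simp only [mul_one, inv_one, one_mul]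
    group
  · refine ⟨fun _ => 1, fun t => ⟨![⟨t, ?_⟩, 1, 1], ?_⟩⟩
    · rw [sga_top h7]
      exact Subgroup.mem_top t
    · simp [List.ofFn_succ]

/-- The structure on the alternating group.

Proof. `n ≥ 7`: `sg_tame` with `a0_perf`, `a0_three`. `n = 5, 6` (`A0 n = ⊤`,
`L0 n = {1, conjugation by the transposition}`, as the square of the transposition is one):
`inn`: if conjugation by `t` is `l ∈ L0 n`: either `l = 1`, then `t` is central, and the
centre of the alternating group is trivial (`alternatingGroup.center_eq_bot`-like, or simple and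
not commutative) - in both cases the conclusion is that `t` commutes with everything; or `l` is
conjugation by the transposition `w`; then the permutation `t⁻¹ * w` commutes with all even
permutations, so it is `1` (three-cycles), so `t = w` is odd, a contradiction. `stb` trivial;
`prd`: `a0_three`; `crd`: at most two elements, and `card T ^ 3 ≥ 2`; `typ`: the second and third
case with `φ = MulEquiv.refl`, `tsw 5 = Equiv.swap 0 1`. -/
theorem sg_alt {n : ℕ} (hn : 5 ≤ n) : SG 3 (alternatingGroup (Fin n)) (A0 n) (L0 n) := by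
  by_cases h7 : 7 ≤ n
  · have hL : L0 n = cen (A0 n) := if_pos h7
    rw [hL]
    exact sg_tame (A0 n) (a0_perf hn) (a0_three hn)
  · have hl : ∀ l ∈ L0 n, l = 1 ∨ l = MulAut.conjNormal (tsw n) := fun l hl =>
      sga_L0 h7 l hl
    have hT : A0 n = ⊤ := sga_top h7
    refine ⟨a0_perf hn, ?_, ?_, a0_three hn, ?_, ?_⟩
    · rintro t ⟨l, hlL, hts⟩ s _
      rcases hl l hlL with rfl | rfl
      · have h1 := hts s
        rw [MulAut.one_apply] at h1
        exact mul_inv_eq_iff_eq_mul.1 h1
      · exfalso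
        have h1 : (tsw n)⁻¹ * (t : Equiv.Perm (Fin n)) = 1 := by
          apply sga_central (by omega)
          intro u
          have h2 := congrArg Subtype.val (hts u)
          rw [MulAut.conjNormal_apply] at h2
          have h3 : (t : Equiv.Perm (Fin n)) * u.1 * (t : Equiv.Perm (Fin n))⁻¹ =
              tsw n * u.1 * (tsw n)⁻¹ := h2
          have h4 : (t : Equiv.Perm (Fin n)) * u.1 =
              tsw n * u.1 * (tsw n)⁻¹ * (t : Equiv.Perm (Fin n)) := by
            rw [← h3]
            group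
          rw [mul_assoc, h4]
          group
        have h2 : tsw n = (t : Equiv.Perm (Fin n)) := (inv_mul_eq_one.1 h1)
        have h3 : Equiv.Perm.sign (t : Equiv.Perm (Fin n)) = 1 := t.2
        rw [← h2, sga_sign (by omega)] at h3
        exact absurd h3 (by decide)
    · intro l _ s _
      rw [hT]
      exact Subgroup.mem_top _
    · have h1 : Nat.card (L0 n) ≤ 2 := by
        have hL : L0 n = Subgroup.zpowers (MulAut.conjNormal (tsw n)) := if_neg h7
        rw [hL, Nat.card_zpowers]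
        apply orderOf_le_of_pow_eq_one (by omega)
        rw [← map_pow, sga_sq, map_one]
      have h2 : 1 < Nat.card (alternatingGroup (Fin n)) := by
        have : Nontrivial (alternatingGroup (Fin n)) := by
          apply alternatingGroup.nontrivial_of_three_le_card
          rw [Nat.card_eq_fintype_card, Fintype.card_fin]
          omega
        exact Finite.one_lt_card
      calc Nat.card (L0 n) ≤ 2 := h1
        _ ≤ Nat.card (alternatingGroup (Fin n)) := h2
        _ ≤ Nat.card (alternatingGroup (Fin n)) ^ 3 := Nat.le_self_pow (by omega) _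
    · right
      have h56 : n = 5 ∨ n = 6 := by omega
      rcases h56 with rfl | rfl
      · left
        refine ⟨hT, MulEquiv.refl _, fun l hlL => ?_⟩
        rcases hl l hlL with rfl | rfl
        · exact Or.inl rfl
        · exact Or.inr fun t => rfl
      · right
        refine ⟨hT, MulEquiv.refl _, fun l hlL => ?_⟩
        rcases hl l hlL with rfl | rfl
        · exact Or.inl rfl
        · exact Or.inr fun t => rfl

/-- Conjugations by permutations are inner automorphisms times elements of `L0 n`.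

Proof. `σ` even: `t = σ`, `l = 1`. `σ` odd: `σ = (σ * w) * w⁻¹`, `w = tsw n`, `t = σ * w`,
`l = ` conjugation by `w = w⁻¹`, which fixes `A0 n` if `n ≥ 7` (disjoint supports). -/
theorem alt_auto {n : ℕ} (hn : 5 ≤ n) (σ : Equiv.Perm (Fin n)) :
    ∃ t : alternatingGroup (Fin n), ∃ l ∈ L0 n,
      ∀ s, MulAut.conjNormal σ s = t * l s * t⁻¹ := by
  rcases Int.units_eq_one_or (Equiv.Perm.sign σ) with h | h
  · refine ⟨⟨σ, h⟩, 1, one_mem _, fun s => Subtype.ext ?_⟩
    rw [MulAut.conjNormal_apply]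
    rfl
  · have hs : σ * tsw n ∈ alternatingGroup (Fin n) := by
      rw [Equiv.Perm.mem_alternatingGroup, map_mul, h, sga_sign (by omega)]
      rfl
    refine ⟨⟨σ * tsw n, hs⟩, MulAut.conjNormal (tsw n), ?_, fun s => Subtype.ext ?_⟩
    · by_cases h7 : 7 ≤ n
      · have hL : L0 n = cen (A0 n) := if_pos h7
        rw [hL]
        intro s hs
        apply Subtype.ext
        rw [MulAut.conjNormal_apply, mul_inv_eq_iff_eq_mul]
        have hd : Equiv.Perm.Disjoint (tsw n) (s : Equiv.Perm (Fin n)) := by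
          intro i
          by_cases hi : i.val < 2
          · exact Or.inr (hs h7 i hi)
          · left
            rw [tsw, dif_pos (by omega : 2 ≤ n)]
            apply Equiv.swap_apply_of_ne_of_ne
            · intro h0
              rw [h0] at hi
              simp at hi
            · intro h0
              rw [h0] at hi
              simp at hi
        exact hd.commute
      · have hL : L0 n = Subgroup.zpowers (MulAut.conjNormal (tsw n)) := if_neg h7
        rw [hL]
        exact Subgroup.mem_zpowers _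
    · rw [MulAut.conjNormal_apply]
      show σ * s.1 * σ⁻¹ = σ * tsw n * (MulAut.conjNormal (tsw n) s).1 * (σ * tsw n)⁻¹
      rw [MulAut.conjNormal_apply]
      have hw : tsw n * tsw n = 1 := by
        rw [← pow_two, sga_sq]
      have hw' : (tsw n)⁻¹ * (tsw n)⁻¹ = 1 := by
        rw [← mul_inv_rev, hw, inv_one]
      calc σ * s.1 * σ⁻¹ = σ * 1 * s.1 * 1 * σ⁻¹ := by group
        _ = σ * (tsw n * tsw n) * s.1 * ((tsw n)⁻¹ * (tsw n)⁻¹) * σ⁻¹ := by rw [hw, hw']
        _ = _ := by group

end Pool.Agent.MPfe8e9bM
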