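import Mathlib
import Pool.Agent.Lib.MP_fe8e9b_al_M.Defs
import Pool.Agent.Lib.MP_fe8e9b_al_M.CmpD
import Pool.Agent.Lib.MP_fe8e9b_al_M.CmpB
import Pool.Agent.Lib.MP_fe8e9b_al_M.SGT
import Pool.Agent.Lib.MP_fe8e9b_al_M.SGA
import Pool.Agent.Lib.MP_fe8e9b_al_M.LayA

/-!
# MP_fe8e9b_al, groups of bounded height: a layer of components
-/

set_option autoImplicit false

open scoped BigOperators

namespace Pool.Agent.MPfe8e9bM

open Pool.Agent.MPfe8e9b Pool.Agent.MPfe8e9bA Pool.Agent.MPfe8e9bW Pool.Agent.MPfe8e9bV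

/-- `S` is isomorphic to the alternating group of degree `n ≥ 5`, and the elements which normalize
`S` act on it as conjugations by permutations. -/
def AltComp {G : Type} [Group G] (S : Subgroup G) (n : ℕ) : Prop :=
  5 ≤ n ∧ ∃ φ : S ≃* alternatingGroup (Fin n), ∀ g : G, (∀ s, s ∈ S ↔ g * s * g⁻¹ ∈ S) →
    ∃ σ : Equiv.Perm (Fin n), ∀ s s' : S, (s' : G) = g * s * g⁻¹ →
      (φ s' : Equiv.Perm (Fin n)) = σ * φ s * σ⁻¹

/-- `S` is a product of `L` images of `SL m F`, `F` a field of order `q`; it is a product of `C`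
conjugates of the perfect subgroup `S₀`, and the elements which normalize `S` act on `S₀` as
elements of `S`. -/
def LieComp {G : Type} [Group G] (L C : ℕ) (S S₀ : Subgroup G) (m q : ℕ) : Prop :=
  2 ≤ m ∧ (∃ (F : Type) (_ : Field F) (_ : Fintype F), Fintype.card F = q ∧
    SLProduct L m F S) ∧ S₀ ≤ S ∧ commutator S₀ = ⊤ ∧
  (∃ h : Fin C → G, (∀ j, h j ∈ S) ∧ ∀ s ∈ S, ∃ x : Fin C → G, (∀ j, x j ∈ S₀) ∧
    s = (List.ofFn fun j => h j * x j * (h j)⁻¹).prod) ∧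
  ∀ g : G, (∀ s, s ∈ S ↔ g * s * g⁻¹ ∈ S) → ∃ t ∈ S, ∀ x ∈ S₀, g * x * g⁻¹ = t * x * t⁻¹

/-- `G` is generated by `d` elements, and `𝒮` is a set of pairwise commuting nonabelian simple
subgroups of `G`, closed under conjugation, which are alternating (`AltComp`) or of Lie type and
tame (`LieComp`), the latter with few isomorphism classes of pairs `(S, S₀)`. -/
def CompLayer (d L C : ℕ) (G : Type) [Group G] (𝒮 : Set (Subgroup G)) : Prop :=
  (∃ T : Finset G, T.card ≤ d ∧ Subgroup.closure (T : Set G) = ⊤) ∧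
  (∀ S ∈ 𝒮, ∀ g : G, S.map (MulAut.conj g).toMonoidHom ∈ 𝒮) ∧
  (∀ S ∈ 𝒮, IsSimpleGroup S ∧ ∃ a ∈ S, ∃ b ∈ S, a * b ≠ b * a) ∧
  (∀ S ∈ 𝒮, ∀ S' ∈ 𝒮, S ≠ S' → ∀ a ∈ S, ∀ b ∈ S', a * b = b * a) ∧
  ∃ (S₀ : Subgroup G → Subgroup G) (m q c : Subgroup G → ℕ),
    (∀ S ∈ 𝒮, (∃ n, AltComp S n) ∨
      (LieComp L C S (S₀ S) (m S) (q S) ∧ c S < q S ^ (C * m S ^ 2))) ∧
    ∀ S ∈ 𝒮, ∀ S' ∈ 𝒮, LieComp L C S (S₀ S) (m S) (q S) →
      LieComp L C S' (S₀ S') (m S') (q S') → m S = m S' → q S = q S' → c S = c S' →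
      ∃ e : S ≃* S', ∀ s : S, (s : G) ∈ S₀ S ↔ (e s : G) ∈ S₀ S'

private theorem layb_perf_of_equiv {A B : Type} [Group A] [Group B] (e : A ≃* B)
    (h : commutator A = ⊤) : commutator B = ⊤ := by
  have h1 := Subgroup.map_commutator (⊤ : Subgroup A) ⊤ e.toMonoidHom
  have h2 : Subgroup.map e.toMonoidHom (⊤ : Subgroup A) = ⊤ :=
    Subgroup.map_top_of_surjective _ e.surjective
  have h3 : ⁅(⊤ : Subgroup A), ⊤⁆ = ⊤ := h
  rw [h3, h2] at h1
  exact h1.symm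

open scoped commutatorElement in
private theorem layb_perf_simple {A : Type} [Group A] (hs : IsSimpleGroup A)
    (h : ∃ a b : A, a * b ≠ b * a) : commutator A = ⊤ := by
  rcases IsSimpleGroup.eq_bot_or_eq_top_of_normal (commutator A) inferInstance with h1 | h1
  · obtain ⟨a, b, hab⟩ := h
    exfalso
    have h2 : ⁅a, b⁆ ∈ commutator A := Subgroup.commutator_mem_commutator
      (Subgroup.mem_top a) (Subgroup.mem_top b)
    rw [h1, Subgroup.mem_bot, commutatorElement_eq_one_iff_mul_comm] at h2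
    exact hab h2
  · exact h1

/-- The family of the components.

Proof. `X = 𝒮` (as a type), `Cc x = x.1`, `act g S` = the image of `S` under conjugation by `g`.
Perfect: the commutator subgroup of a simple nonabelian group is normal and not trivial. -/
theorem layb_cmp {d L C : ℕ} {G : Type} [Group G] {𝒮 : Set (Subgroup G)}
    (h : CompLayer d L C G 𝒮) :
    ∃ act : G →* Equiv.Perm 𝒮, Cmp (fun x : 𝒮 => x.1) act := by
  obtain ⟨-, hcj, hsm, hcm, -⟩ := h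
  obtain ⟨f, hf⟩ : ∃ f : G → 𝒮 → 𝒮, ∀ g x, (f g x).1 = x.1.map (MulAut.conj g).toMonoidHom :=
    ⟨fun g x => ⟨x.1.map (MulAut.conj g).toMonoidHom, hcj x.1 x.2 g⟩, fun g x => rfl⟩
  have hf1 : ∀ x, f 1 x = x := by
    intro x
    refine Subtype.ext ?_
    rw [hf]
    ext a
    rw [Subgroup.mem_map]
    constructor
    · rintro ⟨b, hb, rfl⟩
      change (1 : G) * b * 1⁻¹ ∈ x.1
      rw [one_mul, inv_one, mul_one]
      exact hb
    · intro ha
      refine ⟨a, ha, ?_⟩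
      change (1 : G) * a * 1⁻¹ = a
      rw [one_mul, inv_one, mul_one]
  have hfm : ∀ a b x, f (a * b) x = f a (f b x) := by
    intro a b x
    refine Subtype.ext ?_
    rw [hf, hf, hf, Subgroup.map_map]
    refine congrArg (fun φ => x.1.map φ) ?_
    refine MonoidHom.ext fun y => ?_
    change a * b * y * (a * b)⁻¹ = a * (b * y * b⁻¹) * a⁻¹
    group
  refine ⟨{ toFun := fun g => ⟨f g, f g⁻¹, fun x => ?_, fun x => ?_⟩
            map_one' := ?_
            map_mul' := ?_ }, ?_⟩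
  · rw [← hfm, inv_mul_cancel, hf1]
  · rw [← hfm, mul_inv_cancel, hf1]
  · exact Equiv.ext fun x => hf1 x
  · intro a b
    exact Equiv.ext fun x => hfm a b x
  · refine ⟨fun x => (hsm x.1 x.2).1, fun x => ?_, fun x y hxy => ?_, fun g x a ha => ?_⟩
    · obtain ⟨h1, a, ha, b, hb, hab⟩ := hsm x.1 x.2
      refine layb_perf_simple h1 ⟨⟨a, ha⟩, ⟨b, hb⟩, fun h2 => hab ?_⟩
      exact congrArg Subtype.val h2
    · exact hcm x.1 x.2 y.1 y.2 fun h => hxy (Subtype.ext h)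
    · change g * a * g⁻¹ ∈ (f g x).1
      rw [hf, Subgroup.mem_map]
      exact ⟨a, ha, rfl⟩

/-- One component of alternating type.

Proof. With `φ` from `AltComp`: `S0 = (A0 n).map φ.symm`, `L = (L0 n).map (MulAut.congr φ.symm)`.
`SG`: `sg_transport` of `sg_alt`. `hauto`: for `g` normalizing `S` let `σ` be the permutation;
`alt_auto` gives `t`, `l`; transport them by `φ.symm`. Isomorphisms: see `layb_data`. -/
theorem layb_alt {G : Type} [Group G] (S : Subgroup G) (n : ℕ) (h : AltComp S n) :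
    ∃ φ : S ≃* alternatingGroup (Fin n),
      SG 3 S ((A0 n).map φ.symm.toMonoidHom) ((L0 n).map (MulAut.congr φ.symm).toMonoidHom) ∧
      ∀ g : G, (∀ s, s ∈ S ↔ g * s * g⁻¹ ∈ S) → ∃ t : S,
        ∃ l ∈ (L0 n).map (MulAut.congr φ.symm).toMonoidHom, ∀ s : S,
          g * (s : G) * g⁻¹ = ((t * l s * t⁻¹ : S) : G) := by
  obtain ⟨hn, φ, hφ⟩ := h
  refine ⟨φ, sg_transport φ.symm (sg_alt hn), fun g hg => ?_⟩
  obtain ⟨σ, hσ⟩ := hφ g hg
  obtain ⟨t, l, hl, htl⟩ := alt_auto hn σ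
  refine ⟨φ.symm t, MulAut.congr φ.symm l, Subgroup.mem_map_of_mem _ hl, fun s => ?_⟩
  obtain ⟨s', hs'⟩ : ∃ s' : S, (s' : G) = g * s * g⁻¹ := ⟨⟨_, (hg s).1 s.2⟩, rfl⟩
  have h1 : φ s' = t * l (φ s) * t⁻¹ := by
    rw [← htl]
    exact Subtype.ext (hσ s s' hs')
  have h2 : s' = φ.symm t * MulAut.congr φ.symm l s * (φ.symm t)⁻¹ := by
    apply φ.injective
    rw [h1, map_mul, map_mul, map_inv, MulEquiv.apply_symm_apply]
    change t * l (φ s) * t⁻¹ = t * φ (φ.symm (l (φ s))) * t⁻¹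
    rw [MulEquiv.apply_symm_apply]
  rw [← hs', h2]

/-- One component of Lie type.

Proof. `S0 = S₀.subgroupOf S` (perfect as `S₀ ≤ S`: isomorphic to `S₀`,
`Subgroup.subgroupOfEquivOfLe`), `L = cen S0`, `sg_tame`. `hauto`: `t` from `LieComp`,
`l s = t⁻¹ * (g * s * g⁻¹) * t` (an automorphism of `S`), which fixes `S₀`. -/
theorem layb_lie {G : Type} [Group G] [Finite G] (L C : ℕ) (S S₀ : Subgroup G) (m q : ℕ)
    (h : LieComp L C S S₀ m q) :
    SG C S (S₀.subgroupOf S) (cen (S₀.subgroupOf S)) ∧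
      ∀ g : G, (∀ s, s ∈ S ↔ g * s * g⁻¹ ∈ S) → ∃ t : S,
        ∃ l ∈ cen (S₀.subgroupOf S), ∀ s : S,
          g * (s : G) * g⁻¹ = ((t * l s * t⁻¹ : S) : G) := by
  obtain ⟨-, -, hle, hpf, ⟨c, hc, hcx⟩, hno⟩ := h
  constructor
  · refine sg_tame (S₀.subgroupOf S)
      (layb_perf_of_equiv (Subgroup.subgroupOfEquivOfLe hle).symm hpf) ?_
    refine ⟨fun j => ⟨c j, hc j⟩, fun t => ?_⟩
    obtain ⟨x, hx, hxt⟩ := hcx t t.2
    refine ⟨fun j => ⟨⟨x j, hle (hx j)⟩, Subgroup.mem_subgroupOf.2 (hx j)⟩, Subtype.ext ?_⟩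
    rw [hxt, Subgroup.val_list_prod, List.map_ofFn]
    rfl
  · intro g hg
    obtain ⟨t, ht, htx⟩ := hno g hg
    have h1 : ∀ s, s ∈ S → t⁻¹ * (g * s * g⁻¹) * t ∈ S := fun s hs =>
      S.mul_mem (S.mul_mem (S.inv_mem ht) ((hg s).1 hs)) ht
    have h2 : ∀ s, s ∈ S → g⁻¹ * (t * s * t⁻¹) * g ∈ S := fun s hs => by
      refine (hg _).2 ?_
      have h3 : g * (g⁻¹ * (t * s * t⁻¹) * g) * g⁻¹ = t * s * t⁻¹ := by group
      rw [h3]
      exact S.mul_mem (S.mul_mem ht hs) (S.inv_mem ht)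
    refine ⟨⟨t, ht⟩, { toFun := fun s => ⟨_, h1 s s.2⟩
                       invFun := fun s => ⟨_, h2 s s.2⟩
                       left_inv := fun s => Subtype.ext ?_
                       right_inv := fun s => Subtype.ext ?_
                       map_mul' := fun a b => Subtype.ext ?_ }, fun s hs => Subtype.ext ?_,
      fun s => ?_⟩
    · change g⁻¹ * (t * (t⁻¹ * (g * s * g⁻¹) * t) * t⁻¹) * g = s
      group
    · change t⁻¹ * (g * (g⁻¹ * (t * s * t⁻¹) * g) * g⁻¹) * t = s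
      group
    · change t⁻¹ * (g * (a * b : G) * g⁻¹) * t =
        (t⁻¹ * (g * a * g⁻¹) * t) * (t⁻¹ * (g * b * g⁻¹) * t)
      group
    · change t⁻¹ * (g * s * g⁻¹) * t = s
      rw [htx s (Subgroup.mem_subgroupOf.1 hs)]
      group
    · change g * (s : G) * g⁻¹ = t * (t⁻¹ * (g * s * g⁻¹) * t) * t⁻¹
      group

private theorem layb_map_iff {T A : Type} [Group T] [Group A] (φ : T ≃* A)
    (L : Subgroup (MulAut A)) (l : MulAut T) :
    l ∈ L.map (MulAut.congr φ.symm).toMonoidHom ↔ MulAut.congr φ l ∈ L := by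
  have h2 : ∀ l : MulAut T, MulAut.congr φ.symm (MulAut.congr φ l) = l := by
    intro l
    refine MulEquiv.ext fun s => ?_
    change φ.symm (φ (l (φ.symm (φ s)))) = l s
    rw [MulEquiv.symm_apply_apply, MulEquiv.symm_apply_apply]
  have h3 : ∀ l : MulAut A, MulAut.congr φ (MulAut.congr φ.symm l) = l := by
    intro l
    refine MulEquiv.ext fun s => ?_
    change φ (φ.symm (l (φ (φ.symm s)))) = l s
    rw [MulEquiv.apply_symm_apply, MulEquiv.apply_symm_apply]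
  rw [Subgroup.mem_map]
  constructor
  · rintro ⟨l', hl', rfl⟩
    change MulAut.congr φ (MulAut.congr φ.symm l') ∈ L
    rw [h3]
    exact hl'
  · intro h
    exact ⟨_, h, h2 l⟩

/-- The structures for all components, with a key.

Proof. For `x : 𝒮`, if `∃ n, AltComp x.1 n` choose `n x` and `φ x` from `layb_alt`, and
`key x = Sum.inl (n x)`; otherwise `LieComp`, `key x = Sum.inr (m, q, c)`. (Put the data of one
component in a lemma: there are `S0`, `L'`, `key` with the properties and with: `key = Sum.inl n`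
implies `∃ φ, L' = (L0 n).map ..`, and `key = Sum.inr ..` implies `L' = cen (S₀.subgroupOf S)`,
`LieComp`, ..; then `choose`.) `SG`: `sg_mono` to `3 + C`. Isomorphisms for equal keys:
alternating: `(φ x).trans (φ y).symm` maps `L' x` to `L' y`; Lie: the isomorphism of pairs and
`cen_congr`. The normalizer condition: `act g x = x` means that conjugation by `g` maps `x.1` onto
itself. -/
theorem layb_data {d L C : ℕ} {G : Type} [Group G] [Finite G] {𝒮 : Set (Subgroup G)}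
    (h : CompLayer d L C G 𝒮) (act : G →* Equiv.Perm 𝒮)
    (hC : Cmp (fun x : 𝒮 => x.1) act) :
    ∃ (L' : ∀ x : 𝒮, Subgroup (MulAut x.1)) (S0 : ∀ x : 𝒮, Subgroup x.1)
      (key : 𝒮 → ℕ ⊕ (ℕ × ℕ × ℕ)),
      (∀ (x : 𝒮) (g : G), act g x = x → ∃ t : x.1, ∃ l ∈ L' x, ∀ s : x.1,
        g * (s : G) * g⁻¹ = ((t * l s * t⁻¹ : x.1) : G)) ∧
      (∀ x, SG (3 + C) x.1 (S0 x) (L' x)) ∧
      (∀ x y, key x = key y → ∃ e : x.1 ≃* y.1,
        ∀ l : MulAut x.1, l ∈ L' x ↔ MulAut.congr e l ∈ L' y) ∧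
      ∀ x, (∃ n, key x = Sum.inl n ∧ 5 ≤ n ∧ Nonempty (x.1 ≃* alternatingGroup (Fin n))) ∨
        ∃ m q c', key x = Sum.inr (m, q, c') ∧ 2 ≤ m ∧ c' < q ^ (C * m ^ 2) ∧
          ∃ (F : Type) (_ : Field F) (_ : Fintype F), Fintype.card F = q ∧
            SLProduct L m F x.1 := by
  obtain ⟨-, -, -, -, S₀, m, q, c, hty, hiso⟩ := h
  have hno : ∀ (x : 𝒮) (g : G), act g x = x → ∀ s, s ∈ x.1 ↔ g * s * g⁻¹ ∈ x.1 := by
    intro x g hgx s
    constructor
    · intro hs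
      have h1 : g * s * g⁻¹ ∈ (act g x).1 := hC.cnj g x s hs
      rw [hgx] at h1
      exact h1
    · intro hs
      obtain ⟨a, ha, hab⟩ := cmp_onto hC g x (g * s * g⁻¹) (by
        rw [hgx]
        exact hs)
      have h1 : s = a := mul_left_cancel (mul_right_cancel hab)
      rw [h1]
      exact ha
  have hone : ∀ x : 𝒮, ∃ (L' : Subgroup (MulAut x.1)) (S0 : Subgroup x.1)
      (key : ℕ ⊕ (ℕ × ℕ × ℕ)),
      (∀ g : G, (∀ s, s ∈ x.1 ↔ g * s * g⁻¹ ∈ x.1) → ∃ t : x.1, ∃ l ∈ L', ∀ s : x.1,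
        g * (s : G) * g⁻¹ = ((t * l s * t⁻¹ : x.1) : G)) ∧
      SG (3 + C) x.1 S0 L' ∧
      ((∃ n, key = Sum.inl n ∧ 5 ≤ n ∧ ∃ φ : x.1 ≃* alternatingGroup (Fin n),
        L' = (L0 n).map (MulAut.congr φ.symm).toMonoidHom) ∨
      (key = Sum.inr (m x.1, q x.1, c x.1) ∧ LieComp L C x.1 (S₀ x.1) (m x.1) (q x.1) ∧
        c x.1 < q x.1 ^ (C * m x.1 ^ 2) ∧ L' = cen ((S₀ x.1).subgroupOf x.1))) := by
    intro x
    rcases hty x.1 x.2 with ⟨n, hn⟩ | ⟨hl, hc⟩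
    · obtain ⟨φ, h1, h2⟩ := layb_alt x.1 n hn
      exact ⟨_, _, Sum.inl n, h2, sg_mono (Nat.le_add_right 3 C) h1,
        Or.inl ⟨n, rfl, hn.1, φ, rfl⟩⟩
    · obtain ⟨h1, h2⟩ := layb_lie L C x.1 (S₀ x.1) (m x.1) (q x.1) hl
      exact ⟨_, _, Sum.inr (m x.1, q x.1, c x.1), h2, sg_mono (Nat.le_add_left C 3) h1,
        Or.inr ⟨rfl, hl, hc, rfl⟩⟩
  choose L' S0 key hno' hSG hkey using hone
  refine ⟨L', S0, key, fun x g hgx => hno' x g (hno x g hgx), hSG, fun x y hxy => ?_,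
    fun x => ?_⟩
  · rcases hkey x with ⟨n, hx1, -, φ, hφ⟩ | ⟨hx1, hx2, -, hx4⟩
    · rcases hkey y with ⟨n', hy1, -, ψ, hψ⟩ | ⟨hy1, -, -, -⟩
      · have hnn : n = n' := by
          have h1 := hx1.symm.trans (hxy.trans hy1)
          exact Sum.inl_injective h1
        subst hnn
        refine ⟨φ.trans ψ.symm, fun l => ?_⟩
        rw [hφ, hψ, layb_map_iff, layb_map_iff]
        have h2 : MulAut.congr ψ (MulAut.congr (φ.trans ψ.symm) l) = MulAut.congr φ l := by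
          refine MulEquiv.ext fun s => ?_
          change ψ (ψ.symm (φ (l (φ.symm (ψ (ψ.symm s)))))) = φ (l (φ.symm s))
          rw [MulEquiv.apply_symm_apply, MulEquiv.apply_symm_apply]
        rw [h2]
      · have h1 := hx1.symm.trans (hxy.trans hy1)
        exact absurd h1 (by simp)
    · rcases hkey y with ⟨n', hy1, -, ψ, hψ⟩ | ⟨hy1, hy2, -, hy4⟩
      · have h1 := hx1.symm.trans (hxy.trans hy1)
        exact absurd h1 (by simp)
      · have h1 := Sum.inr_injective (hx1.symm.trans (hxy.trans hy1))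
        have h2 : m x.1 = m y.1 := congrArg Prod.fst h1
        have h3 : q x.1 = q y.1 := congrArg (fun p => p.2.1) h1
        have h4 : c x.1 = c y.1 := congrArg (fun p => p.2.2) h1
        obtain ⟨e, he⟩ := hiso x.1 x.2 y.1 y.2 hx2 hy2 h2 h3 h4
        refine ⟨e, fun l => ?_⟩
        rw [hx4, hy4]
        refine cen_congr e _ _ (fun s => ?_) l
        rw [Subgroup.mem_subgroupOf, Subgroup.mem_subgroupOf]
        exact he s
  · rcases hkey x with ⟨n, hx1, hx2, φ, -⟩ | ⟨hx1, hx2, hx3, -⟩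
    · exact Or.inl ⟨n, hx1, hx2, ⟨φ⟩⟩
    · exact Or.inr ⟨_, _, _, hx1, hx2.1, hx3, hx2.2.1⟩

/-- The step of the main theorem.

Proof. `lay_a d (3 + C) L C kQ`, `layb_cmp`, `layb_data`; `sSup 𝒮 = ⨆ x : 𝒮, x.1`
(`sSup_eq_iSup'`). -/
theorem lay_m (d L C kQ : ℕ) {κQ : ℝ} (hκQ : 0 < κQ) : ∃ (k : ℕ) (κ : ℝ), 0 < κ ∧
    ∀ (G : Type) [Group G] [Finite G] (𝒮 : Set (Subgroup G)), CompLayer d L C G 𝒮 →
    ∀ (N : Subgroup G) [N.Normal], N = sSup 𝒮 → FExpd (G ⧸ N) kQ κQ → FExpd G k κ := by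
  obtain ⟨k, κ, hκ, hall⟩ := lay_a d (3 + C) L C kQ hκQ
  refine ⟨k, κ, hκ, fun G _ _ 𝒮 h N _ hN hQ => ?_⟩
  obtain ⟨act, hact⟩ := layb_cmp h
  obtain ⟨L', S0, key, h1, h2, h3, h4⟩ := layb_data h act hact
  exact hall G 𝒮 (fun x : 𝒮 => x.1) act hact L' h1 S0 h2 key h3 h4 h.1 N
    (hN.trans (sSup_eq_iSup' 𝒮)) hQ

end Pool.Agent.MPfe8e9bM
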