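import Mathlib
import Pool.Agent.Lib.MP_fe8e9b_al_M.Defs
import Pool.Agent.Lib.MP_fe8e9b_al_M.LayB
import Pool.Agent.Lib.MP_fe8e9b_al.Final3
import Pool.Agent.Lib.MP_fe8e9b_al.FamF
import Pool.Agent.Lib.MP_fe8e9b_al.PowF
import Pool.Agent.Lib.MP_fe8e9b_al.BaseF
import Pool.Agent.Lib.MP_fe8e9b_al.Amp
import Pool.Agent.Lib.MP_fe8e9b_al.Comm
import Pool.Agent.Lib.MP_fe8e9b_al.Distinct
import Pool.Agent.Lib.MP_fe8e9b_al_A.FinA

/-!
# MP_fe8e9b_al, groups of bounded height: the class and the main theorem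
-/

set_option autoImplicit false

open scoped BigOperators Pointwise

namespace Pool.Agent.MPfe8e9bM

open Pool.Agent.MPfe8e9b Pool.Agent.MPfe8e9bA Pool.Agent.MPfe8e9bW Pool.Agent.MPfe8e9bV

/-- `Q` is isomorphic to a finite direct product of alternating groups of degrees at least five,
and `Q` is generated by at most `d` elements or has, for every `m`, at most `(m !) ^ d` factors of
degree `m`. -/
def AltLayer (d : ℕ) (Q : Type) [Group Q] : Prop :=
  ∃ (ι : Type) (_ : Fintype ι) (n : ι → ℕ), (∀ i, 5 ≤ n i) ∧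
    ((∃ T : Finset Q, T.card ≤ d ∧ Subgroup.closure (T : Set Q) = ⊤) ∨
      ∀ m, Nat.card {i // n i = m} ≤ (Nat.factorial m) ^ d) ∧
    Nonempty (Q ≃* (∀ i, alternatingGroup (Fin (n i))))

/-- `Q` is isomorphic to `A × B` with `LieProduct d L C A` and `AltLayer d B`. -/
def Layer (d L C : ℕ) (Q : Type) [Group Q] : Prop :=
  ∃ (A B : Type) (_ : Group A) (_ : Group B),
    LieProduct d L C A ∧ AltLayer d B ∧ Nonempty (Q ≃* A × B)

/-- The groups obtained in at most `l` steps from layers: by extensions of two groups of the class,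
and by extensions of a group of the class by the normal subgroup generated by a layer of
components of a `d`-generated group. -/
inductive Cls (d L C : ℕ) : ℕ → (G : Type) → Group G → Prop
  | layer (l : ℕ) (G : Type) (inst : Group G) (h : Layer d L C G) : Cls d L C l G inst
  | ext (l : ℕ) (G : Type) (inst : Group G) (hG : Finite G) (N : Subgroup G) (hN : N.Normal)
      (h₁ : Cls d L C l N inferInstance) (h₂ : Cls d L C l (G ⧸ N) inferInstance) :
      Cls d L C (l + 1) G inst
  | comp (l : ℕ) (G : Type) (inst : Group G) (hG : Finite G) (𝒮 : Set (Subgroup G))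
      (h : CompLayer d L C G 𝒮) (N : Subgroup G) (hN : N.Normal) (hNS : N = sSup 𝒮)
      (h₂ : Cls d L C l (G ⧸ N) inferInstance) : Cls d L C (l + 1) G inst
  | iso (l : ℕ) (G H : Type) (instG : Group G) (instH : Group H) (e : G ≃* H)
      (hG : Cls d L C l G instG) : Cls d L C l H instH

/-- In a product of alternating groups with `d` generators the multiplicities are bounded. -/
theorem clsf_altProduct {d : ℕ} {Q : Type} [Group Q] (h : AltLayer d Q) :
    AltProduct d Q := by
  classical
  obtain ⟨ι, hι, n, hn, hd, ⟨φ⟩⟩ := h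
  refine ⟨ι, hι, n, hn, ?_, ⟨φ⟩⟩
  rcases hd with hd | hd
  · intro m
    rcases isEmpty_or_nonempty {i // n i = m} with hE | ⟨⟨i₀, hi₀⟩⟩
    · rw [Nat.card_of_isEmpty]
      exact Nat.zero_le _
    have hm : 5 ≤ m := hi₀ ▸ hn i₀
    have hd' : ∃ T : Finset (∀ i, alternatingGroup (Fin (n i))), T.card ≤ d ∧
        Subgroup.closure (T : Set (∀ i, alternatingGroup (Fin (n i)))) = ⊤ :=
      Final3.closure_surj φ.toMonoidHom φ.surjective hd
    have hnt : Nontrivial (alternatingGroup (Fin m)) := by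
      have hf : Nontrivial (Fin m) := by
        rw [← Fintype.one_lt_card_iff_nontrivial, Fintype.card_fin]
        omega
      rw [← Fintype.one_lt_card_iff_nontrivial]
      have h2 := two_mul_card_alternatingGroup (α := Fin m)
      rw [Fintype.card_perm, Fintype.card_fin] at h2
      have h3 : Nat.factorial 5 ≤ Nat.factorial m := Nat.factorial_le hm
      have h4 : Nat.factorial 5 = 120 := rfl
      omega
    have h1 := mult_bound (fun i => alternatingGroup (Fin (n i))) d hd'
      (alternatingGroup (Fin m)) (Finset.univ.filter fun i => n i = m) (by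
        intro i hi
        have hi' : n i = m := (Finset.mem_filter.mp hi).2
        subst hi'
        exact ⟨MulEquiv.refl _⟩)
    have h5 : Nat.card {i // n i = m} = (Finset.univ.filter fun i => n i = m).card := by
      rw [Nat.card_eq_fintype_card, Fintype.card_subtype]
    rw [h5]
    refine h1.trans (Nat.pow_le_pow_left ?_ d)
    have h6 : Fintype.card (alternatingGroup (Fin m)) ≤ Fintype.card (Equiv.Perm (Fin m)) :=
      Fintype.card_le_of_injective _ Subtype.val_injective
    rwa [Fintype.card_perm, Fintype.card_fin] at h6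
  · exact hd

/-- Layers have a tuple of bounded length with a uniform spectral gap.

Proof. Copy the proof of `layer_expd` and of `AltLayer.altProduct` in
Results/MP_fe8e9b_al/LieAlternatingTowers.lean. -/
theorem layer_expd (d L C : ℕ) : ∃ (k : ℕ) (κ : ℝ), 0 < κ ∧ ∀ (Q : Type) [Group Q],
    Layer d L C Q → FExpd Q k κ := by
  obtain ⟨k₁, κ₁, hκ₁, h₁⟩ := lie_expd (expd_familyF (expd_powF
    (fun hS A B => angle_amp hS (comm_bound hS) A B) expd_distinct expd_baseF)) d L C
  obtain ⟨k₂, κ₂, hκ₂, h₂⟩ := alt_expd d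
  refine ⟨k₁ + k₂, min κ₁ κ₂, lt_min hκ₁ hκ₂, fun Q _ hQ => ?_⟩
  obtain ⟨A, B, _, _, hA, hB, ⟨φ⟩⟩ := hQ
  obtain ⟨i₁, e₁⟩ := (h₁ A hA).mono le_rfl (min_le_left κ₁ κ₂)
  obtain ⟨i₂, e₂⟩ := (h₂ B (clsf_altProduct hB)).mono le_rfl (min_le_right κ₁ κ₂)
  have e₃ : FExpd (A × B) (k₁ + k₂) (min κ₁ κ₂) :=
    (expd_prod (lt_min hκ₁ hκ₂).le e₁ e₂).fexpd
  exact FExpd.surj φ.symm.toMonoidHom φ.symm.surjective e₃

/-- The groups of the class have a tuple of bounded length with a uniform spectral gap.

Proof. Induction on `l`: `∃ k κ, 0 < κ ∧ ∀ G inst, Cls d L C l G inst → FExpd G k κ`. `l = 0`: by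
induction on the derivation only `layer` and `iso` occur (`layer_expd`, `FExpd.surj` for the
isomorphism); to handle the index use `generalize` or a statement of the form
`∀ l', Cls d L C l' G inst → l' = 0 → ..`. Step: let `(k, κ)` be for `l`, `(k₀, κ₀)` for layers,
`(k₁, κ₁)` from `lay_m d L C k` for `κQ = κ`; for `l + 1` take `k₀ + 2 * k + k₁` and the minimum of
`κ₀`, `κ`, `κ₁`: a derivation is a layer, `ext` (`FExpd.ext`, both from the induction hypothesis
for `l`), `comp` (`lay_m`), or `iso` (induction on the derivation); `FExpd.mono`. -/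
theorem cls_fexpd (d L C l : ℕ) : ∃ (k : ℕ) (κ : ℝ), 0 < κ ∧ ∀ (G : Type) (inst : Group G),
    Cls d L C l G inst → FExpd G k κ := by
  obtain ⟨k₀, κ₀, hκ₀, h₀⟩ := layer_expd d L C
  induction l with
  | zero =>
    refine ⟨k₀, κ₀, hκ₀, fun G inst h => ?_⟩
    have key : ∀ (l' : ℕ) (G : Type) (inst : Group G), Cls d L C l' G inst → l' = 0 →
        @FExpd G inst k₀ κ₀ := by
      intro l' G inst h
      induction h with
      | layer l G inst h => exact fun _ => h₀ G h
      | ext l G inst hG N hN h₁ h₂ ih₁ ih₂ => exact fun h3 => absurd h3 (Nat.succ_ne_zero l)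
      | comp l G inst hG 𝒮 h N hN hNS h₂ ih₂ => exact fun h3 => absurd h3 (Nat.succ_ne_zero l)
      | iso l G H instG instH e hG ih =>
        exact fun h3 => FExpd.surj e.toMonoidHom e.surjective (ih h3)
    exact key 0 G inst h rfl
  | succ l ih =>
    obtain ⟨k, κ, hκ, hl⟩ := ih
    obtain ⟨k₁, κ₁, hκ₁, h₁⟩ := lay_m d L C k hκ
    have e₀ : min (min κ₀ κ) κ₁ ≤ κ₀ := (min_le_left _ _).trans (min_le_left _ _)
    have e : min (min κ₀ κ) κ₁ ≤ κ := (min_le_left _ _).trans (min_le_right _ _)
    have e₁ : min (min κ₀ κ) κ₁ ≤ κ₁ := min_le_right _ _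
    refine ⟨k₀ + 2 * k + k₁, min (min κ₀ κ) κ₁, lt_min (lt_min hκ₀ hκ) hκ₁,
      fun G inst h => ?_⟩
    have key : ∀ (l' : ℕ) (G : Type) (inst : Group G), Cls d L C l' G inst → l' = l + 1 →
        @FExpd G inst (k₀ + 2 * k + k₁) (min (min κ₀ κ) κ₁) := by
      intro l' G inst h
      induction h with
      | layer l' G inst h => exact fun _ => (h₀ G h).mono (by omega) e₀
      | ext l' G inst hG N hN h₂ h₃ ih₂ ih₃ =>
        intro h4
        have h5 : l' = l := Nat.succ.inj h4
        subst h5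
        have h6 : FExpd N k (min (min κ₀ κ) κ₁) := (hl N _ h₂).mono le_rfl e
        have h7 : FExpd (G ⧸ N) k (min (min κ₀ κ) κ₁) := (hl (G ⧸ N) _ h₃).mono le_rfl e
        exact (FExpd.ext N h6 h7).mono (by omega) le_rfl
      | comp l' G inst hG 𝒮 hc N hN hNS h₂ ih₂ =>
        intro h4
        have h5 : l' = l := Nat.succ.inj h4
        subst h5
        have h7 : FExpd (G ⧸ N) k κ := hl (G ⧸ N) _ h₂
        exact (h₁ G 𝒮 hc N hNS h7).mono (by omega) e₁
      | iso l' G H instG instH e hG ih =>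
        exact fun h3 => FExpd.surj e.toMonoidHom e.surjective (ih h3)
    exact key _ G inst h rfl

/-- The main theorem. Proof. `cls_fexpd`, `expd_vertex` (see the end of the proof of `tower_gen` in
MP_fe8e9b_al/Final3). -/
theorem cls_main (d L C l : ℕ) : ∃ (k : ℕ) (ε : ℝ), 0 < ε ∧
    ∀ (G : Type) [inst : Group G] [Fintype G] [DecidableEq G], Cls d L C l G inst →
      ∃ S : Finset G, S.card ≤ k ∧ Subgroup.closure (S : Set G) = ⊤ ∧
        ∀ A : Finset G, 2 * A.card ≤ Fintype.card G →
          (1 + ε) * (A.card : ℝ) ≤ ((A ∪ S * A).card : ℝ) := by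
  obtain ⟨k, κ, hκ, h⟩ := cls_fexpd d L C l
  refine ⟨k, κ / (4 * (k + 1)), by positivity, ?_⟩
  intro G inst _ _ hG
  exact expd_vertex hκ (h G inst hG).expd

end Pool.Agent.MPfe8e9bM
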