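import Mathlib
import Pool.Agent.Lib.MP_fe8e9b_al_M.AutAlt
import Pool.Agent.Lib.MP_fe8e9b_al_M.ClsF

/-!
# MP_fe8e9b_al: groups with a normal series whose factors are products of alternating groups
-/

set_option autoImplicit false

open scoped BigOperators Pointwise

namespace Pool.Agent.MPfe8e9bM

open Pool.Agent.MPfe8e9b Pool.Agent.MPfe8e9bA Pool.Agent.MPfe8e9bW Pool.Agent.MPfe8e9bV

/-- `Q` is isomorphic to a finite direct product of alternating groups of degrees at least five and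
different from six. -/
def AltProd (Q : Type) [Group Q] : Prop :=
  ∃ (ι : Type) (_ : Finite ι) (n : ι → ℕ), (∀ i, 5 ≤ n i ∧ n i ≠ 6) ∧
    Nonempty (Q ≃* (∀ i, alternatingGroup (Fin (n i))))

/-- `G` has a series of at most `l + 1` normal subgroups, from the trivial subgroup to `G`, whose
factors are direct products of alternating groups (`AltProd`): `G` is trivial, or `G` has a normal
subgroup `N` with `AltProd N` such that `G ⧸ N` has such a series for `l - 1`. -/
inductive AltSeries : ℕ → (G : Type) → Group G → Prop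
  | triv (l : ℕ) (G : Type) (inst : Group G) (h : Subsingleton G) : AltSeries l G inst
  | step (l : ℕ) (G : Type) (inst : Group G) (N : Subgroup G) (hN : N.Normal) (h₁ : AltProd N)
      (h₂ : AltSeries l (G ⧸ N) inferInstance) : AltSeries (l + 1) G inst

namespace AltCor

/-- A nontrivial normal subgroup of a simple group. -/
theorem simple_eq {G : Type} [Group G] {S K : Subgroup G} (hS : IsSimpleGroup S) (hK : K ≤ S)
    (hn : ∀ s ∈ S, ∀ x ∈ K, s * x * s⁻¹ ∈ K) (hne : K ≠ ⊥) : K = S := by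
  have h1 : (K.subgroupOf S).Normal :=
    ⟨fun x hx s => by
      rw [Subgroup.mem_subgroupOf] at hx ⊢
      exact hn s s.2 x hx⟩
  rcases h1.eq_bot_or_eq_top with h2 | h2
  · rw [Subgroup.subgroupOf_eq_bot] at h2
    exact absurd (le_bot_iff.1 (h2 le_rfl hK)) hne
  · exact le_antisymm hK (Subgroup.subgroupOf_eq_top.1 h2)

/-- Conjugation by an element which normalizes `S`. -/
def cj {G : Type} [Group G] (S : Subgroup G) (g : G) (h : ∀ s, s ∈ S ↔ g * s * g⁻¹ ∈ S) :
    MulAut S where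
  toFun s := ⟨g * s * g⁻¹, (h s).1 s.2⟩
  invFun s := ⟨g⁻¹ * s * g, (h _).2 (by
    have : g * (g⁻¹ * (s : G) * g) * g⁻¹ = s := by group
    rw [this]
    exact s.2)⟩
  left_inv s := Subtype.ext (by
    show g⁻¹ * (g * (s : G) * g⁻¹) * g = s
    group)
  right_inv s := Subtype.ext (by
    show g * (g⁻¹ * (s : G) * g) * g⁻¹ = s
    group)
  map_mul' s t := Subtype.ext (by
    show g * ((s : G) * t) * g⁻¹ = g * s * g⁻¹ * (g * t * g⁻¹)
    group)

theorem altComp {G : Type} [Group G] (S : Subgroup G) {n : ℕ} (hn : 5 ≤ n) (h6 : n ≠ 6)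
    (φ : S ≃* alternatingGroup (Fin n)) : AltComp S n := by
  refine ⟨hn, φ, fun g hg => ?_⟩
  obtain ⟨σ, hσ⟩ := aut_alt hn h6 ((φ.symm.trans (cj S g hg)).trans φ)
  refine ⟨σ, fun s s' hs => ?_⟩
  have h1 := hσ (φ s)
  have h2 : ((φ.symm.trans (cj S g hg)).trans φ) (φ s) = φ s' := by
    show φ (cj S g hg (φ.symm (φ s))) = φ s'
    rw [φ.symm_apply_apply]
    exact congrArg φ (Subtype.ext hs.symm)
  rw [h2] at h1
  exact h1

section Prod

/-- The alternating group of degree `n i`. -/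
abbrev TT {ι : Type} (n : ι → ℕ) (i : ι) : Type := alternatingGroup (Fin (n i))

variable {G ι : Type} [Group G] [DecidableEq ι] {n : ι → ℕ} {N : Subgroup G}

/-- The embedding of the factor `i`. -/
noncomputable def ps (e : N ≃* (∀ i, TT n i)) (i : ι) :
    TT n i →* G :=
  (N.subtype.comp e.symm.toMonoidHom).comp
    (MonoidHom.mulSingle (TT n) i)

variable (e : N ≃* (∀ i, TT n i))

theorem ps_inj (i : ι) : Function.Injective (ps e i) := by
  intro a b h
  have h1 : e.symm (Pi.mulSingle i a) = e.symm (Pi.mulSingle i b) := Subtype.ext h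
  exact Pi.mulSingle_injective (M := TT n) i (e.symm.injective h1)

theorem ps_le (i : ι) : (ps e i).range ≤ N := by
  rintro _ ⟨a, rfl⟩
  exact (e.symm (Pi.mulSingle i a)).2

theorem ps_iso (i : ι) : Nonempty ((ps e i).range ≃* TT n i) :=
  ⟨((ps e i).ofInjective (ps_inj e i)).symm⟩

theorem ps_comm {i j : ι} (hij : i ≠ j) (a : TT n i) (b : TT n j) :
    ps e i a * ps e j b = ps e j b * ps e i a := by
  have h1 : (Pi.mulSingle i a : ∀ i, TT n i) * Pi.mulSingle j b =
      Pi.mulSingle j b * Pi.mulSingle i a := (Pi.mulSingle_commute (f := TT n) hij a b).eq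
  have h2 := congrArg (fun x => ((e.symm x : N) : G)) h1
  simp only [map_mul, Subgroup.coe_mul] at h2
  exact h2

theorem ps_norm (i : ι) {g : G} (hg : g ∈ N) {s : G} (hs : s ∈ (ps e i).range) :
    g * s * g⁻¹ ∈ (ps e i).range := by
  obtain ⟨a, rfl⟩ := hs
  refine ⟨e ⟨g, hg⟩ i * a * (e ⟨g, hg⟩ i)⁻¹, ?_⟩
  have h1 : (Pi.mulSingle i (e ⟨g, hg⟩ i * a * (e ⟨g, hg⟩ i)⁻¹) : ∀ i, TT n i) =
      e ⟨g, hg⟩ * Pi.mulSingle i a * (e ⟨g, hg⟩)⁻¹ := by
    funext j
    by_cases hj : j = i
    · subst hj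
      simp
    · simp [Pi.mulSingle_eq_of_ne hj]
  have h2 := congrArg (fun x => ((e.symm x : N) : G)) h1
  simp only [map_mul, map_inv, e.symm_apply_apply, Subgroup.coe_mul, Subgroup.coe_inv] at h2
  exact h2

theorem ps_gen [Finite ι] {K : Subgroup G} (h : ∀ i, (ps e i).range ≤ K) : N ≤ K := by
  intro g hg
  have h1 : e ⟨g, hg⟩ ∈ K.comap (N.subtype.comp e.symm.toMonoidHom) :=
    Subgroup.pi_mem_of_mulSingle_mem _ fun i => h i ⟨_, rfl⟩
  have h2 : ((e.symm (e ⟨g, hg⟩) : N) : G) ∈ K := h1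
  rwa [e.symm_apply_apply] at h2

theorem ps_simple (hn : ∀ i, 5 ≤ n i ∧ n i ≠ 6) (i : ι) : IsSimpleGroup (ps e i).range := by
  have h1 : IsSimpleGroup (TT n i) := alternatingGroup.isSimpleGroup (by
    rw [Nat.card_eq_fintype_card, Fintype.card_fin]
    exact (hn i).1)
  obtain ⟨φ⟩ := ps_iso e i
  exact φ.isSimpleGroup

theorem ps_nonab (hn : ∀ i, 5 ≤ n i ∧ n i ≠ 6) (i : ι) :
    ∃ a ∈ (ps e i).range, ∃ b ∈ (ps e i).range, a * b ≠ b * a := by
  by_contra hcon
  push Not at hcon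
  have h1 := alternatingGroup.center_eq_bot (α := Fin (n i))
    (by rw [Nat.card_eq_fintype_card, Fintype.card_fin]; have := (hn i).1; omega)
  have h2 : Subgroup.center (TT n i) = ⊤ := by
    rw [eq_top_iff]
    intro a _
    rw [Subgroup.mem_center_iff]
    intro b
    apply ps_inj e i
    rw [map_mul, map_mul]
    exact hcon _ ⟨b, rfl⟩ _ ⟨a, rfl⟩
  have h3 := (ps_simple e hn i).exists_pair_ne
  obtain ⟨φ⟩ := ps_iso e i
  obtain ⟨x, y, hxy⟩ := h3
  have h4 : φ x = 1 := by
    have : φ x ∈ (⊤ : Subgroup (TT n i)) := trivial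
    rw [← h2, h1] at this
    exact Subgroup.mem_bot.1 this
  have h5 : φ y = 1 := by
    have : φ y ∈ (⊤ : Subgroup (TT n i)) := trivial
    rw [← h2, h1] at this
    exact Subgroup.mem_bot.1 this
  exact hxy (φ.injective (h4.trans h5.symm))

/-- The factors are permuted by the conjugations. -/
theorem ps_conj [Finite ι] [N.Normal] (hn : ∀ i, 5 ≤ n i ∧ n i ≠ 6) (i : ι) (g : G) :
    ∃ j, (ps e i).range.map (MulAut.conj g).toMonoidHom = (ps e j).range := by
  set S' := (ps e i).range.map (MulAut.conj g).toMonoidHom with hS'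
  have hmem : ∀ s, s ∈ S' ↔ g⁻¹ * s * g ∈ (ps e i).range := by
    intro s
    constructor
    · rintro ⟨t, ht, rfl⟩
      have : g⁻¹ * (g * t * g⁻¹) * g = t := by group
      show g⁻¹ * (g * t * g⁻¹) * g ∈ _
      rw [this]
      exact ht
    · intro h
      refine ⟨_, h, ?_⟩
      show g * (g⁻¹ * s * g) * g⁻¹ = s
      group
  have hN : ∀ s ∈ S', s ∈ N := by
    intro s hs
    have h1 := ps_le e i ((hmem s).1 hs)
    have h2 := Subgroup.Normal.conj_mem inferInstance _ h1 g
    have h3 : g * (g⁻¹ * s * g) * g⁻¹ = s := by group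
    rwa [h3] at h2
  have hnorm : ∀ x ∈ N, ∀ s ∈ S', x * s * x⁻¹ ∈ S' := by
    intro x hx s hs
    rw [hmem]
    have h1 : g⁻¹ * x * g ∈ N := by
      have := Subgroup.Normal.conj_mem (inferInstance : N.Normal) x hx g⁻¹
      rwa [inv_inv] at this
    have h2 := ps_norm e i h1 ((hmem s).1 hs)
    have h3 : g⁻¹ * x * g * (g⁻¹ * s * g) * (g⁻¹ * x * g)⁻¹ = g⁻¹ * (x * s * x⁻¹) * g := by group
    rwa [h3] at h2
  have hsimp : IsSimpleGroup S' := by
    have h1 := ps_simple e hn i
    exact ((ps e i).range.equivMapOfInjective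
      (MulAut.conj g).toMonoidHom (MulAut.conj g).injective).symm.isSimpleGroup
  -- some factor does not commute with `S'`
  obtain ⟨j, a, ha, b, hb, hab⟩ : ∃ j, ∃ a ∈ S', ∃ b ∈ (ps e j).range, a * b ≠ b * a := by
    by_contra hcon
    push Not at hcon
    obtain ⟨a, ha, b, hb, hab⟩ := ps_nonab e hn i
    apply hab
    have h1 : ∀ c ∈ S', N ≤ Subgroup.centralizer {c} := by
      intro c hc
      refine ps_gen e fun j b hb => ?_
      rw [Subgroup.mem_centralizer_singleton_iff]
      exact (hcon j c hc b hb).symm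
    have ha' : g * a * g⁻¹ ∈ S' := ⟨a, ha, rfl⟩
    have hb' : g * b * g⁻¹ ∈ S' := ⟨b, hb, rfl⟩
    have h2 := Subgroup.mem_centralizer_singleton_iff.1 (h1 _ hb' (hN _ ha'))
    calc a * b = g⁻¹ * (g * a * g⁻¹ * (g * b * g⁻¹)) * g := by group
      _ = g⁻¹ * (g * b * g⁻¹ * (g * a * g⁻¹)) * g := by rw [h2]
      _ = b * a := by group
  refine ⟨j, ?_⟩
  have hne : S' ⊓ (ps e j).range ≠ ⊥ := by
    intro h
    apply hab
    have h1 : a * b * a⁻¹ * b⁻¹ ∈ S' ⊓ (ps e j).range := by
      refine ⟨?_, ?_⟩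
      · have h2 : a * b * a⁻¹ * b⁻¹ = a * (b * a⁻¹ * b⁻¹) := by group
        rw [h2]
        exact S'.mul_mem ha (hnorm b (ps_le e j hb) _ (S'.inv_mem ha))
      · exact Subgroup.mul_mem _ (ps_norm e j (hN a ha) hb) (Subgroup.inv_mem _ hb)
    rw [h, Subgroup.mem_bot] at h1
    have h3 : a * b = (a * b * a⁻¹ * b⁻¹) * (b * a) := by group
    rw [h3, h1, one_mul]
  have e1 : S' ⊓ (ps e j).range = S' := by
    refine simple_eq hsimp inf_le_left ?_ hne
    intro s hs x hx
    exact ⟨hnorm s (hN s hs) x hx.1, ps_norm e j (hN s hs) hx.2⟩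
  have e2 : S' ⊓ (ps e j).range = (ps e j).range := by
    refine simple_eq (ps_simple e hn j) inf_le_right ?_ hne
    intro s hs x hx
    exact ⟨hnorm s (ps_le e j hs) x hx.1, ps_norm e j (ps_le e j hs) hx.2⟩
  rw [← e1, e2]

theorem compLayer [Finite ι] [N.Normal] {d : ℕ}
    (hd : ∃ T : Finset G, T.card ≤ d ∧ Subgroup.closure (T : Set G) = ⊤)
    (hn : ∀ i, 5 ≤ n i ∧ n i ≠ 6) :
    CompLayer d 0 0 G (Set.range fun i => (ps e i).range) := by
  refine ⟨hd, ?_, ?_, ?_, id, fun _ => 0, fun _ => 0, fun _ => 0, ?_, ?_⟩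
  · rintro _ ⟨i, rfl⟩ g
    obtain ⟨j, hj⟩ := ps_conj e hn i g
    exact ⟨j, hj.symm⟩
  · rintro _ ⟨i, rfl⟩
    exact ⟨ps_simple e hn i, ps_nonab e hn i⟩
  · rintro _ ⟨i, rfl⟩ _ ⟨j, rfl⟩ hij _ ⟨a, rfl⟩ _ ⟨b, rfl⟩
    exact ps_comm e (fun h => hij (by rw [h])) a b
  · rintro _ ⟨i, rfl⟩
    left
    obtain ⟨φ⟩ := ps_iso e i
    exact ⟨n i, altComp _ (hn i).1 (hn i).2 φ⟩
  · intro S _ S' _ h
    exact absurd h.1 (by norm_num)

theorem eq_sSup [Finite ι] : N = sSup (Set.range fun i => (ps e i).range) := by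
  refine le_antisymm (ps_gen e fun i => le_sSup ⟨i, rfl⟩) (sSup_le ?_)
  rintro _ ⟨i, rfl⟩
  exact ps_le e i

end Prod

theorem layer_triv (d L C : ℕ) (Q : Type) [Group Q] [Subsingleton Q] : Layer d L C Q := by
  have hU : ∃ T : Finset Unit, T.card ≤ d ∧ Subgroup.closure (T : Set Unit) = ⊤ :=
    ⟨∅, by simp, Subsingleton.elim _ _⟩
  have hE : ∀ S : Empty → Type, ∀ _ : ∀ i, Group (S i), Nonempty (Unit ≃* (∀ i, S i)) := by
    intro S _
    exact ⟨{ toFun := fun _ i => i.elim, invFun := fun _ => (), left_inv := fun _ => rfl,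
             right_inv := fun x => funext fun i => i.elim,
             map_mul' := fun _ _ => funext fun i => i.elim }⟩
  refine ⟨Unit, Unit, inferInstance, inferInstance, ⟨hU, Empty, inferInstance, Empty.elim,
    fun i => i.elim, fun i => i.elim, fun i => i.elim, fun i => i.elim, fun i => i.elim,
    fun i => i.elim, fun i => i.elim, fun i => i.elim, fun m q => ⟨fun i => i.1.elim,
      fun i => i.1.elim⟩, hE _ _⟩, ⟨Empty, inferInstance, Empty.elim, fun i => i.elim, Or.inl hU,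
      hE _ _⟩, ⟨?_⟩⟩
  exact { toFun := fun _ => ((), ()), invFun := fun _ => 1,
          left_inv := fun x => Subsingleton.elim _ _, right_inv := fun _ => rfl,
          map_mul' := fun _ _ => rfl }

theorem cls {d : ℕ} {l : ℕ} {G : Type} {inst : Group G} (h : AltSeries l G inst) :
    Finite G → (∃ T : Finset G, T.card ≤ d ∧ Subgroup.closure (T : Set G) = ⊤) →
      Cls d 0 0 l G inst := by
  classical
  induction h with
  | triv l G inst h => exact fun _ _ => Cls.layer l G inst (layer_triv d 0 0 G)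
  | step l G inst N hN h₁ h₂ ih =>
    intro hG hd
    obtain ⟨ι, hι, n, hn, ⟨e⟩⟩ := h₁
    refine Cls.comp l G inst hG _ (compLayer e hd hn) N hN (eq_sSup e) (ih inferInstance ?_)
    exact Pool.Agent.MPfe8e9b.Final3.closure_surj (QuotientGroup.mk' N)
      (QuotientGroup.mk'_surjective N) hd

end AltCor

/-- For all `d` and `l` there are `k` and `ε > 0` such that every finite group `G` generated by `d`
elements, with a normal series of length `l` whose factors are direct products of alternating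
groups of degrees at least five and different from six, has a generating set of at most `k`
elements with the expansion `ε`. -/
theorem altSeries_main (d l : ℕ) : ∃ (k : ℕ) (ε : ℝ), 0 < ε ∧
    ∀ (G : Type) [inst : Group G] [Fintype G] [DecidableEq G],
      (∃ T : Finset G, T.card ≤ d ∧ Subgroup.closure (T : Set G) = ⊤) → AltSeries l G inst →
      ∃ S : Finset G, S.card ≤ k ∧ Subgroup.closure (S : Set G) = ⊤ ∧
        ∀ A : Finset G, 2 * A.card ≤ Fintype.card G →
          (1 + ε) * (A.card : ℝ) ≤ ((A ∪ S * A).card : ℝ) := by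
  obtain ⟨k, ε, hε, h⟩ := cls_main d 0 0 l
  exact ⟨k, ε, hε, fun G inst _ _ hd hs => h G (AltCor.cls hs inferInstance hd)⟩

end Pool.Agent.MPfe8e9bM
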