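import Mathlib
import Pool.Agent.Lib.MP_fe8e9b_al_M.Defs
import Pool.Agent.Lib.MP_fe8e9b_al.Final3
import Pool.Agent.Lib.MP_fe8e9b_al.FamF
import Pool.Agent.Lib.MP_fe8e9b_al.PowF
import Pool.Agent.Lib.MP_fe8e9b_al.BaseF
import Pool.Agent.Lib.MP_fe8e9b_al.Amp
import Pool.Agent.Lib.MP_fe8e9b_al.Comm
import Pool.Agent.Lib.MP_fe8e9b_al.Distinct

/-!
# MP_fe8e9b_al, groups of bounded height: products of groups of Lie type with bounded multiplicities
-/

set_option autoImplicit false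

open scoped BigOperators MatrixGroups Pointwise

namespace Pool.Agent.MPfe8e9bM

open Pool.Agent.MPfe8e9b Pool.Agent.MPfe8e9bA Pool.Agent.MPfe8e9bW Pool.Agent.MPfe8e9bV

theorem liee_part2
    (hfam : ∃ q₀ : ℕ, ∀ e : ℕ, ∃ (k : ℕ) (κ : ℝ), 0 < κ ∧ ∀ (ι : Type) [Fintype ι]
      [DecidableEq ι] (F : ι → Type) [∀ i, Field (F i)] [∀ i, Fintype (F i)]
      [∀ i, DecidableEq (F i)],
      (∀ q : ℕ, (Finset.univ.filter (fun i => Fintype.card (F i) = q)).card ≤ q ^ e) →
      (∀ i, q₀ ≤ Fintype.card (F i)) → Expd (∀ i, SL(2, F i)) k κ)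
    (e L : ℕ) : ∃ (k : ℕ) (κ : ℝ), 0 < κ ∧ ∀ (ι : Type) [Fintype ι]
    (F : ι → Type) [∀ i, Field (F i)] [∀ i, Fintype (F i)] (S : ι → Type) [∀ i, Group (S i)]
    [∀ i, Nontrivial (S i)], (∀ i, SL2Product L (F i) (S i)) →
    (∀ q : ℕ, Fintype.card {i // Fintype.card (F i) = q} ≤ q ^ e) →
    FExpd (∀ i, S i) k κ := by
  classical
  obtain ⟨q₀, hq₀⟩ := hfam
  obtain ⟨k₁, κ₁, hκ₁, h₁⟩ := hq₀ e
  obtain ⟨k₂, κ₂, hκ₂, h₂⟩ := expd_images L k₁ κ₁ hκ₁
  set B := (q₀ ^ (4 * L)) ^ (q₀ ^ e * q₀) with hB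
  refine ⟨B + k₂, min 2 κ₂, lt_min two_pos hκ₂, ?_⟩
  intro ι _ F _ _ S _ hnt himg hmult0
  have hfin : ∀ i, Finite (S i) := fun i => (himg i).card_le.1
  let _ : ∀ i, Fintype (S i) := fun i => Fintype.ofFinite _
  have hmult : ∀ q : ℕ, (Finset.univ.filter (fun i => Fintype.card (F i) = q)).card ≤ q ^ e := by
    intro q
    rw [← Fintype.card_subtype]
    exact hmult0 q
  -- small fields
  have hsmall : FExpd (∀ i : {i // Fintype.card (F i) < q₀}, S i.1) B 2 := by
    have h3 : (Finset.univ.filter (fun i => Fintype.card (F i) < q₀)).card ≤ q₀ ^ e * q₀ := by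
      have h4 := Finset.card_le_mul_card_image_of_maps_to
        (s := Finset.univ.filter (fun i => Fintype.card (F i) < q₀))
        (f := fun i => Fintype.card (F i)) (t := Finset.range q₀) (by
          intro i hi
          exact Finset.mem_range.mpr (Finset.mem_filter.mp hi).2) (q₀ ^ e) (by
          intro q hq
          refine (Finset.card_le_card ?_).trans ((hmult q).trans
            (Nat.pow_le_pow_left (Finset.mem_range.mp hq).le e))
          intro i hi
          exact Finset.mem_filter.mpr ⟨Finset.mem_univ _, (Finset.mem_filter.mp hi).2⟩)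
      rwa [Finset.card_range] at h4
    let inst : Fintype (∀ i : {i // Fintype.card (F i) < q₀}, S i.1) := Fintype.ofFinite _
    refine ⟨inst, expd_card ?_⟩
    rw [← Nat.card_eq_fintype_card, Nat.card_pi]
    calc ∏ i : {i // Fintype.card (F i) < q₀}, Nat.card (S i.1)
        ≤ ∏ _i : {i // Fintype.card (F i) < q₀}, q₀ ^ (4 * L) := by
          refine Finset.prod_le_prod' fun i _ => ?_
          exact (himg i.1).card_le.2.trans (Nat.pow_le_pow_left i.2.le _)
      _ = (q₀ ^ (4 * L)) ^ (Finset.univ.filter (fun i => Fintype.card (F i) < q₀)).card := by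
          rw [Finset.prod_const, Finset.card_univ, Fintype.card_subtype]
      _ ≤ B := by
          rcases Nat.eq_zero_or_pos q₀ with h0 | h0
          · rw [hB]
            subst h0
            simp
          · exact Nat.pow_le_pow_right (pow_pos h0 _) h3
  -- large fields
  have hlarge : FExpd (∀ i : {i // q₀ ≤ Fintype.card (F i)}, S i.1) k₂ κ₂ := by
    have h3 := h₁ {i // q₀ ≤ Fintype.card (F i)} (fun i => F i.1) (by
      intro q
      refine le_trans (Finset.card_le_card_of_injOn (fun i => i.1) ?_ ?_) (hmult q)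
      · intro i hi
        have hi' : Fintype.card (F i.1) = q := by simpa using hi
        simpa using hi'
      · intro i _ j _ hij
        exact Subtype.ext hij) (fun i => i.2)
    exact (h₂ {i // q₀ ≤ Fintype.card (F i)} (fun i => SL(2, F i.1)) (fun i => S i.1)
      (fun i => himg i.1) h3).fexpd
  have hun := FExpd.union S (fun i => Fintype.card (F i) < q₀)
    (fun i => q₀ ≤ Fintype.card (F i)) (lt_min two_pos hκ₂).le
    (hsmall.mono le_rfl (min_le_left _ _)) (hlarge.mono le_rfl (min_le_right _ _))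
  have hall : ∀ i, Fintype.card (F i) < q₀ ∨ q₀ ≤ Fintype.card (F i) := fun i => lt_or_ge _ _
  let π : (∀ i : {i // Fintype.card (F i) < q₀ ∨ q₀ ≤ Fintype.card (F i)}, S i.1) →*
      (∀ i, S i) :=
    { toFun := fun z i => z ⟨i, hall i⟩
      map_one' := rfl
      map_mul' := fun _ _ => rfl }
  exact FExpd.surj π (fun z => ⟨fun i => z i.1, rfl⟩) hun

theorem liee_part3 (A L : ℕ) : ∃ (k : ℕ) (κ : ℝ), 0 < κ ∧ ∀ (ι : Type) [Fintype ι] (n : ι → ℕ)
    (F : ι → Type) [∀ i, Field (F i)] [∀ i, Fintype (F i)] (S : ι → Type) [∀ i, Group (S i)]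
    [∀ i, Nontrivial (S i)], (∀ i, 3 ≤ n i) → (∀ i, SLProduct L (n i) (F i) (S i)) →
    (∀ m q : ℕ, Fintype.card {i // n i = m ∧ Fintype.card (F i) = q} ≤ q ^ (A * m ^ 2)) →
    FExpd (∀ i, S i) k κ := by
  classical
  obtain ⟨k₁, h₁⟩ := ring_gen (25 * A + 2)
  obtain ⟨K₂, κ₂, hκ₂, h₂⟩ := expd_el3 k₁
  obtain ⟨L₃, hL₃⟩ := sl3_images
  obtain ⟨k₄, κ₄, hκ₄, h₄⟩ := expd_images (L * L₃) K₂ κ₂ hκ₂
  refine ⟨k₄, κ₄, hκ₄, ?_⟩
  intro ι _ n F _ _ S _ _ hn hS hA
  have hring := h₁ ι (fun i => n i / 3) F (fun i => by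
      have := hn i
      show 1 ≤ n i / 3
      omega)
    (fun m q => Final3.mult_third n F A hA hn m q)
  have hex := h₂ ι (fun i => n i / 3) F hring
  have hfin : ∀ i, Finite (S i) := fun i => (Final3.SLProduct.card_le (hS i)).1
  let _ : ∀ i, Fintype (S i) := fun i => Fintype.ofFinite _
  let _ : ∀ i, Fintype (Matrix.SpecialLinearGroup (Fin 3 × Fin (n i / 3)) (F i)) :=
    fun i => Fintype.ofFinite _
  exact (h₄ ι (fun i => Matrix.SpecialLinearGroup (Fin 3 × Fin (n i / 3)) (F i)) S (fun i => by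
    obtain ⟨φ, hφ⟩ := Sl3Images.comp (hL₃ (n i) (hn i) (F i)) (Final3.SLProduct.imgSet (hS i))
    exact ⟨φ, fun g => hφ g (Set.mem_univ g)⟩) hex.expd).fexpd

/-- Products of groups of Lie type with bounded multiplicities.

Proof. Copy the proofs of `part3` and `lie_expd` (file MP_fe8e9b_al/Final3) and of `good_expd` (file
MP_fe8e9b_al/FinalG): generation by `d` elements and the colours are used there only to get the
multiplicity bounds `mult_nq` and `mult_family`, which are now given by the hypothesis (`n ≥ 3`: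
`h`, `mult_third` with `A`; `n = 2`: multiplicity of the fields of order `q` at most
`q ^ (A * 4)`). `hfam` of these theorems is
`expd_familyF (expd_powF (fun hS A B => angle_amp hS (comm_bound hS) A B) expd_distinct
expd_baseF)` as in the file Results/MP_fe8e9b_al/LieAlternatingTowers.lean. -/
theorem lie_mult (A L : ℕ) : ∃ (k : ℕ) (κ : ℝ), 0 < κ ∧ ∀ (ι : Type) [Fintype ι] (n : ι → ℕ)
    (F : ι → Type) [∀ i, Field (F i)] [∀ i, Fintype (F i)] (S : ι → Type) [∀ i, Group (S i)]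
    [∀ i, Nontrivial (S i)], (∀ i, 2 ≤ n i) → (∀ i, SLProduct L (n i) (F i) (S i)) →
    (∀ m q : ℕ, Fintype.card {i // n i = m ∧ Fintype.card (F i) = q} ≤ q ^ (A * m ^ 2)) →
    FExpd (∀ i, S i) k κ := by
  classical
  obtain ⟨k₂, κ₂, hκ₂, h₂⟩ := liee_part2 (expd_familyF (expd_powF
    (fun hS A B => angle_amp hS (comm_bound hS) A B) expd_distinct expd_baseF)) (A * 2 ^ 2) L
  obtain ⟨k₃, κ₃, hκ₃, h₃⟩ := liee_part3 A L
  refine ⟨k₂ + k₃, min κ₂ κ₃, lt_min hκ₂ hκ₃, ?_⟩
  intro ι _ n F _ _ S _ hnt hn hprod hmult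
  -- n = 2
  have e2 : FExpd (∀ i : {i // n i = 2}, S i.1) k₂ κ₂ := by
    have hnt' : ∀ i : {i // n i = 2}, Nontrivial (S i.1) := fun i => hnt i.1
    refine h₂ {i // n i = 2} (fun i => F i.1) (fun i => S i.1)
      (fun i => Final3.sl2_of_eq i.2 (hprod i.1)) fun q => ?_
    refine le_trans ?_ (hmult 2 q)
    exact Fintype.card_le_of_injective
      (fun i : {i : {i // n i = 2} // Fintype.card (F i.1) = q} =>
        (⟨i.1.1, i.1.2, i.2⟩ : {i // n i = 2 ∧ Fintype.card (F i) = q}))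
      fun i j hij => Subtype.ext (Subtype.ext (congrArg (fun z => z.1) hij))
  -- n ≥ 3
  have e3 : FExpd (∀ i : {i // 3 ≤ n i}, S i.1) k₃ κ₃ := by
    have hnt' : ∀ i : {i // 3 ≤ n i}, Nontrivial (S i.1) := fun i => hnt i.1
    refine h₃ {i // 3 ≤ n i} (fun i => n i.1) (fun i => F i.1) (fun i => S i.1)
      (fun i => i.2) (fun i => hprod i.1) fun m q => ?_
    refine le_trans ?_ (hmult m q)
    exact Fintype.card_le_of_injective
      (fun i : {i : {i // 3 ≤ n i} // n i.1 = m ∧ Fintype.card (F i.1) = q} =>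
        (⟨i.1.1, i.2⟩ : {i // n i = m ∧ Fintype.card (F i) = q}))
      fun i j hij => Subtype.ext (Subtype.ext (congrArg (fun z => z.1) hij))
  have hun := FExpd.union S (fun i => n i = 2) (fun i => 3 ≤ n i) (lt_min hκ₂ hκ₃).le
    (e2.mono le_rfl (min_le_left _ _)) (e3.mono le_rfl (min_le_right _ _))
  have hall : ∀ i, n i = 2 ∨ 3 ≤ n i := fun i => by
    have := hn i
    omega
  let π : (∀ i : {i // n i = 2 ∨ 3 ≤ n i}, S i.1) →* (∀ i, S i) :=
    { toFun := fun z i => z ⟨i, hall i⟩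
      map_one' := rfl
      map_mul' := fun _ _ => rfl }
  exact FExpd.surj π (fun z => ⟨fun i => z i.1, rfl⟩) hun

end Pool.Agent.MPfe8e9bM
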