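import Mathlib
import Pool.Agent.Lib.MP_fe8e9b_al_M.Defs
import Pool.Agent.Lib.MP_fe8e9b_al_M.MnF
import Pool.Agent.Lib.MP_fe8e9b_al_M.LieE
import Pool.Agent.Lib.MP_fe8e9b_al_A.FinA

/-!
# MP_fe8e9b_al, groups of bounded height: the group of the labels is an expander
-/

set_option autoImplicit false

open scoped BigOperators

namespace Pool.Agent.MPfe8e9bM

open Pool.Agent.MPfe8e9b Pool.Agent.MPfe8e9bA Pool.Agent.MPfe8e9bW Pool.Agent.MPfe8e9bV

/-- Currying of a product, with isomorphisms of the factors. -/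
theorem kex_curry {K : Type} (N : K → ℕ) (T : K → Type) [∀ k, Group (T k)] (S : K → Type)
    [∀ k, Group (S k)] (e : ∀ k, T k ≃* S k) :
    Nonempty ((∀ k, Fin (N k) → T k) ≃* (∀ p : (Σ k, Fin (N k)), S p.1)) :=
  ⟨{ toFun := fun z p => e p.1 (z p.1 p.2)
     invFun := fun w k x => (e k).symm (w ⟨k, x⟩)
     left_inv := fun z => by
       funext k x
       exact (e k).symm_apply_apply _
     right_inv := fun w => by
       funext p
       exact (e p.1).apply_symm_apply _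
     map_mul' := fun a b => by
       funext p
       exact map_mul (e p.1) _ _ }⟩

/-- The alternating part.

Proof. `alt_expd` for `AltProduct e'` with index set `Σ k, Fin (64 * (card (T k) ^ e) ^ 2)`: for
`m ≥ 5` at most one `k` has degree `m` (`hinj`), so the multiplicity of `m` is at most
`64 * (m ! ^ e) ^ 2 ≤ (m !) ^ (2 * e + 1)` (`m ! ≥ 120`). Currying of the product:
`(∀ k, Fin _ → T k) ≃* ∀ p : Σ k, Fin _, T p.1`. `FExpd.surj` for the isomorphisms. -/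
theorem kex_alt (e : ℕ) : ∃ (k : ℕ) (κ : ℝ), 0 < κ ∧ ∀ (K : Type) [Finite K] (T : K → Type)
    [∀ k, Group (T k)] (n : K → ℕ), Function.Injective n → (∀ k, 5 ≤ n k) →
    (∀ k, Nonempty (T k ≃* alternatingGroup (Fin (n k)))) →
    FExpd (∀ k, Fin (64 * (Nat.card (T k) ^ e) ^ 2) → T k) k κ := by
  obtain ⟨k, κ, hκ, h⟩ := alt_expd (2 * e + 1)
  refine ⟨k, κ, hκ, fun K _ T _ n hn h5 hT => h _ ?_⟩
  have : Fintype K := Fintype.ofFinite K
  refine ⟨Σ k, Fin (64 * (Nat.card (T k) ^ e) ^ 2), inferInstance, fun p => n p.1,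
    fun p => h5 p.1, fun m => ?_, kex_curry _ T _ fun k => (hT k).some⟩
  by_cases hex : ∃ k₀, n k₀ = m
  · obtain ⟨k₀, rfl⟩ := hex
    have hcard : Nat.card (T k₀) ≤ (n k₀).factorial := by
      rw [Nat.card_congr (hT k₀).some.toEquiv]
      refine (Nat.card_le_card_of_injective (fun σ : alternatingGroup (Fin (n k₀)) =>
        (σ : Equiv.Perm (Fin (n k₀)))) Subtype.val_injective).trans (le_of_eq ?_)
      rw [Nat.card_perm, Nat.card_fin]
    have h64 : 64 ≤ (n k₀).factorial :=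
      le_trans (by decide) (Nat.factorial_le (h5 k₀))
    refine (Nat.card_le_card_of_injective
      (fun i : {i : (Σ k, Fin (64 * (Nat.card (T k) ^ e) ^ 2)) // n i.1 = n k₀} =>
        (⟨i.1.2.1, lt_of_lt_of_eq i.1.2.2 (by rw [hn i.2])⟩ :
          Fin (64 * (Nat.card (T k₀) ^ e) ^ 2))) ?_).trans ?_
    · rintro ⟨⟨k, x⟩, hk⟩ ⟨⟨k', x'⟩, hk'⟩ hxx
      have hk1 : k = k₀ := hn hk
      have hk2 : k' = k₀ := hn hk'
      subst hk1
      subst hk2
      have h1 : x.1 = x'.1 := congrArg Fin.val hxx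
      have h2 : x = x' := Fin.ext h1
      rw [h2]
    · rw [Nat.card_fin]
      calc 64 * (Nat.card (T k₀) ^ e) ^ 2
          ≤ (n k₀).factorial * ((n k₀).factorial ^ e) ^ 2 :=
            Nat.mul_le_mul h64 (Nat.pow_le_pow_left (Nat.pow_le_pow_left hcard _) _)
        _ = (n k₀).factorial ^ (2 * e + 1) := by ring
  · have : IsEmpty {i : (Σ k, Fin (64 * (Nat.card (T k) ^ e) ^ 2)) // n i.1 = m} :=
      ⟨fun i => hex ⟨i.1.1, i.2⟩⟩
    rw [Nat.card_of_isEmpty]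
    exact Nat.zero_le _

/-- The part of Lie type.

Proof. `lie_mult A L` with `A = C + 2 * e * L + 6`, index set
`Σ k, Fin (64 * (card (T k) ^ e) ^ 2)`: `card (T k) ≤ q ^ (m ^ 2 * L)` (`SLProduct.card_le`), so the
number of indices over one `k` is at most `64 * q ^ (2 * e * L * m ^ 2) ≤
q ^ ((2 * e * L + 6) * m ^ 2)` (`q ≥ 2`, `64 = 2 ^ 6`), and the number of `k` with given `m`, `q` is
at most `q ^ (C * m ^ 2)` (the map `k ↦ c k` is injective on them). -/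
theorem kex_lie (e L C : ℕ) : ∃ (k : ℕ) (κ : ℝ), 0 < κ ∧ ∀ (K : Type) [Finite K]
    (T : K → Type) [∀ k, Group (T k)] (m q c : K → ℕ),
    (∀ k k', m k = m k' → q k = q k' → c k = c k' → k = k') → (∀ k, Nontrivial (T k)) →
    (∀ k, 2 ≤ m k ∧ c k < q k ^ (C * m k ^ 2) ∧ ∃ (F : Type) (_ : Field F) (_ : Fintype F),
      Fintype.card F = q k ∧ SLProduct L (m k) F (T k)) →
    FExpd (∀ k, Fin (64 * (Nat.card (T k) ^ e) ^ 2) → T k) k κ := by
  obtain ⟨k, κ, hκ, h⟩ := lie_mult (C + 2 * e * L + 6) L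
  refine ⟨k, κ, hκ, fun K _ T _ m q c hinj hnt hdat => ?_⟩
  have : Fintype K := Fintype.ofFinite K
  choose h2 hc F iF iFt hq hS using hdat
  have hntS : ∀ p : (Σ k, Fin (64 * (Nat.card (T k) ^ e) ^ 2)), Nontrivial (T p.1) :=
    fun p => hnt p.1
  have h1 := h (Σ k, Fin (64 * (Nat.card (T k) ^ e) ^ 2)) (fun p => m p.1) (fun p => F p.1)
    (fun p => T p.1) (fun p => h2 p.1) (fun p => hS p.1) ?_
  · obtain ⟨f⟩ := kex_curry (fun k => 64 * (Nat.card (T k) ^ e) ^ 2) T T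
      fun k => MulEquiv.refl (T k)
    exact FExpd.surj f.symm.toMonoidHom f.symm.surjective h1
  intro m₀ q₀
  rw [← Nat.card_eq_fintype_card]
  rcases isEmpty_or_nonempty {i : (Σ k, Fin (64 * (Nat.card (T k) ^ e) ^ 2)) //
    m i.1 = m₀ ∧ Fintype.card (F i.1) = q₀} with he | ⟨⟨i₀, hi₀⟩⟩
  · rw [Nat.card_of_isEmpty]
    exact Nat.zero_le _
  have hm₀ : 2 ≤ m₀ := hi₀.1 ▸ h2 i₀.1
  have hq₀ : 2 ≤ q₀ := by
    rw [← hi₀.2]
    exact Fintype.one_lt_card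
  have hb1 : ∀ i : {i : (Σ k, Fin (64 * (Nat.card (T k) ^ e) ^ 2)) //
      m i.1 = m₀ ∧ Fintype.card (F i.1) = q₀}, c i.1.1 < q₀ ^ (C * m₀ ^ 2) := by
    rintro ⟨i, hi1, hi2⟩
    have h3 := hc i.1
    rw [hi1, ← hq, hi2] at h3
    exact h3
  have hb2 : ∀ i : {i : (Σ k, Fin (64 * (Nat.card (T k) ^ e) ^ 2)) //
      m i.1 = m₀ ∧ Fintype.card (F i.1) = q₀},
      i.1.2.1 < 64 * q₀ ^ (2 * e * L * m₀ ^ 2) := by
    rintro ⟨i, hi1, hi2⟩
    refine lt_of_lt_of_le i.2.2 (Nat.mul_le_mul_left _ ?_)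
    have h3 := (Final3.SLProduct.card_le (hS i.1)).2
    rw [hi1, hi2] at h3
    calc (Nat.card (T i.1) ^ e) ^ 2 ≤ ((q₀ ^ (m₀ ^ 2 * L)) ^ e) ^ 2 :=
          Nat.pow_le_pow_left (Nat.pow_le_pow_left h3 _) _
      _ = q₀ ^ (2 * e * L * m₀ ^ 2) := by
          rw [← pow_mul, ← pow_mul]
          congr 1
          ring
  refine (Nat.card_le_card_of_injective
    (fun i : {i : (Σ k, Fin (64 * (Nat.card (T k) ^ e) ^ 2)) //
      m i.1 = m₀ ∧ Fintype.card (F i.1) = q₀} =>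
      ((⟨c i.1.1, hb1 i⟩ : Fin (q₀ ^ (C * m₀ ^ 2))),
        (⟨i.1.2.1, hb2 i⟩ : Fin (64 * q₀ ^ (2 * e * L * m₀ ^ 2))))) ?_).trans ?_
  · rintro ⟨⟨k, x⟩, hk1, hk2⟩ ⟨⟨k', x'⟩, hk1', hk2'⟩ hxx
    have h3 : c k = c k' := congrArg Fin.val (congrArg Prod.fst hxx)
    have h4 : x.1 = x'.1 := congrArg Fin.val (congrArg Prod.snd hxx)
    have h5 : k = k' := hinj k k' (hk1.trans hk1'.symm)
      (by rw [← hq, ← hq]; exact hk2.trans hk2'.symm) h3
    subst h5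
    have h6 : x = x' := Fin.ext h4
    subst h6
    rfl
  · rw [Nat.card_prod, Nat.card_fin, Nat.card_fin]
    have h64 : 64 ≤ q₀ ^ (6 * m₀ ^ 2) := by
      calc 64 = 2 ^ 6 := by norm_num
        _ ≤ q₀ ^ 6 := Nat.pow_le_pow_left hq₀ 6
        _ ≤ q₀ ^ (6 * m₀ ^ 2) := Nat.pow_le_pow_right (by omega)
            (Nat.le_mul_of_pos_right _ (by positivity))
    calc q₀ ^ (C * m₀ ^ 2) * (64 * q₀ ^ (2 * e * L * m₀ ^ 2))
        ≤ q₀ ^ (C * m₀ ^ 2) * (q₀ ^ (6 * m₀ ^ 2) * q₀ ^ (2 * e * L * m₀ ^ 2)) :=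
          Nat.mul_le_mul_left _ (Nat.mul_le_mul_right _ h64)
      _ = q₀ ^ ((C + 2 * e * L + 6) * m₀ ^ 2) := by
          rw [← pow_add, ← pow_add]
          congr 1
          ring

/-- The group of the labels.

Proof. `FExpd.union` for the two parts (types with `key k = Sum.inl n` and types with
`key k = Sum.inr (m, q, c)`), `kex_alt`, `kex_lie`, `FExpd.mono`, `FExpd.surj`. -/
theorem kex (e L C : ℕ) : ∃ (k : ℕ) (κ : ℝ), 0 < κ ∧ ∀ (K : Type) [Finite K] (T : K → Type)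
    [∀ k, Group (T k)] (key : K → ℕ ⊕ (ℕ × ℕ × ℕ)), Function.Injective key →
    (∀ k, Nontrivial (T k)) →
    (∀ k, (∃ n, key k = Sum.inl n ∧ 5 ≤ n ∧ Nonempty (T k ≃* alternatingGroup (Fin n))) ∨
      ∃ m q c, key k = Sum.inr (m, q, c) ∧ 2 ≤ m ∧ c < q ^ (C * m ^ 2) ∧
        ∃ (F : Type) (_ : Field F) (_ : Fintype F), Fintype.card F = q ∧
          SLProduct L m F (T k)) →
    FExpd (∀ k, Fin (64 * (Nat.card (T k) ^ e) ^ 2) → T k) k κ := by
  obtain ⟨k₁, κ₁, hκ₁, h₁⟩ := kex_alt e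
  obtain ⟨k₂, κ₂, hκ₂, h₂⟩ := kex_lie e L C
  refine ⟨k₁ + k₂, min κ₁ κ₂, lt_min hκ₁ hκ₂, fun K _ T _ key hkey hnt hdat => ?_⟩
  have g1 : FExpd (∀ k : {k // ∃ n, key k = Sum.inl n},
      Fin (64 * (Nat.card (T k.1) ^ e) ^ 2) → T k.1) k₁ κ₁ := by
    choose n hn using fun k : {k // ∃ n, key k = Sum.inl n} => k.2
    have hd : ∀ k, 5 ≤ n k ∧ Nonempty (T k.1 ≃* alternatingGroup (Fin (n k))) := by
      intro k
      rcases hdat k.1 with ⟨n', h3, h4, h5⟩ | ⟨m, q, c, h3, -⟩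
      · rw [hn k] at h3
        have h6 := Sum.inl_injective h3
        rw [h6]
        exact ⟨h4, h5⟩
      · rw [hn k] at h3
        exact absurd h3 Sum.inl_ne_inr
    refine h₁ {k // ∃ n, key k = Sum.inl n} (fun k => T k.1) n (fun k k' hkk => ?_)
      (fun k => (hd k).1) fun k => (hd k).2
    refine Subtype.ext (hkey ?_)
    rw [hn k, hn k', hkk]
  have g2 : FExpd (∀ k : {k // ∃ t, key k = Sum.inr t},
      Fin (64 * (Nat.card (T k.1) ^ e) ^ 2) → T k.1) k₂ κ₂ := by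
    choose t ht using fun k : {k // ∃ t, key k = Sum.inr t} => k.2
    refine h₂ {k // ∃ t, key k = Sum.inr t} (fun k => T k.1) (fun k => (t k).1)
      (fun k => (t k).2.1) (fun k => (t k).2.2) (fun k k' h3 h4 h5 => ?_) (fun k => hnt k.1)
      fun k => ?_
    · refine Subtype.ext (hkey ?_)
      rw [ht k, ht k']
      exact congrArg Sum.inr (Prod.ext h3 (Prod.ext h4 h5))
    · rcases hdat k.1 with ⟨n', h3, -⟩ | ⟨m, q, c, h3, h4, h5, h6⟩
      · rw [ht k] at h3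
        exact absurd h3 Sum.inr_ne_inl
      · rw [ht k] at h3
        have h7 := Sum.inr_injective h3
        rw [h7]
        exact ⟨h4, h5, h6⟩
  have g3 := FExpd.union (fun k => Fin (64 * (Nat.card (T k) ^ e) ^ 2) → T k)
    (fun k => ∃ n, key k = Sum.inl n) (fun k => ∃ t, key k = Sum.inr t)
    (lt_min hκ₁ hκ₂).le (g1.mono le_rfl (min_le_left _ _)) (g2.mono le_rfl (min_le_right _ _))
  have hall : ∀ k, (∃ n, key k = Sum.inl n) ∨ ∃ t, key k = Sum.inr t := by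
    intro k
    rcases h3 : key k with n | t
    · exact Or.inl ⟨n, rfl⟩
    · exact Or.inr ⟨t, rfl⟩
  let ψ : (∀ i : {k // (∃ n, key k = Sum.inl n) ∨ ∃ t, key k = Sum.inr t},
      Fin (64 * (Nat.card (T i.1) ^ e) ^ 2) → T i.1) →*
      (∀ k, Fin (64 * (Nat.card (T k) ^ e) ^ 2) → T k) :=
    MonoidHom.mk' (fun z k => z ⟨k, hall k⟩) (fun _ _ => rfl)
  exact FExpd.surj ψ (fun z => ⟨fun i => z i.1, rfl⟩) g3

end Pool.Agent.MPfe8e9bM
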